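import Mathlib

/-!
Definitions for MP_fb73a4_co (helper20). Planar graphs without 4-, 5-, 6-cycles and without 7-cycles
adjacent to triangles are 3-choosable if (k = 11) no two triangles have a common vertex, or (k = 12) no
8-cycle has two edges in triangles.
Edge vectors are functions from unordered pairs to the field with two elements.
-/

set_option autoImplicit false

namespace Pool.Agent.W_fb73a4_h20

open Finset
open scoped Classical

/-- vectors over F_2 indexed by unordered pairs of vertices (edge sets, added modulo 2) -/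
abbrev EV (V : Type) := Sym2 V → ZMod 2

/-- parity of the degree of the vertex `v` in the edge vector `z` -/
noncomputable def dg {V : Type} [Fintype V] (z : EV V) (v : V) : ZMod 2 := ∑ u, z s(v, u)

/-- `z` lies in the cycle space of `G`: it is an edge set of `G` in which every vertex has even degree -/
def IsCyc {V : Type} [Fintype V] (G : SimpleGraph V) (z : EV V) : Prop :=
  (∀ e, e ∉ G.edgeSet → z e = 0) ∧ ∀ v, dg z v = 0

/-- MacLane's planarity criterion: the cycle space of `G` is generated by a family of its elements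
in which every edge occurs at most twice. -/
def MacLane {V : Type} [Fintype V] (G : SimpleGraph V) : Prop :=
  ∃ (n : ℕ) (B : Fin n → EV V), (∀ i, IsCyc G (B i)) ∧
    (∀ e, (univ.filter (fun i => B i e ≠ 0)).card ≤ 2) ∧
    ∀ z, IsCyc G z → ∃ S : Finset (Fin n), z = ∑ i ∈ S, B i

/-- `x 0, x 1, ..., x (n-1)` is a cycle of length `n` of `G` -/
structure IsCycSeq {V : Type} (G : SimpleGraph V) {n : ℕ} (x : ZMod n → V) : Prop where
  three : 3 ≤ n
  inj : Function.Injective x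
  adj : ∀ j, G.Adj (x j) (x (j + 1))

/-- edge vector of a closed sequence -/
noncomputable def cvec {V : Type} {n : ℕ} (x : ZMod n → V) : EV V :=
  fun e => if ∃ j, s(x j, x (j + 1)) = e then 1 else 0

/-- `y 0, ..., y n` is a path of length `n` of `G` -/
structure IsPathN {V : Type} (G : SimpleGraph V) (n : ℕ) (y : ℕ → V) : Prop where
  adj : ∀ i, i < n → G.Adj (y i) (y (i + 1))
  inj : ∀ i j, i ≤ n → j ≤ n → y i = y j → i = j

/-- the classes of graphs of the theorems, `k = 11` and `k = 12`: MacLane-planar, no cycles of length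
4, 5, 6, no 7-cycle has an edge in a triangle; `k = 11`: no two triangles with a common vertex;
`k = 12`: no 8-cycle has two edges in triangles. -/
structure Cls {V : Type} [Fintype V] (k : ℕ) (G : SimpleGraph V) : Prop where
  hk : k = 11 ∨ k = 12
  pl : MacLane G
  no456 : ∀ (n : ℕ) (x : ZMod n → V), IsCycSeq G x → n ≠ 4 ∧ n ≠ 5 ∧ n ≠ 6
  no73 : ∀ (x : ZMod 7 → V), IsCycSeq G x → ∀ j t, G.Adj (x j) t → G.Adj (x (j + 1)) t → False
  tri : k = 11 → ∀ a b c b' c', G.Adj a b → G.Adj b c → G.Adj a c → G.Adj a b' → G.Adj b' c' →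
    G.Adj a c' → s(b, c) = s(b', c')
  no8 : k = 12 → ∀ (x : ZMod 8 → V), IsCycSeq G x → ∀ i j t t', i ≠ j →
    G.Adj (x i) t → G.Adj (x (i + 1)) t → G.Adj (x j) t' → G.Adj (x (j + 1)) t' → False

/-- correspondence colouring with 3 colours, transitive on triangles -/
structure Cover {V : Type} (G : SimpleGraph V) where
  C : V → V → Fin 3 → Fin 3 → Prop
  symm : ∀ u v a b, C u v a b → C v u b a
  adj : ∀ u v a b, C u v a b → G.Adj u v
  mat : ∀ u v a b b', C u v a b → C u v a b' → b = b'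
  tri : ∀ u v w a b c, G.Adj u w → C u v a b → C v w b c → C u w a c

/-- `φ` is a proper colouring for the cover `F` -/
def Proper {V : Type} {G : SimpleGraph V} (F : Cover G) (φ : V → Fin 3) : Prop :=
  ∀ u v, ¬ F.C u v (φ u) (φ v)

/-- `φ` is proper on the set `S` -/
def ProperOn {V : Type} {G : SimpleGraph V} (F : Cover G) (S : Set V) (φ : V → Fin 3) : Prop :=
  ∀ u ∈ S, ∀ v ∈ S, ¬ F.C u v (φ u) (φ v)

/-- extension from cycles of length at most `k`, graphs with at most `n` edges -/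
def Star (k : ℕ) (V : Type) [Fintype V] (n : ℕ) : Prop :=
  ∀ (G : SimpleGraph V) (F : Cover G), Cls k G → G.edgeSet.ncard ≤ n →
    ∀ (m : ℕ) (x : ZMod m → V), m ≤ k → IsCycSeq G x →
      ∀ φ : V → Fin 3, ProperOn F (Set.range x) φ →
        ∃ ψ : V → Fin 3, Proper F ψ ∧ ∀ v ∈ Set.range x, ψ v = φ v

/-- extension from one vertex, graphs with at most `n` edges -/
def StarV (k : ℕ) (V : Type) [Fintype V] (n : ℕ) : Prop :=
  ∀ (G : SimpleGraph V) (F : Cover G), Cls k G → G.edgeSet.ncard ≤ n →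
    ∀ (v : V) (a : Fin 3), ∃ ψ : V → Fin 3, Proper F ψ ∧ ψ v = a

/-- number of neighbours -/
noncomputable def dgr {V : Type} (G : SimpleGraph V) (v : V) : ℕ := (G.neighborSet v).ncard

/-- no partition of the edges into two non-empty parts with at most one common vertex -/
def SepFree {V : Type} (G : SimpleGraph V) : Prop :=
  ∀ E1 : Set (Sym2 V), (∃ e ∈ G.edgeSet, e ∈ E1) → (∃ e ∈ G.edgeSet, e ∉ E1) →
    ∃ v w : V, v ≠ w ∧
      (∃ u, G.Adj v u ∧ s(v, u) ∈ E1) ∧ (∃ u, G.Adj v u ∧ s(v, u) ∉ E1) ∧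
      (∃ u, G.Adj w u ∧ s(w, u) ∈ E1) ∧ (∃ u, G.Adj w u ∧ s(w, u) ∉ E1)

/-- a system of faces: every edge lies in exactly two faces, the faces generate the cycle space -/
structure FaceSys {V : Type} [Fintype V] (G : SimpleGraph V) (ι : Type) [Fintype ι] (F : ι → EV V) :
    Prop where
  cyc : ∀ i, IsCyc G (F i)
  ne : ∀ i, F i ≠ 0
  two : ∀ e ∈ G.edgeSet, (univ.filter (fun i => F i e ≠ 0)).card = 2
  gen : ∀ z, IsCyc G z → ∃ S : Finset ι, z = ∑ i ∈ S, F i

/-- the vertex `v` lies on the face (vector) `z` -/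
def On {V : Type} (z : EV V) (v : V) : Prop := ∃ u, z s(v, u) ≠ 0

/-- the situation in a minimal counterexample, common part. `Sp` is the precoloured set, `i0` the
outer face. `short`: no vertex strictly inside a cycle of length at most `k`. -/
structure Ctx {V : Type} [Fintype V] (k : ℕ) (G : SimpleGraph V) (ι : Type) [Fintype ι]
    (F : ι → EV V) (i0 : ι) (Sp : Set V) : Prop where
  cls : Cls k G
  sep : SepFree G
  fs : FaceSys G ι F
  two_edges : ∃ e ∈ G.edgeSet, ∃ e' ∈ G.edgeSet, e ≠ e'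
  on0 : ∀ v ∈ Sp, On (F i0) v
  deg3 : ∀ v, v ∉ Sp → (∃ w, G.Adj v w) → 3 ≤ dgr G v
  short : ∀ (m : ℕ) (x : ZMod m → V), m ≤ k → IsCycSeq G x → (∃ j, x j ∉ Sp) →
    ∀ S : Finset ι, i0 ∉ S → cvec x = ∑ i ∈ S, F i →
      ∀ u, u ∉ Set.range x → ∀ i ∈ S, ¬ On (F i) u

/-- identification of `q` into `p` -/
def ident {V : Type} (G : SimpleGraph V) (p q : V) : SimpleGraph V where
  Adj u v := u ≠ v ∧ u ≠ q ∧ v ≠ q ∧ (G.Adj u v ∨ (u = p ∧ G.Adj q v) ∨ (v = p ∧ G.Adj u q))
  symm := ⟨by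
    intro u v h
    obtain ⟨h1, h2, h3, h4⟩ := h
    refine ⟨h1.symm, h3, h2, ?_⟩
    rcases h4 with h4 | ⟨h4, h5⟩ | ⟨h4, h5⟩
    · exact Or.inl h4.symm
    · exact Or.inr (Or.inr ⟨h4, h5.symm⟩)
    · exact Or.inr (Or.inl ⟨h4, h5.symm⟩)⟩
  loopless := ⟨fun _ h => h.1 rfl⟩

/-- deletion of the vertices of `X` (they become isolated) -/
def del {V : Type} (G : SimpleGraph V) (X : Set V) : SimpleGraph V where
  Adj u v := G.Adj u v ∧ u ∉ X ∧ v ∉ X
  symm := ⟨fun _ _ h => ⟨h.1.symm, h.2.2, h.2.1⟩⟩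
  loopless := ⟨fun v h => G.loopless.irrefl v h.1⟩

/-- restriction of a cover to a subgraph -/
def Cover.restrict {V : Type} {G : SimpleGraph V} (F : Cover G) (H : SimpleGraph V) (hH : H ≤ G) :
    Cover H where
  C u v a b := F.C u v a b ∧ H.Adj u v
  symm := fun u v a b h => ⟨F.symm u v a b h.1, h.2.symm⟩
  adj := fun _ _ _ _ h => h.2
  mat := fun u v a b b' h h' => F.mat u v a b b' h.1 h'.1
  tri := fun u v w a b c huw h h' => ⟨F.tri u v w a b c (hH huw) h.1 h'.1, huw⟩

/-- the reducible configuration: four 3-vertices `x1 x2 x3 x4` outside `Sp`, consecutive on a face,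
with triangles `a x1 x2` and `b x3 x4` -/
structure Tetrad {V : Type} (G : SimpleGraph V) {ι : Type} (F : ι → EV V) (Sp : Set V)
    (x1 x2 x3 x4 a b : V) (i : ι) : Prop where
  n12 : x1 ≠ x2
  n13 : x1 ≠ x3
  n14 : x1 ≠ x4
  n23 : x2 ≠ x3
  n24 : x2 ≠ x4
  n34 : x3 ≠ x4
  o1 : x1 ∉ Sp
  o2 : x2 ∉ Sp
  o3 : x3 ∉ Sp
  o4 : x4 ∉ Sp
  d1 : dgr G x1 = 3
  d2 : dgr G x2 = 3
  d3 : dgr G x3 = 3
  d4 : dgr G x4 = 3
  a12 : G.Adj x1 x2
  a23 : G.Adj x2 x3
  a34 : G.Adj x3 x4
  ax1 : G.Adj a x1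
  ax2 : G.Adj a x2
  bx3 : G.Adj b x3
  bx4 : G.Adj b x4
  f12 : F i s(x1, x2) ≠ 0
  f23 : F i s(x2, x3) ≠ 0
  f34 : F i s(x3, x4) ≠ 0

end Pool.Agent.W_fb73a4_h20
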