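import Pool.Agent.W_fb73a4_h20.MZ

/-!
MP_fb73a4_co. Planar graphs without cycles of length 4, 5, 6, without a 7-cycle that has an edge in
a triangle, and without two triangles with a common vertex, are 3-choosable.
-/

set_option autoImplicit false

namespace Pool.Agent.Results.MP_fb73a4_co.DisjointTriangles

open Pool.Agent.W_fb73a4_h20

/-- Let `G` be a finite planar graph (MacLane's criterion) without cycles of length 4, 5, 6, such
that no 7-cycle has an edge which lies in a triangle, and any two triangles with a common vertex are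
equal. Then `G` is 3-choosable. -/
theorem result (V : Type) [Fintype V] (G : SimpleGraph V) (hplanar : MacLane G)
    (h456 : ∀ (v : V) (c : G.Walk v v), c.IsCycle →
      c.length ≠ 4 ∧ c.length ≠ 5 ∧ c.length ≠ 6)
    (h7 : ∀ (v : V) (c : G.Walk v v), c.IsCycle → c.length = 7 →
      ∀ a b t : V, s(a, b) ∈ c.edges → ¬ (G.Adj a t ∧ G.Adj b t))
    (htri : ∀ S T : Finset V, G.IsNClique 3 S → G.IsNClique 3 T → (∃ v, v ∈ S ∧ v ∈ T) → S = T)
    (L : V → Finset ℕ) (hL : ∀ v, 3 ≤ (L v).card) :
    ∃ f : V → ℕ, (∀ v, f v ∈ L v) ∧ ∀ u v, G.Adj u v → f u ≠ f v := by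
  classical
  refine main11 G hplanar h456 (fun v c hc hl a b t hab h1 h2 => h7 v c hc hl a b t hab ⟨h1, h2⟩)
    ?_ L hL
  intro a b c b' c' hab hbc hac hab' hbc' hac'
  have h1 : G.IsNClique 3 {a, b, c} := SimpleGraph.is3Clique_triple_iff.2 ⟨hab, hac, hbc⟩
  have h2 : G.IsNClique 3 {a, b', c'} := SimpleGraph.is3Clique_triple_iff.2 ⟨hab', hac', hbc'⟩
  have h3 := htri _ _ h1 h2 ⟨a, by simp, by simp⟩
  have hb : b ∈ ({a, b', c'} : Finset V) := by rw [← h3]; simp
  have hc : c ∈ ({a, b', c'} : Finset V) := by rw [← h3]; simp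
  simp only [Finset.mem_insert, Finset.mem_singleton] at hb hc
  rw [Sym2.eq_iff]
  rcases hb with hb | hb | hb
  · exact absurd hb.symm hab.ne
  · rcases hc with hc | hc | hc
    · exact absurd hc.symm hac.ne
    · exact absurd (hb.trans hc.symm) hbc.ne
    · exact Or.inl ⟨hb, hc⟩
  · rcases hc with hc | hc | hc
    · exact absurd hc.symm hac.ne
    · exact Or.inr ⟨hb, hc⟩
    · exact absurd (hb.trans hc.symm) hbc.ne

end Pool.Agent.Results.MP_fb73a4_co.DisjointTriangles
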