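import Pool.Agent.W_fb73a4_h20.Defs

set_option autoImplicit false

namespace Pool.Agent.W_fb73a4_h20

open Finset
open scoped Classical

section

/-!
A1: cycle vectors and the cycle space.
-/

variable {V : Type} [Fintype V] {G : SimpleGraph V}

theorem dg_add (z z' : EV V) (v : V) : dg (z + z') v = dg z v + dg z' v := by
  simp [dg, Finset.sum_add_distrib]

theorem dg_zero (v : V) : dg (0 : EV V) v = 0 := by
  simp [dg]

theorem dg_sum {ι : Type} (S : Finset ι) (F : ι → EV V) (v : V) :
    dg (∑ i ∈ S, F i) v = ∑ i ∈ S, dg (F i) v := by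
  simp only [dg, Finset.sum_apply]
  exact Finset.sum_comm

theorem IsCyc.zero : IsCyc G (0 : EV V) := ⟨fun _ _ => rfl, fun v => dg_zero v⟩

theorem IsCyc.add {z z' : EV V} (h : IsCyc G z) (h' : IsCyc G z') : IsCyc G (z + z') :=
  ⟨fun e he => by simp [h.1 e he, h'.1 e he], fun v => by simp [dg_add, h.2 v, h'.2 v]⟩

theorem IsCyc.sum {ι : Type} (S : Finset ι) {F : ι → EV V} (h : ∀ i ∈ S, IsCyc G (F i)) :
    IsCyc G (∑ i ∈ S, F i) :=
  ⟨fun e he => by
      rw [Finset.sum_apply]
      exact Finset.sum_eq_zero fun i hi => (h i hi).1 e he,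
    fun v => by
      rw [dg_sum]
      exact Finset.sum_eq_zero fun i hi => (h i hi).2 v⟩

theorem IsCyc.mono {H : SimpleGraph V} (hGH : G ≤ H) {z : EV V} (h : IsCyc G z) : IsCyc H z :=
  ⟨fun e he => h.1 e (fun h' => he (SimpleGraph.edgeSet_mono hGH h')), h.2⟩

/-- the value of a vector over F_2 is 0 or 1 -/
theorem ev_one {z : EV V} {e : Sym2 V} (h : z e ≠ 0) : z e = 1 := by
  have : ∀ a : ZMod 2, a ≠ 0 → a = 1 := by decide
  exact this _ h

omit [Fintype V] in
private theorem A1_cvec_ne {n : ℕ} (x : ZMod n → V) (e : Sym2 V) :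
    cvec x e ≠ 0 ↔ ∃ j, s(x j, x (j + 1)) = e := by
  unfold cvec
  by_cases h : ∃ j, s(x j, x (j + 1)) = e
  · simp [h]
  · simp [h]

omit [Fintype V] in
private theorem A1_cvec_one {n : ℕ} (x : ZMod n → V) {e : Sym2 V} (h : cvec x e ≠ 0) :
    cvec x e = 1 := by
  rw [A1_cvec_ne] at h
  unfold cvec
  rw [if_pos h]

private theorem A1_two_ne {n : ℕ} (hn : 3 ≤ n) : (2 : ZMod n) ≠ 0 := by
  intro h
  have h2 : ((2 : ℕ) : ZMod n) = 0 := by exact_mod_cast h
  rw [ZMod.natCast_eq_zero_iff] at h2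
  have := Nat.le_of_dvd (by norm_num) h2
  omega

/-- edges of a closed sequence at one of its vertices -/
theorem cvec_at {n : ℕ} {x : ZMod n → V} (hx : IsCycSeq G x) (j : ZMod n) (u : V) :
    cvec x s(x j, u) ≠ 0 ↔ (u = x (j + 1) ∨ u = x (j - 1)) := by
  rw [A1_cvec_ne]
  constructor
  · rintro ⟨i, hi⟩
    rw [Sym2.eq_iff] at hi
    rcases hi with ⟨h1, h2⟩ | ⟨h1, h2⟩
    · left
      rw [← h2, hx.inj h1]
    · right
      have h3 := hx.inj h2
      rw [← h1, ← h3, add_sub_cancel_right]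
  · rintro (rfl | rfl)
    · exact ⟨j, rfl⟩
    · refine ⟨j - 1, ?_⟩
      rw [sub_add_cancel, Sym2.eq_swap]

/-- the two neighbours on a cycle are different -/
theorem cyc_nbrs_ne {n : ℕ} {x : ZMod n → V} (hx : IsCycSeq G x) (j : ZMod n) :
    x (j + 1) ≠ x (j - 1) := by
  intro h
  have h1 := hx.inj h
  apply A1_two_ne hx.three
  linear_combination h1

theorem cvec_edge {n : ℕ} {x : ZMod n → V} (hx : IsCycSeq G x) (j : ZMod n) :
    cvec x s(x j, x (j + 1)) = 1 := by
  exact A1_cvec_one x ((A1_cvec_ne x _).2 ⟨j, rfl⟩)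

theorem cvec_on {n : ℕ} {x : ZMod n → V} (hx : IsCycSeq G x) (v : V) :
    On (cvec x) v ↔ v ∈ Set.range x := by
  constructor
  · rintro ⟨u, hu⟩
    rw [A1_cvec_ne] at hu
    obtain ⟨i, hi⟩ := hu
    have : v ∈ s(x i, x (i + 1)) := by
      rw [hi]
      exact Sym2.mem_mk_left v u
    rw [Sym2.mem_iff] at this
    rcases this with h | h
    · exact ⟨i, h.symm⟩
    · exact ⟨i + 1, h.symm⟩
  · rintro ⟨j, rfl⟩
    refine ⟨x (j + 1), ?_⟩
    rw [cvec_edge hx j]
    exact one_ne_zero

theorem cvec_isCyc {n : ℕ} {x : ZMod n → V} (hx : IsCycSeq G x) : IsCyc G (cvec x) := by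
  refine ⟨fun e he => ?_, fun v => ?_⟩
  · by_contra hne
    obtain ⟨j, rfl⟩ := (A1_cvec_ne x e).1 hne
    exact he (hx.adj j)
  · by_cases hv : v ∈ Set.range x
    · obtain ⟨j, rfl⟩ := hv
      unfold dg
      rw [← Finset.sum_subset (Finset.subset_univ {x (j + 1), x (j - 1)}),
        Finset.sum_pair (cyc_nbrs_ne hx j)]
      · rw [A1_cvec_one x ((cvec_at hx j _).2 (Or.inl rfl)),
          A1_cvec_one x ((cvec_at hx j _).2 (Or.inr rfl))]
        decide
      · intro u _ hu
        by_contra hne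
        apply hu
        rw [Finset.mem_insert, Finset.mem_singleton]
        exact (cvec_at hx j u).1 hne
    · apply Finset.sum_eq_zero
      intro u _
      by_contra hne
      exact hv ((cvec_on hx v).1 ⟨u, hne⟩)

theorem cvec_ne_zero {n : ℕ} {x : ZMod n → V} (hx : IsCycSeq G x) : cvec x ≠ 0 := by
  intro h
  have h1 := cvec_edge hx 0
  rw [h] at h1
  exact zero_ne_one h1

/-- the number of edges of a cycle of length `n` is `n` -/
theorem cvec_card {n : ℕ} {x : ZMod n → V} (hx : IsCycSeq G x) :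
    (univ.filter (fun e => cvec x e ≠ 0)).card = n := by
  have hn := hx.three
  have : NeZero n := ⟨by omega⟩
  have himg : univ.filter (fun e => cvec x e ≠ 0) =
      (univ : Finset (ZMod n)).image (fun j => s(x j, x (j + 1))) := by
    ext e
    rw [Finset.mem_filter, Finset.mem_image, A1_cvec_ne]
    simp
  rw [himg, Finset.card_image_of_injective, Finset.card_univ, ZMod.card]
  intro i j hij
  rw [Sym2.eq_iff] at hij
  rcases hij with ⟨h1, _⟩ | ⟨h1, h2⟩
  · exact hx.inj h1
  · exfalso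
    have h3 := hx.inj h1
    have h4 := hx.inj h2
    apply A1_two_ne hn
    linear_combination h4 - h3

/-- a non-zero even subset of a cycle is the whole cycle. (At every vertex `x j` both or none of the
two cycle edges are in `z`; go around.) -/
theorem sub_cycle {n : ℕ} {x : ZMod n → V} (hx : IsCycSeq G x) {z : EV V} (hz : IsCyc G z)
    (h0 : z ≠ 0) (hsub : ∀ e, z e ≠ 0 → cvec x e ≠ 0) : z = cvec x := by
  have hn := hx.three
  have : NeZero n := ⟨by omega⟩
  have hstep : ∀ j, z s(x j, x (j + 1)) ≠ 0 → z s(x (j - 1), x (j - 1 + 1)) ≠ 0 := by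
    intro j hj hzero
    have hd := hz.2 (x j)
    unfold dg at hd
    rw [← Finset.sum_subset (Finset.subset_univ {x (j + 1), x (j - 1)}),
      Finset.sum_pair (cyc_nbrs_ne hx j)] at hd
    · rw [sub_add_cancel, Sym2.eq_swap] at hzero
      rw [hzero, add_zero] at hd
      exact hj hd
    · intro u _ hu
      by_contra hne
      apply hu
      rw [Finset.mem_insert, Finset.mem_singleton]
      exact (cvec_at hx j u).1 (hsub _ hne)
  have hex : ∃ i, z s(x i, x (i + 1)) ≠ 0 := by
    by_contra hcon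
    push Not at hcon
    apply h0
    funext e
    by_contra hne
    obtain ⟨i, rfl⟩ := (A1_cvec_ne x e).1 (hsub e hne)
    exact hne (hcon i)
  obtain ⟨i, hi⟩ := hex
  have hm : ∀ m : ℕ, z s(x (i - m), x (i - m + 1)) ≠ 0 := by
    intro m
    induction m with
    | zero => simpa using hi
    | succ m ih =>
      have := hstep _ ih
      rw [show i - ((m + 1 : ℕ) : ZMod n) = i - (m : ZMod n) - 1 by push_cast; ring]
      exact this
  have hall : ∀ k, z s(x k, x (k + 1)) ≠ 0 := by
    intro k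
    have := hm (i - k).val
    rw [ZMod.natCast_zmod_val] at this
    rw [show i - (i - k) = k by ring] at this
    exact this
  funext e
  by_cases he : cvec x e = 0
  · rw [he]
    by_contra hne
    exact hsub e hne he
  · rw [A1_cvec_one x he]
    obtain ⟨k, rfl⟩ := (A1_cvec_ne x e).1 he
    exact ev_one (hall k)

private theorem A1_val_succ {n : ℕ} (hn : 3 ≤ n) [NeZero n] (j : ZMod n) :
    (j.val + 1 < n ∧ (j + 1).val = j.val + 1) ∨ (j.val = n - 1 ∧ (j + 1).val = 0) := by
  have h1 : (1 : ZMod n).val = 1 := by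
    rw [ZMod.val_one_eq_one_mod]
    exact Nat.mod_eq_of_lt (by omega)
  have h2 := ZMod.val_lt j
  have h3 := ZMod.val_add j 1
  rw [h1] at h3
  by_cases h : j.val + 1 < n
  · left
    rw [Nat.mod_eq_of_lt h] at h3
    exact ⟨h, h3⟩
  · right
    have h4 : j.val + 1 = n := by omega
    rw [h4, Nat.mod_self] at h3
    exact ⟨by omega, h3⟩

/-- a sequence `f 0, ..., f (n-1)` of distinct vertices, consecutive ones adjacent, closed up, is a
cycle -/
theorem cycSeq_of_nat {n : ℕ} (hn : 3 ≤ n) (f : ℕ → V)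
    (hinj : ∀ i j, i < n → j < n → f i = f j → i = j)
    (hadj : ∀ i, i + 1 < n → G.Adj (f i) (f (i + 1))) (hlast : G.Adj (f (n - 1)) (f 0)) :
    IsCycSeq G (fun j : ZMod n => f j.val) := by
  have : NeZero n := ⟨by omega⟩
  refine ⟨hn, fun i j hij => ?_, fun j => ?_⟩
  · exact ZMod.val_injective n (hinj _ _ (ZMod.val_lt i) (ZMod.val_lt j) hij)
  · rcases A1_val_succ hn j with ⟨h1, h2⟩ | ⟨h1, h2⟩
    · simp only [h2]
      exact hadj _ h1
    · simp only [h2, h1]
      exact hlast

/-- edges of the cycle `cycSeq_of_nat` -/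
theorem cvec_of_nat {n : ℕ} (hn : 3 ≤ n) (f : ℕ → V) (e : Sym2 V) :
    cvec (fun j : ZMod n => f j.val) e ≠ 0 ↔
      ((∃ i, i + 1 < n ∧ s(f i, f (i + 1)) = e) ∨ s(f (n - 1), f 0) = e) := by
  have : NeZero n := ⟨by omega⟩
  rw [A1_cvec_ne]
  constructor
  · rintro ⟨j, hj⟩
    rcases A1_val_succ hn j with ⟨h1, h2⟩ | ⟨h1, h2⟩
    · left
      refine ⟨j.val, h1, ?_⟩
      simp only [h2] at hj
      exact hj
    · right
      simp only [h2, h1] at hj
      exact hj
  · rintro (⟨i, hi, he⟩ | he)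
    · refine ⟨(i : ZMod n), ?_⟩
      have hv : (i : ZMod n).val = i := by
        rw [ZMod.val_natCast]
        exact Nat.mod_eq_of_lt (by omega)
      rcases A1_val_succ hn (i : ZMod n) with ⟨h1, h2⟩ | ⟨h1, h2⟩
      · simp only [h2, hv]
        exact he
      · exfalso
        omega
    · refine ⟨((n - 1 : ℕ) : ZMod n), ?_⟩
      have hv : ((n - 1 : ℕ) : ZMod n).val = n - 1 := by
        rw [ZMod.val_natCast]
        exact Nat.mod_eq_of_lt (by omega)
      rcases A1_val_succ hn ((n - 1 : ℕ) : ZMod n) with ⟨h1, h2⟩ | ⟨h1, h2⟩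
      · exfalso
        omega
      · simp only [h2, hv]
        exact he

/-- a non-zero vector of the cycle space contains a cycle (take a longest path in the support of `z`;
its last vertex has a second neighbour in the support, which lies on the path) -/
theorem exists_cycle {z : EV V} (hz : IsCyc G z) (h0 : z ≠ 0) :
    ∃ (n : ℕ) (x : ZMod n → V), IsCycSeq G x ∧ ∀ e, cvec x e ≠ 0 → z e ≠ 0 := by
  have hnext : ∀ p : {p : V × V // z s(p.1, p.2) ≠ 0},
      ∃ q : {p : V × V // z s(p.1, p.2) ≠ 0}, q.1.1 = p.1.2 ∧ q.1.2 ≠ p.1.1 := by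
    rintro ⟨⟨a, b⟩, hab⟩
    simp only at hab
    by_contra hcon
    push Not at hcon
    have hall : ∀ c, c ≠ a → z s(b, c) = 0 := by
      intro c hc
      by_contra hne
      exact hc (hcon ⟨(b, c), hne⟩ rfl)
    have hd := hz.2 b
    unfold dg at hd
    rw [Finset.sum_eq_single a (fun c _ hc => hall c hc)
      (fun h => absurd (Finset.mem_univ _) h), Sym2.eq_swap] at hd
    exact hab hd
  choose nx hn1 hn2 using hnext
  obtain ⟨p0⟩ : Nonempty {p : V × V // z s(p.1, p.2) ≠ 0} := by
    by_contra hcon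
    apply h0
    funext e
    by_contra hne
    induction e using Sym2.ind with
    | _ a b => exact hcon ⟨⟨(a, b), hne⟩⟩
  set P : ℕ → {p : V × V // z s(p.1, p.2) ≠ 0} := fun k => nx^[k] p0 with hP
  have hPs : ∀ k, P (k + 1) = nx (P k) := by
    intro k
    simp only [hP, Function.iterate_succ_apply']
  set w : ℕ → V := fun k => (P k).1.1 with hw
  have hw1 : ∀ k, w (k + 1) = (P k).1.2 := by
    intro k
    simp only [hw]
    rw [hPs, hn1]
  have hwz : ∀ k, z s(w k, w (k + 1)) ≠ 0 := by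
    intro k
    rw [hw1]
    exact (P k).2
  have hwG : ∀ k, G.Adj (w k) (w (k + 1)) := by
    intro k
    by_contra hcon
    exact hwz k (hz.1 _ hcon)
  have hback : ∀ k, w (k + 2) ≠ w k := by
    intro k
    rw [hw1 (k + 1), hPs]
    exact hn2 (P k)
  have hgap : ∃ m, 0 < m ∧ ∃ i, w i = w (i + m) := by
    obtain ⟨i, j, hij, heq⟩ := Finite.exists_ne_map_eq_of_infinite w
    rcases lt_or_gt_of_ne hij with h | h
    · exact ⟨j - i, by omega, i, by rw [heq]; congr 1; omega⟩
    · exact ⟨i - j, by omega, j, by rw [← heq]; congr 1; omega⟩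
  obtain ⟨hm0, i, hi⟩ := Nat.find_spec hgap
  set m := Nat.find hgap with hm
  have hmin : ∀ a b, a < b → b < m → w (i + a) ≠ w (i + b) := by
    intro a b hab hbm heq
    apply Nat.find_min hgap (m := b - a) (by omega)
    exact ⟨by omega, i + a, by rw [heq]; congr 1; omega⟩
  have hm3 : 3 ≤ m := by
    by_contra hlt
    have : m = 1 ∨ m = 2 := by omega
    rcases this with h1 | h2
    · rw [h1] at hi
      exact (hwG i).ne hi
    · rw [h2] at hi
      exact hback i hi.symm
  have hadj : ∀ t, t + 1 < m → G.Adj (w (i + t)) (w (i + (t + 1))) := fun t _ => hwG (i + t)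
  have hlast : G.Adj (w (i + (m - 1))) (w (i + 0)) := by
    have h1 := hwG (i + (m - 1))
    rw [show i + (m - 1) + 1 = i + m by omega, ← hi] at h1
    exact h1
  refine ⟨m, fun j : ZMod m => w (i + j.val), ?_, ?_⟩
  · apply cycSeq_of_nat hm3 (fun t => w (i + t)) _ hadj hlast
    intro a b ha hb hab
    by_contra hne
    rcases lt_or_gt_of_ne hne with h | h
    · exact hmin a b h hb hab
    · exact hmin b a h ha hab.symm
  · intro e he
    rcases (cvec_of_nat hm3 (fun t => w (i + t)) e).1 he with ⟨t, _, rfl⟩ | rfl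
    · exact hwz (i + t)
    · have h1 := hwz (i + (m - 1))
      rw [show i + (m - 1) + 1 = i + m by omega, ← hi] at h1
      exact h1

/-- a non-zero vector of the cycle space which is not the sum of two non-zero disjoint vectors of
the cycle space is a cycle -/
theorem min_is_cycle {z : EV V} (hz : IsCyc G z) (h0 : z ≠ 0)
    (hmin : ∀ a b : EV V, IsCyc G a → IsCyc G b → z = a + b → (∀ e, a e ≠ 0 → b e = 0) →
      a = 0 ∨ b = 0) :
    ∃ (n : ℕ) (x : ZMod n → V), IsCycSeq G x ∧ z = cvec x := by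
  obtain ⟨n, x, hx, hsub⟩ := exists_cycle hz h0
  have two : ∀ a : ZMod 2, a + a = 0 := by decide
  refine ⟨n, x, hx, ?_⟩
  rcases hmin (cvec x) (z + cvec x) (cvec_isCyc hx) (hz.add (cvec_isCyc hx)) (by
      funext e
      rw [Pi.add_apply, Pi.add_apply]
      have := two (cvec x e)
      linear_combination -this) (by
      intro e he
      rw [Pi.add_apply, ev_one (hsub e he), ev_one he]
      decide) with h | h
  · exact absurd h (cvec_ne_zero hx)
  · funext e
    have h1 := congrFun h e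
    rw [Pi.add_apply, Pi.zero_apply] at h1
    have := two (cvec x e)
    linear_combination h1 - this

end

section

/-!
A2: consequences of `SepFree` (2-connectedness).
-/

variable {V : Type} [Fintype V] {G : SimpleGraph V}

/-- the edge vector of one edge -/
private noncomputable def A2_E (p r : V) : EV V := fun e => if e = s(p, r) then 1 else 0

omit [Fintype V] in
private theorem A2_E_self (p r : V) : A2_E p r s(p, r) = 1 := by
  simp [A2_E]

omit [Fintype V] in
private theorem A2_E_ne {p r : V} {e : Sym2 V} (h : e ≠ s(p, r)) : A2_E p r e = 0 := by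
  simp [A2_E, h]

private theorem A2_dg_E {p r : V} (hpr : p ≠ r) (w : V) :
    dg (A2_E p r) w = (if w = p then 1 else 0) + (if w = r then 1 else 0) := by
  unfold dg
  by_cases h1 : w = p
  · subst h1
    rw [if_pos rfl, if_neg hpr, add_zero, Finset.sum_eq_single r]
    · exact A2_E_self w r
    · intro u _ hu
      apply A2_E_ne
      intro h
      rw [Sym2.congr_right] at h
      exact hu h
    · intro h
      exact absurd (Finset.mem_univ _) h
  · by_cases h2 : w = r
    · subst h2
      rw [if_neg h1, if_pos rfl, zero_add, Finset.sum_eq_single p]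
      · rw [Sym2.eq_swap]
        exact A2_E_self p w
      · intro u _ hu
        apply A2_E_ne
        intro h
        rw [Sym2.eq_swap, Sym2.congr_left] at h
        exact hu h
      · intro h
        exact absurd (Finset.mem_univ _) h
    · rw [if_neg h1, if_neg h2, add_zero]
      apply Finset.sum_eq_zero
      intro u _
      apply A2_E_ne
      intro h
      have : w ∈ s(p, r) := by
        rw [← h]
        exact Sym2.mem_mk_left w u
      rw [Sym2.mem_iff] at this
      rcases this with h3 | h3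
      · exact h1 h3
      · exact h2 h3

private theorem A2_walk {H : SimpleGraph V} {p q : V} (W : H.Walk p q) :
    ∃ z : EV V, (∀ e, e ∉ H.edgeSet → z e = 0) ∧
      ∀ w, dg z w = (if w = p then 1 else 0) + (if w = q then 1 else 0) := by
  have two : ∀ a : ZMod 2, a + a = 0 := by decide
  induction W with
  | nil =>
    refine ⟨0, fun _ _ => rfl, fun w => ?_⟩
    rw [dg_zero, two]
  | @cons p r q hpr W ih =>
    obtain ⟨z, hz1, hz2⟩ := ih
    refine ⟨z + A2_E p r, fun e he => ?_, fun w => ?_⟩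
    · rw [Pi.add_apply, hz1 e he, zero_add]
      apply A2_E_ne
      intro h
      apply he
      rw [h]
      exact hpr
    · rw [dg_add, hz2, A2_dg_E hpr.ne]
      have := two (if w = r then 1 else 0)
      linear_combination this

private theorem A2_reach (sep : SepFree G) {v u1 u2 : V} (h1 : G.Adj v u1) (h2 : G.Adj v u2) :
    (del G {v}).Reachable u1 u2 := by
  by_contra hr
  have hv : ¬ (del G {v}).Reachable u1 v := by
    rintro ⟨W⟩
    cases hW : W.reverse with
    | nil => exact h1.ne rfl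
    | cons h _ => exact h.2.1 rfl
  obtain ⟨x, y, hxy, ⟨a, ha, haE⟩, ⟨b, hb, hbE⟩, ⟨c, hc, hcE⟩, ⟨d, hd, hdE⟩⟩ :=
    sep {e | ∃ w, (del G {v}).Reachable u1 w ∧ w ∈ e}
      ⟨s(v, u1), h1, u1, SimpleGraph.Reachable.refl _, Sym2.mem_mk_right v u1⟩
      ⟨s(v, u2), h2, by
        rintro ⟨w, hw, hwe⟩
        rw [Sym2.mem_iff] at hwe
        rcases hwe with rfl | rfl
        · exact hv hw
        · exact hr hw⟩
  have key : ∀ x a b : V, G.Adj x a →
      s(x, a) ∈ {e : Sym2 V | ∃ w, (del G {v}).Reachable u1 w ∧ w ∈ e} → G.Adj x b →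
      s(x, b) ∉ {e : Sym2 V | ∃ w, (del G {v}).Reachable u1 w ∧ w ∈ e} → x = v := by
    intro x a b ha haE _ hbE
    by_contra hxv
    have hx : ¬ (del G {v}).Reachable u1 x := fun hx => hbE ⟨x, hx, Sym2.mem_mk_left x b⟩
    obtain ⟨w, hw, hwe⟩ := haE
    rw [Sym2.mem_iff] at hwe
    rcases hwe with rfl | rfl
    · exact hx hw
    · have hwv : w ≠ v := by
        rintro rfl
        exact hv hw
      have hadj : (del G {v}).Adj w x := ⟨ha.symm, hwv, hxv⟩
      exact hx (hw.trans hadj.reachable)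
  exact hxy ((key x a b ha haE hb hbE).trans (key y c d hc hcE hd hdE).symm)

/-- Two edges at `v` lie on a common even set which contains no other edge at `v`.
Proof: let `H` be `G` without the vertex `v` (`del G {v}`). If `u1`, `u2` are joined by a walk in `H`,
the sum modulo 2 of the edges of the walk, plus the two edges, is as wanted (for a walk from `p` to
`q` the parity vector has `dg = 1` exactly at `p`, `q`, if `p ≠ q`). Otherwise let `D` be the set of
vertices reachable from `u1` in `H` and `E1` the set of edges with an end in `D`: `s(v,u1) ∈ E1`,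
`s(v,u2) ∉ E1`, and only `v` can be a common vertex, contradiction to `SepFree`. -/
theorem two_edge_cycle (sep : SepFree G) {v u1 u2 : V} (h1 : G.Adj v u1) (h2 : G.Adj v u2)
    (h : u1 ≠ u2) :
    ∃ z : EV V, IsCyc G z ∧ z s(v, u1) = 1 ∧ z s(v, u2) = 1 ∧
      ∀ u, u ≠ u1 → u ≠ u2 → z s(v, u) = 0 := by
  obtain ⟨W⟩ := A2_reach sep h1 h2
  obtain ⟨z, hz1, hz2⟩ := A2_walk W
  have two : ∀ a : ZMod 2, a + a = 0 := by decide
  have hzv : ∀ u, z s(v, u) = 0 := by
    intro u
    apply hz1
    intro h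
    exact h.2.1 rfl
  refine ⟨z + A2_E v u1 + A2_E v u2, ⟨fun e he => ?_, fun w => ?_⟩, ?_, ?_, ?_⟩
  · rw [Pi.add_apply, Pi.add_apply, hz1 e, A2_E_ne, A2_E_ne]
    · simp
    · rintro rfl
      exact he h2
    · rintro rfl
      exact he h1
    · intro h
      apply he
      induction e using Sym2.ind with
      | _ a b => exact h.1
  · rw [dg_add, dg_add, hz2, A2_dg_E h1.ne, A2_dg_E h2.ne]
    have e1 := two (if w = v then 1 else 0)
    have e2 := two (if w = u1 then 1 else 0)
    have e3 := two (if w = u2 then 1 else 0)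
    linear_combination e1 + e2 + e3
  · rw [Pi.add_apply, Pi.add_apply, hzv, A2_E_self, A2_E_ne]
    · simp
    · intro h'
      rw [Sym2.congr_right] at h'
      exact h h'
  · rw [Pi.add_apply, Pi.add_apply, hzv, A2_E_self, A2_E_ne]
    · simp
    · intro h'
      rw [Sym2.congr_right] at h'
      exact h h'.symm
  · intro u hu1 hu2
    rw [Pi.add_apply, Pi.add_apply, hzv, A2_E_ne, A2_E_ne]
    · simp
    · intro h'
      rw [Sym2.congr_right] at h'
      exact hu2 h'
    · intro h'
      rw [Sym2.congr_right] at h'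
      exact hu1 h'

/-- parity principle at a vertex -/
theorem parity_vertex (sep : SepFree G) {v : V} (A : Set V) (h1 : ∃ u, G.Adj v u ∧ u ∈ A)
    (h2 : ∃ u, G.Adj v u ∧ u ∉ A) :
    ∃ z : EV V, IsCyc G z ∧ (∑ u, if u ∈ A then z s(v, u) else 0) ≠ 0 := by
  obtain ⟨u1, ha1, hA1⟩ := h1
  obtain ⟨u2, ha2, hA2⟩ := h2
  obtain ⟨z, hz, hz1, -, hz3⟩ := two_edge_cycle sep ha1 ha2 (by
    rintro rfl
    exact hA2 hA1)
  refine ⟨z, hz, ?_⟩
  rw [Finset.sum_eq_single u1]
  · rw [if_pos hA1, hz1]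
    exact one_ne_zero
  · intro u _ hu
    by_cases huA : u ∈ A
    · rw [if_pos huA]
      exact hz3 u hu (by
        rintro rfl
        exact hA2 huA)
    · exact if_neg huA
  · intro h
    exact absurd (Finset.mem_univ _) h

/-- parity principle for edge sets: by `SepFree` some vertex `v` has an edge in `E1` and an edge
outside `E1`; use `two_edge_cycle`. -/
theorem parity_edges (sep : SepFree G) (E1 : Set (Sym2 V)) (h1 : ∃ e ∈ G.edgeSet, e ∈ E1)
    (h2 : ∃ e ∈ G.edgeSet, e ∉ E1) :
    ∃ (z : EV V) (v : V), IsCyc G z ∧ (∑ u, if s(v, u) ∈ E1 then z s(v, u) else 0) ≠ 0 := by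
  obtain ⟨v, -, -, hv1, hv2, -, -⟩ := sep E1 h1 h2
  obtain ⟨z, hz, hs⟩ := parity_vertex sep {u | s(v, u) ∈ E1} hv1 hv2
  exact ⟨z, v, hz, hs⟩

/-- no vertex of degree 1: otherwise `E1 = {e}` has only one common vertex with the rest -/
theorem deg_ge_two (sep : SepFree G) (h2 : ∃ e ∈ G.edgeSet, ∃ e' ∈ G.edgeSet, e ≠ e') {v u : V}
    (h : G.Adj v u) : ∃ u', u' ≠ u ∧ G.Adj v u' := by
  have hout : ∃ e ∈ G.edgeSet, e ∉ ({s(v, u)} : Set (Sym2 V)) := by
    obtain ⟨e, he, e', he', hne⟩ := h2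
    by_cases h3 : e = s(v, u)
    · refine ⟨e', he', fun h4 => hne ?_⟩
      rw [Set.mem_singleton_iff] at h4
      rw [h3, h4]
    · exact ⟨e, he, h3⟩
  obtain ⟨x, y, hxy, ⟨a, ha, haE⟩, ⟨b, hb, hbE⟩, ⟨c, hc, hcE⟩, ⟨d, hd, hdE⟩⟩ :=
    sep {s(v, u)} ⟨s(v, u), h, rfl⟩ hout
  rw [Set.mem_singleton_iff] at haE hbE hcE hdE
  have hx : x = v ∨ x = u := by
    have : x ∈ s(v, u) := by
      rw [← haE]
      exact Sym2.mem_mk_left x a
    exact Sym2.mem_iff.1 this
  have hy : y = v ∨ y = u := by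
    have : y ∈ s(v, u) := by
      rw [← hcE]
      exact Sym2.mem_mk_left y c
    exact Sym2.mem_iff.1 this
  rcases hx with rfl | rfl
  · refine ⟨b, ?_, hb⟩
    rintro rfl
    exact hbE rfl
  · rcases hy with rfl | rfl
    · refine ⟨d, ?_, hd⟩
      rintro rfl
      exact hdE rfl
    · exact absurd rfl hxy

theorem edge_in_cyc (sep : SepFree G) (h2 : ∃ e ∈ G.edgeSet, ∃ e' ∈ G.edgeSet, e ≠ e')
    {e : Sym2 V} (he : e ∈ G.edgeSet) : ∃ z : EV V, IsCyc G z ∧ z e = 1 := by
  induction e using Sym2.ind with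
  | _ v u =>
    obtain ⟨u', hne, hadj⟩ := deg_ge_two sep h2 (v := v) (u := u) he
    obtain ⟨z, hz, hz1, -⟩ := two_edge_cycle sep (v := v) he hadj hne.symm
    exact ⟨z, hz, hz1⟩

private theorem A2_turn {n : ℕ} [NeZero n] (P : ZMod n → Prop) (h1 : ∃ j, P j)
    (h2 : ∃ j, ¬ P j) : ∃ j, P j ∧ ¬ P (j - 1) := by
  by_contra hcon
  push Not at hcon
  obtain ⟨j, hj⟩ := h1
  obtain ⟨k, hk⟩ := h2
  have hm : ∀ m : ℕ, P (j - m) := by
    intro m
    induction m with
    | zero => simpa using hj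
    | succ m ih =>
      have := hcon _ ih
      rw [show j - ((m + 1 : ℕ) : ZMod n) = j - (m : ZMod n) - 1 by push_cast; ring]
      exact this
  apply hk
  have := hm (j - k).val
  rw [ZMod.natCast_zmod_val] at this
  simpa using this

/-- the cycle `x` is on one side of every separation: if the edge set `E1` contains an edge of the
cycle and misses an edge of the cycle, then two different vertices of the cycle have cycle edges
inside and outside `E1`. -/
theorem cycle_two_changes {n : ℕ} {x : ZMod n → V} (hx : IsCycSeq G x) (E1 : Set (Sym2 V))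
    (h1 : ∃ j, s(x j, x (j + 1)) ∈ E1) (h2 : ∃ j, s(x j, x (j + 1)) ∉ E1) :
    ∃ j k, x j ≠ x k ∧
      ((s(x j, x (j + 1)) ∈ E1 ∧ s(x j, x (j - 1)) ∉ E1) ∨
        (s(x j, x (j + 1)) ∉ E1 ∧ s(x j, x (j - 1)) ∈ E1)) ∧
      ((s(x k, x (k + 1)) ∈ E1 ∧ s(x k, x (k - 1)) ∉ E1) ∨
        (s(x k, x (k + 1)) ∉ E1 ∧ s(x k, x (k - 1)) ∈ E1)) := by
  have hn := hx.three
  have : NeZero n := ⟨by omega⟩
  obtain ⟨j, hj1, hj2⟩ := A2_turn (fun j => s(x j, x (j + 1)) ∈ E1) h1 h2
  obtain ⟨k, hk1, hk2⟩ := A2_turn (fun j => ¬ s(x j, x (j + 1)) ∈ E1) h2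
    (by
      obtain ⟨i, hi⟩ := h1
      exact ⟨i, fun h => h hi⟩)
  have swap : ∀ i : ZMod n, s(x (i - 1), x (i - 1 + 1)) = s(x i, x (i - 1)) := by
    intro i
    rw [sub_add_cancel, Sym2.eq_swap]
  simp only [swap, not_not] at hj2 hk2
  refine ⟨j, k, ?_, Or.inl ⟨hj1, hj2⟩, Or.inr ⟨hk1, hk2⟩⟩
  intro hjk
  rw [hx.inj hjk] at hj1
  exact hk1 hj1

end

end Pool.Agent.W_fb73a4_h20
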