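import Pool.Agent.W_fb73a4_h20.MA

set_option autoImplicit false

namespace Pool.Agent.W_fb73a4_h20

open Finset
open scoped Classical

section

/-!
A3a: face systems, part a.
-/

variable {V : Type} [Fintype V] {G : SimpleGraph V}

/-- the value of a sum is the parity of the number of members containing the edge -/
theorem A3a_sum_card {ι : Type} (S : Finset ι) (F : ι → EV V) (e : Sym2 V) :
    (∑ i ∈ S, F i) e = ((S.filter (fun i => F i e ≠ 0)).card : ZMod 2) := by
  rw [Finset.sum_apply, ← Finset.sum_boole]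
  refine Finset.sum_congr rfl fun i _ => ?_
  split_ifs with h
  · exact ev_one h
  · exact not_not.1 h

/-- Existence. From the MacLane family `B : Fin n → EV V` form the family indexed by
`Option (Fin n)`, `none ↦ ∑ i, B i`, and keep the non-zero members. Every edge is in one or two of
the `B i` (at least one, as it lies in some element of the cycle space by `edge_in_cyc`), so it is
in exactly two members of the new family. -/
theorem exists_faceSys (sep : SepFree G) (h2 : ∃ e ∈ G.edgeSet, ∃ e' ∈ G.edgeSet, e ≠ e')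
    (hM : MacLane G) : ∃ (ι : Type) (_ : Fintype ι) (F : ι → EV V), FaceSys G ι F := by
  obtain ⟨n, B, hB, hle, hgen⟩ := hM
  let B' : Option (Fin n) → EV V := fun o => Option.elim o (∑ i, B i) B
  have hB' : ∀ o, IsCyc G (B' o) := by
    intro o
    cases o with
    | none => exact IsCyc.sum _ fun i _ => hB i
    | some i => exact hB i
  refine ⟨{o : Option (Fin n) // B' o ≠ 0}, inferInstance, fun o => B' o.1, fun o => hB' o.1,
    fun o => o.2, fun e he => ?_, fun z hz => ?_⟩
  · have h1 : (univ.filter (fun o : {o : Option (Fin n) // B' o ≠ 0} => B' o.1 e ≠ 0)).card =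
        (univ.filter (fun o : Option (Fin n) => B' o e ≠ 0)).card := by
      refine Finset.card_bij (fun o _ => o.1) (fun o ho => ?_) (fun o _ o' _ h => Subtype.ext h)
        fun o ho => ?_
      · rw [Finset.mem_filter] at ho ⊢
        exact ⟨Finset.mem_univ _, ho.2⟩
      · rw [Finset.mem_filter] at ho
        refine ⟨⟨o, fun h => ho.2 ?_⟩, ?_, rfl⟩
        · rw [h]
          rfl
        · rw [Finset.mem_filter]
          exact ⟨Finset.mem_univ _, ho.2⟩
    rw [h1, Finset.card_filter, Fintype.sum_option]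
    have h3 : (∑ i, if B' (some i) e ≠ 0 then 1 else 0) =
        (univ.filter (fun i => B i e ≠ 0)).card := by
      rw [Finset.card_filter]
      rfl
    rw [h3]
    have h4 : B' none e = ((univ.filter (fun i => B i e ≠ 0)).card : ZMod 2) :=
      A3a_sum_card univ B e
    have h5 := hle e
    have h6 : (univ.filter (fun i => B i e ≠ 0)).card ≠ 0 := by
      intro h
      obtain ⟨z, hz, hze⟩ := edge_in_cyc sep h2 he
      obtain ⟨S, hS⟩ := hgen z hz
      rw [hS, A3a_sum_card] at hze
      have h7 : (S.filter (fun i => B i e ≠ 0)).card = 0 := by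
        have h8 := Finset.card_le_card (Finset.filter_subset_filter (fun i => B i e ≠ 0)
          (Finset.subset_univ S))
        omega
      rw [h7] at hze
      exact absurd hze (by decide)
    have h7 : (univ.filter (fun i => B i e ≠ 0)).card = 1 ∨
        (univ.filter (fun i => B i e ≠ 0)).card = 2 := by omega
    rcases h7 with h7 | h7
    · rw [h7] at h4 ⊢
      rw [if_pos]
      rw [h4]
      decide
    · rw [h7] at h4 ⊢
      rw [if_neg]
      rw [h4]
      decide
  · obtain ⟨S, hS⟩ := hgen z hz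
    refine ⟨univ.filter (fun o : {o : Option (Fin n) // B' o ≠ 0} => ∃ i ∈ S, o.1 = some i), ?_⟩
    rw [hS]
    have h1 : ∑ i ∈ S, B i = ∑ i ∈ S.filter (fun i => B i ≠ 0), B i :=
      (Finset.sum_filter_ne_zero S).symm
    rw [h1]
    refine Finset.sum_bij (fun i hi => ⟨some i, (Finset.mem_filter.1 hi).2⟩) ?_ ?_ ?_ ?_
    · intro i hi
      rw [Finset.mem_filter]
      exact ⟨Finset.mem_univ _, i, (Finset.mem_filter.1 hi).1, rfl⟩
    · intro i _ i' _ h
      exact Option.some_injective _ (congrArg Subtype.val h)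
    · rintro ⟨o, ho⟩ hb
      obtain ⟨-, i, hi, h3⟩ := Finset.mem_filter.1 hb
      have h4 : o = some i := h3
      subst h4
      exact ⟨i, Finset.mem_filter.2 ⟨hi, ho⟩, rfl⟩
    · intro i _
      rfl

variable {ι : Type} [Fintype ι] {F : ι → EV V}

theorem FaceSys.sum_all (fs : FaceSys G ι F) : ∑ i, F i = 0 := by
  funext e
  by_cases he : e ∈ G.edgeSet
  · rw [A3a_sum_card, fs.two e he]
    show ((2 : ℕ) : ZMod 2) = 0
    decide
  · rw [Finset.sum_apply]
    exact Finset.sum_eq_zero fun i _ => (fs.cyc i).1 e he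

/-- the sum over the complement is the same -/
theorem FaceSys.sum_compl (fs : FaceSys G ι F) (S : Finset ι) :
    ∑ i ∈ Sᶜ, F i = ∑ i ∈ S, F i := by
  have h := Finset.sum_compl_add_sum S F
  rw [fs.sum_all] at h
  funext e
  have h1 := congrFun h e
  have h2 : ∀ a b : ZMod 2, a + b = 0 → a = b := by decide
  exact h2 _ _ h1

/-- every element of the cycle space is a sum over a set not containing `i0` -/
theorem FaceSys.gen' (fs : FaceSys G ι F) (i0 : ι) {z : EV V} (hz : IsCyc G z) :
    ∃ S : Finset ι, i0 ∉ S ∧ z = ∑ i ∈ S, F i := by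
  obtain ⟨S, hS⟩ := fs.gen z hz
  by_cases h : i0 ∈ S
  · exact ⟨Sᶜ, by simpa using h, by rw [fs.sum_compl]; exact hS⟩
  · exact ⟨S, h, hS⟩

/-- the two faces of an edge -/
theorem FaceSys.exists_two (fs : FaceSys G ι F) {e : Sym2 V} (he : e ∈ G.edgeSet) :
    ∃ i j, i ≠ j ∧ F i e ≠ 0 ∧ F j e ≠ 0 ∧ ∀ k, F k e ≠ 0 → k = i ∨ k = j := by
  obtain ⟨i, j, hij, h⟩ := Finset.card_eq_two.1 (fs.two e he)
  have h1 : ∀ k, F k e ≠ 0 ↔ k = i ∨ k = j := by
    intro k
    have h2 : k ∈ univ.filter (fun i => F i e ≠ 0) ↔ k ∈ ({i, j} : Finset ι) := by rw [h]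
    simpa using h2
  exact ⟨i, j, hij, (h1 i).2 (Or.inl rfl), (h1 j).2 (Or.inr rfl), fun k => (h1 k).1⟩

/-- the other face of an edge -/
theorem FaceSys.exists_other (fs : FaceSys G ι F) {e : Sym2 V} {i : ι} (hi : F i e ≠ 0) :
    ∃ j, j ≠ i ∧ F j e ≠ 0 ∧ ∀ k, F k e ≠ 0 → k = i ∨ k = j := by
  have he : e ∈ G.edgeSet := by
    by_contra he
    exact hi ((fs.cyc i).1 e he)
  obtain ⟨a, b, hab, ha, hb, h⟩ := fs.exists_two he
  rcases h i hi with rfl | rfl
  · exact ⟨b, hab.symm, hb, h⟩
  · exact ⟨a, hab, ha, fun k hk => (h k hk).symm⟩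

/-- an edge `e` of `G` is in the sum over `S` iff exactly one of its two faces is in `S` -/
theorem FaceSys.sum_ne_zero (fs : FaceSys G ι F) (S : Finset ι) {e : Sym2 V} {i j : ι}
    (hij : i ≠ j) (hi : F i e ≠ 0) (hj : F j e ≠ 0) :
    (∑ k ∈ S, F k) e ≠ 0 ↔ ((i ∈ S ∧ j ∉ S) ∨ (i ∉ S ∧ j ∈ S)) := by
  obtain ⟨j', hj', -, h⟩ := fs.exists_other hi
  have hjj : j' = j := by
    rcases h j hj with h1 | h1
    · exact absurd h1.symm hij
    · exact h1.symm
  subst hjj
  have h1 : (∑ k ∈ S, F k) e = (if i ∈ S then F i e else 0) + (if j' ∈ S then F j' e else 0) := by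
    rw [Finset.sum_apply, ← Finset.sum_ite_mem_eq]
    refine Fintype.sum_eq_add i j' hij fun k hk => ?_
    split_ifs with h2
    · by_contra h3
      rcases h k h3 with h4 | h4
      · exact hk.1 h4
      · exact hk.2 h4
    · rfl
  rw [h1, ev_one hi, ev_one hj]
  by_cases h2 : i ∈ S <;> by_cases h3 : j' ∈ S <;> simp [h2, h3]
  decide

/-- (f1) COUNT. `|E| + 2 ≤ |ι| + |V*|`, `V*` the set of non-isolated vertices. Proof: the map
`z ↦ (dg z v)_v` from the vectors supported on the edges to `ZMod 2 ^ V*` has kernel the cycle space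
and its image consists of vectors with sum 0, so `2^|E| ≤ |cycle space| * 2^(|V*| - 1)`; by `gen'`
`|cycle space| ≤ 2^(|ι| - 1)`. -/
theorem FaceSys.count (fs : FaceSys G ι F) (he : ∃ e, e ∈ G.edgeSet) :
    G.edgeSet.ncard + 2 ≤ Fintype.card ι + {v : V | ∃ u, G.Adj v u}.ncard := by
  obtain ⟨e0, he0⟩ := he
  have hEfin : G.edgeSet.Finite := Set.toFinite _
  obtain ⟨E, hEdef⟩ : ∃ E : Finset (Sym2 V), E = hEfin.toFinset := ⟨_, rfl⟩
  have hE : ∀ e, e ∈ E ↔ e ∈ G.edgeSet := fun e => by rw [hEdef]; exact hEfin.mem_toFinset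
  have hEc : G.edgeSet.ncard = E.card := by
    rw [hEdef]
    exact Set.ncard_eq_toFinset_card _ hEfin
  let ind : Finset (Sym2 V) → EV V := fun T e => if e ∈ T then 1 else 0
  let f : Finset (Sym2 V) → (V → ZMod 2) := fun T v => dg (ind T) v
  have hind : ∀ T T' : Finset (Sym2 V), ind T = ind T' → T = T' := by
    intro T T' h
    ext e
    have h1 : (if e ∈ T then (1 : ZMod 2) else 0) = if e ∈ T' then 1 else 0 := congrFun h e
    by_cases h2 : e ∈ T <;> by_cases h3 : e ∈ T' <;> simp [h2, h3] at h1 ⊢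
  obtain ⟨i0, -, -, -, -, -⟩ := fs.exists_two he0
  -- the fibres
  have hfib : ∀ b ∈ E.powerset.image f, (E.powerset.filter (fun T => f T = b)).card ≤
      2 ^ (Fintype.card ι - 1) := by
    intro b hb
    obtain ⟨T0, hT0, rfl⟩ := Finset.mem_image.1 hb
    have hP : ((univ : Finset ι).erase i0).powerset.card = 2 ^ (Fintype.card ι - 1) := by
      rw [Finset.card_powerset, Finset.card_erase_of_mem (Finset.mem_univ _), Finset.card_univ]
    rw [← hP]
    have hch : ∀ T ∈ E.powerset.filter (fun T => f T = f T0),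
        ∃ S ∈ ((univ : Finset ι).erase i0).powerset, ind T + ind T0 = ∑ i ∈ S, F i := by
      intro T hT
      obtain ⟨hT1, hT2⟩ := Finset.mem_filter.1 hT
      have hcyc : IsCyc G (ind T + ind T0) := by
        refine ⟨fun e he => ?_, fun v => ?_⟩
        · have h1 : e ∉ T := fun h => he ((hE e).1 (Finset.mem_powerset.1 hT1 h))
          have h2 : e ∉ T0 := fun h => he ((hE e).1 (Finset.mem_powerset.1 hT0 h))
          show (if e ∈ T then (1 : ZMod 2) else 0) + (if e ∈ T0 then 1 else 0) = 0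
          rw [if_neg h1, if_neg h2, add_zero]
        · rw [dg_add]
          have h1 : dg (ind T) v = dg (ind T0) v := congrFun hT2 v
          rw [h1]
          have h2 : ∀ a : ZMod 2, a + a = 0 := by decide
          exact h2 _
      obtain ⟨S, hS1, hS2⟩ := fs.gen' i0 hcyc
      refine ⟨S, ?_, hS2⟩
      rw [Finset.mem_powerset]
      intro i hi
      rw [Finset.mem_erase]
      exact ⟨fun h => hS1 (h ▸ hi), Finset.mem_univ _⟩
    choose! g hg1 hg2 using hch
    refine Finset.card_le_card_of_injOn g hg1 ?_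
    intro T hT T' hT' h
    have h1 : ind T + ind T0 = ind T' + ind T0 := by
      rw [hg2 T hT, hg2 T' hT', h]
    exact hind T T' (add_right_cancel h1)
  -- the image
  obtain ⟨Vs, hVsdef⟩ : ∃ Vs : Finset V, Vs = univ.filter (fun v => ∃ u, G.Adj v u) := ⟨_, rfl⟩
  have hVs : ∀ v, v ∈ Vs ↔ ∃ u, G.Adj v u := fun v => by rw [hVsdef]; simp
  have hVc : {v : V | ∃ u, G.Adj v u}.ncard = Vs.card := by
    rw [← Set.ncard_coe_finset]
    congr 1
    ext v
    simp [hVs]
  obtain ⟨v0, hv0⟩ : ∃ v0, v0 ∈ Vs := by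
    induction e0 using Sym2.ind with
    | _ a b => exact ⟨a, (hVs a).2 ⟨b, he0⟩⟩
  have hout : ∀ T ⊆ E, ∀ v, v ∉ Vs → f T v = 0 := by
    intro T hT v hv
    refine Finset.sum_eq_zero fun u _ => if_neg fun h => hv ?_
    exact (hVs v).2 ⟨u, (hE _).1 (hT h)⟩
  have hsum : ∀ T ⊆ E, ∑ v, f T v = 0 := by
    intro T hT
    have h1 : ∑ v, f T v = ∑ x : V × V, ind T s(x.1, x.2) := by
      rw [Fintype.sum_prod_type]
      rfl
    rw [h1]
    refine Finset.sum_involution (fun x _ => x.swap) (fun x _ => ?_) (fun x _ hx => ?_)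
      (fun x _ => Finset.mem_univ _) (fun x _ => Prod.swap_swap x)
    · have h2 : s(x.swap.1, x.swap.2) = s(x.1, x.2) := Sym2.eq_swap
      rw [h2]
      have h3 : ∀ a : ZMod 2, a + a = 0 := by decide
      exact h3 _
    · intro h2
      apply hx
      refine if_neg fun h3 => ?_
      have h4 : G.Adj x.1 x.2 := (hE _).1 (hT h3)
      have h5 : x.2 = x.1 := congrArg Prod.fst h2
      rw [h5] at h4
      exact G.loopless.irrefl _ h4
  have himg : (E.powerset.image f).card ≤ 2 ^ (Vs.card - 1) := by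
    have hQ : (Vs.erase v0).powerset.card = 2 ^ (Vs.card - 1) := by
      rw [Finset.card_powerset, Finset.card_erase_of_mem hv0]
    rw [← hQ]
    refine Finset.card_le_card_of_injOn (fun b => (Vs.erase v0).filter fun v => b v ≠ 0)
      (fun b _ => Finset.mem_powerset.2 (Finset.filter_subset _ _)) ?_
    intro b hb b' hb' h
    obtain ⟨T, hT, rfl⟩ := Finset.mem_image.1 hb
    obtain ⟨T', hT', rfl⟩ := Finset.mem_image.1 hb'
    have hT := Finset.mem_powerset.1 hT
    have hT' := Finset.mem_powerset.1 hT'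
    have h1 : ∀ v, v ≠ v0 → f T v = f T' v := by
      intro v hv
      by_cases hvs : v ∈ Vs
      · have h2 : v ∈ (Vs.erase v0).filter (fun v => f T v ≠ 0) ↔
            v ∈ (Vs.erase v0).filter (fun v => f T' v ≠ 0) := by
          rw [show (Vs.erase v0).filter (fun v => f T v ≠ 0) =
            (Vs.erase v0).filter (fun v => f T' v ≠ 0) from h]
        rw [Finset.mem_filter, Finset.mem_filter, Finset.mem_erase] at h2
        have h3 : ∀ a c : ZMod 2, (a ≠ 0 ↔ c ≠ 0) → a = c := by decide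
        exact h3 _ _ ⟨fun h4 => (h2.1 ⟨⟨hv, hvs⟩, h4⟩).2, fun h4 => (h2.2 ⟨⟨hv, hvs⟩, h4⟩).2⟩
      · rw [hout T hT v hvs, hout T' hT' v hvs]
    funext v
    by_cases hv : v = v0
    · subst hv
      have h2 := hsum T hT
      have h3 := hsum T' hT'
      rw [← Finset.add_sum_erase _ _ (Finset.mem_univ v)] at h2 h3
      have h4 : ∑ x ∈ univ.erase v, f T x = ∑ x ∈ univ.erase v, f T' x :=
        Finset.sum_congr rfl fun x hx => h1 x (Finset.ne_of_mem_erase hx)
      rw [h4, ← h3] at h2
      exact add_right_cancel h2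
    · exact h1 v hv
  have hmain : 2 ^ E.card ≤ 2 ^ (Fintype.card ι - 1) * 2 ^ (Vs.card - 1) := by
    rw [← Finset.card_powerset]
    exact (Finset.card_le_mul_card_image _ _ hfib).trans (Nat.mul_le_mul_left _ himg)
  rw [← pow_add] at hmain
  have h1 := (Nat.pow_le_pow_iff_right (by norm_num : 1 < 2)).1 hmain
  have h2 : 1 ≤ Vs.card := Finset.card_pos.2 ⟨v0, hv0⟩
  have h3 : 1 ≤ Fintype.card ι := Fintype.card_pos_iff.2 ⟨i0⟩
  rw [hEc, hVc]
  omega

end

section

/-!
A3: face systems of graphs which are `SepFree` and `MacLane`.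
-/

variable {V : Type} [Fintype V] {G : SimpleGraph V}

variable {ι : Type} [Fintype ι] {F : ι → EV V}

/-- an edge in a face is an edge of `G` -/
private theorem a3_edge (fs : FaceSys G ι F) {i : ι} {e : Sym2 V} (h : F i e ≠ 0) :
    e ∈ G.edgeSet := by
  by_contra he
  exact h ((fs.cyc i).1 e he)

/-- a third face is one of the two -/
private theorem a3_third (fs : FaceSys G ι F) {i j k : ι} {e : Sym2 V} (hij : i ≠ j)
    (hi : F i e ≠ 0) (hj : F j e ≠ 0) (hk : F k e ≠ 0) : k = i ∨ k = j := by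
  obtain ⟨j', hj', -, h⟩ := fs.exists_other hi
  rcases h j hj with h1 | h1
  · exact absurd h1.symm hij
  · rw [h1]
    exact h k hk

/-- parity at `v` of the restriction of a cycle space element to a set `A` of edges at `v` is zero if
this holds for the faces -/
private theorem a3_restrict (fs : FaceSys G ι F) (v : V) (P : V → Prop)
    (h : ∀ k, (∑ u, if P u then F k s(v, u) else 0) = 0) {z : EV V} (hz : IsCyc G z) :
    (∑ u, if P u then z s(v, u) else 0) = 0 := by
  obtain ⟨T, hT⟩ := fs.gen z hz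
  have h1 : (∑ u, if P u then z s(v, u) else 0) =
      ∑ k ∈ T, ∑ u, if P u then F k s(v, u) else 0 := by
    rw [Finset.sum_comm]
    refine Finset.sum_congr rfl fun u _ => ?_
    split_ifs
    · rw [hT, Finset.sum_apply]
    · rw [Finset.sum_const_zero]
  rw [h1]
  exact Finset.sum_eq_zero fun k _ => h k

private theorem a3_full {z : EV V} {v : V} (P : V → Prop) (hz : dg z v = 0)
    (h : ∀ u, z s(v, u) ≠ 0 → P u) : (∑ u, if P u then z s(v, u) else 0) = 0 := by
  have h0 : (∑ u, if P u then z s(v, u) else 0) = dg z v := by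
    refine Finset.sum_congr rfl fun u _ => ?_
    split_ifs with h1
    · rfl
    · by_contra h2
      exact h1 (h u fun h3 => h2 h3.symm)
  rw [h0, hz]

private theorem a3_none {z : EV V} {v : V} (P : V → Prop)
    (h : ∀ u, z s(v, u) ≠ 0 → ¬ P u) : (∑ u, if P u then z s(v, u) else 0) = 0 := by
  refine Finset.sum_eq_zero fun u _ => ?_
  split_ifs with h1
  · by_contra h2
    exact h u h2 h1
  · rfl

/-- (f2) ALL OR NONE. If no edge at `v` is in `∑ i ∈ S, F i`, then all faces at `v` are in `S` or no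
face at `v` is in `S`. Proof: let `A` be the set of `u` such that some face of `S` contains
`s(v,u)`; then both faces of this edge are in `S`. For `z = ∑ i ∈ T, F i` the number of edges
`s(v,u)`, `u ∈ A`, in `z` is the parity at `v` of `∑ i ∈ T ∩ S, F i`, hence 0. Apply
`parity_vertex`. -/
theorem FaceSys.all_or_none (fs : FaceSys G ι F) (sep : SepFree G) (S : Finset ι) (v : V)
    (hk : ∀ u, (∑ i ∈ S, F i) s(v, u) = 0) :
    (∀ i, On (F i) v → i ∈ S) ∨ (∀ i, On (F i) v → i ∉ S) := by
  by_contra hcon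
  rw [not_or] at hcon
  obtain ⟨h1, h2⟩ := hcon
  push Not at h1 h2
  obtain ⟨i, ⟨ui, hui⟩, hiS⟩ := h1
  obtain ⟨j, ⟨uj, huj⟩, hjS⟩ := h2
  have hboth : ∀ u k k', k ∈ S → F k s(v, u) ≠ 0 → F k' s(v, u) ≠ 0 → k' ∈ S := by
    intro u k k' hkS hF hF'
    by_contra hk'
    have hne : k ≠ k' := fun h => hk' (h ▸ hkS)
    exact (fs.sum_ne_zero S hne hF hF').2 (Or.inl ⟨hkS, hk'⟩) (hk u)
  obtain ⟨z, hz, hzne⟩ := parity_vertex sep (v := v) {u | ∃ k ∈ S, F k s(v, u) ≠ 0}
    ⟨uj, a3_edge fs huj, j, hjS, huj⟩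
    ⟨ui, a3_edge fs hui, fun ⟨k, hkS, hF⟩ => hiS (hboth ui k i hkS hF hui)⟩
  apply hzne
  refine a3_restrict fs v (fun u => u ∈ {u | ∃ k ∈ S, F k s(v, u) ≠ 0}) (fun k => ?_) hz
  by_cases hkS : k ∈ S
  · exact a3_full _ ((fs.cyc k).2 v) fun u hu => ⟨k, hkS, hu⟩
  · exact a3_none _ fun u hu ⟨k', hk'S, hF⟩ => hkS (hboth u k' k hk'S hF hu)

/-- (f3) every face is a cycle. Proof: use `min_is_cycle`. Suppose `F j = a + b` with `a`, `b`
non-zero, disjoint, in the cycle space. Write `a = ∑ i ∈ S, F i`, `j ∉ S` (`gen'`), and let `E1` be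
the set of edges which are in some face of `S`. Then `a ⊆ E1`, `b` does not meet `E1`, a face outside
`S ∪ {j}` does not meet `E1` (such an edge would have exactly one face in `S`, so it would be in `a`,
hence in `F j`, third face). For `z = ∑ i ∈ T, F i` the restriction of `z` to `E1` is
`∑ i ∈ T ∩ S, F i` plus possibly `a`, hence even. Contradiction to `parity_edges`. -/
theorem FaceSys.face_cycle (fs : FaceSys G ι F) (sep : SepFree G) (i : ι) :
    ∃ (n : ℕ) (x : ZMod n → V), IsCycSeq G x ∧ F i = cvec x := by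
  refine min_is_cycle (fs.cyc i) (fs.ne i) fun a b ha hb hab hdis => ?_
  by_contra hcon
  rw [not_or] at hcon
  obtain ⟨ha0, hb0⟩ := hcon
  obtain ⟨S, hiS, hS⟩ := fs.gen' i ha
  have haE : ∀ e, a e ≠ 0 → ∃ k ∈ S, F k e ≠ 0 := by
    intro e he
    by_contra hno
    push Not at hno
    apply he
    rw [hS, Finset.sum_apply]
    exact Finset.sum_eq_zero fun k hk => hno k hk
  -- an edge with a face in `S` and a face outside `S` is in `a`
  have hmix : ∀ e k k', k ∈ S → k' ∉ S → F k e ≠ 0 → F k' e ≠ 0 → a e ≠ 0 := by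
    intro e k k' hk hk' hF hF'
    have hne : k ≠ k' := fun h => hk' (h ▸ hk)
    rw [hS]
    exact (fs.sum_ne_zero S hne hF hF').2 (Or.inl ⟨hk, hk'⟩)
  have hFe : ∀ e, F i e = a e + b e := fun e => congrFun hab e
  have hbE : ∀ e, b e ≠ 0 → ¬ ∃ k ∈ S, F k e ≠ 0 := by
    rintro e he ⟨k, hkS, hF⟩
    have h1 : a e = 0 := by
      by_contra h
      exact he (hdis e h)
    have h2 : F i e ≠ 0 := by rw [hFe, h1, zero_add]; exact he
    exact hmix e k i hkS hiS hF h2 h1
  obtain ⟨ea, hea⟩ : ∃ e, a e ≠ 0 := by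
    by_contra h
    push Not at h
    exact ha0 (funext h)
  obtain ⟨eb, heb⟩ : ∃ e, b e ≠ 0 := by
    by_contra h
    push Not at h
    exact hb0 (funext h)
  obtain ⟨z, v, hz, hzne⟩ := parity_edges sep {e | ∃ k ∈ S, F k e ≠ 0}
    ⟨ea, by_contra fun h => hea (ha.1 ea h), haE ea hea⟩
    ⟨eb, by_contra fun h => heb (hb.1 eb h), hbE eb heb⟩
  apply hzne
  refine a3_restrict fs v (fun u => s(v, u) ∈ {e | ∃ k ∈ S, F k e ≠ 0}) (fun k => ?_) hz
  by_cases hkS : k ∈ S
  · exact a3_full _ ((fs.cyc k).2 v) fun u hu => ⟨k, hkS, hu⟩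
  · by_cases hki : k = i
    · subst hki
      refine Eq.trans (b := dg a v) (Finset.sum_congr rfl fun u _ => ?_) (ha.2 v)
      split_ifs with h1
      · rw [hFe]
        have h2 : b s(v, u) = 0 := by
          by_contra h3
          exact hbE _ h3 h1
        rw [h2, add_zero]
      · by_contra h2
        exact h1 (haE _ fun h3 => h2 h3.symm)
    · refine a3_none _ fun u hu => ?_
      rintro ⟨k', hk'S, hF⟩
      have h1 := hmix _ k' k hk'S hkS hF hu
      have h2 : F i s(v, u) ≠ 0 := by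
        rw [hFe, hdis _ h1, add_zero]
        exact h1
      have hne : k' ≠ k := fun h => hkS (h ▸ hk'S)
      rcases a3_third fs hne hF hu h2 with h3 | h3
      · exact hiS (h3 ▸ hk'S)
      · exact hki h3.symm

/-- different indices have different face vectors, unless all edges of `G` are on the face -/
theorem FaceSys.face_inj (fs : FaceSys G ι F) (sep : SepFree G) {i j : ι}
    (h : ∃ e ∈ G.edgeSet, F i e = 0) (hij : F i = F j) : i = j := by
  by_contra hne
  obtain ⟨e1, he1⟩ : ∃ e, F i e ≠ 0 := by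
    by_contra h
    push Not at h
    exact fs.ne i (funext h)
  obtain ⟨e2, he2, h2⟩ := h
  obtain ⟨z, v, hz, hzne⟩ := parity_edges sep {e | F i e ≠ 0} ⟨e1, a3_edge fs he1, he1⟩
    ⟨e2, he2, fun h => h h2⟩
  apply hzne
  refine a3_restrict fs v (fun u => s(v, u) ∈ {e | F i e ≠ 0}) (fun k => ?_) hz
  by_cases hk : k = i ∨ k = j
  · have hF : F k = F i := by
      rcases hk with rfl | rfl
      · rfl
      · exact hij.symm
    rw [hF]
    exact a3_full _ ((fs.cyc i).2 v) fun u hu => hu
  · refine a3_none _ fun u hu hi => hk ?_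
    have hi' : F i s(v, u) ≠ 0 := hi
    have hj' : F j s(v, u) ≠ 0 := by rw [← hij]; exact hi'
    exact a3_third fs hne hi' hj' hu

/-- every face at `v` has exactly two edges at `v` -/
theorem FaceSys.two_at (fs : FaceSys G ι F) (sep : SepFree G) {i : ι} {v : V} (h : On (F i) v) :
    (univ.filter (fun u => F i s(v, u) ≠ 0)).card = 2 := by
  obtain ⟨n, x, hx, hF⟩ := fs.face_cycle sep i
  rw [hF] at h ⊢
  obtain ⟨j, rfl⟩ := (cvec_on hx v).1 h
  rw [Finset.card_eq_two]
  refine ⟨x (j + 1), x (j - 1), cyc_nbrs_ne hx j, ?_⟩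
  ext u
  rw [Finset.mem_filter, cvec_at hx j u]
  simp

/-- the number of faces at `v` is the number of neighbours of `v` -/
theorem FaceSys.faces_at (fs : FaceSys G ι F) (sep : SepFree G) (v : V) :
    (univ.filter (fun i => On (F i) v)).card = dgr G v := by
  have hd : dgr G v = (univ.filter (fun u => G.Adj v u)).card := by
    unfold dgr
    rw [← Set.ncard_coe_finset]
    congr 1
    ext u
    simp
  rw [hd]
  have h := Finset.card_mul_eq_card_mul (fun (i : ι) (u : V) => F i s(v, u) ≠ 0)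
    (s := univ.filter (fun i => On (F i) v)) (t := univ.filter (fun u => G.Adj v u))
    (m := 2) (n := 2) (fun i hi => ?_) (fun u hu => ?_)
  · omega
  · refine Eq.trans ?_ (fs.two_at sep (Finset.mem_filter.1 hi).2)
    congr 1
    ext u
    rw [Finset.mem_bipartiteAbove, Finset.mem_filter, Finset.mem_filter]
    constructor
    · rintro ⟨-, h2⟩
      exact ⟨Finset.mem_univ _, h2⟩
    · rintro ⟨-, h2⟩
      exact ⟨⟨Finset.mem_univ _, a3_edge fs h2⟩, h2⟩
  · refine Eq.trans ?_ (fs.two s(v, u) (Finset.mem_filter.1 hu).2)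
    congr 1
    ext i
    rw [Finset.mem_bipartiteBelow, Finset.mem_filter, Finset.mem_filter]
    constructor
    · rintro ⟨-, h2⟩
      exact ⟨Finset.mem_univ _, h2⟩
    · rintro ⟨-, h2⟩
      exact ⟨⟨Finset.mem_univ _, u, h2⟩, h2⟩

/-- (f4) if two different faces share two edges at `v`, then `v` has degree 2 (`parity_vertex` with
`A = {u1, u2}`) -/
theorem FaceSys.deg_two (fs : FaceSys G ι F) (sep : SepFree G) {i j : ι} {v u1 u2 : V}
    (hij : i ≠ j) (hu : u1 ≠ u2) (h1 : F i s(v, u1) ≠ 0) (h2 : F i s(v, u2) ≠ 0)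
    (h3 : F j s(v, u1) ≠ 0) (h4 : F j s(v, u2) ≠ 0) : dgr G v = 2 := by
  have hu' := hu
  have hpair : ∀ k, F k s(v, u1) ≠ 0 → F k s(v, u2) ≠ 0 → ∀ u, F k s(v, u) ≠ 0 →
      u = u1 ∨ u = u2 := by
    intro k hk1 hk2 u hu
    have hc := fs.two_at sep (i := k) (v := v) ⟨u1, hk1⟩
    have hsub : ({u1, u2} : Finset V) ⊆ univ.filter (fun u => F k s(v, u) ≠ 0) := by
      intro w hw
      rw [Finset.mem_insert, Finset.mem_singleton] at hw
      rw [Finset.mem_filter]
      rcases hw with rfl | rfl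
      · exact ⟨Finset.mem_univ _, hk1⟩
      · exact ⟨Finset.mem_univ _, hk2⟩
    have heq := Finset.eq_of_subset_of_card_le hsub (by
      rw [hc, Finset.card_pair hu'])
    have hmem : u ∈ univ.filter (fun u => F k s(v, u) ≠ 0) :=
      Finset.mem_filter.2 ⟨Finset.mem_univ _, hu⟩
    rw [← heq, Finset.mem_insert, Finset.mem_singleton] at hmem
    exact hmem
  have hnb : ∀ u, G.Adj v u → u = u1 ∨ u = u2 := by
    by_contra hcon
    push Not at hcon
    obtain ⟨u3, hadj, hu31, hu32⟩ := hcon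
    obtain ⟨z, hz, hzne⟩ := parity_vertex sep (v := v) {u | u = u1 ∨ u = u2}
      ⟨u1, a3_edge fs h1, Or.inl rfl⟩ ⟨u3, hadj, fun h => h.elim hu31 hu32⟩
    apply hzne
    refine a3_restrict fs v (fun u => u ∈ {u | u = u1 ∨ u = u2}) (fun k => ?_) hz
    by_cases hk : k = i ∨ k = j
    · refine a3_full _ ((fs.cyc k).2 v) fun u hu => ?_
      rcases hk with rfl | rfl
      · exact hpair _ h1 h2 u hu
      · exact hpair _ h3 h4 u hu
    · refine a3_none _ fun u huk hu12 => hk ?_
      rcases hu12 with hu1 | hu2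
      · rw [hu1] at huk
        exact a3_third fs hij h1 h3 huk
      · rw [hu2] at huk
        exact a3_third fs hij h2 h4 huk
  unfold dgr
  have hset : G.neighborSet v = {u1, u2} := by
    ext u
    rw [SimpleGraph.mem_neighborSet, Set.mem_insert_iff, Set.mem_singleton_iff]
    constructor
    · exact hnb u
    · rintro (rfl | rfl)
      · exact a3_edge fs h1
      · exact a3_edge fs h2
  rw [hset, Set.ncard_pair hu]

/-- (f4) at a vertex of degree 3 any two edges lie in a common face -/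
theorem FaceSys.deg_three (fs : FaceSys G ι F) (sep : SepFree G) {v u1 u2 : V}
    (hd : dgr G v = 3) (h1 : G.Adj v u1) (h2 : G.Adj v u2) (hu : u1 ≠ u2) :
    ∃ i, F i s(v, u1) ≠ 0 ∧ F i s(v, u2) ≠ 0 ∧
      ∀ j, F j s(v, u1) ≠ 0 → F j s(v, u2) ≠ 0 → j = i := by
  obtain ⟨a, b, hab, ha, hb, -⟩ := fs.exists_two (e := s(v, u1)) h1
  obtain ⟨c, d, hcd, hc, hd', -⟩ := fs.exists_two (e := s(v, u2)) h2
  have hex : ∃ i, F i s(v, u1) ≠ 0 ∧ F i s(v, u2) ≠ 0 := by
    by_contra hno
    push Not at hno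
    have hdis : Disjoint ({a, b} : Finset ι) {c, d} := by
      rw [Finset.disjoint_left]
      intro k hk hk'
      rw [Finset.mem_insert, Finset.mem_singleton] at hk hk'
      have hk1 : F k s(v, u1) ≠ 0 := by rcases hk with rfl | rfl <;> assumption
      have hk2 : F k s(v, u2) ≠ 0 := by rcases hk' with rfl | rfl <;> assumption
      exact hk2 (hno k hk1)
    have hsub : ({a, b} ∪ {c, d} : Finset ι) ⊆ univ.filter (fun i => On (F i) v) := by
      intro k hk
      rw [Finset.mem_filter]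
      refine ⟨Finset.mem_univ _, ?_⟩
      rw [Finset.mem_union, Finset.mem_insert, Finset.mem_singleton, Finset.mem_insert,
        Finset.mem_singleton] at hk
      rcases hk with (rfl | rfl) | (rfl | rfl)
      · exact ⟨u1, ha⟩
      · exact ⟨u1, hb⟩
      · exact ⟨u2, hc⟩
      · exact ⟨u2, hd'⟩
    have hcard := Finset.card_le_card hsub
    rw [fs.faces_at sep v, hd, Finset.card_union_of_disjoint hdis, Finset.card_pair hab,
      Finset.card_pair hcd] at hcard
    omega
  obtain ⟨i, hi1, hi2⟩ := hex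
  refine ⟨i, hi1, hi2, fun j hj1 hj2 => ?_⟩
  by_contra hne
  have h3 := fs.deg_two sep hne hu hj1 hj2 hi1 hi2
  omega

end

end Pool.Agent.W_fb73a4_h20
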