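import Pool.Agent.W_fb73a4_h20.MA

set_option autoImplicit false

namespace Pool.Agent.W_fb73a4_h20

open Finset
open scoped Classical

section

/-!
D1a: MacLane planarity is closed under taking subgraphs.
-/

variable {V : Type} [Fintype V]

private theorem d1a_dg_add (z z' : EV V) (v : V) : dg (z + z') v = dg z v + dg z' v := by
  unfold dg
  rw [← Finset.sum_add_distrib]
  rfl

private theorem d1a_dg_smul (a : ZMod 2) (z : EV V) (v : V) : dg (a • z) v = a * dg z v := by
  unfold dg
  rw [Finset.mul_sum]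
  rfl

private theorem d1a_two (a : ZMod 2) : a + a = 0 := by
  revert a
  decide

private theorem d1a_one (a : ZMod 2) (h : a ≠ 0) : a = 1 := by
  revert a
  decide

omit [Fintype V] in
private theorem d1a_mem_edge {G H : SimpleGraph V} {e : Sym2 V}
    (h : ∀ u v, H.Adj u v ↔ (G.Adj u v ∧ s(u, v) ≠ e)) (e' : Sym2 V) :
    e' ∈ H.edgeSet ↔ e' ∈ G.edgeSet ∧ e' ≠ e := by
  induction e' using Sym2.ind with
  | _ u v =>
    rw [SimpleGraph.mem_edgeSet, SimpleGraph.mem_edgeSet]
    exact h u v

/-- deleting one edge: if two members `B i`, `B j` of the family contain `e`, replace `B i` by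
`B i + B j` and `B j` by 0; if only one contains `e`, replace it by 0. -/
theorem maclane_delete_one {G H : SimpleGraph V} (hG : MacLane G) (e : Sym2 V)
    (h : ∀ u v, H.Adj u v ↔ (G.Adj u v ∧ s(u, v) ≠ e)) : MacLane H := by
  have hmem := d1a_mem_edge h
  obtain ⟨n, B, hB, hcard, hgen⟩ := hG
  have hGcyc : ∀ z, IsCyc H z → IsCyc G z ∧ z e = 0 := by
    intro z hz
    refine ⟨⟨fun e' he' => hz.1 e' fun h1 => he' ((hmem e').1 h1).1, hz.2⟩, ?_⟩
    exact hz.1 e fun h1 => ((hmem e).1 h1).2 rfl
  have hHcyc : ∀ z, IsCyc G z → z e = 0 → IsCyc H z := by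
    intro z hz hze
    refine ⟨fun e' he' => ?_, hz.2⟩
    by_cases h1 : e' = e
    · rw [h1, hze]
    · exact hz.1 e' fun h2 => he' ((hmem e').2 ⟨h2, h1⟩)
  by_cases hex : ∃ j, B j e ≠ 0
  · obtain ⟨j, hj⟩ := hex
    have hj1 : B j e = 1 := d1a_one _ hj
    refine ⟨n, fun k => B k + B k e • B j, fun k => ?_, fun e' => ?_, fun z hz => ?_⟩
    · apply hHcyc
      · refine ⟨fun e' he' => ?_, fun v => ?_⟩
        · show B k e' + B k e * B j e' = 0
          rw [(hB k).1 e' he', (hB j).1 e' he', mul_zero, add_zero]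
        · rw [d1a_dg_add, d1a_dg_smul, (hB k).2, (hB j).2, mul_zero, add_zero]
      · show B k e + B k e * B j e = 0
        rw [hj1, mul_one, d1a_two]
    · have hval : ∀ k, (B k + B k e • B j) e' = B k e' + B k e * B j e' := fun k => rfl
      by_cases h0 : B j e' = 0
      · have h1 : (univ.filter (fun k => (B k + B k e • B j) e' ≠ 0)) =
            univ.filter (fun k => B k e' ≠ 0) := by
          apply Finset.filter_congr
          intro k _
          rw [hval, h0, mul_zero, add_zero]
        rw [h1]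
        exact hcard e'
      · have h1 : (univ.filter (fun k => (B k + B k e • B j) e' ≠ 0)) ⊆
            (univ.filter (fun k => B k e' ≠ 0)).erase j ∪
              (univ.filter (fun k => B k e ≠ 0)).erase j := by
          intro k hk
          rw [Finset.mem_filter, hval] at hk
          have hkj : k ≠ j := by
            rintro rfl
            apply hk.2
            rw [hj1, one_mul, d1a_two]
          rw [Finset.mem_union, Finset.mem_erase, Finset.mem_erase, Finset.mem_filter,
            Finset.mem_filter]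
          by_cases h2 : B k e = 0
          · left
            refine ⟨hkj, Finset.mem_univ k, ?_⟩
            have h3 := hk.2
            rwa [h2, zero_mul, add_zero] at h3
          · right
            exact ⟨hkj, Finset.mem_univ k, h2⟩
        have h2 : ((univ.filter (fun k => B k e' ≠ 0)).erase j).card ≤ 1 := by
          rw [Finset.card_erase_of_mem (by rw [Finset.mem_filter]; exact ⟨Finset.mem_univ j, h0⟩)]
          have := hcard e'
          omega
        have h3 : ((univ.filter (fun k => B k e ≠ 0)).erase j).card ≤ 1 := by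
          rw [Finset.card_erase_of_mem (by rw [Finset.mem_filter]; exact ⟨Finset.mem_univ j, hj⟩)]
          have := hcard e
          omega
        refine (Finset.card_le_card h1).trans ((Finset.card_union_le _ _).trans ?_)
        omega
    · obtain ⟨hzG, hze⟩ := hGcyc z hz
      obtain ⟨S, hS⟩ := hgen z hzG
      refine ⟨S, ?_⟩
      rw [Finset.sum_add_distrib, ← Finset.sum_smul, ← hS]
      have h1 : ∑ k ∈ S, B k e = z e := by
        rw [hS, Finset.sum_apply]
      rw [h1, hze, zero_smul, add_zero]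
  · push Not at hex
    refine ⟨n, B, fun k => hHcyc _ (hB k) (hex k), hcard, fun z hz => hgen z (hGcyc z hz).1⟩

/-- subgraphs (induction on the number of missing edges) -/
theorem maclane_mono {G H : SimpleGraph V} (hG : MacLane G) (h : H ≤ G) : MacLane H := by
  have key : ∀ N : ℕ, ∀ G : SimpleGraph V, MacLane G → H ≤ G →
      (G.edgeSet \ H.edgeSet).ncard ≤ N → MacLane H := by
    intro N
    induction N with
    | zero =>
      intro G hG hHG hN
      have h1 : G.edgeSet \ H.edgeSet = ∅ := by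
        rw [← Set.ncard_eq_zero (Set.toFinite _)]
        omega
      have h2 : G.edgeSet ⊆ H.edgeSet := Set.sdiff_eq_empty.1 h1
      have h3 : G = H := by
        apply le_antisymm _ hHG
        exact SimpleGraph.edgeSet_subset_edgeSet.1 h2
      rw [← h3]
      exact hG
    | succ N ih =>
      intro G hG hHG hN
      by_cases h1 : G.edgeSet \ H.edgeSet = ∅
      · exact ih G hG hHG (by rw [h1, Set.ncard_empty]; omega)
      · obtain ⟨e, he, heH⟩ := Set.nonempty_iff_ne_empty.2 h1
        have hdel : ∀ u v, (G.deleteEdges {e}).Adj u v ↔ (G.Adj u v ∧ s(u, v) ≠ e) := by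
          intro u v
          rw [SimpleGraph.deleteEdges_adj, Set.mem_singleton_iff]
        refine ih (G.deleteEdges {e}) (maclane_delete_one hG e hdel) ?_ ?_
        · intro u v huv
          rw [hdel]
          refine ⟨hHG huv, ?_⟩
          rintro rfl
          exact heH huv
        · have h2 : (G.deleteEdges {e}).edgeSet \ H.edgeSet = (G.edgeSet \ H.edgeSet) \ {e} := by
            ext e'
            have h3 := d1a_mem_edge hdel e'
            rw [Set.mem_sdiff, h3, Set.mem_sdiff, Set.mem_sdiff, Set.mem_singleton_iff]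
            tauto
          rw [h2]
          have h3 := Set.ncard_sdiff_singleton_add_one (s := G.edgeSet \ H.edgeSet) (a := e)
            ⟨he, heH⟩ (Set.toFinite _)
          omega
  exact key _ G hG h le_rfl

end

section

/-!
D1: MacLane planarity is closed under taking subgraphs and under the identification used in the
tetrad reduction.
-/

variable {V : Type} [Fintype V]

/-- the identification map on the vertices -/
noncomputable def D1_pi (p q v : V) : V := if v = q then p else v

omit [Fintype V] in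
theorem D1_pi_q (p q : V) : D1_pi p q q = p := if_pos rfl

omit [Fintype V] in
theorem D1_pi_ne {p q v : V} (h : v ≠ q) : D1_pi p q v = v := if_neg h

omit [Fintype V] in
theorem D1_pi_ne_q {p q : V} (hpq : p ≠ q) (v : V) : D1_pi p q v ≠ q := by
  by_cases h : v = q
  · rw [h, D1_pi_q]
    exact hpq
  · rw [D1_pi_ne h]
    exact h

omit [Fintype V] in
theorem D1_pi_eq {p q a a' : V} (h : D1_pi p q a = D1_pi p q a') :
    a = a' ∨ (a = p ∧ a' = q) ∨ (a = q ∧ a' = p) := by
  by_cases h1 : a = q
  · by_cases h2 : a' = q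
    · exact Or.inl (h1.trans h2.symm)
    · rw [h1, D1_pi_q, D1_pi_ne h2] at h
      exact Or.inr (Or.inr ⟨h1, h.symm⟩)
  · by_cases h2 : a' = q
    · rw [h2, D1_pi_q, D1_pi_ne h1] at h
      exact Or.inr (Or.inl ⟨h, h2⟩)
    · rw [D1_pi_ne h1, D1_pi_ne h2] at h
      exact Or.inl h

omit [Fintype V] in
/-- an edge of the identified graph comes from one edge -/
theorem D1_pi_uniq {K : SimpleGraph V} {p q : V} (hn : ¬ K.Adj p q)
    (hcom : ∀ u, K.Adj p u → K.Adj q u → False) {a b a' b' : V} (h : K.Adj a b)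
    (h' : K.Adj a' b') (ha : D1_pi p q a = D1_pi p q a') (hb : D1_pi p q b = D1_pi p q b') :
    a = a' ∧ b = b' := by
  rcases D1_pi_eq ha with e1 | ⟨e1, e2⟩ | ⟨e1, e2⟩
  · rcases D1_pi_eq hb with e3 | ⟨e3, e4⟩ | ⟨e3, e4⟩
    · exact ⟨e1, e3⟩
    · subst e1 e3 e4
      exact absurd h'.symm (hcom a h.symm)
    · subst e1 e3 e4
      exact absurd h.symm (hcom a h'.symm)
  · subst e1 e2
    rcases D1_pi_eq hb with e3 | ⟨e3, e4⟩ | ⟨e3, e4⟩
    · subst e3
      exact absurd h' (hcom b h)
    · subst e3 e4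
      exact absurd rfl h.ne
    · subst e3 e4
      exact absurd h hn
  · subst e1 e2
    rcases D1_pi_eq hb with e3 | ⟨e3, e4⟩ | ⟨e3, e4⟩
    · subst e3
      exact absurd h (hcom b h')
    · subst e3 e4
      exact absurd h.symm hn
    · subst e3 e4
      exact absurd rfl h.ne

omit [Fintype V] in
theorem D1_ident_adj {K : SimpleGraph V} {p q : V} (hpq : p ≠ q) (hn : ¬ K.Adj p q) (v u : V) :
    (ident K p q).Adj v u ↔ ∃ a b, D1_pi p q a = v ∧ D1_pi p q b = u ∧ K.Adj a b := by
  constructor
  · rintro ⟨-, h2, h3, h4 | ⟨h4, h5⟩ | ⟨h4, h5⟩⟩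
    · exact ⟨v, u, D1_pi_ne h2, D1_pi_ne h3, h4⟩
    · exact ⟨q, u, (D1_pi_q p q).trans h4.symm, D1_pi_ne h3, h5⟩
    · exact ⟨v, q, D1_pi_ne h2, (D1_pi_q p q).trans h4.symm, h5⟩
  · rintro ⟨a, b, rfl, rfl, h⟩
    refine ⟨?_, D1_pi_ne_q hpq a, D1_pi_ne_q hpq b, ?_⟩
    · intro he
      rcases D1_pi_eq he with e | ⟨e1, e2⟩ | ⟨e1, e2⟩
      · exact h.ne e
      · subst e1 e2
        exact hn h
      · subst e1 e2
        exact hn h.symm
    · by_cases ha : a = q
      · have hb : b ≠ q := fun e => h.ne (ha.trans e.symm)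
        rw [D1_pi_ne hb, ha, D1_pi_q]
        exact Or.inr (Or.inl ⟨rfl, ha ▸ h⟩)
      · by_cases hb : b = q
        · rw [D1_pi_ne ha, hb, D1_pi_q]
          exact Or.inr (Or.inr ⟨rfl, hb ▸ h⟩)
        · rw [D1_pi_ne ha, D1_pi_ne hb]
          exact Or.inl h

/-- the image of an edge vector under the identification (only edges of `K` count) -/
noncomputable def D1_psh (K : SimpleGraph V) (p q : V) (z : EV V) : EV V :=
  Sym2.lift ⟨fun v u => ∑ a, ∑ b,
    if D1_pi p q a = v ∧ D1_pi p q b = u ∧ K.Adj a b then z s(a, b) else 0, by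
      intro v u
      show (∑ a, ∑ b, if D1_pi p q a = v ∧ D1_pi p q b = u ∧ K.Adj a b then z s(a, b) else 0) =
        ∑ a, ∑ b, if D1_pi p q a = u ∧ D1_pi p q b = v ∧ K.Adj a b then z s(a, b) else 0
      rw [Finset.sum_comm]
      refine Finset.sum_congr rfl fun b _ => Finset.sum_congr rfl fun a _ => ?_
      have e : (D1_pi p q a = v ∧ D1_pi p q b = u ∧ K.Adj a b) ↔
          (D1_pi p q b = u ∧ D1_pi p q a = v ∧ K.Adj b a) := by
        rw [K.adj_comm]
        tauto
      rw [Sym2.eq_swap (a := a)]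
      exact if_congr e rfl rfl⟩

theorem D1_psh_mk (K : SimpleGraph V) (p q : V) (z : EV V) (v u : V) :
    D1_psh K p q z s(v, u) = ∑ a, ∑ b,
      if D1_pi p q a = v ∧ D1_pi p q b = u ∧ K.Adj a b then z s(a, b) else 0 := rfl

theorem D1_psh_add (K : SimpleGraph V) (p q : V) (z z' : EV V) :
    D1_psh K p q (z + z') = D1_psh K p q z + D1_psh K p q z' := by
  funext e
  induction e using Sym2.ind with
  | _ v u =>
    rw [Pi.add_apply, D1_psh_mk, D1_psh_mk, D1_psh_mk, ← Finset.sum_add_distrib]
    refine Finset.sum_congr rfl fun a _ => ?_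
    rw [← Finset.sum_add_distrib]
    refine Finset.sum_congr rfl fun b _ => ?_
    split_ifs
    · rfl
    · rw [add_zero]

theorem D1_psh_zero (K : SimpleGraph V) (p q : V) : D1_psh K p q (0 : EV V) = 0 := by
  have h := D1_psh_add K p q (0 : EV V) 0
  rw [add_zero] at h
  exact left_eq_add.1 h

theorem D1_psh_sum {ι : Type} (K : SimpleGraph V) (p q : V) (S : Finset ι) (B : ι → EV V) :
    D1_psh K p q (∑ i ∈ S, B i) = ∑ i ∈ S, D1_psh K p q (B i) := by
  let f : EV V →+ EV V :=
    { toFun := D1_psh K p q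
      map_zero' := D1_psh_zero K p q
      map_add' := D1_psh_add K p q }
  exact map_sum f B S

/-- the degree in `K` -/
noncomputable def D1_dgK (K : SimpleGraph V) (z : EV V) (a : V) : ZMod 2 :=
  ∑ b, if K.Adj a b then z s(a, b) else 0

theorem D1_dg_psh (K : SimpleGraph V) (p q : V) (z : EV V) (v : V) :
    dg (D1_psh K p q z) v = ∑ a, if D1_pi p q a = v then D1_dgK K z a else 0 := by
  unfold dg
  have h1 : ∀ u, D1_psh K p q z s(v, u) = ∑ a, ∑ b,
      if D1_pi p q a = v ∧ D1_pi p q b = u ∧ K.Adj a b then z s(a, b) else 0 :=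
    fun u => D1_psh_mk K p q z v u
  rw [Finset.sum_congr rfl fun u _ => h1 u, Finset.sum_comm]
  refine Finset.sum_congr rfl fun a _ => ?_
  rw [Finset.sum_comm]
  by_cases ha : D1_pi p q a = v
  · rw [if_pos ha]
    unfold D1_dgK
    refine Finset.sum_congr rfl fun b _ => ?_
    by_cases hab : K.Adj a b
    · rw [if_pos hab, Finset.sum_eq_single (D1_pi p q b)]
      · rw [if_pos ⟨ha, rfl, hab⟩]
      · intro u _ hu
        rw [if_neg fun h => hu h.2.1.symm]
      · intro h
        exact absurd (Finset.mem_univ _) h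
    · rw [if_neg hab]
      exact Finset.sum_eq_zero fun u _ => if_neg fun h => hab h.2.2
  · rw [if_neg ha]
    exact Finset.sum_eq_zero fun b _ => Finset.sum_eq_zero fun u _ => if_neg fun h => ha h.1

theorem D1_dg_psh_q (K : SimpleGraph V) {p q : V} (hpq : p ≠ q) (z : EV V) :
    dg (D1_psh K p q z) q = 0 := by
  rw [D1_dg_psh]
  exact Finset.sum_eq_zero fun a _ => if_neg (D1_pi_ne_q hpq a)

theorem D1_dg_psh_p (K : SimpleGraph V) {p q : V} (hpq : p ≠ q) (z : EV V) :
    dg (D1_psh K p q z) p = D1_dgK K z p + D1_dgK K z q := by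
  rw [D1_dg_psh, ← Finset.sum_subset (Finset.subset_univ {p, q}), Finset.sum_pair hpq,
    if_pos (D1_pi_ne hpq), if_pos (D1_pi_q p q)]
  intro a _ ha
  rw [Finset.mem_insert, Finset.mem_singleton, not_or] at ha
  refine if_neg ?_
  rw [D1_pi_ne ha.2]
  exact ha.1

theorem D1_dg_psh_ne (K : SimpleGraph V) {p q : V} (z : EV V) {v : V} (hp : v ≠ p)
    (hq : v ≠ q) : dg (D1_psh K p q z) v = D1_dgK K z v := by
  rw [D1_dg_psh, Finset.sum_eq_single v]
  · rw [if_pos (D1_pi_ne hq)]
  · intro a _ ha
    refine if_neg fun h => ?_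
    by_cases h1 : a = q
    · rw [h1, D1_pi_q] at h
      exact hp h.symm
    · rw [D1_pi_ne h1] at h
      exact ha h
  · intro h
    exact absurd (Finset.mem_univ _) h

theorem D1_psh_edge {K : SimpleGraph V} {p q : V} (hn : ¬ K.Adj p q)
    (hcom : ∀ u, K.Adj p u → K.Adj q u → False) (z : EV V) {a b : V} (h : K.Adj a b) :
    D1_psh K p q z s(D1_pi p q a, D1_pi p q b) = z s(a, b) := by
  rw [D1_psh_mk, Finset.sum_eq_single a, Finset.sum_eq_single b, if_pos ⟨rfl, rfl, h⟩]
  · intro b' _ hb'
    exact if_neg fun h1 => hb' (D1_pi_uniq hn hcom h1.2.2 h h1.1 h1.2.1).2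
  · intro h
    exact absurd (Finset.mem_univ _) h
  · intro a' _ ha'
    exact Finset.sum_eq_zero fun b' _ =>
      if_neg fun h1 => ha' (D1_pi_uniq hn hcom h1.2.2 h h1.1 h1.2.1).1
  · intro h
    exact absurd (Finset.mem_univ _) h

theorem D1_psh_out {K : SimpleGraph V} {p q : V} (hpq : p ≠ q) (hn : ¬ K.Adj p q) (z : EV V)
    {v u : V} (h : ¬ (ident K p q).Adj v u) : D1_psh K p q z s(v, u) = 0 := by
  rw [D1_psh_mk]
  exact Finset.sum_eq_zero fun a _ => Finset.sum_eq_zero fun b _ =>
    if_neg fun h1 => h ((D1_ident_adj hpq hn v u).2 ⟨a, b, h1⟩)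

/-- the family of the images has every edge at most twice -/
theorem D1_psh_two {K : SimpleGraph V} {p q : V} (hpq : p ≠ q) (hn : ¬ K.Adj p q)
    (hcom : ∀ u, K.Adj p u → K.Adj q u → False) {n : ℕ} (B : Fin n → EV V)
    (hB : ∀ e, (univ.filter (fun i => B i e ≠ 0)).card ≤ 2) (e : Sym2 V) :
    (univ.filter (fun i => D1_psh K p q (B i) e ≠ 0)).card ≤ 2 := by
  induction e using Sym2.ind with
  | _ v u =>
    by_cases h : (ident K p q).Adj v u
    · obtain ⟨a, b, rfl, rfl, hab⟩ := (D1_ident_adj hpq hn v u).1 h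
      have e1 : (univ.filter (fun i => D1_psh K p q (B i) s(D1_pi p q a, D1_pi p q b) ≠ 0)) =
          univ.filter (fun i => B i s(a, b) ≠ 0) := by
        ext i
        rw [Finset.mem_filter, Finset.mem_filter, D1_psh_edge hn hcom (B i) hab]
      rw [e1]
      exact hB _
    · have e1 : (univ.filter (fun i => D1_psh K p q (B i) s(v, u) ≠ 0)) = ∅ := by
        ext i
        rw [Finset.mem_filter, D1_psh_out hpq hn (B i) h]
        simp
      rw [e1]
      simp

theorem D1_char2 {a b : ZMod 2} (h : a + b = 0) : a = b := by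
  revert a b
  decide

theorem D1_self (a : ZMod 2) : a + a = 0 := by
  revert a
  decide

/-- IDENTIFICATION. `H` contains the path `p x1 x2 x3 q`, whose inner vertices have degree 2 in `H`;
without `x1 x2 x3` the vertices `p`, `q` are non-adjacent and have no common neighbour. Then the
graph obtained from `H - {x1,x2,x3}` by identifying `q` into `p` is again MacLane-planar.
Proof: for a vector `z` let `Φ z` be the vector on the edges of the new graph with
`Φ z s(p,n) = z s(p,n) + z s(q,n)` and `Φ z e = z e` for the edges not at `p` (0 on pairs containing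
`q`, `x1`, `x2` or `x3` and outside the new graph). If `z` is in the cycle space of `H`, `z` is
constant on the four path edges, so `Φ z` is in the cycle space of the new graph. Conversely `z'` in
the cycle space of the new graph lifts to a vector on the edges of `H - {x1,x2,x3}` with even degrees
except possibly at `p` and `q` (same parity); add the four path edges if odd. So `i ↦ Φ (B i)` is a
family as wanted: an edge of the new graph comes from exactly one edge of `H`. -/
theorem maclane_ident {H : SimpleGraph V} (hH : MacLane H) {p q x1 x2 x3 : V}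
    (hpq : p ≠ q) (hp1 : p ≠ x1) (hp2 : p ≠ x2) (hp3 : p ≠ x3) (hq1 : q ≠ x1) (hq2 : q ≠ x2)
    (hq3 : q ≠ x3) (h12 : x1 ≠ x2) (h13 : x1 ≠ x3) (h23 : x2 ≠ x3)
    (a1 : H.Adj p x1) (a2 : H.Adj x1 x2) (a3 : H.Adj x2 x3) (a4 : H.Adj x3 q)
    (n1 : ∀ u, H.Adj x1 u → u = p ∨ u = x2) (n2 : ∀ u, H.Adj x2 u → u = x1 ∨ u = x3)
    (n3 : ∀ u, H.Adj x3 u → u = x2 ∨ u = q)
    (hnadj : ¬ H.Adj p q) (hcom : ∀ u, H.Adj p u → H.Adj q u → False) :
    MacLane (ident (del H {x1, x2, x3}) p q) := by
  set X : Set V := {x1, x2, x3} with hX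
  set K := del H X with hK
  have memX : ∀ v, v ∈ X ↔ v = x1 ∨ v = x2 ∨ v = x3 := fun v => by
    rw [hX, Set.mem_insert_iff, Set.mem_insert_iff, Set.mem_singleton_iff]
  have hpX : p ∉ X := fun h => by
    rcases (memX p).1 h with h | h | h
    · exact hp1 h
    · exact hp2 h
    · exact hp3 h
  have hqX : q ∉ X := fun h => by
    rcases (memX q).1 h with h | h | h
    · exact hq1 h
    · exact hq2 h
    · exact hq3 h
  have hKle : ∀ u v, K.Adj u v → H.Adj u v := fun u v h => h.1
  have hn : ¬ K.Adj p q := fun h => hnadj h.1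
  have hcomK : ∀ u, K.Adj p u → K.Adj q u → False := fun u h h' => hcom u h.1 h'.1
  -- the degree at a vertex outside the path
  have hdeg : ∀ z : EV V, (∀ e, e ∉ H.edgeSet → z e = 0) → ∀ a, a ∉ X →
      dg z a = D1_dgK K z a + (z s(a, x1) + (z s(a, x2) + z s(a, x3))) := by
    intro z hz a ha
    have e1 : z s(a, x1) + (z s(a, x2) + z s(a, x3)) = ∑ b, if b ∈ X then z s(a, b) else 0 := by
      rw [← Finset.sum_subset (Finset.subset_univ ({x1, x2, x3} : Finset V)), Finset.sum_insert,
        Finset.sum_pair h23, if_pos ((memX x1).2 (Or.inl rfl)),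
        if_pos ((memX x2).2 (Or.inr (Or.inl rfl))), if_pos ((memX x3).2 (Or.inr (Or.inr rfl)))]
      · rw [Finset.mem_insert, Finset.mem_singleton, not_or]
        exact ⟨h12, h13⟩
      · intro b _ hb
        rw [Finset.mem_insert, Finset.mem_insert, Finset.mem_singleton] at hb
        exact if_neg fun h => hb ((memX b).1 h)
    rw [e1]
    unfold D1_dgK dg
    rw [← Finset.sum_add_distrib]
    refine Finset.sum_congr rfl fun b _ => ?_
    by_cases hb : b ∈ X
    · rw [if_pos hb, if_neg (fun h : K.Adj a b => h.2.2 hb), zero_add]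
    · rw [if_neg hb, add_zero]
      by_cases hab : H.Adj a b
      · rw [if_pos (show K.Adj a b from ⟨hab, ha, hb⟩)]
      · rw [if_neg (fun h : K.Adj a b => hab h.1)]
        exact hz _ hab
  have hdegX : ∀ z : EV V, ∀ a, a ∈ X → D1_dgK K z a = 0 := fun z a ha =>
    Finset.sum_eq_zero fun b _ => if_neg fun h : K.Adj a b => h.2.1 ha
  -- the degree at the inner vertices of the path
  have hdeg2 : ∀ z : EV V, (∀ e, e ∉ H.edgeSet → z e = 0) → ∀ x a b, a ≠ b →
      (∀ u, H.Adj x u → u = a ∨ u = b) → dg z x = z s(x, a) + z s(x, b) := by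
    intro z hz x a b hab hx
    unfold dg
    rw [← Finset.sum_subset (Finset.subset_univ ({a, b} : Finset V)), Finset.sum_pair hab]
    intro u _ hu
    rw [Finset.mem_insert, Finset.mem_singleton] at hu
    exact hz _ fun h => hu (hx u h)
  have hno : ∀ z : EV V, (∀ e, e ∉ H.edgeSet → z e = 0) → ∀ a, a ∉ X → a ≠ p → a ≠ q →
      z s(a, x1) + (z s(a, x2) + z s(a, x3)) = 0 := by
    intro z hz a ha hap haq
    have g1 : z s(a, x1) = 0 := hz _ fun h => by
      rcases n1 a (SimpleGraph.Adj.symm (G := H) h) with h | h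
      · exact hap h
      · exact ha ((memX a).2 (Or.inr (Or.inl h)))
    have g2 : z s(a, x2) = 0 := hz _ fun h => by
      rcases n2 a (SimpleGraph.Adj.symm (G := H) h) with h | h
      · exact ha ((memX a).2 (Or.inl h))
      · exact ha ((memX a).2 (Or.inr (Or.inr h)))
    have g3 : z s(a, x3) = 0 := hz _ fun h => by
      rcases n3 a (SimpleGraph.Adj.symm (G := H) h) with h | h
      · exact ha ((memX a).2 (Or.inr (Or.inl h)))
      · exact haq h
    rw [g1, g2, g3]
    rfl
  have hnp : ∀ z : EV V, (∀ e, e ∉ H.edgeSet → z e = 0) →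
      z s(p, x2) = 0 ∧ z s(p, x3) = 0 ∧ z s(q, x1) = 0 ∧ z s(q, x2) = 0 := by
    intro z hz
    refine ⟨hz _ fun h => ?_, hz _ fun h => ?_, hz _ fun h => ?_, hz _ fun h => ?_⟩
    · rcases n2 p (SimpleGraph.Adj.symm (G := H) h) with h | h
      · exact hp1 h
      · exact hp3 h
    · rcases n3 p (SimpleGraph.Adj.symm (G := H) h) with h | h
      · exact hp2 h
      · exact hpq h
    · rcases n1 q (SimpleGraph.Adj.symm (G := H) h) with h | h
      · exact hpq h.symm
      · exact hq2 h
    · rcases n2 q (SimpleGraph.Adj.symm (G := H) h) with h | h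
      · exact hq1 h
      · exact hq3 h
  obtain ⟨n, B, hB1, hB2, hB3⟩ := hH
  refine ⟨n, fun i => D1_psh K p q (B i), fun i => ?_, D1_psh_two hpq hn hcomK B hB2, ?_⟩
  · -- the image of a cycle vector
    have hz := (hB1 i).1
    have hd := (hB1 i).2
    refine ⟨fun e he => ?_, fun v => ?_⟩
    · induction e using Sym2.ind with
      | _ a b => exact D1_psh_out hpq hn _ he
    · by_cases hvq : v = q
      · rw [hvq]
        exact D1_dg_psh_q K hpq _
      · by_cases hvp : v = p
        · rw [hvp, D1_dg_psh_p K hpq]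
          have t1 := hd x1
          rw [hdeg2 _ hz x1 p x2 hp2 n1] at t1
          have t2 := hd x2
          rw [hdeg2 _ hz x2 x1 x3 h13 n2] at t2
          have t3 := hd x3
          rw [hdeg2 _ hz x3 x2 q hq2.symm n3] at t3
          have u1 := D1_char2 t1
          have u2 := D1_char2 t2
          have u3 := D1_char2 t3
          have dp := hd p
          rw [hdeg _ hz p hpX, (hnp _ hz).1, (hnp _ hz).2.1, add_zero, add_zero] at dp
          have dq := hd q
          rw [hdeg _ hz q hqX, (hnp _ hz).2.2.1, (hnp _ hz).2.2.2, zero_add, zero_add] at dq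
          rw [D1_char2 dp, D1_char2 dq, Sym2.eq_swap (a := p), Sym2.eq_swap (a := q), u1,
            Sym2.eq_swap (a := x1), u2, Sym2.eq_swap (a := x2), u3]
          exact D1_self _
        · rw [D1_dg_psh_ne K _ hvp hvq]
          by_cases hvX : v ∈ X
          · exact hdegX _ v hvX
          · have h1 := hd v
            rw [hdeg _ hz v hvX, hno _ hz v hvX hvp hvq, add_zero] at h1
            exact h1
  · -- lifting
    intro z' hz'
    let t : ZMod 2 := ∑ b, if K.Adj p b then z' s(D1_pi p q p, D1_pi p q b) else 0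
    let z : EV V := fun e => if e ∈ K.edgeSet then z' (e.map (D1_pi p q)) else
      if e = s(p, x1) ∨ e = s(x1, x2) ∨ e = s(x2, x3) ∨ e = s(x3, q) then t else 0
    have hzK : ∀ a b, K.Adj a b → z s(a, b) = z' s(D1_pi p q a, D1_pi p q b) := fun a b h =>
      if_pos h
    have hzX : ∀ a b, b ∈ X → z s(a, b) =
        if s(a, b) = s(p, x1) ∨ s(a, b) = s(x1, x2) ∨ s(a, b) = s(x2, x3) ∨ s(a, b) = s(x3, q)
        then t else 0 := fun a b h => if_neg fun h1 : K.Adj a b => h1.2.2 h
    have hz : ∀ e, e ∉ H.edgeSet → z e = 0 := by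
      intro e he
      have h1 : e ∉ K.edgeSet := fun h => he (by
        induction e using Sym2.ind with
        | _ a b => exact hKle a b h)
      show (if e ∈ K.edgeSet then z' (e.map (D1_pi p q)) else
        if e = s(p, x1) ∨ e = s(x1, x2) ∨ e = s(x2, x3) ∨ e = s(x3, q) then t else 0) = 0
      rw [if_neg h1]
      refine if_neg ?_
      rintro (rfl | rfl | rfl | rfl)
      · exact he a1
      · exact he a2
      · exact he a3
      · exact he a4
    have hpsh : D1_psh K p q z = z' := by
      funext e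
      induction e using Sym2.ind with
      | _ v u =>
        by_cases h : (ident K p q).Adj v u
        · obtain ⟨a, b, rfl, rfl, hab⟩ := (D1_ident_adj hpq hn v u).1 h
          rw [D1_psh_edge hn hcomK z hab, hzK a b hab]
        · rw [D1_psh_out hpq hn z h]
          exact (hz'.1 _ h).symm
    have hdK : ∀ a, a ≠ p → a ≠ q → D1_dgK K z a = 0 := by
      intro a hap haq
      rw [← D1_dg_psh_ne K z hap haq, hpsh]
      exact hz'.2 a
    have hdp : D1_dgK K z p = t := Finset.sum_congr rfl fun b _ => by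
      by_cases h : K.Adj p b
      · rw [if_pos h, if_pos h, hzK p b h]
      · rw [if_neg h, if_neg h]
    have hdq : D1_dgK K z q = t := by
      have h1 := hz'.2 p
      rw [← hpsh, D1_dg_psh_p K hpq, hdp] at h1
      exact (D1_char2 h1).symm
    have m1 : x1 ∈ X := (memX x1).2 (Or.inl rfl)
    have m2 : x2 ∈ X := (memX x2).2 (Or.inr (Or.inl rfl))
    have m3 : x3 ∈ X := (memX x3).2 (Or.inr (Or.inr rfl))
    have v1 : z s(p, x1) = t := by
      rw [hzX _ _ m1]
      exact if_pos (Or.inl rfl)
    have v2 : z s(x1, x2) = t := by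
      rw [hzX _ _ m2]
      exact if_pos (Or.inr (Or.inl rfl))
    have v3 : z s(x2, x3) = t := by
      rw [hzX _ _ m3]
      exact if_pos (Or.inr (Or.inr (Or.inl rfl)))
    have v4 : z s(q, x3) = t := by
      rw [hzX _ _ m3]
      exact if_pos (Or.inr (Or.inr (Or.inr Sym2.eq_swap)))
    have hzc : IsCyc H z := by
      refine ⟨hz, fun v => ?_⟩
      by_cases hvX : v ∈ X
      · rcases (memX v).1 hvX with h | h | h
        · rw [h, hdeg2 z hz x1 p x2 hp2 n1, Sym2.eq_swap (a := x1), v1, v2]
          exact D1_self t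
        · rw [h, hdeg2 z hz x2 x1 x3 h13 n2, Sym2.eq_swap (a := x2) (b := x1), v2, v3]
          exact D1_self t
        · rw [h, hdeg2 z hz x3 x2 q hq2.symm n3, Sym2.eq_swap (a := x3) (b := x2),
            Sym2.eq_swap (a := x3) (b := q), v3, v4]
          exact D1_self t
      · by_cases hvp : v = p
        · rw [hvp, hdeg z hz p hpX, (hnp z hz).1, (hnp z hz).2.1, add_zero, add_zero, hdp, v1]
          exact D1_self t
        · by_cases hvq : v = q
          · rw [hvq, hdeg z hz q hqX, (hnp z hz).2.2.1, (hnp z hz).2.2.2, zero_add, zero_add,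
              hdq, v4]
            exact D1_self t
          · rw [hdeg z hz v hvX, hno z hz v hvX hvp hvq, add_zero]
            exact hdK v hvp hvq
    obtain ⟨S, hS⟩ := hB3 z hzc
    refine ⟨S, ?_⟩
    rw [← hpsh, hS, D1_psh_sum]

end

section

/-!
D2: the class `Cls`: subgraphs, lengths of cycles.
-/

variable {V : Type} [Fintype V] {G H : SimpleGraph V} {k : ℕ}

theorem IsCycSeq.mono (h : H ≤ G) {n : ℕ} {x : ZMod n → V} (hx : IsCycSeq H x) :
    IsCycSeq G x := ⟨hx.three, hx.inj, fun j => h (hx.adj j)⟩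

theorem IsPathN.mono (h : H ≤ G) {n : ℕ} {y : ℕ → V} (hy : IsPathN H n y) : IsPathN G n y :=
  ⟨fun i hi => h (hy.adj i hi), hy.inj⟩

theorem Cls.mono (hG : Cls k G) (h : H ≤ G) : Cls k H where
  hk := hG.hk
  pl := maclane_mono hG.pl h
  no456 := fun n x hx => hG.no456 n x (hx.mono h)
  no73 := fun x hx j t h1 h2 => hG.no73 x (hx.mono h) j t (h h1) (h h2)
  tri := fun hk a b c b' c' h1 h2 h3 h4 h5 h6 =>
    hG.tri hk a b c b' c' (h h1) (h h2) (h h3) (h h4) (h h5) (h h6)
  no8 := fun hk x hx i j t t' hij h1 h2 h3 h4 =>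
    hG.no8 hk x (hx.mono h) i j t t' hij (h h1) (h h2) (h h3) (h h4)

theorem Cls.len (hG : Cls k G) {n : ℕ} {x : ZMod n → V} (hx : IsCycSeq G x) : n = 3 ∨ 7 ≤ n := by
  have h1 := hG.no456 n x hx
  have h2 := hx.three
  omega

/-- a cycle of length `n ≠ 3` containing an edge of a triangle has length at least 8 -/
theorem Cls.len_eight (hG : Cls k G) {n : ℕ} {x : ZMod n → V} (hx : IsCycSeq G x) (hn : n ≠ 3)
    {j : ZMod n} {t : V} (h1 : G.Adj (x j) t) (h2 : G.Adj (x (j + 1)) t) : 8 ≤ n := by
  rcases hG.len hx with h | h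
  · exact absurd h hn
  · by_contra hlt
    have h7 : n = 7 := by omega
    subst h7
    exact hG.no73 x hx j t h1 h2

/-- `k = 12`: a cycle of length `n ≠ 3` with two edges in triangles has length at least 9 -/
theorem Cls.len_nine (hG : Cls k G) (hk : k = 12) {n : ℕ} {x : ZMod n → V} (hx : IsCycSeq G x)
    (hn : n ≠ 3) {i j : ZMod n} (hij : i ≠ j) {t t' : V} (h1 : G.Adj (x i) t)
    (h2 : G.Adj (x (i + 1)) t) (h3 : G.Adj (x j) t') (h4 : G.Adj (x (j + 1)) t') : 9 ≤ n := by
  have h := hG.len_eight hx hn h1 h2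
  by_contra hlt
  have h8 : n = 8 := by omega
  subst h8
  exact hG.no8 hk x hx i j t t' hij h1 h2 h3 h4

theorem D2_cast_succ (n i : ℕ) : ((i : ZMod n) + 1) = ((i + 1 : ℕ) : ZMod n) := by
  push_cast
  rfl

/-- `len_eight` for a cycle given by a sequence of natural numbers (`cycSeq_of_nat`) -/
theorem Cls.len_eight_nat (hG : Cls k G) {n : ℕ} (hn : 4 ≤ n) (f : ℕ → V)
    (hinj : ∀ i j, i < n → j < n → f i = f j → i = j)
    (hadj : ∀ i, i + 1 < n → G.Adj (f i) (f (i + 1))) (hlast : G.Adj (f (n - 1)) (f 0))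
    {i : ℕ} (hi : i + 1 < n) {t : V} (h1 : G.Adj (f i) t) (h2 : G.Adj (f (i + 1)) t) : 8 ≤ n := by
  have hx := cycSeq_of_nat (G := G) (by omega : 3 ≤ n) f hinj hadj hlast
  refine hG.len_eight hx (by omega) (j := (i : ZMod n)) (t := t) ?_ ?_
  · rw [ZMod.val_natCast_of_lt (by omega)]
    exact h1
  · rw [D2_cast_succ, ZMod.val_natCast_of_lt hi]
    exact h2

/-- `len_nine` for a cycle given by a sequence of natural numbers; the second triangle edge may be
the closing edge -/
theorem Cls.len_nine_nat (hG : Cls k G) (hk : k = 12) {n : ℕ} (hn : 4 ≤ n) (f : ℕ → V)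
    (hinj : ∀ i j, i < n → j < n → f i = f j → i = j)
    (hadj : ∀ i, i + 1 < n → G.Adj (f i) (f (i + 1))) (hlast : G.Adj (f (n - 1)) (f 0))
    {i : ℕ} (hi : i + 1 < n) {t t' : V} (h1 : G.Adj (f i) t) (h2 : G.Adj (f (i + 1)) t)
    (h3 : G.Adj (f (n - 1)) t') (h4 : G.Adj (f 0) t') : 9 ≤ n := by
  have hx := cycSeq_of_nat (G := G) (by omega : 3 ≤ n) f hinj hadj hlast
  refine hG.len_nine hk hx (by omega) (i := (i : ZMod n)) (j := ((n - 1 : ℕ) : ZMod n)) (t := t)
    (t' := t') ?_ ?_ ?_ ?_ ?_
  · intro h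
    have h5 := congrArg ZMod.val h
    rw [ZMod.val_natCast_of_lt (by omega), ZMod.val_natCast_of_lt (by omega)] at h5
    omega
  · rw [ZMod.val_natCast_of_lt (by omega)]
    exact h1
  · rw [D2_cast_succ, ZMod.val_natCast_of_lt hi]
    exact h2
  · rw [ZMod.val_natCast_of_lt (by omega)]
    exact h3
  · have h6 : n - 1 + 1 = n := by omega
    rw [D2_cast_succ, h6, ZMod.natCast_self, ZMod.val_zero]
    exact h4

/-- no 4-cycles -/
theorem Cls.no_four (hG : Cls k G) {a b c d : V} (h1 : G.Adj a b) (h2 : G.Adj b c) (h3 : G.Adj c d)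
    (h4 : G.Adj d a) (hac : a ≠ c) (hbd : b ≠ d) : False := by
  have hab := h1.ne
  have hbc := h2.ne
  have hcd := h3.ne
  have hda := h4.ne
  set f : ℕ → V := fun i => if i = 0 then a else if i = 1 then b else if i = 2 then c else d with hf
  have f0 : f 0 = a := by simp [hf]
  have f1 : f 1 = b := by simp [hf]
  have f2 : f 2 = c := by simp [hf]
  have f3 : f 3 = d := by simp [hf]
  have hinj : ∀ i j, i < 4 → j < 4 → f i = f j → i = j := by
    intro i j hi hj hij
    interval_cases i <;> interval_cases j <;>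
      simp only [f0, f1, f2, f3] at hij <;> first | rfl | exact absurd hij (by assumption) |
        exact absurd hij.symm (by assumption)
  have hadj : ∀ i, i + 1 < 4 → G.Adj (f i) (f (i + 1)) := by
    intro i hi
    have hi' : i < 3 := by omega
    interval_cases i
    · rw [f0]
      show G.Adj a (f 1)
      rw [f1]
      exact h1
    · rw [f1]
      show G.Adj b (f 2)
      rw [f2]
      exact h2
    · rw [f2]
      show G.Adj c (f 3)
      rw [f3]
      exact h3
  have hlast : G.Adj (f (4 - 1)) (f 0) := by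
    show G.Adj (f 3) (f 0)
    rw [f3, f0]
    exact h4
  have hx := cycSeq_of_nat (G := G) (by omega : 3 ≤ 4) f hinj hadj hlast
  have := hG.len hx
  omega

/-- an edge is in at most one triangle -/
theorem Cls.tri_edge (hG : Cls k G) {a b c d : V} (h1 : G.Adj a b) (h2 : G.Adj a c)
    (h3 : G.Adj b c) (h4 : G.Adj a d) (h5 : G.Adj b d) : c = d := by
  by_contra hcd
  exact hG.no_four h2 h3.symm h5 h4.symm h1.ne hcd

theorem del_le (G : SimpleGraph V) (X : Set V) : del G X ≤ G := fun _ _ h => h.1

theorem ncard_lt_of_missing (h : H ≤ G) (he : ∃ e ∈ G.edgeSet, e ∉ H.edgeSet) :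
    H.edgeSet.ncard < G.edgeSet.ncard := by
  obtain ⟨e, he1, he2⟩ := he
  refine Set.ncard_lt_ncard ⟨SimpleGraph.edgeSet_mono h, fun hsub => he2 (hsub he1)⟩
    (Set.toFinite _)

end

end Pool.Agent.W_fb73a4_h20
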