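import Pool.Agent.W_fb73a4_h20.MB
import Pool.Agent.W_fb73a4_h20.MD

set_option autoImplicit false

namespace Pool.Agent.W_fb73a4_h20

open Finset
open scoped Classical

section

/-!
E1: elementary colouring lemmas.
-/

variable {V : Type} [Fintype V] {G : SimpleGraph V}

/-- a colouring of `G` without the vertex `v` of degree at most 2 extends to `v` -/
theorem extend_low (F : Cover G) (v : V) (hd : dgr G v ≤ 2) (ψ : V → Fin 3)
    (hψ : Proper (F.restrict (del G {v}) (del_le G {v})) ψ) :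
    ∃ ψ' : V → Fin 3, Proper F ψ' ∧ ∀ u, u ≠ v → ψ' u = ψ u := by
  let B : Set (Fin 3) := {b | ∃ w, F.C w v (ψ w) b}
  have hB : B.ncard ≤ 2 := by
    let g : V → Fin 3 := fun w => if h : ∃ b, F.C w v (ψ w) b then h.choose else 0
    have hsub : B ⊆ g '' (G.neighborSet v) := by
      rintro b ⟨w, hw⟩
      refine ⟨w, (F.adj _ _ _ _ hw).symm, ?_⟩
      have h : ∃ b, F.C w v (ψ w) b := ⟨b, hw⟩
      show (if h : ∃ b, F.C w v (ψ w) b then h.choose else 0) = b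
      rw [dif_pos h]
      exact F.mat _ _ _ _ _ h.choose_spec hw
    refine (Set.ncard_le_ncard hsub (Set.toFinite _)).trans ?_
    exact (Set.ncard_image_le (Set.toFinite _)).trans hd
  obtain ⟨c, hc⟩ : ∃ c, c ∉ B := by
    by_contra h
    push Not at h
    have h1 : B = Set.univ := Set.eq_univ_of_forall h
    rw [h1, Set.ncard_univ, Nat.card_eq_fintype_card, Fintype.card_fin] at hB
    omega
  refine ⟨Function.update ψ v c, ?_, fun u hu => Function.update_of_ne hu _ _⟩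
  intro u w h
  have hadj := F.adj _ _ _ _ h
  by_cases hu : u = v
  · subst hu
    have hw : w ≠ u := hadj.ne'
    rw [Function.update_self, Function.update_of_ne hw] at h
    exact hc ⟨w, F.symm _ _ _ _ h⟩
  · by_cases hw : w = v
    · subst hw
      rw [Function.update_self, Function.update_of_ne hu] at h
      exact hc ⟨u, h⟩
    · rw [Function.update_of_ne hu, Function.update_of_ne hw] at h
      exact hψ u w ⟨h, hadj, hu, hw⟩

/-- gluing along `K`: `D` and `K` disjoint, all edges from `D` go to `D ∪ K`; `ψ1` colours `G - D`,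
`ψ2` colours a subgraph containing all edges with an end in `D`; they agree on `K` -/
theorem glue (F : Cover G) (D K : Set V) (hDK : ∀ v ∈ D, v ∉ K)
    (hb : ∀ u ∈ D, ∀ w, G.Adj u w → w ∈ D ∨ w ∈ K) (H2 : SimpleGraph V) (h2 : H2 ≤ G)
    (h2D : ∀ u ∈ D, ∀ w, G.Adj u w → H2.Adj u w) (ψ1 ψ2 : V → Fin 3)
    (hψ1 : Proper (F.restrict (del G D) (del_le G D)) ψ1)
    (hψ2 : Proper (F.restrict H2 h2) ψ2) (hK : ∀ v ∈ K, ψ1 v = ψ2 v) :
    ∃ ψ : V → Fin 3, Proper F ψ ∧ (∀ v, v ∉ D → ψ v = ψ1 v) ∧ ∀ v ∈ D, ψ v = ψ2 v := by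
  refine ⟨fun v => if v ∈ D then ψ2 v else ψ1 v, ?_, fun v hv => if_neg hv, fun v hv => if_pos hv⟩
  have key : ∀ u w, u ∈ D → ¬ F.C u w (if u ∈ D then ψ2 u else ψ1 u)
      (if w ∈ D then ψ2 w else ψ1 w) := by
    intro u w hu h
    have hadj := F.adj _ _ _ _ h
    have hw : (if w ∈ D then ψ2 w else ψ1 w) = ψ2 w := by
      by_cases hwD : w ∈ D
      · rw [if_pos hwD]
      · rw [if_neg hwD]
        rcases hb u hu w hadj with h1 | h1
        · exact absurd h1 hwD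
        · exact hK w h1
    rw [if_pos hu, hw] at h
    exact hψ2 u w ⟨h, h2D u hu w hadj⟩
  intro u w h
  by_cases hu : u ∈ D
  · exact key u w hu h
  · by_cases hw : w ∈ D
    · exact key w u hw (F.symm _ _ _ _ h)
    · have hadj := F.adj _ _ _ _ h
      simp only [if_neg hu, if_neg hw] at h
      exact hψ1 u w ⟨h, hadj, hu, hw⟩

/-- colours at an edge whose conflict relation is a partial matching extend to a bijection -/
theorem exists_completion (F : Cover G) (u v : V) :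
    ∃ σ : Equiv.Perm (Fin 3), ∀ a b, F.C u v a b → b = σ a := by
  have hinj : ∀ a a' b, F.C u v a b → F.C u v a' b → a = a' := fun a a' b h h' =>
    F.mat v u b a a' (F.symm _ _ _ _ h) (F.symm _ _ _ _ h')
  let e : {a // ∃ b, F.C u v a b} ≃ {b // ∃ a, F.C u v a b} :=
    { toFun := fun a => ⟨a.2.choose, a.1, a.2.choose_spec⟩
      invFun := fun b => ⟨b.2.choose, b.1, b.2.choose_spec⟩
      left_inv := fun a => Subtype.ext (hinj _ _ a.2.choose
        (Exists.choose_spec (⟨a.1, a.2.choose_spec⟩ : ∃ a', F.C u v a' a.2.choose))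
        a.2.choose_spec)
      right_inv := fun b => Subtype.ext (F.mat _ _ b.2.choose _ _
        (Exists.choose_spec (⟨b.1, b.2.choose_spec⟩ : ∃ b', F.C u v b.2.choose b'))
        b.2.choose_spec) }
  refine ⟨e.extendSubtype, fun a b h => ?_⟩
  have ha : ∃ b, F.C u v a b := ⟨b, h⟩
  rw [Equiv.extendSubtype_apply_of_mem e a ha]
  exact F.mat _ _ _ _ _ h ha.choose_spec

/-- the subgraph of `G` with edge set `E(G) ∩ E1` -/
def sub (G : SimpleGraph V) (E1 : Set (Sym2 V)) : SimpleGraph V where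
  Adj u v := G.Adj u v ∧ s(u, v) ∈ E1
  symm := ⟨fun u v h => ⟨h.1.symm, by rw [Sym2.eq_swap]; exact h.2⟩⟩
  loopless := ⟨fun v h => G.loopless.irrefl v h.1⟩

theorem sub_le (G : SimpleGraph V) (E1 : Set (Sym2 V)) : sub G E1 ≤ G := fun _ _ h => h.1

/-- the edge vector of a closed sequence, as a set of edges -/
def cset {n : ℕ} (x : ZMod n → V) : Set (Sym2 V) := {e | ∃ j, s(x j, x (j + 1)) = e}

end

section

/-!
E2: the minimal counterexample to `Star`. Hypotheses: `Star V n`, `StarV V n` and a counterexample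
with `n + 1` edges.
-/

variable {V : Type} [Fintype V] {G : SimpleGraph V}

/-- a counterexample to `Star V (n+1)`, given `Star V n` and `StarV V n` -/
structure CexC {V : Type} [Fintype V] (k : ℕ) (G : SimpleGraph V) (F : Cover G) (n m : ℕ)
    (x : ZMod m → V) (φ : V → Fin 3) : Prop where
  hS : Star k V n
  hV : StarV k V n
  cls : Cls k G
  card : G.edgeSet.ncard = n + 1
  hm : m ≤ k
  hx : IsCycSeq G x
  hφ : ProperOn F (Set.range x) φ
  hno : ¬ ∃ ψ : V → Fin 3, Proper F ψ ∧ ∀ v ∈ Set.range x, ψ v = φ v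

variable {k : ℕ} {F : Cover G} {n m : ℕ} {x : ZMod m → V} {φ : V → Fin 3}

/-- gluing along a set of edges which has at most one vertex in common with its complement -/
theorem glue_sep (F : Cover G) (E1 : Set (Sym2 V)) (c : V)
    (honly : ∀ v, (∃ u, G.Adj v u ∧ s(v, u) ∈ E1) → (∃ u, G.Adj v u ∧ s(v, u) ∉ E1) → v = c)
    (ψ1 ψ2 : V → Fin 3) (h1 : Proper (F.restrict (sub G E1) (sub_le G _)) ψ1)
    (h2 : Proper (F.restrict (sub G E1ᶜ) (sub_le G _)) ψ2) (hc : ψ1 c = ψ2 c) :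
    ∃ ψ : V → Fin 3, Proper F ψ ∧ ∀ v, (∃ u, G.Adj v u ∧ s(v, u) ∈ E1) → ψ v = ψ1 v := by
  let P : V → Prop := fun v => v ≠ c ∧ ∃ u, G.Adj v u ∧ s(v, u) ∉ E1
  let ψ : V → Fin 3 := fun v => if P v then ψ2 v else ψ1 v
  have e1 : ∀ v, (∃ u, G.Adj v u ∧ s(v, u) ∈ E1) → ψ v = ψ1 v := by
    intro v hv
    have : ¬ P v := fun h => h.1 (honly v hv h.2)
    exact if_neg this
  have e2 : ∀ v, (∃ u, G.Adj v u ∧ s(v, u) ∉ E1) → ψ v = ψ2 v := by
    intro v hv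
    by_cases hvc : v = c
    · subst hvc
      have : ¬ P v := fun h => h.1 rfl
      exact (if_neg this).trans hc
    · exact if_pos ⟨hvc, hv⟩
  refine ⟨ψ, ?_, e1⟩
  intro u v huv
  have hadj := F.adj _ _ _ _ huv
  by_cases he : s(u, v) ∈ E1
  · have hu : ψ u = ψ1 u := e1 u ⟨v, hadj, he⟩
    have hv : ψ v = ψ1 v := e1 v ⟨u, hadj.symm, by rw [Sym2.eq_swap]; exact he⟩
    rw [hu, hv] at huv
    exact h1 u v ⟨huv, hadj, he⟩
  · have hu : ψ u = ψ2 u := e2 u ⟨v, hadj, he⟩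
    have hv : ψ v = ψ2 v := e2 v ⟨u, hadj.symm, by rw [Sym2.eq_swap]; exact he⟩
    rw [hu, hv] at huv
    exact h2 u v ⟨huv, hadj, he⟩

/-- all faces at a vertex off the cycle are on the same side -/
theorem side_all {ι : Type} [Fintype ι] {Fc : ι → EV V} (fs : FaceSys G ι Fc) (sep : SepFree G)
    {r : ℕ} {y : ZMod r → V} (hy : IsCycSeq G y) {S : Finset ι} (hsum : cvec y = ∑ i ∈ S, Fc i)
    {u : V} (hu : u ∉ Set.range y) {i : ι} (hi : i ∈ S) (hon : On (Fc i) u) :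
    ∀ j, On (Fc j) u → j ∈ S := by
  rcases fs.all_or_none sep S u (by
    intro w
    rw [← hsum]
    by_contra hne
    exact hu ((cvec_on hy u).1 ⟨w, hne⟩)) with h | h
  · exact h
  · exact absurd hi (h i hon)

/-- edges from the inside go to the inside or to the cycle -/
theorem side_edge {ι : Type} [Fintype ι] {Fc : ι → EV V} (fs : FaceSys G ι Fc) (sep : SepFree G)
    {r : ℕ} {y : ZMod r → V} (hy : IsCycSeq G y) {S : Finset ι} (hsum : cvec y = ∑ i ∈ S, Fc i)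
    {u : V} (hu : u ∉ Set.range y ∧ ∃ i ∈ S, On (Fc i) u) {w : V} (huw : G.Adj u w) :
    (w ∉ Set.range y ∧ ∃ i ∈ S, On (Fc i) w) ∨ w ∈ Set.range y := by
  obtain ⟨hu1, i, hi, hon⟩ := hu
  by_cases hw : w ∈ Set.range y
  · exact Or.inr hw
  · obtain ⟨a, -, -, ha, -, -⟩ := fs.exists_two (e := s(u, w)) huw
    have haS := side_all fs sep hy hsum hu1 hi hon a ⟨w, ha⟩
    exact Or.inl ⟨hw, a, haS, u, by rw [Sym2.eq_swap]; exact ha⟩

/-- a cycle survives in a subgraph which contains its edges -/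
theorem cyc_del (hx : IsCycSeq G x) {D : Set V} (hD : ∀ v ∈ Set.range x, v ∉ D) :
    IsCycSeq (del G D) x :=
  ⟨hx.three, hx.inj, fun j => ⟨hx.adj j, hD _ ⟨j, rfl⟩, hD _ ⟨j + 1, rfl⟩⟩⟩

theorem properOn_restrict {H : SimpleGraph V} (hH : H ≤ G) {X : Set V} (hφ : ProperOn F X φ) :
    ProperOn (F.restrict H hH) X φ := fun u hu v hv h => hφ u hu v hv h.1

theorem proper_on {H : SimpleGraph V} {F' : Cover H} {ψ : V → Fin 3} (h : Proper F' ψ)
    (X : Set V) : ProperOn F' X ψ := fun u _ v _ h' => h u v h'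

/-- some edge is not on the cycle (otherwise `φ` is a proper colouring) -/
theorem CexC.exists_off (h : CexC k G F n m x φ) : ∃ e ∈ G.edgeSet, cvec x e = 0 := by
  by_contra hn
  push Not at hn
  refine h.hno ⟨φ, ?_, fun _ _ => rfl⟩
  intro u v huv
  have hadj := F.adj _ _ _ _ huv
  have h1 := hn s(u, v) hadj
  have hu : u ∈ Set.range x := (cvec_on h.hx u).1 ⟨v, h1⟩
  have hv : v ∈ Set.range x := (cvec_on h.hx v).1 ⟨u, by rw [Sym2.eq_swap]; exact h1⟩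
  exact h.hφ u hu v hv huv

/-- extension in a proper subgraph containing the cycle -/
theorem CexC.ext (h : CexC k G F n m x φ) {H : SimpleGraph V} (hH : H ≤ G)
    (hmiss : ∃ e ∈ G.edgeSet, e ∉ H.edgeSet) (hx : IsCycSeq H x) :
    ∃ ψ : V → Fin 3, Proper (F.restrict H hH) ψ ∧ ∀ v ∈ Set.range x, ψ v = φ v := by
  have hlt := ncard_lt_of_missing hH hmiss
  rw [h.card] at hlt
  exact h.hS H (F.restrict H hH) (h.cls.mono hH) (by omega) m x h.hm hx φ
    (properOn_restrict hH h.hφ)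

/-- the cycle has no chord: delete the chord, the extension is proper on it as well -/
theorem CexC.chordless (h : CexC k G F n m x φ) {u v : V} (hu : u ∈ Set.range x)
    (hv : v ∈ Set.range x) (huv : G.Adj u v) : cvec x s(u, v) ≠ 0 := by
  intro h0
  obtain ⟨ψ, hψ, hψx⟩ := h.ext (sub_le G {e | e ≠ s(u, v)})
    ⟨s(u, v), huv, fun hh => hh.2 rfl⟩
    ⟨h.hx.three, h.hx.inj, fun j => ⟨h.hx.adj j, by
      intro he
      have h1 := cvec_edge h.hx j
      rw [he, h0] at h1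
      exact zero_ne_one h1⟩⟩
  refine h.hno ⟨ψ, ?_, hψx⟩
  intro a b hab
  have hadj := F.adj _ _ _ _ hab
  by_cases he : s(a, b) = s(u, v)
  · have hab' : a ∈ Set.range x ∧ b ∈ Set.range x := by
      rw [Sym2.eq_iff] at he
      rcases he with ⟨rfl, rfl⟩ | ⟨rfl, rfl⟩
      · exact ⟨hu, hv⟩
      · exact ⟨hv, hu⟩
    rw [hψx a hab'.1, hψx b hab'.2] at hab
    exact h.hφ a hab'.1 b hab'.2 hab
  · exact hψ a b ⟨hab, hadj, he⟩

theorem CexC.deg3 (h : CexC k G F n m x φ) {v : V} (hv : v ∉ Set.range x) (hw : ∃ w, G.Adj v w) :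
    3 ≤ dgr G v := by
  by_contra hlt
  obtain ⟨w, hw⟩ := hw
  have hD : ∀ u ∈ Set.range x, u ∉ ({v} : Set V) := by
    intro u hu hu'
    rw [Set.mem_singleton_iff] at hu'
    exact hv (hu' ▸ hu)
  obtain ⟨ψ, hψ, hψx⟩ := h.ext (del_le G {v}) ⟨s(v, w), hw, fun hh => hh.2.1 rfl⟩
    (cyc_del h.hx hD)
  obtain ⟨ψ', hψ', h1⟩ := extend_low F v (by omega) ψ hψ
  refine h.hno ⟨ψ', hψ', fun u hu => ?_⟩
  rw [h1 u (fun e => hD u hu e), hψx u hu]

/-- separation with the cycle in `E1` -/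
theorem CexC.sep_aux (h : CexC k G F n m x φ) (E1 : Set (Sym2 V))
    (hcyc : ∀ j, s(x j, x (j + 1)) ∈ E1) (hout : ∃ e ∈ G.edgeSet, e ∉ E1)
    (honly : ∀ v w, (∃ u, G.Adj v u ∧ s(v, u) ∈ E1) → (∃ u, G.Adj v u ∧ s(v, u) ∉ E1) →
      (∃ u, G.Adj w u ∧ s(w, u) ∈ E1) → (∃ u, G.Adj w u ∧ s(w, u) ∉ E1) → v = w) : False := by
  obtain ⟨e, he, he1⟩ := hout
  obtain ⟨ψ1, hψ1, hψx⟩ := h.ext (sub_le G E1) ⟨e, he, fun hh => by
    induction e using Sym2.ind with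
    | _ a b => exact he1 hh.2⟩ ⟨h.hx.three, h.hx.inj, fun j => ⟨h.hx.adj j, hcyc j⟩⟩
  have hlt : (sub G E1ᶜ).edgeSet.ncard < G.edgeSet.ncard :=
    ncard_lt_of_missing (sub_le G _) ⟨s(x 0, x (0 + 1)), h.hx.adj 0, fun hh => hh.2 (hcyc 0)⟩
  rw [h.card] at hlt
  have hc : ∃ c, ∀ v, (∃ u, G.Adj v u ∧ s(v, u) ∈ E1) → (∃ u, G.Adj v u ∧ s(v, u) ∉ E1) →
      v = c := by
    by_cases hex : ∃ c, (∃ u, G.Adj c u ∧ s(c, u) ∈ E1) ∧ (∃ u, G.Adj c u ∧ s(c, u) ∉ E1)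
    · obtain ⟨c, h1, h2⟩ := hex
      exact ⟨c, fun v h3 h4 => honly v c h3 h4 h1 h2⟩
    · exact ⟨x 0, fun v h3 h4 => absurd ⟨v, h3, h4⟩ hex⟩
  obtain ⟨c, hc⟩ := hc
  obtain ⟨ψ2, hψ2, h2c⟩ := h.hV (sub G E1ᶜ) (F.restrict _ (sub_le G _)) (h.cls.mono (sub_le G _))
    (by omega) c (ψ1 c)
  obtain ⟨ψ, hψ, h1⟩ := glue_sep F E1 c hc ψ1 ψ2 hψ1 hψ2 h2c.symm
  refine h.hno ⟨ψ, hψ, ?_⟩
  rintro v ⟨j, rfl⟩
  rw [h1 _ ⟨x (j + 1), h.hx.adj j, hcyc j⟩, hψx _ ⟨j, rfl⟩]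

/-- Let `E1` be a set of edges with the property that at most one vertex is common. The cycle lies
in one part (`cycle_two_changes`), say in `E1`; extend `φ` to `sub G E1` by `Star V n`, then colour
`sub G E1ᶜ` by `StarV V n` with the colour of the common vertex, and glue. -/
theorem CexC.sepFree (h : CexC k G F n m x φ) : SepFree G := by
  intro E1 h1 h2
  by_contra hn
  have honly : ∀ v w, (∃ u, G.Adj v u ∧ s(v, u) ∈ E1) → (∃ u, G.Adj v u ∧ s(v, u) ∉ E1) →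
      (∃ u, G.Adj w u ∧ s(w, u) ∈ E1) → (∃ u, G.Adj w u ∧ s(w, u) ∉ E1) → v = w := by
    intro v w a1 a2 a3 a4
    by_contra hvw
    exact hn ⟨v, w, hvw, a1, a2, a3, a4⟩
  have hadj' : ∀ j, G.Adj (x j) (x (j - 1)) := by
    intro j
    have := h.hx.adj (j - 1)
    rw [sub_add_cancel] at this
    exact this.symm
  by_cases c1 : ∃ j, s(x j, x (j + 1)) ∈ E1
  · by_cases c2 : ∃ j, s(x j, x (j + 1)) ∉ E1
    · obtain ⟨j, l, hjl, hj, hl⟩ := cycle_two_changes h.hx E1 c1 c2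
      have key : ∀ j, ((s(x j, x (j + 1)) ∈ E1 ∧ s(x j, x (j - 1)) ∉ E1) ∨
        (s(x j, x (j + 1)) ∉ E1 ∧ s(x j, x (j - 1)) ∈ E1)) →
          (∃ u, G.Adj (x j) u ∧ s(x j, u) ∈ E1) ∧ (∃ u, G.Adj (x j) u ∧ s(x j, u) ∉ E1) := by
        rintro j (⟨a, b⟩ | ⟨a, b⟩)
        · exact ⟨⟨_, h.hx.adj j, a⟩, ⟨_, hadj' j, b⟩⟩
        · exact ⟨⟨_, hadj' j, b⟩, ⟨_, h.hx.adj j, a⟩⟩
      obtain ⟨a1, a2⟩ := key j hj
      obtain ⟨a3, a4⟩ := key l hl
      exact hjl (honly _ _ a1 a2 a3 a4)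
    · push Not at c2
      exact h.sep_aux E1 c2 h2 honly
  · push Not at c1
    refine h.sep_aux E1ᶜ c1 ?_ ?_
    · obtain ⟨e, he, he'⟩ := h1
      exact ⟨e, he, fun hh => hh he'⟩
    · intro v w a1 a2 a3 a4
      refine honly v w ?_ a1 ?_ a3
      · obtain ⟨u, hu, hu'⟩ := a2
        exact ⟨u, hu, not_not.1 hu'⟩
      · obtain ⟨u, hu, hu'⟩ := a4
        exact ⟨u, hu, not_not.1 hu'⟩

/-- (f5) the cycle is a face. Write `cvec x = ∑ i ∈ S, Fc i`. Let `D1` (`D2`) be the set of vertices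
off the cycle on a face in `S` (not in `S`). By `all_or_none` all faces at a vertex of `D1` are in
`S`, all faces at a vertex of `D2` are outside `S`, and no edge joins them. If both are non-empty,
extend `φ` to `del G D1` and to `del G D2` and glue along the cycle. So one of them is empty, hence
the faces on this side have all their vertices on the cycle, all their edges are edges of the cycle
(`chordless`), and such a face is the cycle (`sub_cycle`). -/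
theorem CexC.face (h : CexC k G F n m x φ) {ι : Type} [Fintype ι] {Fc : ι → EV V}
    (fs : FaceSys G ι Fc) : ∃ i0, Fc i0 = cvec x := by
  have sep := h.sepFree
  obtain ⟨S, hS⟩ := fs.gen _ (cvec_isCyc h.hx)
  have hSc : cvec x = ∑ i ∈ Sᶜ, Fc i := by rw [fs.sum_compl]; exact hS
  have hadj : ∀ (i : ι) (a b : V), Fc i s(a, b) ≠ 0 → G.Adj a b := by
    intro i a b hab
    by_contra hn
    exact hab ((fs.cyc i).1 _ hn)
  -- one side without vertices off the cycle gives a face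
  have hside : ∀ S : Finset ι, cvec x = ∑ i ∈ S, Fc i →
      (∀ u, ¬ (u ∉ Set.range x ∧ ∃ i ∈ S, On (Fc i) u)) → ∃ i0, Fc i0 = cvec x := by
    intro S hS hD
    have hne : S.Nonempty := by
      rw [Finset.nonempty_iff_ne_empty]
      rintro rfl
      exact cvec_ne_zero h.hx (by rw [hS]; simp)
    obtain ⟨i, hi⟩ := hne
    refine ⟨i, sub_cycle h.hx (fs.cyc i) (fs.ne i) ?_⟩
    intro e
    induction e using Sym2.ind with
    | _ a b =>
      intro he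
      have ha : a ∈ Set.range x := by
        by_contra hn
        exact hD a ⟨hn, i, hi, b, he⟩
      have hb : b ∈ Set.range x := by
        by_contra hn
        exact hD b ⟨hn, i, hi, a, by rw [Sym2.eq_swap]; exact he⟩
      exact h.chordless ha hb (hadj i a b he)
  by_cases h1 : ∀ u, ¬ (u ∉ Set.range x ∧ ∃ i ∈ S, On (Fc i) u)
  · exact hside S hS h1
  · by_cases h2 : ∀ u, ¬ (u ∉ Set.range x ∧ ∃ i ∈ Sᶜ, On (Fc i) u)
    · exact hside Sᶜ hSc h2
    · exfalso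
      push Not at h1 h2
      obtain ⟨u1, hu1, i1, hi1, v1, hv1⟩ := h1
      obtain ⟨u2, hu2, i2, hi2, v2, hv2⟩ := h2
      obtain ⟨D1, hD1⟩ : ∃ D1 : Set V, D1 = {u | u ∉ Set.range x ∧ ∃ i ∈ S, On (Fc i) u} :=
        ⟨_, rfl⟩
      obtain ⟨D2, hD2⟩ : ∃ D2 : Set V, D2 = {u | u ∉ Set.range x ∧ ∃ i ∈ Sᶜ, On (Fc i) u} :=
        ⟨_, rfl⟩
      have m1 : ∀ u, u ∈ D1 ↔ (u ∉ Set.range x ∧ ∃ i ∈ S, On (Fc i) u) := by
        intro u; rw [hD1]; exact Iff.rfl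
      have m2 : ∀ u, u ∈ D2 ↔ (u ∉ Set.range x ∧ ∃ i ∈ Sᶜ, On (Fc i) u) := by
        intro u; rw [hD2]; exact Iff.rfl
      have hdis : ∀ u, u ∈ D1 → u ∉ D2 := by
        intro u hu hu'
        obtain ⟨hr, i, hi, hon⟩ := (m1 u).1 hu
        obtain ⟨-, j, hj, hon'⟩ := (m2 u).1 hu'
        have := side_all fs sep h.hx hS hr hi hon j hon'
        exact (Finset.mem_compl.1 hj) this
      have hu1D : u1 ∈ D1 := (m1 u1).2 ⟨hu1, i1, hi1, v1, hv1⟩
      have hu2D : u2 ∈ D2 := (m2 u2).2 ⟨hu2, i2, hi2, v2, hv2⟩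
      obtain ⟨ψ1, hψ1, hx1⟩ := h.ext (del_le G D1)
        ⟨s(u1, v1), hadj _ _ _ hv1, fun hh => hh.2.1 hu1D⟩
        (cyc_del h.hx fun v hv hv' => ((m1 v).1 hv').1 hv)
      obtain ⟨ψ2, hψ2, hx2⟩ := h.ext (del_le G D2)
        ⟨s(u2, v2), hadj _ _ _ hv2, fun hh => hh.2.1 hu2D⟩
        (cyc_del h.hx fun v hv hv' => ((m2 v).1 hv').1 hv)
      have hb : ∀ u ∈ D1, ∀ w, G.Adj u w → w ∈ D1 ∨ w ∈ Set.range x := by
        intro u hu w huw
        rcases side_edge fs sep h.hx hS ((m1 u).1 hu) huw with hh | hh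
        · exact Or.inl ((m1 w).2 hh)
        · exact Or.inr hh
      obtain ⟨ψ, hψ, hψD, -⟩ := glue F D1 (Set.range x) (fun v hv => ((m1 v).1 hv).1) hb
        (del G D2) (del_le G D2) (by
          intro u hu w huw
          refine ⟨huw, hdis u hu, ?_⟩
          rcases hb u hu w huw with hh | hh
          · exact hdis w hh
          · exact fun h' => ((m2 w).1 h').1 hh) ψ1 ψ2 hψ1 hψ2
        (fun v hv => by rw [hx1 v hv, hx2 v hv])
      refine h.hno ⟨ψ, hψ, fun v hv => ?_⟩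
      rw [hψD v (fun hv' => ((m1 v).1 hv').1 hv), hx1 v hv]

/-- (f6) no vertex strictly inside a short cycle `y` which has a vertex off `x`. Let
`D = {u | u not on y, u on a face in S}`; by `all_or_none` all faces at `u ∈ D` are in `S`, so
`u` is not on `x` (`i0 ∉ S`), and edges from `D` go to `D` or to `y`. Extend `φ` to `del G D`, then
the colouring of `y` to the graph with the edges of `y` and all edges at `D` (`Star V n`: an edge of
`x` is missing, otherwise all edges of `x` are edges of `y` and `cvec x = cvec y` by `sub_cycle`). -/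
theorem CexC.short (h : CexC k G F n m x φ) {ι : Type} [Fintype ι] {Fc : ι → EV V}
    (fs : FaceSys G ι Fc) {i0 : ι} (hi0 : Fc i0 = cvec x) {r : ℕ} {y : ZMod r → V} (hr : r ≤ k)
    (hy : IsCycSeq G y) (hoff : ∃ j, y j ∉ Set.range x) {S : Finset ι} (hS : i0 ∉ S)
    (hsum : cvec y = ∑ i ∈ S, Fc i) {u : V} (hu : u ∉ Set.range y) {i : ι} (hi : i ∈ S) :
    ¬ On (Fc i) u := by
  intro hon
  have sep := h.sepFree
  have hadj : ∀ (i : ι) (a b : V), Fc i s(a, b) ≠ 0 → G.Adj a b := by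
    intro i a b hab
    by_contra hn
    exact hab ((fs.cyc i).1 _ hn)
  obtain ⟨D, hD⟩ : ∃ D : Set V, D = {u | u ∉ Set.range y ∧ ∃ i ∈ S, On (Fc i) u} := ⟨_, rfl⟩
  have mD : ∀ u, u ∈ D ↔ (u ∉ Set.range y ∧ ∃ i ∈ S, On (Fc i) u) := by
    intro u; rw [hD]; exact Iff.rfl
  have huD : u ∈ D := (mD u).2 ⟨hu, i, hi, hon⟩
  have hDx : ∀ v ∈ Set.range x, v ∉ D := by
    intro v hv hvD
    obtain ⟨hr', j, hj, hon'⟩ := (mD v).1 hvD
    refine hS (side_all fs sep hy hsum hr' hj hon' i0 ?_)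
    rw [hi0]
    exact (cvec_on h.hx v).2 hv
  have hDy : ∀ v ∈ Set.range y, v ∉ D := fun v hv hvD => ((mD v).1 hvD).1 hv
  have hb : ∀ u ∈ D, ∀ w, G.Adj u w → w ∈ D ∨ w ∈ Set.range y := by
    intro u hu w huw
    rcases side_edge fs sep hy hsum ((mD u).1 hu) huw with hh | hh
    · exact Or.inl ((mD w).2 hh)
    · exact Or.inr hh
  obtain ⟨v, hv⟩ := hon
  obtain ⟨ψ1, hψ1, hx1⟩ := h.ext (del_le G D) ⟨s(u, v), hadj _ _ _ hv, fun hh => hh.2.1 huD⟩
    (cyc_del h.hx hDx)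
  -- the second graph
  obtain ⟨E2, hE2⟩ : ∃ E2 : Set (Sym2 V), E2 = {e | cvec y e ≠ 0 ∨ ∃ d ∈ D, d ∈ e} := ⟨_, rfl⟩
  have mE : ∀ e, e ∈ E2 ↔ (cvec y e ≠ 0 ∨ ∃ d ∈ D, d ∈ e) := by
    intro e; rw [hE2]; exact Iff.rfl
  have hmiss : ∃ e ∈ G.edgeSet, e ∉ (sub G E2).edgeSet := by
    by_contra hn
    push Not at hn
    have hsub : ∀ e, cvec x e ≠ 0 → cvec y e ≠ 0 := by
      intro e he
      rw [cvec] at he
      by_cases hex : ∃ j, s(x j, x (j + 1)) = e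
      · obtain ⟨j, rfl⟩ := hex
        have h1 := hn s(x j, x (j + 1)) (h.hx.adj j)
        rcases (mE _).1 h1.2 with h2 | ⟨d, hd, hd'⟩
        · exact h2
        · exfalso
          rw [Sym2.mem_iff] at hd'
          rcases hd' with rfl | rfl
          · exact hDx _ ⟨_, rfl⟩ hd
          · exact hDx _ ⟨_, rfl⟩ hd
      · rw [if_neg hex] at he
        exact absurd rfl he
    have heq := sub_cycle hy (cvec_isCyc h.hx) (cvec_ne_zero h.hx) hsub
    obtain ⟨j, hj⟩ := hoff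
    apply hj
    rw [← cvec_on h.hx, heq, cvec_on hy]
    exact ⟨j, rfl⟩
  have hlt := ncard_lt_of_missing (sub_le G E2) hmiss
  rw [h.card] at hlt
  obtain ⟨ψ2, hψ2, hy2⟩ := h.hS (sub G E2) (F.restrict _ (sub_le G E2)) (h.cls.mono (sub_le G E2))
    (by omega) r y hr ⟨hy.three, hy.inj, fun j => ⟨hy.adj j, (mE _).2 (Or.inl (by
      rw [cvec_edge hy]; exact one_ne_zero))⟩⟩ ψ1 (by
      intro a ha b hb' hab
      exact hψ1 a b ⟨hab.1, F.adj _ _ _ _ hab.1, hDy a ha, hDy b hb'⟩)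
  obtain ⟨ψ, hψ, hψD, -⟩ := glue F D (Set.range y) (fun v hv => ((mD v).1 hv).1) hb
    (sub G E2) (sub_le G E2) (by
      intro u hu w huw
      exact ⟨huw, (mE _).2 (Or.inr ⟨u, hu, by simp⟩)⟩) ψ1 ψ2 hψ1 hψ2
    (fun v hv => (hy2 v hv).symm)
  refine h.hno ⟨ψ, hψ, fun v hv => ?_⟩
  rw [hψD v (hDx v hv), hx1 v hv]

/-- summary -/
theorem CexC.ctx (h : CexC k G F n m x φ) : ∃ (ι : Type) (_ : Fintype ι) (Fc : ι → EV V) (i0 : ι),
    Ctx k G ι Fc i0 (Set.range x) ∧ Fc i0 = cvec x := by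
  have h2 : ∃ e ∈ G.edgeSet, ∃ e' ∈ G.edgeSet, e ≠ e' := by
    obtain ⟨e, he, he0⟩ := h.exists_off
    refine ⟨s(x 0, x (0 + 1)), h.hx.adj 0, e, he, ?_⟩
    rintro rfl
    rw [cvec_edge h.hx] at he0
    exact one_ne_zero he0
  obtain ⟨ι, hι, Fc, fs⟩ := exists_faceSys h.sepFree h2 h.cls.pl
  obtain ⟨i0, hi0⟩ := h.face fs
  refine ⟨ι, hι, Fc, i0, ?_, hi0⟩
  exact
    { cls := h.cls
      sep := h.sepFree
      fs := fs
      two_edges := h2
      on0 := fun v hv => by rw [hi0]; exact (cvec_on h.hx v).2 hv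
      deg3 := fun v hv hw => h.deg3 hv hw
      short := fun r y hr hy hoff S hS hsum u hu i hi =>
        h.short fs hi0 hr hy hoff hS hsum hu hi }

end

section

/-!
E3: the minimal counterexample to `StarV`. Hypotheses: `Star V (n+1)`, `StarV V n` and a
counterexample with `n + 1` edges at a non-isolated vertex `v`.
-/

variable {V : Type} [Fintype V] {G : SimpleGraph V}

structure CexV {V : Type} [Fintype V] (k : ℕ) (G : SimpleGraph V) (F : Cover G) (n : ℕ) (v : V)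
    (a : Fin 3) : Prop where
  hS : Star k V (n + 1)
  hV : StarV k V n
  cls : Cls k G
  card : G.edgeSet.ncard = n + 1
  nis : ∃ w, G.Adj v w
  hno : ¬ ∃ ψ : V → Fin 3, Proper F ψ ∧ ψ v = a

variable {k : ℕ} {F : Cover G} {n : ℕ} {v : V} {a : Fin 3}

/-- extension in a proper subgraph -/
theorem CexV.ext (h : CexV k G F n v a) {H : SimpleGraph V} (hH : H ≤ G)
    (hmiss : ∃ e ∈ G.edgeSet, e ∉ H.edgeSet) (c : V) (b : Fin 3) :
    ∃ ψ : V → Fin 3, Proper (F.restrict H hH) ψ ∧ ψ c = b := by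
  have hlt := ncard_lt_of_missing hH hmiss
  rw [h.card] at hlt
  exact h.hV H (F.restrict H hH) (h.cls.mono hH) (by omega) c b

/-- a graph with one edge is no counterexample -/
theorem CexV.two_edges (h : CexV k G F n v a) : ∃ e ∈ G.edgeSet, ∃ e' ∈ G.edgeSet, e ≠ e' := by
  by_contra hn
  push Not at hn
  obtain ⟨w, hw⟩ := h.nis
  have hall : ∀ e ∈ G.edgeSet, s(v, w) = e := fun e he => hn s(v, w) hw e he
  have hd : dgr G w ≤ 2 := by
    have h1 : G.neighborSet w ⊆ {v} := by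
      intro u hu
      have h2 := hall s(w, u) hu
      rw [Sym2.eq_iff] at h2
      rcases h2 with ⟨h3, -⟩ | ⟨h3, -⟩
      · exact absurd h3 hw.ne
      · rw [Set.mem_singleton_iff]; exact h3.symm
    have h2 := Set.ncard_le_ncard h1 (Set.toFinite _)
    rw [Set.ncard_singleton] at h2
    show (G.neighborSet w).ncard ≤ 2
    omega
  obtain ⟨ψ, hψ, hψv⟩ := h.ext (del_le G {w}) ⟨s(v, w), hw, fun hh => hh.2.2 rfl⟩ v a
  obtain ⟨ψ', hψ', h1⟩ := extend_low F w hd ψ hψ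
  exact h.hno ⟨ψ', hψ', by rw [h1 v hw.ne, hψv]⟩

theorem CexV.deg3 (h : CexV k G F n v a) {u : V} (hu : u ≠ v) (hw : ∃ w, G.Adj u w) :
    3 ≤ dgr G u := by
  by_contra hlt
  obtain ⟨w, hw⟩ := hw
  obtain ⟨ψ, hψ, hψv⟩ := h.ext (del_le G {u}) ⟨s(u, w), hw, fun hh => hh.2.1 rfl⟩ v a
  obtain ⟨ψ', hψ', h1⟩ := extend_low F u (by omega) ψ hψ
  exact h.hno ⟨ψ', hψ', by rw [h1 v hu.symm, hψv]⟩

/-- separation, `v` has an edge in `E1` -/
theorem CexV.sep_aux (h : CexV k G F n v a) (E1 : Set (Sym2 V))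
    (hv : ∃ u, G.Adj v u ∧ s(v, u) ∈ E1) (hout : ∃ e ∈ G.edgeSet, e ∉ E1)
    (honly : ∀ v w, (∃ u, G.Adj v u ∧ s(v, u) ∈ E1) → (∃ u, G.Adj v u ∧ s(v, u) ∉ E1) →
      (∃ u, G.Adj w u ∧ s(w, u) ∈ E1) → (∃ u, G.Adj w u ∧ s(w, u) ∉ E1) → v = w) : False := by
  obtain ⟨e, he, he1⟩ := hout
  obtain ⟨u0, hu0, hu0'⟩ := hv
  obtain ⟨ψ1, hψ1, hψx⟩ := h.ext (sub_le G E1) ⟨e, he, fun hh => by
    induction e using Sym2.ind with
    | _ a b => exact he1 hh.2⟩ v a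
  have hc : ∃ c, ∀ v, (∃ u, G.Adj v u ∧ s(v, u) ∈ E1) → (∃ u, G.Adj v u ∧ s(v, u) ∉ E1) →
      v = c := by
    by_cases hex : ∃ c, (∃ u, G.Adj c u ∧ s(c, u) ∈ E1) ∧ (∃ u, G.Adj c u ∧ s(c, u) ∉ E1)
    · obtain ⟨c, h1, h2⟩ := hex
      exact ⟨c, fun v h3 h4 => honly v c h3 h4 h1 h2⟩
    · exact ⟨v, fun v h3 h4 => absurd ⟨v, h3, h4⟩ hex⟩
  obtain ⟨c, hc⟩ := hc
  obtain ⟨ψ2, hψ2, h2c⟩ := h.ext (sub_le G E1ᶜ) ⟨s(v, u0), hu0, fun hh => hh.2 hu0'⟩ c (ψ1 c)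
  obtain ⟨ψ, hψ, h1⟩ := glue_sep F E1 c hc ψ1 ψ2 hψ1 hψ2 h2c.symm
  exact h.hno ⟨ψ, hψ, by rw [h1 v ⟨u0, hu0, hu0'⟩, hψx]⟩

/-- `v` has an edge in one of the two parts `sub G E1`, `sub G E1ᶜ`; colour this part by
`StarV V n` with `v` coloured `a`, then the other part with the colour of the common vertex. -/
theorem CexV.sepFree (h : CexV k G F n v a) : SepFree G := by
  intro E1 h1 h2
  by_contra hn
  have honly : ∀ v w, (∃ u, G.Adj v u ∧ s(v, u) ∈ E1) → (∃ u, G.Adj v u ∧ s(v, u) ∉ E1) →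
      (∃ u, G.Adj w u ∧ s(w, u) ∈ E1) → (∃ u, G.Adj w u ∧ s(w, u) ∉ E1) → v = w := by
    intro v w a1 a2 a3 a4
    by_contra hvw
    exact hn ⟨v, w, hvw, a1, a2, a3, a4⟩
  by_cases hv : ∃ u, G.Adj v u ∧ s(v, u) ∈ E1
  · exact h.sep_aux E1 hv h2 honly
  · obtain ⟨w, hw⟩ := h.nis
    refine h.sep_aux E1ᶜ ⟨w, hw, fun hh => hv ⟨w, hw, hh⟩⟩ ?_ ?_
    · obtain ⟨e, he, he'⟩ := h1
      exact ⟨e, he, fun hh => hh he'⟩
    · intro v w a1 a2 a3 a4
      refine honly v w ?_ a1 ?_ a3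
      · obtain ⟨u, hu, hu'⟩ := a2
        exact ⟨u, hu, not_not.1 hu'⟩
      · obtain ⟨u, hu, hu'⟩ := a4
        exact ⟨u, hu, not_not.1 hu'⟩

/-- as `CexC.short`, with `i0` any face at `v`; the second extension uses `Star V (n+1)` -/
theorem CexV.short (h : CexV k G F n v a) {ι : Type} [Fintype ι] {Fc : ι → EV V}
    (fs : FaceSys G ι Fc) {i0 : ι} (hi0 : On (Fc i0) v) {r : ℕ} {y : ZMod r → V} (hr : r ≤ k)
    (hy : IsCycSeq G y) {S : Finset ι} (hS : i0 ∉ S)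
    (hsum : cvec y = ∑ i ∈ S, Fc i) {u : V} (hu : u ∉ Set.range y) {i : ι} (hi : i ∈ S) :
    ¬ On (Fc i) u := by
  intro hon
  have sep := h.sepFree
  obtain ⟨D, hD⟩ : ∃ D : Set V, D = {u | u ∉ Set.range y ∧ ∃ i ∈ S, On (Fc i) u} := ⟨_, rfl⟩
  have mD : ∀ u, u ∈ D ↔ (u ∉ Set.range y ∧ ∃ i ∈ S, On (Fc i) u) := by
    intro u; rw [hD]; exact Iff.rfl
  have huD : u ∈ D := (mD u).2 ⟨hu, i, hi, hon⟩
  have hDv : v ∉ D := by
    intro hvD
    obtain ⟨hr', j, hj, hon'⟩ := (mD v).1 hvD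
    exact hS (side_all fs sep hy hsum hr' hj hon' i0 hi0)
  have hDy : ∀ v ∈ Set.range y, v ∉ D := fun v hv hvD => ((mD v).1 hvD).1 hv
  have hb : ∀ u ∈ D, ∀ w, G.Adj u w → w ∈ D ∨ w ∈ Set.range y := by
    intro u hu w huw
    rcases side_edge fs sep hy hsum ((mD u).1 hu) huw with hh | hh
    · exact Or.inl ((mD w).2 hh)
    · exact Or.inr hh
  obtain ⟨w, hw⟩ := hon
  have huw : G.Adj u w := by
    by_contra hn
    exact hw ((fs.cyc i).1 _ hn)
  obtain ⟨ψ1, hψ1, hv1⟩ := h.ext (del_le G D) ⟨s(u, w), huw, fun hh => hh.2.1 huD⟩ v a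
  obtain ⟨ψ2, hψ2, hy2⟩ := h.hS G F h.cls (by rw [h.card]) r y hr hy ψ1 (by
      intro p hp q hq hpq
      exact hψ1 p q ⟨hpq, F.adj _ _ _ _ hpq, hDy p hp, hDy q hq⟩)
  obtain ⟨ψ, hψ, hψD, -⟩ := glue F D (Set.range y) (fun v hv => ((mD v).1 hv).1) hb
    G (le_refl G) (fun u _ w huw => huw) ψ1 ψ2 hψ1 (fun p q hpq => hψ2 p q hpq.1)
    (fun v hv => (hy2 v hv).symm)
  exact h.hno ⟨ψ, hψ, by rw [hψD v hDv, hv1]⟩

/-- summary -/
theorem CexV.ctx (h : CexV k G F n v a) : ∃ (ι : Type) (_ : Fintype ι) (Fc : ι → EV V) (i0 : ι),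
    Ctx k G ι Fc i0 {v} := by
  obtain ⟨ι, hι, Fc, fs⟩ := exists_faceSys h.sepFree h.two_edges h.cls.pl
  obtain ⟨w, hw⟩ := h.nis
  obtain ⟨i0, -, -, hi0, -, -⟩ := fs.exists_two (e := s(v, w)) hw
  have hon : On (Fc i0) v := ⟨w, hi0⟩
  refine ⟨ι, hι, Fc, i0, ?_⟩
  exact
    { cls := h.cls
      sep := h.sepFree
      fs := fs
      two_edges := h.two_edges
      on0 := fun u hu => by rw [Set.mem_singleton_iff] at hu; rw [hu]; exact hon
      deg3 := fun u hu hw => h.deg3 (fun e => hu (Set.mem_singleton_iff.2 e)) hw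
      short := fun r y hr hy _ S hS hsum u hu i hi => h.short fs hon hr hy hS hsum hu hi }

end

end Pool.Agent.W_fb73a4_h20
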