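import Pool.Agent.W_fb73a4_h20.ME

set_option autoImplicit false

namespace Pool.Agent.W_fb73a4_h20

open Finset
open scoped Classical

section

variable {V : Type} [Fintype V] {G : SimpleGraph V}

/-- three different neighbours of a vertex of degree 3 are all neighbours -/
theorem nbrs_three {v a b c : V} (hd : dgr G v = 3) (ha : G.Adj v a) (hb : G.Adj v b)
    (hc : G.Adj v c) (hab : a ≠ b) (hac : a ≠ c) (hbc : b ≠ c) {u : V} (hu : G.Adj v u) :
    u = a ∨ u = b ∨ u = c := by
  have h1 : ({a, b, c} : Set V) ⊆ G.neighborSet v := by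
    intro w hw
    rcases hw with rfl | rfl | rfl
    · exact ha
    · exact hb
    · exact hc
  have h2 : ({a, b, c} : Set V).ncard = 3 := Set.ncard_eq_three.2 ⟨a, b, c, hab, hac, hbc, rfl⟩
  have h3 : ({a, b, c} : Set V) = G.neighborSet v := by
    apply Set.eq_of_subset_of_ncard_le h1
    · rw [h2]; exact le_of_eq hd
  have h4 : u ∈ ({a, b, c} : Set V) := by rw [h3]; exact hu
  rcases h4 with h | h | h
  · exact Or.inl h
  · exact Or.inr (Or.inl h)
  · exact Or.inr (Or.inr h)

/-- a vertex of degree 3 with two given neighbours has exactly one more -/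
theorem third_nbr {v a b : V} (hd : dgr G v = 3) (ha : G.Adj v a) (hb : G.Adj v b)
    (hab : a ≠ b) : ∃ c, G.Adj v c ∧ c ≠ a ∧ c ≠ b ∧ ∀ u, G.Adj v u → u = a ∨ u = b ∨ u = c := by
  have h1 : ∃ c, G.Adj v c ∧ c ≠ a ∧ c ≠ b := by
    by_contra hno
    push Not at hno
    have h2 : G.neighborSet v ⊆ ({a, b} : Set V) := by
      intro w hw
      by_cases h : w = a
      · exact Or.inl h
      · exact Or.inr (hno w hw h)
    have h3 := Set.ncard_le_ncard h2 (Set.toFinite _)
    have h4 : ({a, b} : Set V).ncard ≤ 2 := by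
      have := Set.ncard_insert_le a {b}
      rw [Set.ncard_singleton] at this
      exact this
    have h5 : (G.neighborSet v).ncard = 3 := hd
    omega
  obtain ⟨c, h2, h3, h4⟩ := h1
  exact ⟨c, h2, h3, h4, fun u hu => nbrs_three hd ha hb h2 hab h3.symm h4.symm hu⟩

variable {k : ℕ} {ι : Type} [Fintype ι] {F : ι → EV V} {i0 : ι} {Sp : Set V}
  {x1 x2 x3 x4 a b : V} {i : ι}

/-- the reversed tetrad -/
theorem Tetrad.rev (t : Tetrad G F Sp x1 x2 x3 x4 a b i) : Tetrad G F Sp x4 x3 x2 x1 b a i where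
  n12 := t.n34.symm
  n13 := t.n24.symm
  n14 := t.n14.symm
  n23 := t.n23.symm
  n24 := t.n13.symm
  n34 := t.n12.symm
  o1 := t.o4
  o2 := t.o3
  o3 := t.o2
  o4 := t.o1
  d1 := t.d4
  d2 := t.d3
  d3 := t.d2
  d4 := t.d1
  a12 := t.a34.symm
  a23 := t.a23.symm
  a34 := t.a12.symm
  ax1 := t.bx4
  ax2 := t.bx3
  bx3 := t.ax2
  bx4 := t.ax1
  f12 := by rw [Sym2.eq_swap]; exact t.f34
  f23 := by rw [Sym2.eq_swap]; exact t.f23
  f34 := by rw [Sym2.eq_swap]; exact t.f12

private theorem t1_no14 (cx : Ctx k G ι F i0 Sp) (t : Tetrad G F Sp x1 x2 x3 x4 a b i) :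
    ¬ G.Adj x4 x1 := fun h => cx.cls.no_four t.a12 t.a23 t.a34 h t.n13 t.n24

private theorem t1_no13 (cx : Ctx k G ι F i0 Sp) (t : Tetrad G F Sp x1 x2 x3 x4 a b i) :
    ¬ G.Adj x3 x1 := by
  intro h
  have hb2 : b ≠ x2 := by
    rintro rfl
    exact cx.cls.no_four t.a12 t.bx4 t.a34.symm h t.n14 t.n23
  have hb4 : b ≠ x4 := t.bx4.ne
  rcases nbrs_three t.d3 t.a23.symm t.a34 t.bx3.symm t.n24 hb2.symm hb4.symm h with h1 | h1 | h1
  · exact t.n12 h1
  · exact t.n14 h1
  · exact t1_no14 cx t (h1 ▸ t.bx4.symm)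

/-- `a` is not one of the other vertices. (If `a = x3`, then `x1` is a neighbour of `x3`, so `x1 = b`
and `x1 x2 x3 x4` is a 4-cycle; if `a = x4`, 4-cycle `x1 x2 x3 x4`; if `a = b`, 4-cycle
`a x2 x3 x4`. Use `Cls.no_four`.) -/
theorem Tetrad.a_ne (cx : Ctx k G ι F i0 Sp) (t : Tetrad G F Sp x1 x2 x3 x4 a b i) :
    a ≠ x3 ∧ a ≠ x4 ∧ a ≠ b := by
  refine ⟨?_, ?_, ?_⟩
  · rintro rfl
    exact t1_no13 cx t t.ax1
  · rintro rfl
    exact t1_no14 cx t t.ax1
  · rintro rfl
    exact cx.cls.no_four t.ax2 t.a23 t.a34 t.bx4.symm t.bx3.ne t.n24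

/-- the third neighbour `y1` of `x1` is not one of the other vertices (4-cycles) -/
theorem Tetrad.y_ne (cx : Ctx k G ι F i0 Sp) (t : Tetrad G F Sp x1 x2 x3 x4 a b i) {y1 : V}
    (h1 : G.Adj x1 y1) (h2 : y1 ≠ x2) (h3 : y1 ≠ a) : y1 ≠ x3 ∧ y1 ≠ x4 ∧ y1 ≠ b := by
  refine ⟨?_, ?_, ?_⟩
  · rintro rfl
    exact t1_no13 cx t h1.symm
  · rintro rfl
    exact t1_no14 cx t h1.symm
  · rintro rfl
    exact cx.cls.no_four t.a12 t.a23 t.bx3.symm h1.symm t.n13 h2.symm

/-- the faces around the path: there are faces `ta` (containing `x1x2`, `x2a`), `tb` (containing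
`x3x4`, `x3b`) and `g` (containing `x2a`, `x2x3`, `x3b`), and `i` contains `x1x2`, `x2x3`, `x3x4`; the
faces of the edge `x1x2` are `i, ta`, of `x2a`: `ta, g`, of `x2x3`: `i, g`, of `x3x4`: `i, tb`, of
`x3b`: `tb, g`. Use `deg_three` at `x2` and at `x3` and `exists_two`. -/
theorem Tetrad.faces (cx : Ctx k G ι F i0 Sp) (t : Tetrad G F Sp x1 x2 x3 x4 a b i) :
    ∃ ta tb g : ι, i ≠ ta ∧ i ≠ tb ∧ i ≠ g ∧ ta ≠ g ∧ tb ≠ g ∧
      (F ta s(x1, x2) ≠ 0 ∧ F ta s(x2, a) ≠ 0) ∧ (F tb s(x3, x4) ≠ 0 ∧ F tb s(x3, b) ≠ 0) ∧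
      (F g s(x2, a) ≠ 0 ∧ F g s(x2, x3) ≠ 0 ∧ F g s(x3, b) ≠ 0) := by
  have hane := t.a_ne cx
  have hbne := t.rev.a_ne cx
  have ha1 : a ≠ x1 := t.ax1.ne
  have ha2 : a ≠ x2 := t.ax2.ne
  have hb3 : b ≠ x3 := t.bx3.ne
  have hb4 : b ≠ x4 := t.bx4.ne
  have f21 : F i s(x2, x1) ≠ 0 := by rw [Sym2.eq_swap]; exact t.f12
  have f32 : F i s(x3, x2) ≠ 0 := by rw [Sym2.eq_swap]; exact t.f23
  -- at x2
  obtain ⟨ta, h1, h2, h3⟩ := cx.fs.deg_three cx.sep t.d2 t.a12.symm t.ax2.symm ha1.symm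
  obtain ⟨g, h4, h5, h6⟩ := cx.fs.deg_three cx.sep t.d2 t.a23 t.ax2.symm hane.1.symm
  obtain ⟨i1, h7, h8, h9⟩ := cx.fs.deg_three cx.sep t.d2 t.a12.symm t.a23 t.n13
  obtain ⟨tb, h10, h11, h12⟩ := cx.fs.deg_three cx.sep t.d3 t.a34 t.bx3.symm hb4.symm
  obtain ⟨g', h13, h14, h15⟩ := cx.fs.deg_three cx.sep t.d3 t.a23.symm t.bx3.symm hbne.1.symm
  obtain ⟨i2, h16, h17, h18⟩ := cx.fs.deg_three cx.sep t.d3 t.a23.symm t.a34 t.n24
  have hi1 : i = i1 := h9 i f21 t.f23
  have hi2 : i = i2 := h18 i f32 t.f34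
  have three : ∀ v, ∀ j, dgr G v = 3 → ∀ a b c : V, a ≠ b → a ≠ c → b ≠ c →
      F j s(v, a) ≠ 0 → F j s(v, b) ≠ 0 → F j s(v, c) ≠ 0 → False := by
    intro v j hd a b c hab hac hbc ha hb hc
    have h := cx.fs.two_at cx.sep (i := j) (v := v) ⟨a, ha⟩
    have h' : ({a, b, c} : Finset V) ⊆ univ.filter (fun u => F j s(v, u) ≠ 0) := by
      intro w hw
      simp only [mem_insert, mem_singleton] at hw
      simp only [mem_filter, mem_univ, true_and]
      rcases hw with rfl | rfl | rfl <;> assumption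
    have h'' := card_le_card h'
    rw [h, card_eq_three.2 ⟨a, b, c, hab, hac, hbc, rfl⟩] at h''
    omega
  have e1 : i ≠ ta := by
    rintro rfl
    exact three x2 i t.d2 x1 x3 a t.n13 ha1.symm hane.1.symm f21 t.f23 h2
  have e3 : i ≠ g := by
    rintro rfl
    exact three x2 i t.d2 x1 x3 a t.n13 ha1.symm hane.1.symm f21 t.f23 h5
  have e4 : ta ≠ g := by
    rintro rfl
    exact three x2 ta t.d2 x1 x3 a t.n13 ha1.symm hane.1.symm h1 h4 h2
  have e2 : i ≠ tb := by
    rintro rfl
    exact three x3 i t.d3 x2 x4 b t.n24 hbne.1.symm hb4.symm f32 t.f34 h11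
  have e5 : i ≠ g' := by
    rintro rfl
    exact three x3 i t.d3 x2 x4 b t.n24 hbne.1.symm hb4.symm f32 t.f34 h14
  have e6 : tb ≠ g' := by
    rintro rfl
    exact three x3 tb t.d3 x2 x4 b t.n24 hbne.1.symm hb4.symm h13 h10 h11
  -- g = g'
  have hg : g = g' := by
    obtain ⟨j, hj1, hj2, hj3⟩ := cx.fs.exists_other (i := i) (e := s(x2, x3)) t.f23
    have h13' : F g' s(x2, x3) ≠ 0 := by rw [Sym2.eq_swap]; exact h13
    rcases hj3 g h4 with h | h
    · exact absurd h.symm e3
    · rcases hj3 g' h13' with h' | h'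
      · exact absurd h'.symm e5
      · rw [h, h']
  subst hg
  refine ⟨ta, tb, g, e1, e2, e3, e4, e6, ⟨?_, h2⟩, ⟨h10, h11⟩, ⟨h5, h4, h14⟩⟩
  rw [Sym2.eq_swap]; exact h1

/-- vertices of the path are not in `{x1,..,x4}` -/
private theorem t1_off {X : Set V} {n : ℕ} {y : ℕ → V} (hy : IsPathN (del G X) n y) (hn : 1 ≤ n)
    {c : ℕ} (hc : c ≤ n) : y c ∉ X := by
  by_cases h : c < n
  · exact (hy.adj c h).2.1
  · have h1 : c = (n - 1) + 1 := by omega
    rw [h1]
    exact (hy.adj (n - 1) (by omega)).2.2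

/-- Case 1, see the next theorem. -/
private theorem t1_case1a (cx : Ctx k G ι F i0 Sp) (t : Tetrad G F Sp x1 x2 x3 x4 a b i) {y1 : V}
    (h1 : G.Adj x1 y1) (h2 : y1 ≠ x2) (h3 : y1 ≠ a) {n : ℕ} {y : ℕ → V}
    (hy : IsPathN (del G {x1, x2, x3, x4}) n y) (hy0 : y 0 = y1) (hn : 1 ≤ n)
    {c : ℕ} (hcn : c ≤ n) (hc : y c = a) : 6 ≤ c := by
  have hc0 : c ≠ 0 := by
    rintro rfl
    exact h3 (hy0.symm.trans hc)
  have hc1 : c ≠ 1 := by
    rintro rfl
    have h4 : G.Adj y1 a := by
      have := (hy.adj 0 (by omega)).1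
      rw [hy0] at this
      rw [zero_add, hc] at this
      exact this
    exact cx.cls.no_four h1 h4 t.ax2 t.a12.symm t.ax1.ne' h2
  -- the cycle x1, y 0, ..., y c
  have hoff : ∀ j, j ≤ n → y j ≠ x1 := fun j hj h => t1_off hy hn hj (Or.inl h)
  have h8 : 8 ≤ c + 2 := by
    refine cx.cls.len_eight_nat (n := c + 2) (by omega)
      (fun j => if j = 0 then a else if j = 1 then x1 else y (j - 2)) ?_ ?_ ?_ (i := 0) (by omega)
      (t := x2) ?_ ?_
    · intro p q hp hq h
      have hyc : ∀ j, j < c → y j ≠ a := by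
        intro j hj h5
        have := hy.inj j c (by omega) hcn (h5.trans hc.symm)
        omega
      by_cases p0 : p = 0 <;> by_cases q0 : q = 0
      · omega
      · rw [if_pos p0, if_neg q0] at h
        by_cases q1 : q = 1
        · rw [if_pos q1] at h; exact absurd h t.ax1.ne
        · rw [if_neg q1] at h; exact absurd h.symm (hyc (q - 2) (by omega))
      · rw [if_neg p0, if_pos q0] at h
        by_cases p1 : p = 1
        · rw [if_pos p1] at h; exact absurd h.symm t.ax1.ne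
        · rw [if_neg p1] at h; exact absurd h (hyc (p - 2) (by omega))
      · rw [if_neg p0, if_neg q0] at h
        by_cases p1 : p = 1 <;> by_cases q1 : q = 1
        · omega
        · rw [if_pos p1, if_neg q1] at h; exact absurd h.symm (hoff (q - 2) (by omega))
        · rw [if_neg p1, if_pos q1] at h; exact absurd h (hoff (p - 2) (by omega))
        · rw [if_neg p1, if_neg q1] at h
          have := hy.inj _ _ (by omega) (by omega) h
          omega
    · intro j hj
      by_cases j0 : j = 0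
      · subst j0; simpa using t.ax1
      · by_cases j1 : j = 1
        · subst j1
          simp only [one_ne_zero, if_false, if_true]
          norm_num
          rw [hy0]; exact h1
        · rw [if_neg j0, if_neg j1, if_neg (by omega), if_neg (by omega)]
          have h5 : j + 1 - 2 = j - 2 + 1 := by omega
          rw [h5]
          exact (hy.adj (j - 2) (by omega)).1
    · simp only [if_true]
      rw [if_neg (by omega), if_neg (by omega)]
      have h5 : c + 2 - 1 - 2 = c - 1 := by omega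
      rw [h5, ← hc]
      have h6 := (hy.adj (c - 1) (by omega)).1
      rw [Nat.sub_add_cancel (by omega)] at h6
      exact h6
    · simp only [if_true]; exact t.ax2
    · simp only [zero_add, one_ne_zero, if_false, if_true]; exact t.a12
  omega

/-- Let `y 0 = y1, ..., y n = b` be a path in `G - {x1,..,x4}`. Case 1, `y c = a` for some `c`. The
cycle `x1, y 0, ..., y c` has length `c + 2 ≠ 3` (else 4-cycle) and contains the edge `a x1` of a
triangle, so `c + 2 ≥ 8`. The cycle `x3, x2, y c, ..., y n` has length `n - c + 3` and contains the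
edge `x2 a` of a triangle, so it is at least 8. So `n ≥ 11`. -/
theorem Tetrad.path_case1 (cx : Ctx k G ι F i0 Sp) (t : Tetrad G F Sp x1 x2 x3 x4 a b i) {y1 : V}
    (h1 : G.Adj x1 y1) (h2 : y1 ≠ x2) (h3 : y1 ≠ a) {n : ℕ} {y : ℕ → V}
    (hy : IsPathN (del G {x1, x2, x3, x4}) n y) (hy0 : y 0 = y1) (hyn : y n = b)
    (hc : ∃ c, c ≤ n ∧ y c = a) : k ≤ n + 3 := by
  obtain ⟨c, hcn, hc⟩ := hc
  have hyb := (t.y_ne cx h1 h2 h3).2.2
  have hn : 1 ≤ n := by
    by_contra h
    have : n = 0 := by omega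
    subst this
    exact hyb (hy0.symm.trans hyn)
  have h6 := t1_case1a cx t h1 h2 h3 hy hy0 hn hcn hc
  have hab := (t.a_ne cx).2.2
  have hlt : c < n := by
    rcases Nat.lt_or_ge c n with h | h
    · exact h
    · exfalso
      have : c = n := by omega
      subst this
      exact hab (hc.symm.trans hyn)
  have hoff2 : ∀ j, j ≤ n → y j ≠ x2 := fun j hj h => t1_off hy hn hj (Or.inr (Or.inl h))
  have hoff3 : ∀ j, j ≤ n → y j ≠ x3 := fun j hj h =>
    t1_off hy hn hj (Or.inr (Or.inr (Or.inl h)))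
  have h8 : 8 ≤ n - c + 3 := by
    refine cx.cls.len_eight_nat (n := n - c + 3) (by omega)
      (fun j => if j = 0 then x3 else if j = 1 then x2 else y (c + j - 2)) ?_ ?_ ?_ (i := 1)
      (by omega) (t := x1) ?_ ?_
    · intro p q hp hq h
      by_cases p0 : p = 0 <;> by_cases q0 : q = 0
      · omega
      · rw [if_pos p0, if_neg q0] at h
        by_cases q1 : q = 1
        · rw [if_pos q1] at h; exact absurd h t.n23.symm
        · rw [if_neg q1] at h; exact absurd h.symm (hoff3 _ (by omega))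
      · rw [if_neg p0, if_pos q0] at h
        by_cases p1 : p = 1
        · rw [if_pos p1] at h; exact absurd h t.n23
        · rw [if_neg p1] at h; exact absurd h (hoff3 _ (by omega))
      · rw [if_neg p0, if_neg q0] at h
        by_cases p1 : p = 1 <;> by_cases q1 : q = 1
        · omega
        · rw [if_pos p1, if_neg q1] at h; exact absurd h.symm (hoff2 _ (by omega))
        · rw [if_neg p1, if_pos q1] at h; exact absurd h (hoff2 _ (by omega))
        · rw [if_neg p1, if_neg q1] at h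
          have := hy.inj _ _ (by omega) (by omega) h
          omega
    · intro j hj
      by_cases j0 : j = 0
      · subst j0; simpa using t.a23.symm
      · by_cases j1 : j = 1
        · subst j1
          simp only [one_ne_zero, if_false, if_true]
          norm_num
          rw [hc]; exact t.ax2.symm
        · rw [if_neg j0, if_neg j1, if_neg (by omega), if_neg (by omega)]
          have h5 : c + (j + 1) - 2 = c + j - 2 + 1 := by omega
          rw [h5]
          exact (hy.adj (c + j - 2) (by omega)).1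
    · simp only [if_true]
      rw [if_neg (by omega), if_neg (by omega)]
      have h5 : c + (n - c + 3 - 1) - 2 = n := by omega
      rw [h5, hyn]
      exact t.bx3
    · simp only [one_ne_zero, if_false, if_true]; exact t.a12.symm
    · norm_num
      rw [hc]; exact t.ax1
  have hk := cx.cls.hk
  rcases hk with hk | hk <;> omega

/-- Case 2, `a` is not on the path. Suppose `n + 4 ≤ k`. The cycle `K = x3, x2, x1, y 0, ..., y n` has
length `n + 4 ≤ k` and the vertex `x1 ∉ Sp`. `cvec K = ∑ i ∈ S, F i` with `i0 ∉ S`. It contains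
`x2x3`, so exactly one of the faces `i`, `g` is in `S`; but `x4` is on `i`, `a` is on `g`, and both are
off `K`. Contradiction to `cx.short`. -/
theorem Tetrad.path_case2 (cx : Ctx k G ι F i0 Sp) (t : Tetrad G F Sp x1 x2 x3 x4 a b i) {y1 : V}
    (h1 : G.Adj x1 y1) (h2 : y1 ≠ x2) (h3 : y1 ≠ a) {n : ℕ} {y : ℕ → V}
    (hy : IsPathN (del G {x1, x2, x3, x4}) n y) (hy0 : y 0 = y1) (hyn : y n = b)
    (hc : ∀ c, c ≤ n → y c ≠ a) : k ≤ n + 3 := by
  by_contra hlt
  have hyb := (t.y_ne cx h1 h2 h3).2.2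
  have hn : 1 ≤ n := by
    by_contra h
    have : n = 0 := by omega
    subst this
    exact hyb (hy0.symm.trans hyn)
  have hoff1 : ∀ j, j ≤ n → y j ≠ x1 := fun j hj h => t1_off hy hn hj (Or.inl h)
  have hoff2 : ∀ j, j ≤ n → y j ≠ x2 := fun j hj h => t1_off hy hn hj (Or.inr (Or.inl h))
  have hoff3 : ∀ j, j ≤ n → y j ≠ x3 := fun j hj h =>
    t1_off hy hn hj (Or.inr (Or.inr (Or.inl h)))
  have hoff4 : ∀ j, j ≤ n → y j ≠ x4 := fun j hj h =>
    t1_off hy hn hj (Or.inr (Or.inr (Or.inr h)))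
  set f : ℕ → V := fun j => if j = 0 then x3 else if j = 1 then x2 else if j = 2 then x1
    else y (j - 3) with hf
  have hf0 : f 0 = x3 := by simp [hf]
  have hf1 : f 1 = x2 := by simp [hf]
  have hf2 : f 2 = x1 := by simp [hf]
  have hf3 : ∀ j, 3 ≤ j → f j = y (j - 3) := by
    intro j hj
    simp only [hf]
    rw [if_neg (by omega), if_neg (by omega), if_neg (by omega)]
  have hval : ∀ j, j < n + 4 → (f j = x3 ∧ j = 0) ∨ (f j = x2 ∧ j = 1) ∨ (f j = x1 ∧ j = 2) ∨
      (f j = y (j - 3) ∧ 3 ≤ j ∧ j - 3 ≤ n) := by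
    intro j hj
    by_cases j0 : j = 0
    · left; subst j0; exact ⟨hf0, rfl⟩
    · by_cases j1 : j = 1
      · right; left; subst j1; exact ⟨hf1, rfl⟩
      · by_cases j2 : j = 2
        · right; right; left; subst j2; exact ⟨hf2, rfl⟩
        · right; right; right
          exact ⟨hf3 j (by omega), by omega, by omega⟩
  have hinj : ∀ p q, p < n + 4 → q < n + 4 → f p = f q → p = q := by
    intro p q hp hq h
    rcases hval p hp with ⟨e, e'⟩ | ⟨e, e'⟩ | ⟨e, e'⟩ | ⟨e, e', e''⟩ <;>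
      rcases hval q hq with ⟨g, g'⟩ | ⟨g, g'⟩ | ⟨g, g'⟩ | ⟨g, g', g''⟩ <;> rw [e, g] at h
    · omega
    · exact absurd h t.n23.symm
    · exact absurd h t.n13.symm
    · exact absurd h.symm (hoff3 _ g'')
    · exact absurd h t.n23
    · omega
    · exact absurd h t.n12.symm
    · exact absurd h.symm (hoff2 _ g'')
    · exact absurd h t.n13
    · exact absurd h t.n12
    · omega
    · exact absurd h.symm (hoff1 _ g'')
    · exact absurd h (hoff3 _ e'')
    · exact absurd h (hoff2 _ e'')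
    · exact absurd h (hoff1 _ e'')
    · have := hy.inj _ _ e'' g'' h
      omega
  have hadj : ∀ j, j + 1 < n + 4 → G.Adj (f j) (f (j + 1)) := by
    intro j hj
    by_cases j0 : j = 0
    · subst j0; rw [hf0, hf1]; exact t.a23.symm
    · by_cases j1 : j = 1
      · subst j1; rw [hf1, hf2]; exact t.a12.symm
      · by_cases j2 : j = 2
        · subst j2; rw [hf2, hf3 _ (by omega)]; norm_num; rw [hy0]; exact h1
        · rw [hf3 j (by omega), hf3 (j + 1) (by omega)]
          have h5 : j + 1 - 3 = j - 3 + 1 := by omega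
          rw [h5]
          exact (hy.adj (j - 3) (by omega)).1
  have hlast : G.Adj (f (n + 4 - 1)) (f 0) := by
    rw [hf0, hf3 _ (by omega)]
    have h5 : n + 4 - 1 - 3 = n := by omega
    rw [h5, hyn]; exact t.bx3
  have hK := cycSeq_of_nat (G := G) (n := n + 4) (by omega) f hinj hadj hlast
  have : NeZero (n + 4) := ⟨by omega⟩
  have hrange : ∀ v, v ∈ Set.range (fun j : ZMod (n + 4) => f j.val) →
      v = x1 ∨ v = x2 ∨ v = x3 ∨ ∃ j, j ≤ n ∧ v = y j := by
    rintro v ⟨j, rfl⟩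
    rcases hval j.val (ZMod.val_lt j) with ⟨e, e'⟩ | ⟨e, e'⟩ | ⟨e, e'⟩ | ⟨e, e', e''⟩
    · exact Or.inr (Or.inr (Or.inl e))
    · exact Or.inr (Or.inl e)
    · exact Or.inl e
    · exact Or.inr (Or.inr (Or.inr ⟨_, e'', e⟩))
  have ha : a ∉ Set.range (fun j : ZMod (n + 4) => f j.val) := by
    intro h
    rcases hrange a h with h | h | h | ⟨j, hj, h⟩
    · exact t.ax1.ne h
    · exact t.ax2.ne h
    · exact (t.a_ne cx).1 h
    · exact hc j hj h.symm
  have h4 : x4 ∉ Set.range (fun j : ZMod (n + 4) => f j.val) := by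
    intro h
    rcases hrange x4 h with h | h | h | ⟨j, hj, h⟩
    · exact t.n14 h.symm
    · exact t.n24 h.symm
    · exact t.n34 h.symm
    · exact hoff4 j hj h.symm
  obtain ⟨S, hS, hsum⟩ := cx.fs.gen' i0 (cvec_isCyc hK)
  obtain ⟨ta, tb, g, e1, e2, e3, e4, e5, -, -, ⟨g1, g2, g3⟩⟩ := t.faces cx
  have hmem : cvec (fun j : ZMod (n + 4) => f j.val) s(x2, x3) ≠ 0 := by
    rw [cvec_of_nat (by omega)]
    left
    refine ⟨0, by omega, ?_⟩
    rw [hf0, zero_add, hf1, Sym2.eq_swap]
  rw [hsum, cx.fs.sum_ne_zero S e3 t.f23 g2] at hmem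
  have hsh := cx.short (n + 4) _ (by omega) hK ⟨((2 : ℕ) : ZMod (n + 4)), by
    show f _ ∉ Sp
    rw [ZMod.val_natCast_of_lt (by omega), hf2]
    exact t.o1⟩ S hS hsum
  rcases hmem with ⟨h, -⟩ | ⟨-, h⟩
  · exact hsh x4 h4 i h ⟨x3, by rw [Sym2.eq_swap]; exact t.f34⟩
  · exact hsh a ha g h ⟨x2, by rw [Sym2.eq_swap]; exact g1⟩

theorem Tetrad.long_path (cx : Ctx k G ι F i0 Sp) (t : Tetrad G F Sp x1 x2 x3 x4 a b i) {y1 : V}
    (h1 : G.Adj x1 y1) (h2 : y1 ≠ x2) (h3 : y1 ≠ a) {n : ℕ} {y : ℕ → V}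
    (hy : IsPathN (del G {x1, x2, x3, x4}) n y) (hy0 : y 0 = y1) (hyn : y n = b) : k ≤ n + 3 := by
  by_cases hk : ∃ c, c ≤ n ∧ y c = a
  · exact t.path_case1 cx h1 h2 h3 hy hy0 hyn hk
  · exact t.path_case2 cx h1 h2 h3 hy hy0 hyn fun c hc h => hk ⟨c, hc, h⟩

end

section

variable {V : Type} [Fintype V] {G : SimpleGraph V} {p q : V} {k : ℕ}

private theorem t2_add_ne {n : ℕ} (hn : 3 ≤ n) (j : ZMod n) : j + 1 ≠ j := by
  intro h
  have h1 : (1 : ZMod n) = 0 := by
    have := congrArg (fun t => t - j) h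
    simpa using this
  have h2 : ((1 : ℕ) : ZMod n) = 0 := by simpa using h1
  rw [ZMod.natCast_eq_zero_iff] at h2
  have := Nat.le_of_dvd (by norm_num) h2
  omega

private theorem t2_add_sub_ne {n : ℕ} (hn : 3 ≤ n) (j : ZMod n) : j + 1 ≠ j - 1 := by
  intro h
  have h1 : (2 : ZMod n) = 0 := by
    have := congrArg (fun t => t - j + 1) h
    ring_nf at this
    exact this
  have h2 : ((2 : ℕ) : ZMod n) = 0 := by exact_mod_cast h1
  rw [ZMod.natCast_eq_zero_iff] at h2
  have := Nat.le_of_dvd (by norm_num) h2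
  omega

/-- a cycle of the new graph is a cycle of the old graph (after replacing `p` by `q` if necessary)
or comes from a path from `p` to `q` of the same length -/
theorem ident_cycle (hpq : p ≠ q) {n : ℕ} {x : ZMod n → V} (hx : IsCycSeq (ident G p q) x) :
    (∃ x' : ZMod n → V, IsCycSeq G x' ∧ ∀ j, x' j = x j ∨ (x j = p ∧ x' j = q)) ∨
      (∃ y : ℕ → V, IsPathN G n y ∧ y 0 = p ∧ y n = q) := by
  have hn := hx.three
  have : NeZero n := ⟨by omega⟩
  have hq : ∀ j, x j ≠ q := fun j => (hx.adj j).2.1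
  by_cases hp : ∃ j0, x j0 = p
  · obtain ⟨j0, hj0⟩ := hp
    have hother : ∀ j, j ≠ j0 → j + 1 ≠ j0 → G.Adj (x j) (x (j + 1)) := by
      intro j h1 h2
      rcases (hx.adj j).2.2.2 with h | ⟨h, -⟩ | ⟨h, -⟩
      · exact h
      · exact absurd (hx.inj (h.trans hj0.symm)) h1
      · exact absurd (hx.inj (h.trans hj0.symm)) h2
    have hR : G.Adj p (x (j0 + 1)) ∨ G.Adj q (x (j0 + 1)) := by
      rcases (hx.adj j0).2.2.2 with h | ⟨_, h⟩ | ⟨h, -⟩
      · left; rw [← hj0]; exact h
      · right; exact h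
      · exact absurd (hx.inj (h.trans hj0.symm)) (t2_add_ne hn j0)
    have hL : G.Adj (x (j0 - 1)) p ∨ G.Adj (x (j0 - 1)) q := by
      have h0 := hx.adj (j0 - 1)
      rw [sub_add_cancel] at h0
      rcases h0.2.2.2 with h | ⟨h, -⟩ | ⟨_, h⟩
      · left; rw [← hj0]; exact h
      · exfalso
        have h1 := hx.inj (h.trans hj0.symm)
        have h2 := t2_add_ne hn (j0 - 1)
        rw [sub_add_cancel] at h2
        exact h2 h1.symm
      · right; exact h
    -- vertices of the path in positive direction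
    have hval : ∀ i : ℕ, i < n → (((i : ℕ) : ZMod n)).val = i := fun i hi => ZMod.val_natCast_of_lt hi
    have hcast : ∀ i j : ℕ, i < n → j < n → ((i : ℕ) : ZMod n) = ((j : ℕ) : ZMod n) → i = j := by
      intro i j hi hj h
      have := congrArg ZMod.val h
      rwa [hval i hi, hval j hj] at this
    have hn1 : ((n - 1 : ℕ) : ZMod n) = -1 := by
      have h1 : ((n - 1 + 1 : ℕ) : ZMod n) = 0 := by
        rw [Nat.sub_add_cancel (by omega)]
        exact ZMod.natCast_self n
      push_cast at h1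
      exact eq_neg_of_add_eq_zero_left h1
    have hne0 : ∀ i : ℕ, 0 < i → i < n → ((i : ℕ) : ZMod n) ≠ 0 := by
      intro i h1 h2 h3
      have := hcast i 0 h2 (by omega) (by simpa using h3)
      omega
    rcases hR with hR | hR <;> rcases hL with hL | hL
    · left
      refine ⟨x, ⟨hn, hx.inj, ?_⟩, fun j => Or.inl rfl⟩
      intro j
      by_cases h1 : j = j0
      · subst h1; rw [hj0]; exact hR
      · by_cases h2 : j + 1 = j0
        · have h3 : j = j0 - 1 := by rw [← h2]; ring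
          subst h3
          rw [h2, hj0]; exact hL
        · exact hother j h1 h2
    · right
      refine ⟨fun i => if i = n then q else x (j0 + (i : ZMod n)), ⟨?_, ?_⟩, ?_, ?_⟩
      · intro i hi
        by_cases h1 : i + 1 = n
        · have h2 : i = n - 1 := by omega
          simp only [h1, if_true]
          rw [if_neg (by omega), h2, hn1, ← sub_eq_add_neg]
          exact hL
        · rw [if_neg (by omega), if_neg h1]
          by_cases h3 : i = 0
          · subst h3
            simp only [Nat.cast_zero, add_zero, zero_add, Nat.cast_one]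
            rw [hj0]; exact hR
          · have h4 := hother (j0 + (i : ZMod n)) (fun h => hne0 i (by omega) (by omega) (by
                simpa using h)) (fun h => hne0 (i + 1) (by omega) (by omega) (by
                have : j0 + ((i : ZMod n) + 1) = j0 := by rw [← add_assoc]; exact h
                have h5 : (i : ZMod n) + 1 = 0 := by simpa using this
                push_cast; exact h5))
            rw [add_assoc] at h4
            push_cast
            exact h4
      · intro i j hi hj h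
        by_cases h1 : i = n <;> by_cases h2 : j = n
        · omega
        · rw [if_pos h1, if_neg h2] at h
          exact absurd h.symm (hq _)
        · rw [if_neg h1, if_pos h2] at h
          exact absurd h (hq _)
        · rw [if_neg h1, if_neg h2] at h
          have := hx.inj h
          exact hcast i j (by omega) (by omega) (by simpa using this)
      · show (if (0 : ℕ) = n then q else x (j0 + ((0 : ℕ) : ZMod n))) = p
        rw [if_neg (by omega)]; simpa using hj0
      · simp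
    · right
      refine ⟨fun i => if i = n then q else x (j0 - (i : ZMod n)), ⟨?_, ?_⟩, ?_, ?_⟩
      · intro i hi
        by_cases h1 : i + 1 = n
        · have h2 : i = n - 1 := by omega
          simp only [h1, if_true]
          rw [if_neg (by omega), h2, hn1, sub_neg_eq_add]
          exact hR.symm
        · rw [if_neg (by omega), if_neg h1]
          by_cases h3 : i = 0
          · subst h3
            simp only [Nat.cast_zero, sub_zero, zero_add, Nat.cast_one]
            rw [hj0]; exact hL.symm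
          · have h4 := hother (j0 - ((i + 1 : ℕ) : ZMod n)) (fun h => hne0 (i + 1) (by omega) (by omega) (by
                have : j0 - ((i + 1 : ℕ) : ZMod n) = j0 - 0 := by rw [h, sub_zero]
                exact sub_right_injective this)) (fun h => hne0 i (by omega) (by omega) (by
                have : j0 - ((i : ℕ) : ZMod n) = j0 - 0 := by
                  rw [sub_zero]
                  have h6 : j0 - ((i + 1 : ℕ) : ZMod n) + 1 = j0 - ((i : ℕ) : ZMod n) := by
                    push_cast; ring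
                  rw [← h6]; exact h
                exact sub_right_injective this))
            have h6 : j0 - ((i + 1 : ℕ) : ZMod n) + 1 = j0 - ((i : ℕ) : ZMod n) := by
              push_cast; ring
            rw [h6] at h4
            exact h4.symm
      · intro i j hi hj h
        by_cases h1 : i = n <;> by_cases h2 : j = n
        · omega
        · rw [if_pos h1, if_neg h2] at h
          exact absurd h.symm (hq _)
        · rw [if_neg h1, if_pos h2] at h
          exact absurd h (hq _)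
        · rw [if_neg h1, if_neg h2] at h
          have := sub_right_injective (hx.inj h)
          exact hcast i j (by omega) (by omega) this
      · show (if (0 : ℕ) = n then q else x (j0 - ((0 : ℕ) : ZMod n))) = p
        rw [if_neg (by omega)]; simpa using hj0
      · simp
    · left
      refine ⟨Function.update x j0 q, ⟨hn, ?_, ?_⟩, ?_⟩
      · intro i j h
        by_cases h1 : i = j0 <;> by_cases h2 : j = j0
        · rw [h1, h2]
        · rw [h1, Function.update_self, Function.update_of_ne h2] at h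
          exact absurd h.symm (hq _)
        · rw [h2, Function.update_self, Function.update_of_ne h1] at h
          exact absurd h (hq _)
        · rw [Function.update_of_ne h1, Function.update_of_ne h2] at h
          exact hx.inj h
      · intro j
        by_cases h1 : j = j0
        · subst h1
          rw [Function.update_self, Function.update_of_ne (t2_add_ne hn j)]
          exact hR
        · by_cases h2 : j + 1 = j0
          · have h3 : j = j0 - 1 := by rw [← h2]; ring
            rw [h2, Function.update_self, Function.update_of_ne h1, h3]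
            exact hL
          · rw [Function.update_of_ne h1, Function.update_of_ne h2]
            exact hother j h1 h2
      · intro j
        by_cases h1 : j = j0
        · right; subst h1; exact ⟨hj0, Function.update_self ..⟩
        · left; exact Function.update_of_ne h1 ..
  · left
    refine ⟨x, ⟨hn, hx.inj, ?_⟩, fun j => Or.inl rfl⟩
    intro j
    rcases (hx.adj j).2.2.2 with h | ⟨h, -⟩ | ⟨h, -⟩
    · exact h
    · exact absurd ⟨j, h⟩ hp
    · exact absurd ⟨j + 1, h⟩ hp

/-- every path from `p` to `q` has length at least `k - 3` (that is 8 or 9) -/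
def FarApart (k : ℕ) (G : SimpleGraph V) (p q : V) : Prop :=
  ∀ (n : ℕ) (y : ℕ → V), IsPathN G n y → y 0 = p → y n = q → k ≤ n + 3

private theorem t2_path_one {a b : V} (h : G.Adj a b) :
    IsPathN G 1 (fun i => if i = 0 then a else b) := by
  refine ⟨?_, ?_⟩
  · intro i hi
    have : i = 0 := by omega
    subst this
    simpa using h
  · intro i j hi hj hij
    have h1 := h.ne
    interval_cases i <;> interval_cases j <;> simp_all

private theorem t2_path_two {a b c : V} (h : G.Adj a b) (h' : G.Adj b c) (hac : a ≠ c) :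
    IsPathN G 2 (fun i => if i = 0 then a else if i = 1 then b else c) := by
  refine ⟨?_, ?_⟩
  · intro i hi
    interval_cases i
    · simpa using h
    · simpa using h'
  · intro i j hi hj hij
    have h1 := h.ne
    have h2 := h'.ne
    interval_cases i <;> interval_cases j <;> simp_all

private theorem t2_path_three {a b c d : V} (h : G.Adj a b) (h' : G.Adj b c) (h'' : G.Adj c d)
    (hac : a ≠ c) (had : a ≠ d) (hbd : b ≠ d) :
    IsPathN G 3 (fun i => if i = 0 then a else if i = 1 then b else if i = 2 then c else d) := by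
  refine ⟨?_, ?_⟩
  · intro i hi
    interval_cases i
    · simpa using h
    · simpa using h'
    · simpa using h''
  · intro i j hi hj hij
    have h1 := h.ne
    have h2 := h'.ne
    have h3 := h''.ne
    interval_cases i <;> interval_cases j <;> simp_all

/-- `p` and `q` are not adjacent and have no common neighbour -/
theorem no_common (hk : 11 ≤ k) (hpq : p ≠ q) (hfar : FarApart k G p q) :
    ¬ G.Adj p q ∧ ∀ u, G.Adj p u → G.Adj q u → False := by
  refine ⟨fun h => ?_, fun u h1 h2 => ?_⟩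
  · have := hfar 1 _ (t2_path_one h) (by simp) (by simp)
    omega
  · have := hfar 2 _ (t2_path_two h1 h2.symm hpq) (by simp) (by simp)
    omega

/-- no path `p u w q` -/
theorem no_three (hk : 11 ≤ k) (hpq : p ≠ q) (hfar : FarApart k G p q) {u w : V}
    (h1 : G.Adj p u) (h2 : G.Adj u w) (h3 : G.Adj w q) : False := by
  have hc := no_common hk hpq hfar
  have hpw : p ≠ w := by rintro rfl; exact hc.1 h3
  have huq : u ≠ q := by rintro rfl; exact hc.1 h1
  have := hfar 3 _ (t2_path_three h1 h2 h3 hpw hpq huq) (by simp) (by simp)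
  omega

/-- triangles of the new graph are triangles of the old graph -/
theorem ident_triangle (hk : 11 ≤ k) (hpq : p ≠ q) (hfar : FarApart k G p q)
    {u v w : V} (h1 : (ident G p q).Adj u v) (h2 : (ident G p q).Adj v w)
    (h3 : (ident G p q).Adj u w) :
    ∃ u' v' w', G.Adj u' v' ∧ G.Adj v' w' ∧ G.Adj u' w' ∧ (u' = u ∨ (u = p ∧ u' = q)) ∧
      (v' = v ∨ (v = p ∧ v' = q)) ∧ (w' = w ∨ (w = p ∧ w' = q)) := by
  have hc := no_common hk hpq hfar
  have key : ∀ a b c : V, G.Adj p a → G.Adj a b → G.Adj b q → False := fun a b _ ha hb hc' =>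
    no_three hk hpq hfar ha hb hc'
  obtain ⟨n1, -, -, h1⟩ := h1
  obtain ⟨n2, -, -, h2⟩ := h2
  obtain ⟨n3, -, -, h3⟩ := h3
  by_cases hu : u = p
  · subst hu
    have hv : ¬ v = u := fun h => n1 h.symm
    have hw : ¬ w = u := fun h => n3 h.symm
    have h2' : G.Adj v w := by
      rcases h2 with h | ⟨h, -⟩ | ⟨h, -⟩
      · exact h
      · exact absurd h hv
      · exact absurd h hw
    rcases h1 with h | ⟨_, h⟩ | ⟨h, -⟩
    · rcases h3 with h' | ⟨_, h'⟩ | ⟨h', -⟩
      · exact ⟨u, v, w, h, h2', h', Or.inl rfl, Or.inl rfl, Or.inl rfl⟩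
      · exact (key v w w h h2' h'.symm).elim
      · exact absurd h' hw
    · rcases h3 with h' | ⟨_, h'⟩ | ⟨h', -⟩
      · exact (key w v v h' h2'.symm h.symm).elim
      · exact ⟨q, v, w, h, h2', h', Or.inr ⟨rfl, rfl⟩, Or.inl rfl, Or.inl rfl⟩
      · exact absurd h' hw
    · exact absurd h hv
  · by_cases hv : v = p
    · subst hv
      have hw : ¬ w = v := fun h => n2 h.symm
      have h3' : G.Adj u w := by
        rcases h3 with h | ⟨h, -⟩ | ⟨h, -⟩
        · exact h
        · exact absurd h hu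
        · exact absurd h hw
      rcases h1 with h | ⟨h, -⟩ | ⟨_, h⟩
      · rcases h2 with h' | ⟨_, h'⟩ | ⟨h', -⟩
        · exact ⟨u, v, w, h, h', h3', Or.inl rfl, Or.inl rfl, Or.inl rfl⟩
        · exact (key u w w h.symm h3' h'.symm).elim
        · exact absurd h' hw
      · exact absurd h hu
      · rcases h2 with h' | ⟨_, h'⟩ | ⟨h', -⟩
        · exact (key w u u h' h3'.symm h).elim
        · exact ⟨u, q, w, h, h', h3', Or.inl rfl, Or.inr ⟨rfl, rfl⟩, Or.inl rfl⟩
        · exact absurd h' hw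
    · have h1' : G.Adj u v := by
        rcases h1 with h | ⟨h, -⟩ | ⟨h, -⟩
        · exact h
        · exact absurd h hu
        · exact absurd h hv
      by_cases hw : w = p
      · subst hw
        rcases h2 with h | ⟨h, -⟩ | ⟨_, h⟩
        · rcases h3 with h' | ⟨h', -⟩ | ⟨_, h'⟩
          · exact ⟨u, v, w, h1', h, h', Or.inl rfl, Or.inl rfl, Or.inl rfl⟩
          · exact absurd h' hu
          · exact (key v u u h.symm h1'.symm h').elim
        · exact absurd h hv
        · rcases h3 with h' | ⟨h', -⟩ | ⟨_, h'⟩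
          · exact (key u v v h'.symm h1' h).elim
          · exact absurd h' hu
          · exact ⟨u, v, q, h1', h, h', Or.inl rfl, Or.inl rfl, Or.inr ⟨rfl, rfl⟩⟩
      · refine ⟨u, v, w, h1', ?_, ?_, Or.inl rfl, Or.inl rfl, Or.inl rfl⟩
        · rcases h2 with h | ⟨h, -⟩ | ⟨h, -⟩
          · exact h
          · exact absurd h hv
          · exact absurd h hw
        · rcases h3 with h | ⟨h, -⟩ | ⟨h, -⟩
          · exact h
          · exact absurd h hu
          · exact absurd h hw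

private theorem t2_adj_other {u v : V} (h : (ident G p q).Adj u v) (hu : u ≠ p) (hv : v ≠ p) :
    G.Adj u v := by
  rcases h.2.2.2 with h | ⟨h, -⟩ | ⟨h, -⟩
  · exact h
  · exact absurd h hu
  · exact absurd h hv

/-- If an edge `x j, x (j+1)` of a lifted cycle is in a triangle of the new graph, then the lifted edge
is in a triangle of the old graph. -/
private theorem t2_lift_tri (hk : 11 ≤ k) (hpq : p ≠ q) (hfar : FarApart k G p q)
    {a b t a' b' : V} (hab : (ident G p q).Adj a b) (hat : (ident G p q).Adj a t)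
    (hbt : (ident G p q).Adj b t) (hab' : G.Adj a' b') (ha' : a' = a ∨ (a = p ∧ a' = q))
    (hb' : b' = b ∨ (b = p ∧ b' = q)) : ∃ t', G.Adj a' t' ∧ G.Adj b' t' := by
  obtain ⟨a2, b2, t2, h1, h2, h3, e1, e2, e3⟩ := ident_triangle hk hpq hfar hab hbt hat
  have hc := no_common hk hpq hfar
  have haq : a ≠ q := hab.2.1
  have hbq : b ≠ q := hab.2.2.1
  have hne : a ≠ b := hab.1
  -- the two lifts of the edge agree
  have key : a' = a2 ∧ b' = b2 := by
    rcases ha' with ha | ⟨ha, ha'⟩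
    · rcases hb' with hb | ⟨hb, hb'⟩
      · rcases e1 with e1 | ⟨e1, e1'⟩
        · rcases e2 with e2 | ⟨e2, e2'⟩
          · exact ⟨ha.trans e1.symm, hb.trans e2.symm⟩
          · exfalso
            rw [e1, e2'] at h1
            rw [ha, hb, e2] at hab'
            exact hc.2 a hab'.symm h1.symm
        · exfalso
          rcases e2 with e2 | ⟨e2, -⟩
          · rw [e1', e2] at h1
            rw [ha, hb, e1] at hab'
            exact hc.2 b hab' h1
          · exact hne (e1.trans e2.symm)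
      · rcases e1 with e1 | ⟨e1, -⟩
        · rcases e2 with e2 | ⟨-, e2'⟩
          · exfalso
            rw [e1, e2, hb] at h1
            rw [ha, hb'] at hab'
            exact hc.2 a h1.symm hab'.symm
          · exact ⟨ha.trans e1.symm, hb'.trans e2'.symm⟩
        · exact absurd (e1.trans hb.symm) hne
    · rcases hb' with hb | ⟨hb, -⟩
      · rcases e1 with e1 | ⟨-, e1'⟩
        · exfalso
          rcases e2 with e2 | ⟨e2, -⟩
          · rw [e1, e2, ha] at h1
            rw [ha', hb] at hab'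
            exact hc.2 b h1 hab'
          · exact hne (ha.trans e2.symm)
        · rcases e2 with e2 | ⟨e2, -⟩
          · exact ⟨ha'.trans e1'.symm, hb.trans e2.symm⟩
          · exact absurd (ha.trans e2.symm) hne
      · exact absurd (ha.trans hb.symm) hne
  rw [key.1, key.2]
  exact ⟨t2, h3, h2⟩

/-- The class. Cycles of length at most `k - 4` of the new graph lift (`ident_cycle`); if an edge of
such a cycle is in a triangle with third vertex `t`, the lifted edge is in a lifted triangle: the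
lifts of the common vertices agree because `p` and `q` have no common neighbour. -/
theorem ident_cls (hG : Cls k G) (hpq : p ≠ q) (hfar : FarApart k G p q)
    (hM : MacLane (ident G p q))
    (htri : k = 11 → (∀ u w, G.Adj p u → G.Adj u w → G.Adj p w → False) ∨
      (∀ u w, G.Adj q u → G.Adj u w → G.Adj q w → False)) : Cls k (ident G p q) := by
  have hk : 11 ≤ k := by rcases hG.hk with h | h <;> omega
  have lift : ∀ (n : ℕ) (x : ZMod n → V), n + 4 ≤ k → IsCycSeq (ident G p q) x →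
      ∃ x' : ZMod n → V, IsCycSeq G x' ∧ ∀ j, x' j = x j ∨ (x j = p ∧ x' j = q) := by
    intro n x hn hx
    rcases ident_cycle hpq hx with h | ⟨y, h1, h2, h3⟩
    · exact h
    · have := hfar n y h1 h2 h3
      omega
  refine ⟨hG.hk, hM, ?_, ?_, ?_, ?_⟩
  · intro n x hx
    by_cases hn : n + 4 ≤ k
    · obtain ⟨x', hx', -⟩ := lift n x hn hx
      exact hG.no456 n x' hx'
    · omega
  · intro x hx j t h1 h2
    obtain ⟨x', hx', hl⟩ := lift 7 x (by omega) hx
    obtain ⟨t', h3, h4⟩ := t2_lift_tri hk hpq hfar (hx.adj j) h1 h2 (hx'.adj j) (hl j) (hl (j + 1))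
    exact hG.no73 x' hx' j t' h3 h4
  · intro hk11 a b c b' c' h1 h2 h3 h4 h5 h6
    obtain ⟨a1, b1, c1, g1, g2, g3, e1, e2, e3⟩ := ident_triangle hk hpq hfar h1 h2 h3
    obtain ⟨a2, b2, c2, g4, g5, g6, e4, e5, e6⟩ := ident_triangle hk hpq hfar h4 h5 h6
    have haq : a ≠ q := h1.2.1
    have hbq : b ≠ q := h1.2.2.1
    have hcq : c ≠ q := h3.2.2.1
    have hbq' : b' ≠ q := h4.2.2.1
    have hcq' : c' ≠ q := h6.2.2.1
    have haa : a1 = a2 := by
      rcases e1 with e1 | ⟨e1, e1'⟩ <;> rcases e4 with e4 | ⟨e4, e4'⟩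
      · rw [e1, e4]
      · exfalso
        have hp : a1 = p := e1.trans e4
        rcases htri hk11 with h | h
        · rw [hp] at g1 g3; exact h b1 c1 g1 g2 g3
        · rw [e4'] at g4 g6; exact h b2 c2 g4 g5 g6
      · exfalso
        have hp : a2 = p := e4.trans e1
        rcases htri hk11 with h | h
        · rw [hp] at g4 g6; exact h b2 c2 g4 g5 g6
        · rw [e1'] at g1 g3; exact h b1 c1 g1 g2 g3
      · rw [e1', e4']
    subst haa
    have hs := hG.tri hk11 a1 b1 c1 b2 c2 g1 g2 g3 g4 g5 g6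
    -- pass to the new graph by replacing `q` by `p`
    have hr : ∀ u u', (u' = u ∨ (u = p ∧ u' = q)) → u ≠ q → (if u' = q then p else u') = u := by
      intro u u' h hu
      rcases h with h | ⟨h, h'⟩
      · rw [h, if_neg hu]
      · rw [h', if_pos rfl, h]
    have hs' := congrArg (Sym2.map (fun u => if u = q then p else u)) hs
    simp only [Sym2.map_mk] at hs'
    rw [hr b b1 e2 hbq, hr c c1 e3 hcq, hr b' b2 e5 hbq', hr c' c2 e6 hcq'] at hs'
    exact hs'
  · intro hk12 x hx i j t t' hij h1 h2 h3 h4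
    obtain ⟨x', hx', hl⟩ := lift 8 x (by omega) hx
    obtain ⟨s, h5, h6⟩ := t2_lift_tri hk hpq hfar (hx.adj i) h1 h2 (hx'.adj i) (hl i) (hl (i + 1))
    obtain ⟨s', h7, h8⟩ := t2_lift_tri hk hpq hfar (hx.adj j) h3 h4 (hx'.adj j) (hl j) (hl (j + 1))
    exact hG.no8 hk12 x' hx' i j s s' hij h5 h6 h7 h8

/-- the number of edges does not grow -/
theorem ident_card (hpq : p ≠ q) : (ident G p q).edgeSet.ncard ≤ G.edgeSet.ncard := by
  refine Set.ncard_le_ncard_of_injOn
    (fun e => if e ∈ G.edgeSet then e else Sym2.map (fun u => if u = p then q else u) e) ?_ ?_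
    (Set.toFinite _)
  · intro e he
    induction e using Sym2.ind with
    | _ u v =>
      show (if s(u, v) ∈ G.edgeSet then s(u, v) else _) ∈ G.edgeSet
      by_cases h : s(u, v) ∈ G.edgeSet
      · rw [if_pos h]; exact h
      · rw [if_neg h]
        rw [SimpleGraph.mem_edgeSet] at h he
        obtain ⟨h1, h2, h3, h4⟩ := he
        rw [Sym2.map_mk, SimpleGraph.mem_edgeSet]
        rcases h4 with h4 | ⟨h4, h5⟩ | ⟨h4, h5⟩
        · exact absurd h4 h
        · have hv : v ≠ p := fun hv => h1 (h4.trans hv.symm)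
          simp only [if_pos h4, if_neg hv]
          exact h5
        · have hu : u ≠ p := fun hu => h1 (hu.trans h4.symm)
          simp only [if_pos h4, if_neg hu]
          exact h5
  · have hq : ∀ e, e ∈ (ident G p q).edgeSet → q ∉ e := by
      intro e he
      induction e using Sym2.ind with
      | _ u v =>
        rw [SimpleGraph.mem_edgeSet] at he
        intro hm
        rw [Sym2.mem_iff] at hm
        rcases hm with hm | hm
        · exact he.2.1 hm.symm
        · exact he.2.2.1 hm.symm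
    have hmap : ∀ e, e ∈ (ident G p q).edgeSet → e ∉ G.edgeSet →
        q ∈ Sym2.map (fun u => if u = p then q else u) e := by
      intro e he hne
      induction e using Sym2.ind with
      | _ u v =>
        rw [SimpleGraph.mem_edgeSet] at he hne
        obtain ⟨h1, h2, h3, h4⟩ := he
        rw [Sym2.map_mk, Sym2.mem_iff]
        rcases h4 with h4 | ⟨h4, h5⟩ | ⟨h4, h5⟩
        · exact absurd h4 hne
        · left; rw [if_pos h4]
        · right; rw [if_pos h4]
    have hback : ∀ e, q ∉ e → Sym2.map (fun u => if u = q then p else u)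
        (Sym2.map (fun u => if u = p then q else u) e) = e := by
      intro e he
      induction e using Sym2.ind with
      | _ u v =>
        rw [Sym2.mem_iff] at he
        push Not at he
        rw [Sym2.map_mk, Sym2.map_mk]
        have h1 : (if (if u = p then q else u) = q then p else (if u = p then q else u)) = u := by
          by_cases h : u = p
          · rw [if_pos h, if_pos rfl, h]
          · rw [if_neg h, if_neg (Ne.symm he.1)]
        have h2 : (if (if v = p then q else v) = q then p else (if v = p then q else v)) = v := by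
          by_cases h : v = p
          · rw [if_pos h, if_pos rfl, h]
          · rw [if_neg h, if_neg (Ne.symm he.2)]
        rw [h1, h2]
    intro e he e' he' h
    simp only at h
    by_cases h1 : e ∈ G.edgeSet <;> by_cases h2 : e' ∈ G.edgeSet
    · rw [if_pos h1, if_pos h2] at h; exact h
    · rw [if_pos h1, if_neg h2] at h
      exact absurd (h ▸ hmap e' he' h2) (hq e he)
    · rw [if_neg h1, if_pos h2] at h
      exact absurd (h ▸ hmap e he h1) (hq e' he')
    · rw [if_neg h1, if_neg h2] at h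
      have := congrArg (Sym2.map (fun u => if u = q then p else u)) h
      rwa [hback e (hq e he), hback e' (hq e' he')] at this

/-- the cover of the new graph: colours of `q` are renamed by `σ` -/
theorem ident_cover (F : Cover G) (hk : 11 ≤ k) (hpq : p ≠ q) (hfar : FarApart k G p q)
    (σ : Equiv.Perm (Fin 3)) :
    ∃ F' : Cover (ident G p q),
      (∀ u v a b, u ≠ p → u ≠ q → v ≠ p → v ≠ q → (F'.C u v a b ↔ F.C u v a b)) ∧
      (∀ v a b, v ≠ q → (F'.C p v a b ↔ (F.C p v a b ∨ F.C q v (σ a) b))) := by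
  have hc := no_common hk hpq hfar
  let C' : V → V → Fin 3 → Fin 3 → Prop := fun u v a b =>
    u ≠ q ∧ v ≠ q ∧ (F.C u v a b ∨ (u = p ∧ F.C q v (σ a) b) ∨ (v = p ∧ F.C u q a (σ b)))
  have edge_iff : ∀ u v u' v' a b, u ≠ q → v ≠ q → G.Adj u' v' → (u' = u ∨ (u = p ∧ u' = q)) →
      (v' = v ∨ (v = p ∧ v' = q)) →
      (C' u v a b ↔ F.C u' v' (if u' = q then σ a else a) (if v' = q then σ b else b)) := by
    intro u v u' v' a b hu hv hadj hu' hv'
    rcases hu' with hu' | ⟨hu', hu''⟩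
    · rcases hv' with hv' | ⟨hv', hv''⟩
      · subst hu'; subst hv'
        rw [if_neg hu, if_neg hv]
        constructor
        · rintro ⟨-, -, h | ⟨h, h'⟩ | ⟨h, h'⟩⟩
          · exact h
          · exfalso
            subst h
            exact hc.2 _ hadj (F.adj _ _ _ _ h')
          · exfalso
            subst h
            exact hc.2 _ hadj.symm (F.adj _ _ _ _ h').symm
        · intro h
          exact ⟨hu, hv, Or.inl h⟩
      · subst hu'; subst hv'; subst hv''
        rw [if_neg hu, if_pos rfl]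
        constructor
        · rintro ⟨-, -, h | ⟨h, h'⟩ | ⟨h, h'⟩⟩
          · exfalso
            exact hc.2 _ (F.adj _ _ _ _ h).symm hadj.symm
          · exfalso
            subst h
            exact hc.1 hadj
          · exact h'
        · intro h
          exact ⟨hu, hv, Or.inr (Or.inr ⟨rfl, h⟩)⟩
    · rcases hv' with hv' | ⟨hv', hv''⟩
      · subst hu'; subst hv'; subst hu''
        rw [if_pos rfl, if_neg hv]
        constructor
        · rintro ⟨-, -, h | ⟨h, h'⟩ | ⟨h, h'⟩⟩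
          · exfalso
            exact hc.2 _ (F.adj _ _ _ _ h) hadj
          · exact h'
          · exfalso
            subst h
            exact hc.1 hadj.symm
        · intro h
          exact ⟨hu, hv, Or.inr (Or.inl ⟨rfl, h⟩)⟩
      · rw [hu'', hv''] at hadj
        exact absurd rfl hadj.ne
  have symm' : ∀ u v a b, C' u v a b → C' v u b a := by
    rintro u v a b ⟨h1, h2, h | ⟨h, h'⟩ | ⟨h, h'⟩⟩
    · exact ⟨h2, h1, Or.inl (F.symm _ _ _ _ h)⟩
    · exact ⟨h2, h1, Or.inr (Or.inr ⟨h, F.symm _ _ _ _ h'⟩)⟩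
    · exact ⟨h2, h1, Or.inr (Or.inl ⟨h, F.symm _ _ _ _ h'⟩)⟩
  have adj' : ∀ u v a b, C' u v a b → (ident G p q).Adj u v := by
    rintro u v a b ⟨h1, h2, h | ⟨h, h'⟩ | ⟨h, h'⟩⟩
    · exact ⟨(F.adj _ _ _ _ h).ne, h1, h2, Or.inl (F.adj _ _ _ _ h)⟩
    · have h3 := F.adj _ _ _ _ h'
      refine ⟨?_, h1, h2, Or.inr (Or.inl ⟨h, h3⟩)⟩
      rintro rfl
      subst h
      exact hc.1 h3.symm
    · have h3 := F.adj _ _ _ _ h'
      refine ⟨?_, h1, h2, Or.inr (Or.inr ⟨h, h3⟩)⟩
      rintro rfl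
      subst h
      exact hc.1 h3
  refine ⟨⟨C', symm', adj', ?_, ?_⟩, ?_, ?_⟩
  · rintro u v a b b' ⟨h1, h2, h | ⟨h, h'⟩ | ⟨h, h'⟩⟩ ⟨-, -, g | ⟨g, g'⟩ | ⟨g, g'⟩⟩
    · exact F.mat _ _ _ _ _ h g
    · exfalso
      subst g
      exact hc.2 _ (F.adj _ _ _ _ h) (F.adj _ _ _ _ g')
    · exfalso
      subst g
      exact hc.2 _ (F.adj _ _ _ _ h).symm (F.adj _ _ _ _ g').symm
    · exfalso
      subst h
      exact hc.2 _ (F.adj _ _ _ _ g) (F.adj _ _ _ _ h')
    · exact F.mat _ _ _ _ _ h' g'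
    · exfalso
      subst g
      exact hc.1 (F.adj _ _ _ _ h').symm
    · exfalso
      subst h
      exact hc.2 _ (F.adj _ _ _ _ g).symm (F.adj _ _ _ _ h').symm
    · exfalso
      subst h
      exact hc.1 (F.adj _ _ _ _ g').symm
    · exact σ.injective (F.mat _ _ _ _ _ h' g')
  · intro u v w a b c huw h h'
    have h1 := adj' _ _ _ _ h
    have h2 := adj' _ _ _ _ h'
    obtain ⟨u', v', w', g1, g2, g3, e1, e2, e3⟩ := ident_triangle hk hpq hfar h1 h2 huw
    rw [edge_iff u v u' v' a b h1.2.1 h1.2.2.1 g1 e1 e2] at h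
    rw [edge_iff v w v' w' b c h2.2.1 h2.2.2.1 g2 e2 e3] at h'
    rw [edge_iff u w u' w' a c huw.2.1 huw.2.2.1 g3 e1 e3]
    exact F.tri _ _ _ _ _ _ g3 h h'
  · intro u v a b hu hu' hv hv'
    constructor
    · rintro ⟨-, -, h | ⟨h, -⟩ | ⟨h, -⟩⟩
      · exact h
      · exact absurd h hu
      · exact absurd h hv
    · intro h
      exact ⟨hu', hv', Or.inl h⟩
  · intro v a b hv
    constructor
    · rintro ⟨-, -, h | ⟨-, h⟩ | ⟨h, h'⟩⟩
      · exact Or.inl h
      · exact Or.inr h
      · exact absurd (F.adj _ _ _ _ h') hc.1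
    · rintro (h | h)
      · exact ⟨hpq, hv, Or.inl h⟩
      · exact ⟨hpq, hv, Or.inr (Or.inl ⟨rfl, h⟩)⟩

/-- colourings of the new graph give colourings of the old graph -/
theorem ident_lift (F : Cover G) (hk : 11 ≤ k) (hpq : p ≠ q) (hfar : FarApart k G p q)
    (σ : Equiv.Perm (Fin 3)) (F' : Cover (ident G p q))
    (h1 : ∀ u v a b, u ≠ p → u ≠ q → v ≠ p → v ≠ q → (F'.C u v a b ↔ F.C u v a b))
    (h2 : ∀ v a b, v ≠ q → (F'.C p v a b ↔ (F.C p v a b ∨ F.C q v (σ a) b)))
    (ψ : V → Fin 3) (hψ : Proper F' ψ) :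
    ∃ ψ' : V → Fin 3, Proper F ψ' ∧ (∀ u, u ≠ q → ψ' u = ψ u) ∧ ψ' q = σ (ψ p) := by
  have hc := no_common hk hpq hfar
  let ψ' : V → Fin 3 := fun u => if u = q then σ (ψ p) else ψ u
  have e1 : ∀ u, u ≠ q → ψ' u = ψ u := fun u hu => if_neg hu
  have e2 : ψ' q = σ (ψ p) := if_pos rfl
  -- no conflict at `p` or `q`
  have hp : ∀ v, v ≠ q → ¬ F.C p v (ψ p) (ψ v) := fun v hv h =>
    hψ p v ((h2 v _ _ hv).2 (Or.inl h))
  have hq : ∀ v, v ≠ q → ¬ F.C q v (σ (ψ p)) (ψ v) := fun v hv h =>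
    hψ p v ((h2 v _ _ hv).2 (Or.inr h))
  refine ⟨ψ', ?_, e1, e2⟩
  intro u v h
  have hadj := F.adj _ _ _ _ h
  by_cases huq : u = q
  · subst huq
    rw [e2, e1 v hadj.ne'] at h
    exact hq v hadj.ne' h
  · by_cases hvq : v = q
    · subst hvq
      rw [e2, e1 u huq] at h
      exact hq u huq (F.symm _ _ _ _ h)
    · rw [e1 u huq, e1 v hvq] at h
      by_cases hup : u = p
      · subst hup
        exact hp v hvq h
      · by_cases hvp : v = p
        · subst hvp
          exact hp u huq (F.symm _ _ _ _ h)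
        · exact hψ u v ((h1 u v _ _ hup huq hvp hvq).2 h)

end

section

/-!
T3: the colouring part of the tetrad reduction, and arcs of short cycles.
-/

variable {V : Type} [Fintype V] {G : SimpleGraph V}

theorem T3_core : ∀ g p l4 : Fin 3, ∃ l1 l2 l3 : Fin 3, l1 ≠ l2 ∧ l2 ≠ l3 ∧ l3 ≠ l4 ∧ l1 ≠ g ∧
    l3 ≠ g ∧ l1 ≠ p ∧ l2 ≠ p := by
  decide

theorem T3_avoid : ∀ p q : Fin 3, ∃ l : Fin 3, l ≠ p ∧ l ≠ q := by
  decide

/-- two predicates with at most one element each do not cover three labels -/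
theorem T3_free (B1 B2 : Fin 3 → Prop) (h1 : ∀ l l', B1 l → B1 l' → l = l')
    (h2 : ∀ l l', B2 l → B2 l' → l = l') : ∃ l, ¬ (B1 l ∨ B2 l) := by
  obtain ⟨p, hp⟩ : ∃ p : Fin 3, ∀ l, B1 l → l = p := by
    by_cases hA : ∃ p, B1 p
    · obtain ⟨p, hp⟩ := hA
      exact ⟨p, fun l hl => h1 l p hl hp⟩
    · exact ⟨0, fun l hl => absurd ⟨l, hl⟩ hA⟩
  obtain ⟨q, hq⟩ : ∃ p : Fin 3, ∀ l, B2 l → l = p := by
    by_cases hA : ∃ p, B2 p
    · obtain ⟨p, hp⟩ := hA
      exact ⟨p, fun l hl => h2 l p hl hp⟩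
    · exact ⟨0, fun l hl => absurd ⟨l, hl⟩ hA⟩
  obtain ⟨l, e1, e2⟩ := T3_avoid p q
  exact ⟨l, fun h => h.elim (fun h => e1 (hp _ h)) (fun h => e2 (hq _ h))⟩

/-- finite core: labels `l1 l2 l3 l4` of `x1 x2 x3 x4`. `g` is forbidden at `x1` and `x3`, the
predicates `A1 A2` (at most one label each, forbidden by `a`), `A4` at most two labels -/
theorem labels_core (g : Fin 3) (A1 A2 A4 : Fin 3 → Prop)
    (h1 : ∀ l l', A1 l → A1 l' → l = l') (h2 : ∀ l l', A2 l → A2 l' → l = l')
    (h12 : ∀ l l', A1 l → A2 l' → l = l') (h4 : ∃ l, ¬ A4 l) :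
    ∃ l1 l2 l3 l4 : Fin 3, l1 ≠ l2 ∧ l2 ≠ l3 ∧ l3 ≠ l4 ∧ l1 ≠ g ∧ l3 ≠ g ∧ ¬ A1 l1 ∧ ¬ A2 l2 ∧
      ¬ A4 l4 := by
  obtain ⟨p, hp1, hp2⟩ : ∃ p : Fin 3, (∀ l, A1 l → l = p) ∧ ∀ l, A2 l → l = p := by
    by_cases hA : ∃ p, A1 p
    · obtain ⟨p, hp⟩ := hA
      exact ⟨p, fun l hl => h1 l p hl hp, fun l hl => (h12 p l hp hl).symm⟩
    · by_cases hB : ∃ p, A2 p
      · obtain ⟨p, hp⟩ := hB
        exact ⟨p, fun l hl => absurd ⟨l, hl⟩ hA, fun l hl => h2 l p hl hp⟩
      · exact ⟨0, fun l hl => absurd ⟨l, hl⟩ hA, fun l hl => absurd ⟨l, hl⟩ hB⟩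
  obtain ⟨l4, hl4⟩ := h4
  obtain ⟨l1, l2, l3, e1, e2, e3, e4, e5, e6, e7⟩ := T3_core g p l4
  exact ⟨l1, l2, l3, l4, e1, e2, e3, e4, e5, fun h => e6 (hp1 _ h), fun h => e7 (hp2 _ h), hl4⟩

/-- COLOUR LEMMA. There is a permutation `σ` of the colours such that every colouring `ψ` of
`G - {x1,..,x4}` with `ψ b = σ (ψ y1)` extends to `G`. Proof: complete the matchings on
`y1x1, x1x2, x2x3, x3b, x3x4` to permutations `s1, s2, s3, s4, s5` (`exists_completion`) and let
`σ = s4 ∘ s3 ∘ s2 ∘ s1`. Label `l` stands for the colour `l` at `x1`, `s2 l` at `x2`, `s3 (s2 l)` at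
`x3`, `s5 (s3 (s2 l))` at `x4`. Conflicts along `x1x2, x2x3, x3x4` imply equal labels. `g` is the label
of `s1 (ψ y1)`; `A1` (`A2`) are the labels in conflict at `x1` (`x2`) with `ψ a`; by `F.tri` they are
equal if both exist; `A4`: labels at `x4` in conflict with `ψ b` or `ψ y4` (`x4` has at most two
neighbours besides `x3`). Apply `labels_core`. -/
theorem tetrad_colour (F : Cover G) {x1 x2 x3 x4 a b y1 y4 : V}
    (n12 : x1 ≠ x2) (n13 : x1 ≠ x3) (n14 : x1 ≠ x4) (n23 : x2 ≠ x3) (n24 : x2 ≠ x4) (n34 : x3 ≠ x4)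
    (ha : a ∉ ({x1, x2, x3, x4} : Set V)) (hb : b ∉ ({x1, x2, x3, x4} : Set V))
    (hy1 : y1 ∉ ({x1, x2, x3, x4} : Set V)) (hy4 : y4 ∉ ({x1, x2, x3, x4} : Set V))
    (N1 : ∀ u, G.Adj x1 u → u = x2 ∨ u = a ∨ u = y1)
    (N2 : ∀ u, G.Adj x2 u → u = x1 ∨ u = x3 ∨ u = a)
    (N3 : ∀ u, G.Adj x3 u → u = x2 ∨ u = x4 ∨ u = b)
    (N4 : ∀ u, G.Adj x4 u → u = x3 ∨ u = b ∨ u = y4)
    (h12 : G.Adj x1 x2) (ha1 : G.Adj x1 a) (ha2 : G.Adj x2 a) :
    ∃ σ : Equiv.Perm (Fin 3), ∀ ψ : V → Fin 3,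
      Proper (F.restrict (del G {x1, x2, x3, x4}) (del_le G _)) ψ → ψ b = σ (ψ y1) →
        ∃ ψ' : V → Fin 3, Proper F ψ' ∧ ∀ u, u ∉ ({x1, x2, x3, x4} : Set V) → ψ' u = ψ u := by
  obtain ⟨s1, hs1⟩ := exists_completion F y1 x1
  obtain ⟨s2, hs2⟩ := exists_completion F x1 x2
  obtain ⟨s3, hs3⟩ := exists_completion F x2 x3
  obtain ⟨s4, hs4⟩ := exists_completion F x3 b
  obtain ⟨s5, hs5⟩ := exists_completion F x3 x4
  refine ⟨s4 * s3 * s2 * s1, fun ψ hψ hb' => ?_⟩
  have hbσ : ψ b = s4 (s3 (s2 (s1 (ψ y1)))) := hb'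
  have uniq : ∀ (u v : V) (c c' c'' : Fin 3), F.C u v c c' → F.C u v c c'' → c' = c'' :=
    fun u v c c' c'' h h' => F.mat u v c c' c'' h h'
  obtain ⟨l1, l2, l3, l4, e12, e23, e34, e1g, e3g, eA1, eA2, eA4⟩ :=
    labels_core (s1 (ψ y1)) (fun l => F.C a x1 (ψ a) l) (fun l => F.C a x2 (ψ a) (s2 l))
      (fun l => F.C b x4 (ψ b) (s5 (s3 (s2 l))) ∨ F.C y4 x4 (ψ y4) (s5 (s3 (s2 l))))
      (fun l l' h h' => uniq _ _ _ _ _ h h')
      (fun l l' h h' => s2.injective (uniq _ _ _ _ _ h h'))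
      (fun l l' h h' => by
        have h3 : F.C x1 x2 l (s2 l') := F.tri x1 a x2 l (ψ a) (s2 l') h12 (F.symm _ _ _ _ h) h'
        exact (s2.injective (hs2 _ _ h3)).symm)
      (T3_free _ _ (fun l l' h h' => s2.injective (s3.injective (s5.injective
        (uniq _ _ _ _ _ h h')))) (fun l l' h h' => s2.injective (s3.injective (s5.injective
        (uniq _ _ _ _ _ h h')))))
  obtain ⟨ψ', hψ'⟩ : ∃ ψ' : V → Fin 3, ∀ u, ψ' u = if u = x1 then l1 else if u = x2 then s2 l2 else
      if u = x3 then s3 (s2 l3) else if u = x4 then s5 (s3 (s2 l4)) else ψ u := ⟨_, fun _ => rfl⟩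
  have p1 : ψ' x1 = l1 := by rw [hψ', if_pos rfl]
  have p2 : ψ' x2 = s2 l2 := by rw [hψ', if_neg n12.symm, if_pos rfl]
  have p3 : ψ' x3 = s3 (s2 l3) := by rw [hψ', if_neg n13.symm, if_neg n23.symm, if_pos rfl]
  have p4 : ψ' x4 = s5 (s3 (s2 l4)) := by
    rw [hψ', if_neg n14.symm, if_neg n24.symm, if_neg n34.symm, if_pos rfl]
  have pout : ∀ u, u ∉ ({x1, x2, x3, x4} : Set V) → ψ' u = ψ u := by
    intro u hu
    have q1 : u ≠ x1 := fun h => hu (by simp [h])
    have q2 : u ≠ x2 := fun h => hu (by simp [h])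
    have q3 : u ≠ x3 := fun h => hu (by simp [h])
    have q4 : u ≠ x4 := fun h => hu (by simp [h])
    rw [hψ', if_neg q1, if_neg q2, if_neg q3, if_neg q4]
  have pa := pout a ha
  have pb := pout b hb
  have py1 := pout y1 hy1
  have py4 := pout y4 hy4
  have r12 : ¬ F.C x1 x2 (ψ' x1) (ψ' x2) := by
    rw [p1, p2]
    intro h
    exact e12 (s2.injective (hs2 _ _ h)).symm
  have r23 : ¬ F.C x2 x3 (ψ' x2) (ψ' x3) := by
    rw [p2, p3]
    intro h
    exact e23 (s2.injective (s3.injective (hs3 _ _ h))).symm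
  have r34 : ¬ F.C x3 x4 (ψ' x3) (ψ' x4) := by
    rw [p3, p4]
    intro h
    exact e34 (s2.injective (s3.injective (s5.injective (hs5 _ _ h)))).symm
  have key : ∀ u ∈ ({x1, x2, x3, x4} : Set V), ∀ v, ¬ F.C u v (ψ' u) (ψ' v) := by
    intro u hu v hC
    have hadj := F.adj _ _ _ _ hC
    simp only [Set.mem_insert_iff, Set.mem_singleton_iff] at hu
    rcases hu with rfl | rfl | rfl | rfl
    · rcases N1 v hadj with rfl | rfl | rfl
      · exact r12 hC
      · rw [p1, pa] at hC
        exact eA1 (F.symm _ _ _ _ hC)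
      · rw [p1, py1] at hC
        exact e1g (hs1 _ _ (F.symm _ _ _ _ hC))
    · rcases N2 v hadj with rfl | rfl | rfl
      · exact r12 (F.symm _ _ _ _ hC)
      · exact r23 hC
      · rw [p2, pa] at hC
        exact eA2 (F.symm _ _ _ _ hC)
    · rcases N3 v hadj with rfl | rfl | rfl
      · exact r23 (F.symm _ _ _ _ hC)
      · exact r34 hC
      · rw [p3, pb] at hC
        have h5 := hs4 _ _ hC
        rw [hbσ] at h5
        exact e3g (s2.injective (s3.injective (s4.injective h5))).symm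
    · rcases N4 v hadj with rfl | rfl | rfl
      · exact r34 (F.symm _ _ _ _ hC)
      · rw [p4, pb] at hC
        exact eA4 (Or.inl (F.symm _ _ _ _ hC))
      · rw [p4, py4] at hC
        exact eA4 (Or.inr (F.symm _ _ _ _ hC))
  refine ⟨ψ', fun u v hC => ?_, pout⟩
  by_cases hu : u ∈ ({x1, x2, x3, x4} : Set V)
  · exact key u hu v hC
  by_cases hv : v ∈ ({x1, x2, x3, x4} : Set V)
  · exact key v hv u (F.symm _ _ _ _ hC)
  · rw [pout u hu, pout v hv] at hC
    exact hψ u v ⟨hC, F.adj _ _ _ _ hC, hu, hv⟩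

/-- two different vertices of a cycle of length `m` are joined by a path of length at most `m / 2`
inside the cycle -/
theorem arc_path {m : ℕ} {x : ZMod m → V} (hx : IsCycSeq G x) {u v : V}
    (hu : u ∈ Set.range x) (hv : v ∈ Set.range x) (huv : u ≠ v) :
    ∃ (n : ℕ) (y : ℕ → V), IsPathN G n y ∧ y 0 = u ∧ y n = v ∧ 2 * n ≤ m ∧ 1 ≤ n ∧
      ∀ i, i ≤ n → y i ∈ Set.range x := by
  obtain ⟨i, rfl⟩ := hu
  obtain ⟨j, rfl⟩ := hv
  have hm := hx.three
  have : NeZero m := ⟨by omega⟩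
  have hij : i ≠ j := fun h => huv (by rw [h])
  have hcast : ∀ s t : ℕ, s < m → t < m → (s : ZMod m) = (t : ZMod m) → s = t := by
    intro s t hs ht hst
    have h := congrArg ZMod.val hst
    rwa [ZMod.val_natCast_of_lt hs, ZMod.val_natCast_of_lt ht] at h
  by_cases hd : 2 * (j - i).val ≤ m
  · refine ⟨(j - i).val, fun t => x (i + (t : ZMod m)), ⟨?_, ?_⟩, ?_, ?_, hd, ?_, ?_⟩
    · intro t _
      have h := hx.adj (i + (t : ZMod m))
      rw [add_assoc] at h
      push_cast
      exact h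
    · intro s t hs ht hst
      have hlt := ZMod.val_lt (j - i)
      exact hcast s t (by omega) (by omega) (add_left_cancel (hx.inj hst))
    · simp
    · show x (i + (((j - i).val : ℕ) : ZMod m)) = x j
      rw [ZMod.natCast_zmod_val]
      congr 1
      ring
    · rw [Nat.one_le_iff_ne_zero]
      intro h0
      rw [ZMod.val_eq_zero, sub_eq_zero] at h0
      exact hij h0.symm
    · intro t _
      exact ⟨_, rfl⟩
  · have hval : (i - j).val = m - (j - i).val := by
      have hne : j - i ≠ 0 := fun h => hij (sub_eq_zero.mp h).symm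
      have h1 : i - j = -(j - i) := by ring
      have : NeZero (j - i) := ⟨hne⟩
      rw [h1, ZMod.val_neg_of_ne_zero]
    refine ⟨(i - j).val, fun t => x (i - (t : ZMod m)), ⟨?_, ?_⟩, ?_, ?_, ?_, ?_, ?_⟩
    · intro t _
      have h := (hx.adj (i - ((t + 1 : ℕ) : ZMod m))).symm
      have h2 : i - ((t + 1 : ℕ) : ZMod m) + 1 = i - (t : ZMod m) := by
        push_cast
        ring
      rw [h2] at h
      exact h
    · intro s t hs ht hst
      have hlt := ZMod.val_lt (i - j)
      exact hcast s t (by omega) (by omega) (sub_right_injective (hx.inj hst))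
    · simp
    · show x (i - (((i - j).val : ℕ) : ZMod m)) = x j
      rw [ZMod.natCast_zmod_val]
      congr 1
      ring
    · omega
    · rw [Nat.one_le_iff_ne_zero]
      intro h0
      rw [ZMod.val_eq_zero, sub_eq_zero] at h0
      exact hij h0
    · intro t _
      exact ⟨_, rfl⟩

/-- one more vertex `q` adjacent to `v`, not on the cycle -/
theorem arc_path_succ {m : ℕ} {x : ZMod m → V} (hx : IsCycSeq G x) {u v q : V}
    (hu : u ∈ Set.range x) (hv : v ∈ Set.range x) (huv : u ≠ v) (hq : q ∉ Set.range x)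
    (hvq : G.Adj v q) :
    ∃ (n : ℕ) (y : ℕ → V), IsPathN G n y ∧ y 0 = u ∧ y n = q ∧ 2 * n ≤ m + 2 := by
  obtain ⟨n, y, hy, h0, hn, h2, _, hr⟩ := arc_path hx hu hv huv
  refine ⟨n + 1, fun i => if i ≤ n then y i else q, ⟨?_, ?_⟩, ?_, ?_, by omega⟩
  · intro i hi
    by_cases h : i + 1 ≤ n
    · simp only [if_pos h, if_pos (show i ≤ n by omega)]
      exact hy.adj i (by omega)
    · have hin : i = n := by omega
      subst hin
      simp only [if_pos le_rfl, if_neg h, hn]
      exact hvq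
  · intro i j hi hj hij
    by_cases h1 : i ≤ n
    · by_cases h3 : j ≤ n
      · rw [if_pos h1, if_pos h3] at hij
        exact hy.inj i j h1 h3 hij
      · rw [if_pos h1, if_neg h3] at hij
        exact absurd (hij ▸ hr i h1) hq
    · by_cases h3 : j ≤ n
      · rw [if_neg h1, if_pos h3] at hij
        exact absurd (hij ▸ hr j h3) hq
      · omega
  · simp only [if_pos (Nat.zero_le n)]
    exact h0
  · simp only [if_neg (show ¬ n + 1 ≤ n by omega)]

/-- reversed path -/
theorem IsPathN.rev {n : ℕ} {y : ℕ → V} (h : IsPathN G n y) : IsPathN G n (fun i => y (n - i)) := by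
  refine ⟨fun i hi => ?_, fun i j hi hj hij => ?_⟩
  · have h1 := (h.adj (n - (i + 1)) (by omega)).symm
    have h2 : n - (i + 1) + 1 = n - i := by omega
    rw [h2] at h1
    exact h1
  · have h1 := h.inj (n - i) (n - j) (by omega) (by omega) hij
    omega

end

section

/-!
T4: a minimal counterexample has no tetrad.
-/

variable {V : Type} [Fintype V] {G : SimpleGraph V}

/-- the precoloured set: a cycle of length at most `k` or one vertex -/
def SpOK {V : Type} (k : ℕ) (G : SimpleGraph V) (Sp : Set V) : Prop :=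
  (∃ (m : ℕ) (x : ZMod m → V), m ≤ k ∧ IsCycSeq G x ∧ Sp = Set.range x) ∨ ∃ v, Sp = {v}

/-- extension in all smaller graphs of the class -/
def ExtSmall {V : Type} [Fintype V] (k : ℕ) (G : SimpleGraph V) (Sp : Set V) (φ : V → Fin 3) :
    Prop :=
  ∀ (G' : SimpleGraph V) (F' : Cover G'), Cls k G' → G'.edgeSet.ncard < G.edgeSet.ncard →
    SpOK k G' Sp → ProperOn F' Sp φ → ∃ ψ : V → Fin 3, Proper F' ψ ∧ ∀ v ∈ Sp, ψ v = φ v

variable {k : ℕ} {ι : Type} [Fintype ι] {Fc : ι → EV V} {i0 : ι} {Sp : Set V}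
  {x1 x2 x3 x4 a b : V} {i : ι}

/-- the neighbours in a tetrad -/
theorem Tetrad.nbrs (cx : Ctx k G ι Fc i0 Sp) (t : Tetrad G Fc Sp x1 x2 x3 x4 a b i) {y1 : V}
    (h1 : G.Adj x1 y1) (h2 : y1 ≠ x2) (h3 : y1 ≠ a) :
    (∀ u, G.Adj x1 u → u = x2 ∨ u = a ∨ u = y1) ∧ (∀ u, G.Adj x2 u → u = x1 ∨ u = x3 ∨ u = a) ∧
      (∀ u, G.Adj x3 u → u = x2 ∨ u = x4 ∨ u = b) := by
  have ha := t.a_ne cx
  have hb := t.rev.a_ne cx
  refine ⟨fun u hu => nbrs_three t.d1 t.a12 t.ax1.symm h1 t.ax2.ne' h2.symm h3.symm hu,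
    fun u hu => nbrs_three t.d2 t.a12.symm t.a23 t.ax2.symm t.n13 t.ax1.ne' ha.1.symm hu,
    fun u hu => nbrs_three t.d3 t.a23.symm t.a34 t.bx3.symm t.n24 hb.1.symm t.bx4.ne' hu⟩

omit [Fintype V] in
private theorem t4_mem {u : V} (h1 : u ≠ x1) (h2 : u ≠ x2) (h3 : u ≠ x3) (h4 : u ≠ x4) :
    u ∉ ({x1, x2, x3, x4} : Set V) := by
  rintro (h | h | h | h)
  · exact h1 h
  · exact h2 h
  · exact h3 h
  · exact h4 h

/-- the graph `G - {x1,..,x4}` with `y1` and `b` identified (in either way) is MacLane-planar: apply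
`maclane_ident` to the subgraph `H` of `G` without the vertex `x4` and without the edges `x1a`,
`x2a`; then `del H {x1,x2,x3} = del G {x1,x2,x3,x4}`. -/
theorem Tetrad.maclane (cx : Ctx k G ι Fc i0 Sp) (t : Tetrad G Fc Sp x1 x2 x3 x4 a b i) {y1 : V}
    (h1 : G.Adj x1 y1) (h2 : y1 ≠ x2) (h3 : y1 ≠ a)
    (hna : ¬ (del G {x1, x2, x3, x4}).Adj y1 b)
    (hnc : ∀ u, (del G {x1, x2, x3, x4}).Adj y1 u → (del G {x1, x2, x3, x4}).Adj b u → False) :
    MacLane (ident (del G {x1, x2, x3, x4}) y1 b) ∧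
      MacLane (ident (del G {x1, x2, x3, x4}) b y1) := by
  have ha := t.a_ne cx
  have hb := t.rev.a_ne cx
  have hy := t.y_ne cx h1 h2 h3
  obtain ⟨N1, N2, N3⟩ := t.nbrs cx h1 h2 h3
  have hax1 : a ≠ x1 := t.ax1.ne
  have hax2 : a ≠ x2 := t.ax2.ne
  have hbx3 : b ≠ x3 := t.bx3.ne
  have hbx4 : b ≠ x4 := t.bx4.ne
  -- the graph H
  let H : SimpleGraph V :=
    { Adj := fun u v => G.Adj u v ∧ u ≠ x4 ∧ v ≠ x4 ∧ s(u, v) ≠ s(x1, a) ∧ s(u, v) ≠ s(x2, a)
      symm := ⟨fun u v h => ⟨h.1.symm, h.2.2.1, h.2.1, by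
        rw [Sym2.eq_swap]; exact h.2.2.2.1, by rw [Sym2.eq_swap]; exact h.2.2.2.2⟩⟩
      loopless := ⟨fun v h => h.1.ne rfl⟩ }
  have hHG : H ≤ G := fun u v h => h.1
  have hH : MacLane H := maclane_mono cx.cls.pl hHG
  have hne : ∀ u v : V, u ≠ a → v ≠ a → ∀ w, s(u, v) ≠ s(w, a) := by
    intro u v hu hv w h
    rw [Sym2.eq_iff] at h
    rcases h with ⟨-, h⟩ | ⟨h, -⟩
    · exact hv h
    · exact hu h
  have a1 : H.Adj y1 x1 := ⟨h1.symm, hy.2.1, t.n14, hne _ _ h3 hax1.symm _, hne _ _ h3 hax1.symm _⟩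
  have a2 : H.Adj x1 x2 :=
    ⟨t.a12, t.n14, t.n24, hne _ _ hax1.symm hax2.symm _, hne _ _ hax1.symm hax2.symm _⟩
  have a3 : H.Adj x2 x3 :=
    ⟨t.a23, t.n24, t.n34, hne _ _ hax2.symm ha.1.symm _, hne _ _ hax2.symm ha.1.symm _⟩
  have a4 : H.Adj x3 b :=
    ⟨t.bx3.symm, t.n34, hbx4, hne _ _ ha.1.symm ha.2.2.symm _, hne _ _ ha.1.symm ha.2.2.symm _⟩
  have n1 : ∀ u, H.Adj x1 u → u = y1 ∨ u = x2 := by
    rintro u ⟨hu, -, -, hu', -⟩
    rcases N1 u hu with h | h | h
    · exact Or.inr h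
    · exact absurd (by rw [h]) hu'
    · exact Or.inl h
  have n2 : ∀ u, H.Adj x2 u → u = x1 ∨ u = x3 := by
    rintro u ⟨hu, -, -, -, hu'⟩
    rcases N2 u hu with h | h | h
    · exact Or.inl h
    · exact Or.inr h
    · exact absurd (by rw [h]) hu'
  have n3 : ∀ u, H.Adj x3 u → u = x2 ∨ u = b := by
    rintro u ⟨hu, -, hu', -, -⟩
    rcases N3 u hu with h | h | h
    · exact Or.inl h
    · exact absurd h hu'
    · exact Or.inr h
  have hyx1 : y1 ≠ x1 := h1.ne'
  have hbx1 : b ≠ x1 := hb.2.1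
  have hbx2 : b ≠ x2 := hb.1
  have hdel : ∀ u v, G.Adj u v → u ∉ ({x1, x2, x3, x4} : Set V) → v ∉ ({x1, x2, x3, x4} : Set V) →
      (del G {x1, x2, x3, x4}).Adj u v := fun u v h h' h'' => ⟨h, h', h''⟩
  have hyX : y1 ∉ ({x1, x2, x3, x4} : Set V) := t4_mem hyx1 h2 hy.1 hy.2.1
  have hbX : b ∉ ({x1, x2, x3, x4} : Set V) := t4_mem hbx1 hbx2 hbx3 hbx4
  have hnadj : ¬ H.Adj y1 b := fun h => hna ⟨h.1, hyX, hbX⟩
  have hcom : ∀ u, H.Adj y1 u → H.Adj b u → False := by
    intro u hu hu'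
    by_cases e1 : u = x1
    · subst e1
      rcases n1 b hu'.symm with h | h
      · exact hy.2.2 h.symm
      · exact hbx2 h
    · by_cases e2 : u = x2
      · subst e2
        rcases n2 b hu'.symm with h | h
        · exact hbx1 h
        · exact hbx3 h
      · by_cases e3 : u = x3
        · subst e3
          rcases n3 y1 hu.symm with h | h
          · exact h2 h
          · exact hy.2.2 h
        · have hu4 : u ≠ x4 := hu.2.2.1
          have huX := t4_mem e1 e2 e3 hu4
          exact hnc u ⟨hu.1, hyX, huX⟩ ⟨hu'.1, hbX, huX⟩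
  have heq : del H {x1, x2, x3} = del G {x1, x2, x3, x4} := by
    ext u v
    constructor
    · rintro ⟨h, hu, hv⟩
      refine ⟨h.1, ?_, ?_⟩
      · rintro (e | e | e | e)
        · exact hu (Or.inl e)
        · exact hu (Or.inr (Or.inl e))
        · exact hu (Or.inr (Or.inr e))
        · exact h.2.1 e
      · rintro (e | e | e | e)
        · exact hv (Or.inl e)
        · exact hv (Or.inr (Or.inl e))
        · exact hv (Or.inr (Or.inr e))
        · exact h.2.2.1 e
    · rintro ⟨h, hu, hv⟩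
      have hu1 : u ≠ x1 := fun e => hu (Or.inl e)
      have hu2 : u ≠ x2 := fun e => hu (Or.inr (Or.inl e))
      have hu3 : u ≠ x3 := fun e => hu (Or.inr (Or.inr (Or.inl e)))
      have hu4 : u ≠ x4 := fun e => hu (Or.inr (Or.inr (Or.inr e)))
      have hv1 : v ≠ x1 := fun e => hv (Or.inl e)
      have hv2 : v ≠ x2 := fun e => hv (Or.inr (Or.inl e))
      have hv3 : v ≠ x3 := fun e => hv (Or.inr (Or.inr (Or.inl e)))
      have hv4 : v ≠ x4 := fun e => hv (Or.inr (Or.inr (Or.inr e)))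
      refine ⟨⟨h, hu4, hv4, ?_, ?_⟩, ?_, ?_⟩
      · rw [Ne, Sym2.eq_iff]; rintro (⟨e, -⟩ | ⟨-, e⟩)
        · exact hu1 e
        · exact hv1 e
      · rw [Ne, Sym2.eq_iff]; rintro (⟨e, -⟩ | ⟨-, e⟩)
        · exact hu2 e
        · exact hv2 e
      · rintro (e | e | e)
        · exact hu1 e
        · exact hu2 e
        · exact hu3 e
      · rintro (e | e | e)
        · exact hv1 e
        · exact hv2 e
        · exact hv3 e
  constructor
  · rw [← heq]
    exact maclane_ident hH hy.2.2 hyx1 h2 hy.1 hbx1 hbx2 hbx3 t.n12 t.n13 t.n23 a1 a2 a3 a4 n1 n2 n3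
      hnadj hcom
  · have hset : ({x1, x2, x3} : Set V) = {x3, x2, x1} := by
      ext u
      simp only [Set.mem_insert_iff, Set.mem_singleton_iff]
      tauto
    rw [← heq, hset]
    exact maclane_ident hH hy.2.2.symm hbx3 hbx2 hbx1 hy.1 h2 hyx1 t.n23.symm t.n13.symm t.n12.symm
      a4.symm a3.symm a2.symm a1.symm (fun u hu => (n3 u hu).symm) (fun u hu => (n2 u hu).symm)
      (fun u hu => (n1 u hu).symm) (fun h => hnadj h.symm) (fun u h h' => hcom u h' h)

/-- the common part of the assembly: `q` not in `Sp` is identified into `p` -/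
theorem t4_core (hG : Cls k G) (F : Cover G) (φ : V → Fin 3) {X : Set V} (hX : ∀ v ∈ Sp, v ∉ X)
    (hSp : SpOK k G Sp) (hφ : ProperOn F Sp φ) (hext : ExtSmall k G Sp φ)
    (hno : ¬ ∃ ψ : V → Fin 3, Proper F ψ ∧ ∀ v ∈ Sp, ψ v = φ v)
    (hmiss : ∃ e ∈ G.edgeSet, e ∉ (del G X).edgeSet) {p q : V} (hpq : p ≠ q) (hq : q ∉ Sp)
    (hfar : FarApart k (del G X) p q) (hM : MacLane (ident (del G X) p q))
    (htri : k = 11 → (∀ u w, (del G X).Adj p u → (del G X).Adj u w → (del G X).Adj p w → False) ∨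
      (∀ u w, (del G X).Adj q u → (del G X).Adj u w → (del G X).Adj q w → False))
    (σ : Equiv.Perm (Fin 3))
    (hσ : ∀ ψ : V → Fin 3, Proper (F.restrict (del G X) (del_le G _)) ψ → ψ q = σ (ψ p) →
        ∃ ψ' : V → Fin 3, Proper F ψ' ∧ ∀ u, u ∉ X → ψ' u = ψ u) : False := by
  have hk : 11 ≤ k := by rcases hG.hk with h | h <;> omega
  have hG0 : Cls k (del G X) := hG.mono (del_le G X)
  have hG' : Cls k (ident (del G X) p q) := ident_cls hG0 hpq hfar hM htri
  have hcard : (ident (del G X) p q).edgeSet.ncard < G.edgeSet.ncard :=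
    lt_of_le_of_lt (ident_card hpq) (ncard_lt_of_missing (del_le G X) hmiss)
  have hcyc0 : ∀ (m : ℕ) (x : ZMod m → V), IsCycSeq G x → Sp = Set.range x →
      IsCycSeq (del G X) x := by
    intro m x hx hS
    refine ⟨hx.three, hx.inj, fun j => ⟨hx.adj j, hX _ ?_, hX _ ?_⟩⟩
    · rw [hS]; exact ⟨j, rfl⟩
    · rw [hS]; exact ⟨j + 1, rfl⟩
  have hSp' : SpOK k (ident (del G X) p q) Sp := by
    rcases hSp with ⟨m, x, hm, hx, hS⟩ | ⟨v, hv⟩
    · left
      refine ⟨m, x, hm, ⟨hx.three, hx.inj, fun j => ⟨(hx.adj j).ne, ?_, ?_, Or.inl ?_⟩⟩, hS⟩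
      · rintro h; apply hq; rw [hS]; exact ⟨j, h⟩
      · rintro h; apply hq; rw [hS]; exact ⟨j + 1, h⟩
      · exact (hcyc0 m x hx hS).adj j
    · exact Or.inr ⟨v, hv⟩
  obtain ⟨F', hF1, hF2⟩ := ident_cover (F.restrict (del G X) (del_le G _)) hk hpq hfar σ
  have hprop : ∀ v ∈ Sp, p ∈ Sp → ¬ F'.C p v (φ p) (φ v) := by
    intro v hv hp h
    have hvq : v ≠ q := by rintro rfl; exact hq hv
    have hpv : p ≠ v := (F'.adj _ _ _ _ h).1
    rcases (hF2 v _ _ hvq).1 h with h' | h'
    · exact hφ p hp v hv h'.1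
    · have hadj : (del G X).Adj v q := h'.2.symm
      rcases hSp with ⟨m, x, hm, hx, hS⟩ | ⟨w, hw⟩
      · have hx0 := hcyc0 m x hx hS
        obtain ⟨n, y, hy, hy0, hyn, hn⟩ := arc_path_succ hx0 (u := p) (v := v) (q := q)
          (by rw [← hS]; exact hp) (by rw [← hS]; exact hv) hpv (by rw [← hS]; exact hq) hadj
        have := hfar n y hy hy0 hyn
        omega
      · rw [hw] at hp hv
        exact hpv (hp.trans hv.symm)
  have hφ' : ProperOn F' Sp φ := by
    intro u hu v hv h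
    have huq : u ≠ q := by rintro rfl; exact hq hu
    have hvq : v ≠ q := by rintro rfl; exact hq hv
    by_cases hup : u = p
    · subst hup
      exact hprop v hv hu h
    · by_cases hvp : v = p
      · subst hvp
        exact hprop u hu hv (F'.symm _ _ _ _ h)
      · exact hφ u hu v hv ((hF1 u v _ _ hup huq hvp hvq).1 h).1
  obtain ⟨ψ, hψ, hψS⟩ := hext _ F' hG' hcard hSp' hφ'
  obtain ⟨ψ', hψ', h1, h2⟩ := ident_lift (F.restrict (del G X) (del_le G _)) hk hpq hfar σ F' hF1
    hF2 ψ hψ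
  obtain ⟨ψ'', hψ'', h3⟩ := hσ ψ' hψ' (by rw [h2, h1 p hpq])
  refine hno ⟨ψ'', hψ'', fun v hv => ?_⟩
  have hvq : v ≠ q := by rintro rfl; exact hq hv
  rw [h3 v (hX v hv), h1 v hvq, hψS v hv]

/-- Assembly. Let `G0 = del G {x1,..,x4}`, `y1` the third neighbour of `x1`, `p, q` the vertices
`y1, b` in an order such that `q ∉ Sp` (`long_path` and `arc_path` show that not both are in `Sp`).
`Cls k (ident G0 p q)` by `ident_cls` (`k = 11`: no triangle of `G0` at `b` by `tri`), fewer edges; `Sp` is still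
`SpOK`; `φ` is proper on `Sp` for the cover of `ident_cover` (a new conflict inside `Sp` would be an
edge `q v`, `p, v ∈ Sp`: `arc_path_succ`, path of length at most 7). Extend by `hext`, lift by
`ident_lift`, extend to `G` by `tetrad_colour` with its `σ` (or the inverse if `p = b`). -/
theorem no_tetrad (cx : Ctx k G ι Fc i0 Sp) (F : Cover G) (φ : V → Fin 3)
    (hSp : SpOK k G Sp) (hφ : ProperOn F Sp φ) (hext : ExtSmall k G Sp φ)
    (hno : ¬ ∃ ψ : V → Fin 3, Proper F ψ ∧ ∀ v ∈ Sp, ψ v = φ v)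
    (t : Tetrad G Fc Sp x1 x2 x3 x4 a b i) : False := by
  have hk : 11 ≤ k := by rcases cx.cls.hk with h | h <;> omega
  have ha := t.a_ne cx
  have hb := t.rev.a_ne cx
  obtain ⟨y1, hy1, hy1x2, hy1a, -⟩ := third_nbr t.d1 t.a12 t.ax1.symm t.ax2.ne'
  obtain ⟨y4, hy4, hy4x3, hy4b, N4⟩ := third_nbr t.d4 t.a34.symm t.bx4.symm t.bx3.ne'
  have hy := t.y_ne cx hy1 hy1x2 hy1a
  have hy' := t.rev.y_ne cx hy4 hy4x3 hy4b
  obtain ⟨N1, N2, N3⟩ := t.nbrs cx hy1 hy1x2 hy1a
  have haX : a ∉ ({x1, x2, x3, x4} : Set V) := t4_mem t.ax1.ne t.ax2.ne ha.1 ha.2.1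
  have hbX : b ∉ ({x1, x2, x3, x4} : Set V) := t4_mem hb.2.1 hb.1 t.bx3.ne t.bx4.ne
  have hyX : y1 ∉ ({x1, x2, x3, x4} : Set V) := t4_mem hy1.ne' hy1x2 hy.1 hy.2.1
  have hy4X : y4 ∉ ({x1, x2, x3, x4} : Set V) :=
    t4_mem hy'.2.1 hy'.1 hy4x3 hy4.ne'
  have hfar : FarApart k (del G {x1, x2, x3, x4}) y1 b :=
    fun n y h h0 hn => t.long_path cx hy1 hy1x2 hy1a h h0 hn
  have hfar' : FarApart k (del G {x1, x2, x3, x4}) b y1 := by
    intro n y h h0 hn
    refine hfar n _ h.rev ?_ ?_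
    · simpa using hn
    · simpa using h0
  have hnc := no_common hk hy.2.2 hfar
  obtain ⟨M1, M2⟩ := t.maclane cx hy1 hy1x2 hy1a hnc.1 hnc.2
  obtain ⟨σ, hσ⟩ := tetrad_colour F t.n12 t.n13 t.n14 t.n23 t.n24 t.n34 haX hbX hyX hy4X N1 N2 N3 N4
    t.a12 t.ax1.symm t.ax2.symm
  have hX : ∀ v ∈ Sp, v ∉ ({x1, x2, x3, x4} : Set V) := by
    rintro v hv (h | h | h | h)
    · exact t.o1 (h ▸ hv)
    · exact t.o2 (h ▸ hv)
    · exact t.o3 (h ▸ hv)
    · exact t.o4 ((show v = x4 from h) ▸ hv)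
  have hmiss : ∃ e ∈ G.edgeSet, e ∉ (del G {x1, x2, x3, x4}).edgeSet :=
    ⟨s(x1, x2), t.a12, fun h => h.2.1 (Or.inl rfl)⟩
  have hbtri : k = 11 → ∀ u w, (del G {x1, x2, x3, x4}).Adj b u →
      (del G {x1, x2, x3, x4}).Adj u w → (del G {x1, x2, x3, x4}).Adj b w → False := by
    intro hk u w h1 h2 h3
    have h := cx.cls.tri hk b u w x3 x4 h1.1 h2.1 h3.1 t.bx3 t.a34 t.bx4
    rw [Sym2.eq_iff] at h
    rcases h with ⟨h, -⟩ | ⟨h, -⟩
    · exact h1.2.2 (Or.inr (Or.inr (Or.inl h)))
    · exact h1.2.2 (Or.inr (Or.inr (Or.inr h)))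
  by_cases hbS : b ∈ Sp
  · -- then y1 is not in Sp
    have hyS : y1 ∉ Sp := by
      intro hyS
      rcases hSp with ⟨m, x, hm, hx, hS⟩ | ⟨w, hw⟩
      · have hx0 : IsCycSeq (del G {x1, x2, x3, x4}) x := by
          refine ⟨hx.three, hx.inj, fun j => ⟨hx.adj j, hX _ ?_, hX _ ?_⟩⟩
          · rw [hS]; exact ⟨j, rfl⟩
          · rw [hS]; exact ⟨j + 1, rfl⟩
        obtain ⟨n, y, h, h0, hn, hn2, -, -⟩ := arc_path hx0 (u := y1) (v := b)
          (by rw [← hS]; exact hyS) (by rw [← hS]; exact hbS) hy.2.2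
        have := hfar n y h h0 hn
        omega
      · rw [hw] at hyS hbS
        exact hy.2.2 (hyS.trans hbS.symm)
    refine t4_core cx.cls F φ hX hSp hφ hext hno hmiss hy.2.2.symm hyS hfar' M2
      (fun hk => Or.inl (hbtri hk)) σ.symm ?_
    intro ψ hψ h
    exact hσ ψ hψ (by rw [h]; simp)
  · exact t4_core cx.cls F φ hX hSp hφ hext hno hmiss hy.2.2 hbS hfar M1
      (fun hk => Or.inr (hbtri hk)) σ hσ

end

end Pool.Agent.W_fb73a4_h20
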