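import Pool.Agent.W_fb73a4_h20.MB
import Pool.Agent.W_fb73a4_h20.MD

set_option autoImplicit false

namespace Pool.Agent.W_fb73a4_h20

open Finset
open scoped Classical

section

/-!
X1: discharging, definitions and the total count.
`O` is the set of outer faces: `{i0}` in the proof of `Star`, empty in the proof of `StarV`.
-/

variable {V : Type} [Fintype V] {G : SimpleGraph V} {ι : Type} [Fintype ι]

/-- number of edges of an edge vector -/
noncomputable def len (z : EV V) : ℕ := (univ.filter (fun e => z e ≠ 0)).card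

/-- inner triangular faces -/
noncomputable def TF (F : ι → EV V) (O : Finset ι) : Finset ι :=
  univ.filter (fun i => i ∉ O ∧ len (F i) = 3)

/-- inner faces which are not triangles -/
noncomputable def NF (F : ι → EV V) (O : Finset ι) : Finset ι :=
  univ.filter (fun i => i ∉ O ∧ len (F i) ≠ 3)

/-- `e` is an edge of an inner triangular face -/
def TE (F : ι → EV V) (O : Finset ι) (e : Sym2 V) : Prop := ∃ j ∈ TF F O, F j e ≠ 0

/-- number of edges of the face `i` at `v` which are edges of inner triangles -/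
noncomputable def tau (F : ι → EV V) (O : Finset ι) (v : V) (i : ι) : ℕ :=
  (univ.filter (fun u => F i s(v, u) ≠ 0 ∧ TE F O s(v, u))).card

/-- the face `i` has an edge of an outer face at `v` -/
def CE (F : ι → EV V) (O : Finset ι) (v : V) (i : ι) : Prop :=
  ∃ o ∈ O, ∃ u, F i s(v, u) ≠ 0 ∧ F o s(v, u) ≠ 0

/-- weight of the corner of the face `i` at `v` -/
noncomputable def kap (G : SimpleGraph V) (F : ι → EV V) (O : Finset ι) (Sp : Set V) (v : V)
    (i : ι) : ℚ :=
  if CE F O v i then (if dgr G v = 2 then 1 / 2 else 3 / 2)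
  else if dgr G v = 3 ∧ v ∉ Sp then 1 - (tau F O v i : ℚ) / 2
  else if dgr G v = 4 ∧ v ∉ Sp ∧ tau F O v i = 2 then 1
  else 1 + (tau F O v i : ℚ) / 2

/-- local charge at `v` -/
noncomputable def chL (G : SimpleGraph V) (F : ι → EV V) (O : Finset ι) (v : V) : ℚ :=
  2 * (dgr G v : ℚ) - 6 + (((NF F O).filter (fun i => On (F i) v)).card : ℚ)
    - (((TF F O).filter (fun i => On (F i) v)).card : ℚ) + ((O.filter (fun i => On (F i) v)).card : ℚ)

/-- non-isolated vertices -/
noncomputable def VS (G : SimpleGraph V) : Finset V := univ.filter (fun v => ∃ u, G.Adj v u)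

variable {F : ι → EV V}

/-- the number of vertices on a face is its number of edges (the face is a cycle) -/
theorem card_on (fs : FaceSys G ι F) (sep : SepFree G) (i : ι) :
    (univ.filter (fun v => On (F i) v)).card = len (F i) := by
  obtain ⟨n, x, hx, hF⟩ := fs.face_cycle sep i
  have hn := hx.three
  have : NeZero n := ⟨by omega⟩
  rw [hF, len, cvec_card hx]
  have h1 : univ.filter (fun v => On (cvec x) v) = univ.image x := by
    ext v
    simp only [mem_filter, mem_univ, true_and, mem_image]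
    exact cvec_on hx v
  rw [h1, card_image_of_injective _ hx.inj, card_univ, ZMod.card]

/-- degrees add up to twice the number of edges -/
theorem sum_dgr (G : SimpleGraph V) : ∑ v ∈ VS G, dgr G v = 2 * G.edgeSet.ncard := by
  have h1 : ∀ v, dgr G v = G.degree v := by
    intro v
    rw [dgr, ← SimpleGraph.card_neighborSet_eq_degree, ← Nat.card_coe_set_eq,
      Nat.card_eq_fintype_card]
  have h2 : ∑ v ∈ VS G, dgr G v = ∑ v, dgr G v := by
    refine Finset.sum_subset (subset_univ _) ?_
    intro v _ hv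
    simp only [VS, mem_filter, mem_univ, true_and, not_exists] at hv
    rw [h1, SimpleGraph.degree, card_eq_zero]
    ext u
    simpa using hv u
  rw [h2, Finset.sum_congr rfl fun v _ => h1 v, SimpleGraph.sum_degrees_eq_twice_card_edges]
  congr 1
  rw [← Nat.card_coe_set_eq, Nat.card_eq_fintype_card, ← SimpleGraph.edgeFinset_card]

/-- lengths of the faces add up to twice the number of edges -/
theorem sum_len (fs : FaceSys G ι F) : ∑ i, len (F i) = 2 * G.edgeSet.ncard := by
  have h1 : ∀ i, len (F i) = ∑ e ∈ G.edgeFinset, if F i e ≠ 0 then 1 else 0 := by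
    intro i
    rw [len, ← Finset.card_filter]
    congr 1
    ext e
    simp only [mem_filter, mem_univ, true_and, SimpleGraph.mem_edgeFinset]
    constructor
    · intro h
      refine ⟨?_, h⟩
      by_contra he
      exact h ((fs.cyc i).1 e he)
    · exact fun h => h.2
  rw [Finset.sum_congr rfl fun i _ => h1 i, Finset.sum_comm]
  have h2 : ∀ e ∈ G.edgeFinset, ∑ i, (if F i e ≠ 0 then 1 else 0) = 2 := by
    intro e he
    rw [← Finset.card_filter]
    exact fs.two e (SimpleGraph.mem_edgeFinset.1 he)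
  rw [Finset.sum_congr rfl h2, Finset.sum_const, smul_eq_mul, mul_comm]
  congr 1
  rw [← Nat.card_coe_set_eq, Nat.card_eq_fintype_card, ← SimpleGraph.edgeFinset_card]

/-- `∑_v (2 d(v) - 6) + ∑_i (len i - 6) ≤ -12`: `∑_v d(v) = 2|E|` (`SimpleGraph` handshake lemma),
`∑_i len (F i) = 2|E|` (`two`), and `FaceSys.count` -/
theorem euler (fs : FaceSys G ι F) (_sep : SepFree G) (he : ∃ e, e ∈ G.edgeSet) :
    ∑ v ∈ VS G, (2 * (dgr G v : ℚ) - 6) + ∑ i, ((len (F i) : ℚ) - 6) ≤ -12 := by
  have h1 : (∑ v ∈ VS G, (dgr G v : ℚ)) = 2 * (G.edgeSet.ncard : ℚ) := by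
    have := sum_dgr G
    exact_mod_cast this
  have h2 : (∑ i, (len (F i) : ℚ)) = 2 * (G.edgeSet.ncard : ℚ) := by
    have := sum_len fs
    exact_mod_cast this
  have h3 := fs.count he
  have h4 : {v : V | ∃ u, G.Adj v u}.ncard = (VS G).card := by
    rw [← Set.ncard_coe_finset]
    congr 1
    ext v
    simp [VS]
  rw [h4] at h3
  have h5 : (G.edgeSet.ncard : ℚ) + 2 ≤ Fintype.card ι + (VS G).card := by exact_mod_cast h3
  rw [Finset.sum_sub_distrib, Finset.sum_sub_distrib, ← Finset.mul_sum, h1, h2, Finset.sum_const,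
    Finset.sum_const, Finset.card_univ, nsmul_eq_mul, nsmul_eq_mul]
  linarith

/-- double counting of the pairs (face of `A`, vertex on it) -/
theorem sum_on (fs : FaceSys G ι F) (sep : SepFree G) (A : Finset ι) :
    ∑ v ∈ VS G, ((A.filter (fun i => On (F i) v)).card : ℚ) = ∑ i ∈ A, (len (F i) : ℚ) := by
  have h1 : ∀ v, ((A.filter (fun i => On (F i) v)).card : ℚ) =
      ∑ i ∈ A, if On (F i) v then 1 else 0 := by
    intro v
    rw [Finset.card_filter]
    push_cast
    rfl
  rw [Finset.sum_congr rfl fun v _ => h1 v, Finset.sum_comm]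
  refine Finset.sum_congr rfl fun i _ => ?_
  rw [← card_on fs sep i, ← Finset.sum_filter, Finset.sum_const, nsmul_eq_mul, mul_one]
  congr 2
  ext v
  simp only [VS, mem_filter, mem_univ, true_and]
  constructor
  · exact fun h => h.2
  · intro h
    refine ⟨?_, h⟩
    obtain ⟨u, hu⟩ := h
    refine ⟨u, ?_⟩
    by_contra hn
    exact hu ((fs.cyc i).1 _ hn)

/-- TOTAL -/
theorem total (fs : FaceSys G ι F) (sep : SepFree G) (he : ∃ e, e ∈ G.edgeSet) (O : Finset ι) :
    ∑ v ∈ VS G, chL G F O v ≤ 6 * ((NF F O).card : ℚ) + 6 * (O.card : ℚ) - 12 := by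
  have h1 : ∑ v ∈ VS G, chL G F O v = ∑ v ∈ VS G, (2 * (dgr G v : ℚ) - 6) +
      ∑ i ∈ NF F O, (len (F i) : ℚ) - ∑ i ∈ TF F O, (len (F i) : ℚ) +
      ∑ i ∈ O, (len (F i) : ℚ) := by
    rw [← sum_on fs sep, ← sum_on fs sep, ← sum_on fs sep, ← Finset.sum_add_distrib,
      ← Finset.sum_sub_distrib, ← Finset.sum_add_distrib]
    rfl
  have h2 : ∑ i ∈ TF F O, (len (F i) : ℚ) = 3 * ((TF F O).card : ℚ) := by
    rw [Finset.sum_congr rfl (g := fun _ => (3 : ℚ)), Finset.sum_const, nsmul_eq_mul, mul_comm]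
    intro i hi
    simp only [TF, mem_filter, mem_univ, true_and] at hi
    rw [hi.2]
    norm_num
  have h3 : ∑ i, ((len (F i) : ℚ) - 6) = ∑ i ∈ NF F O, ((len (F i) : ℚ) - 6) +
      ∑ i ∈ TF F O, ((len (F i) : ℚ) - 6) + ∑ i ∈ O, ((len (F i) : ℚ) - 6) := by
    have hd1 : Disjoint (NF F O) (TF F O) := by
      rw [Finset.disjoint_left]
      intro i hi hi'
      simp only [TF, NF, mem_filter, mem_univ, true_and] at hi hi'
      exact hi.2 hi'.2
    have hd2 : Disjoint (NF F O ∪ TF F O) O := by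
      rw [Finset.disjoint_left]
      intro i hi hi'
      simp only [TF, NF, mem_union, mem_filter, mem_univ, true_and] at hi
      rcases hi with hi | hi
      · exact hi.1 hi'
      · exact hi.1 hi'
    rw [← Finset.sum_union hd1, ← Finset.sum_union hd2]
    congr 1
    ext i
    simp only [TF, NF, mem_union, mem_filter, mem_univ, true_and]
    tauto
  have h4 := euler fs sep he
  have h5 : ∀ A : Finset ι, ∑ i ∈ A, ((len (F i) : ℚ) - 6) =
      ∑ i ∈ A, (len (F i) : ℚ) - 6 * (A.card : ℚ) := by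
    intro A
    rw [Finset.sum_sub_distrib, Finset.sum_const, nsmul_eq_mul, mul_comm]
  rw [h3, h5, h5, h5, h2] at h4
  rw [h1, h2]
  linarith

/-- final comparison: if every vertex `v` satisfies `∑ kap ≤ chL + de v`, then the total excess of the
faces satisfies `12 - 6 |O| + ∑_{i ∈ NF} (∑_v kap v i - 6) ≤ ∑ de` (exchange the two sums, `total`) -/
theorem compare (fs : FaceSys G ι F) (sep : SepFree G) (he : ∃ e, e ∈ G.edgeSet) (O : Finset ι)
    (Sp : Set V) (de : V → ℚ)
    (hv : ∀ v ∈ VS G, ∑ i ∈ (NF F O).filter (fun i => On (F i) v), kap G F O Sp v i ≤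
      chL G F O v + de v) :
    12 - 6 * (O.card : ℚ) +
      ∑ i ∈ NF F O, (∑ v ∈ univ.filter (fun v => On (F i) v), kap G F O Sp v i - 6) ≤
      ∑ v ∈ VS G, de v := by
  have h1 := Finset.sum_le_sum hv
  rw [Finset.sum_add_distrib] at h1
  have h2 : ∑ v ∈ VS G, ∑ i ∈ (NF F O).filter (fun i => On (F i) v), kap G F O Sp v i =
      ∑ i ∈ NF F O, ∑ v ∈ univ.filter (fun v => On (F i) v), kap G F O Sp v i := by
    rw [Finset.sum_congr rfl fun v _ => Finset.sum_filter (fun i => On (F i) v) _, Finset.sum_comm]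
    refine Finset.sum_congr rfl fun i _ => ?_
    rw [← Finset.sum_filter]
    refine Finset.sum_congr ?_ fun _ _ => rfl
    ext v
    simp only [VS, mem_filter, mem_univ, true_and]
    constructor
    · exact fun h => h.2
    · intro h
      refine ⟨?_, h⟩
      obtain ⟨u, hu⟩ := h
      refine ⟨u, ?_⟩
      by_contra hn
      exact hu ((fs.cyc i).1 _ hn)
  rw [h2] at h1
  have h3 := total fs sep he O
  rw [Finset.sum_sub_distrib, Finset.sum_const, nsmul_eq_mul]
  linarith

end

section

/-!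
X2: triangles are faces; budgets of the vertices.
-/

variable {V : Type} [Fintype V] {G : SimpleGraph V} {k : ℕ} {ι : Type} [Fintype ι] {F : ι → EV V}
  {i0 : ι} {Sp : Set V}

/-- the degree as the cardinality of a finset -/
theorem dgr_card (G : SimpleGraph V) (v : V) :
    dgr G v = (univ.filter (fun u => G.Adj v u)).card := by
  rw [dgr, ← Set.ncard_coe_finset]
  congr 1
  ext u
  simp

/-- edges of a face are edges of the graph -/
theorem FaceSys.adj_of_ne (fs : FaceSys G ι F) {i : ι} {v u : V} (h : F i s(v, u) ≠ 0) :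
    G.Adj v u := by
  by_contra hn
  exact h ((fs.cyc i).1 _ hn)

/-- (f7) every triangle with a vertex outside `Sp` is a face: for the cycle `u v w` take `S` with
`i0 ∉ S` (`gen'`); a face in `S` has all its vertices on the triangle (`cx.short`), so it is the
triangle (`sub_cycle`). -/
theorem tri_face (cx : Ctx k G ι F i0 Sp) {u v w : V} (h1 : G.Adj u v) (h2 : G.Adj v w)
    (h3 : G.Adj u w) (ho : u ∉ Sp ∨ v ∉ Sp ∨ w ∉ Sp) :
    ∃ i, len (F i) = 3 ∧ F i s(u, v) ≠ 0 ∧ F i s(v, w) ≠ 0 ∧ F i s(u, w) ≠ 0 := by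
  have hk : 11 ≤ k := by rcases cx.cls.hk with h | h <;> omega
  let f : ℕ → V := fun j => if j = 0 then u else if j = 1 then v else w
  have f0 : f 0 = u := rfl
  have f1 : f 1 = v := rfl
  have f2 : f 2 = w := rfl
  have hcyc : IsCycSeq G (fun j : ZMod 3 => f j.val) := by
    refine cycSeq_of_nat (n := 3) (by norm_num) f ?_ ?_ ?_
    · intro i j hi hj h
      interval_cases i <;> interval_cases j <;> simp only [f0, f1, f2] at h
      · rfl
      · exact absurd h h1.ne
      · exact absurd h h3.ne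
      · exact absurd h h1.ne'
      · rfl
      · exact absurd h h2.ne
      · exact absurd h h3.ne'
      · exact absurd h h2.ne'
      · rfl
    · intro i hi
      have : i = 0 ∨ i = 1 := by omega
      rcases this with rfl | rfl
      · exact h1
      · exact h2
    · exact h3.symm
  obtain ⟨x, hxdef⟩ : ∃ x : ZMod 3 → V, x = fun j : ZMod 3 => f j.val := ⟨_, rfl⟩
  rw [← hxdef] at hcyc
  have hval : ∀ e, cvec x e ≠ 0 ↔ (s(u, v) = e ∨ s(v, w) = e ∨ s(w, u) = e) := by
    intro e
    rw [hxdef, cvec_of_nat (n := 3) (by norm_num) f e]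
    constructor
    · rintro (⟨i, hi, h⟩ | h)
      · have : i = 0 ∨ i = 1 := by omega
        rcases this with rfl | rfl
        · exact Or.inl h
        · exact Or.inr (Or.inl h)
      · exact Or.inr (Or.inr h)
    · rintro (h | h | h)
      · exact Or.inl ⟨0, by norm_num, h⟩
      · exact Or.inl ⟨1, by norm_num, h⟩
      · exact Or.inr h
  have x0 : x 0 = u := by rw [hxdef]; rfl
  have x1 : x 1 = v := by rw [hxdef]; rfl
  have x2 : x 2 = w := by rw [hxdef]; rfl
  have hr : ∀ t, t ∈ Set.range x → t = u ∨ t = v ∨ t = w := by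
    rintro t ⟨j, rfl⟩
    have h3' : ∀ j : ZMod 3, j = 0 ∨ j = 1 ∨ j = 2 := by decide
    rcases h3' j with rfl | rfl | rfl
    · exact Or.inl x0
    · exact Or.inr (Or.inl x1)
    · exact Or.inr (Or.inr x2)
  obtain ⟨S, hi0, hS⟩ := cx.fs.gen' i0 (cvec_isCyc hcyc)
  have hne : S.Nonempty := by
    rw [Finset.nonempty_iff_ne_empty]
    rintro rfl
    exact cvec_ne_zero hcyc (by rw [hS]; simp)
  obtain ⟨i, hi⟩ := hne
  have hshort := cx.short 3 x (by omega) hcyc (by
    rcases ho with h | h | h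
    · exact ⟨0, by rw [x0]; exact h⟩
    · exact ⟨1, by rw [x1]; exact h⟩
    · exact ⟨2, by rw [x2]; exact h⟩) S hi0 hS
  have hon : ∀ t, On (F i) t → t = u ∨ t = v ∨ t = w := by
    intro t ht
    by_contra hn
    exact hshort t (fun h => hn (hr t h)) i hi ht
  have heq : F i = cvec x := by
    refine sub_cycle hcyc (cx.fs.cyc i) (cx.fs.ne i) ?_
    intro e
    induction e using Sym2.ind with
    | _ p q =>
      intro he
      have hpq := (cx.fs.adj_of_ne he).ne
      have hp := hon p ⟨q, he⟩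
      have hq := hon q ⟨p, by rw [Sym2.eq_swap]; exact he⟩
      rw [hval]
      rcases hp with rfl | rfl | rfl <;> rcases hq with rfl | rfl | rfl
      · exact absurd rfl hpq
      · exact Or.inl rfl
      · exact Or.inr (Or.inr Sym2.eq_swap)
      · exact Or.inl Sym2.eq_swap
      · exact absurd rfl hpq
      · exact Or.inr (Or.inl rfl)
      · exact Or.inr (Or.inr rfl)
      · exact Or.inr (Or.inl Sym2.eq_swap)
      · exact absurd rfl hpq
  refine ⟨i, ?_, ?_, ?_, ?_⟩
  · rw [heq]; exact cvec_card hcyc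
  · rw [heq, hval]; exact Or.inl rfl
  · rw [heq, hval]; exact Or.inr (Or.inl rfl)
  · rw [heq, hval]; exact Or.inr (Or.inr Sym2.eq_swap)

/-- a face of length 3 is a triangle of `G` -/
theorem tri_of_face (cx : Ctx k G ι F i0 Sp) {i : ι} (hi : len (F i) = 3) {v u : V}
    (h : F i s(v, u) ≠ 0) : ∃ w, w ≠ u ∧ G.Adj v u ∧ G.Adj u w ∧ G.Adj v w ∧
      F i s(v, w) ≠ 0 ∧ F i s(u, w) ≠ 0 ∧
      ∀ e, F i e ≠ 0 → e = s(v, u) ∨ e = s(u, w) ∨ e = s(v, w) := by
  obtain ⟨n, x, hx, hF⟩ := cx.fs.face_cycle cx.sep i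
  have hn : n = 3 := by
    rw [hF, len, cvec_card hx] at hi
    exact hi
  subst hn
  have h2 : ∀ j : ZMod 3, j + 1 + 1 = j - 1 := by decide
  have h3 : ∀ j j' : ZMod 3, j' = j ∨ j' = j + 1 ∨ j' = j - 1 := by decide
  have hmem : ∀ e, F i e ≠ 0 → ∃ j, s(x j, x (j + 1)) = e := by
    intro e he
    rw [hF, cvec] at he
    by_contra hn
    rw [if_neg hn] at he
    exact he rfl
  have hv : v ∈ Set.range x := (cvec_on hx v).1 ⟨u, by rw [← hF]; exact h⟩
  obtain ⟨j, rfl⟩ := hv
  rw [hF, cvec_at hx] at h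
  have a1 : G.Adj (x j) (x (j + 1)) := hx.adj j
  have a2 : G.Adj (x (j + 1)) (x (j - 1)) := by
    have := hx.adj (j + 1)
    rwa [h2] at this
  have a3 : G.Adj (x (j - 1)) (x j) := by
    have := hx.adj (j - 1)
    rwa [sub_add_cancel] at this
  have e1 : F i s(x j, x (j + 1)) ≠ 0 := by
    rw [hF, cvec_at hx]; exact Or.inl rfl
  have e2 : F i s(x j, x (j - 1)) ≠ 0 := by
    rw [hF, cvec_at hx]; exact Or.inr rfl
  have e3 : F i s(x (j + 1), x (j - 1)) ≠ 0 := by
    rw [hF, cvec_at hx, h2]; exact Or.inl rfl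
  have hall : ∀ e, F i e ≠ 0 → e = s(x j, x (j + 1)) ∨ e = s(x (j + 1), x (j - 1)) ∨
      e = s(x (j - 1), x j) := by
    intro e he
    obtain ⟨j', rfl⟩ := hmem e he
    rcases h3 j j' with rfl | rfl | rfl
    · exact Or.inl rfl
    · right; left; rw [h2]
    · right; right; rw [sub_add_cancel]
  rcases h with rfl | rfl
  · refine ⟨x (j - 1), (cyc_nbrs_ne hx j).symm, a1, a2, a3.symm, e2, e3, ?_⟩
    intro e he
    rcases hall e he with h | h | h
    · exact Or.inl h
    · exact Or.inr (Or.inl h)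
    · exact Or.inr (Or.inr (h.trans Sym2.eq_swap))
  · refine ⟨x (j + 1), cyc_nbrs_ne hx j, a3.symm, a2.symm, a1, e1, ?_, ?_⟩
    · rw [Sym2.eq_swap]; exact e3
    · intro e he
      rcases hall e he with h | h | h
      · exact Or.inr (Or.inr h)
      · exact Or.inr (Or.inl (h.trans Sym2.eq_swap))
      · exact Or.inl (h.trans Sym2.eq_swap)

/-- no face contains all edges of `G` if there is a non-isolated vertex outside `Sp` (its degree is
at least 3) -/
theorem exists_off_face (cx : Ctx k G ι F i0 Sp) (h : ∃ v, v ∉ Sp ∧ ∃ w, G.Adj v w) (i : ι) :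
    ∃ e ∈ G.edgeSet, F i e = 0 := by
  obtain ⟨v, hv, w, hw⟩ := h
  have hd := cx.deg3 v hv ⟨w, hw⟩
  by_contra hn
  push Not at hn
  have hall : ∀ u, G.Adj v u → F i s(v, u) ≠ 0 := fun u hu => hn s(v, u) hu
  have h2 := cx.fs.two_at cx.sep (i := i) (v := v) ⟨w, hall w hw⟩
  have h3 : (univ.filter (fun u => G.Adj v u)) ⊆ univ.filter (fun u => F i s(v, u) ≠ 0) := by
    intro u hu
    simp only [mem_filter, mem_univ, true_and] at hu ⊢
    exact hall u hu
  have h4 := card_le_card h3
  rw [h2, ← dgr_card] at h4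
  omega

/-- two triangular faces with a common edge are equal (`tri_edge`, `face_inj`) -/
theorem tri_edge_unique (cx : Ctx k G ι F i0 Sp) {i j : ι} (hi : len (F i) = 3)
    (hj : len (F j) = 3) (hoff : ∃ e ∈ G.edgeSet, F i e = 0) {e : Sym2 V} (h1 : F i e ≠ 0)
    (h2 : F j e ≠ 0) : i = j := by
  induction e using Sym2.ind with
  | _ v u =>
    obtain ⟨w, hwu, avu, auw, avw, e1, e2, hall⟩ := tri_of_face cx hi h1
    obtain ⟨w', hwu', -, auw', avw', e1', e2', hall'⟩ := tri_of_face cx hj h2
    have hw : w = w' := cx.cls.tri_edge avu avw auw avw' auw'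
    subst hw
    refine cx.fs.face_inj cx.sep hoff ?_
    funext e
    by_cases h : F i e = 0
    · by_cases h' : F j e = 0
      · rw [h, h']
      · exfalso
        rcases hall' e h' with rfl | rfl | rfl
        · exact h1 h
        · exact e2 h
        · exact e1 h
    · have h' : F j e ≠ 0 := by
        rcases hall e h with rfl | rfl | rfl
        · exact h2
        · exact e2'
        · exact e1'
      rw [ev_one h, ev_one h']

/-- `k = 11`: at most one triangular face at every vertex -/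
theorem tri_unique (cx : Ctx k G ι F i0 Sp) (hk : k = 11) {i j : ι} (hi : len (F i) = 3)
    (hj : len (F j) = 3) (hoff : ∃ e ∈ G.edgeSet, F i e = 0) {v : V} (h1 : On (F i) v)
    (h2 : On (F j) v) : i = j := by
  obtain ⟨u, hu⟩ := h1
  obtain ⟨u', hu'⟩ := h2
  obtain ⟨w, -, avu, auw, avw, -, e2, -⟩ := tri_of_face cx hi hu
  obtain ⟨w', -, avu', auw', avw', -, e2', -⟩ := tri_of_face cx hj hu'
  have h := cx.cls.tri hk v u w u' w' avu auw avw avu' auw' avw'
  rw [← h] at e2'
  exact tri_edge_unique cx hi hj hoff e2 e2'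

/-- the set of neighbours joined by edges of inner triangles has `2 t` elements -/
theorem card_TE (cx : Ctx k G ι F i0 Sp) (O : Finset ι) (v : V)
    (hoff : ∀ i : ι, ∃ e ∈ G.edgeSet, F i e = 0) :
    (univ.filter (fun u => TE F O s(v, u))).card =
      2 * ((TF F O).filter (fun i => On (F i) v)).card := by
  have h1 : univ.filter (fun u => TE F O s(v, u)) =
      ((TF F O).filter (fun i => On (F i) v)).biUnion
        (fun i => univ.filter (fun u => F i s(v, u) ≠ 0)) := by
    ext u
    simp only [mem_filter, mem_univ, true_and, mem_biUnion]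
    constructor
    · rintro ⟨j, hj, h⟩
      exact ⟨j, ⟨hj, u, h⟩, h⟩
    · rintro ⟨j, ⟨hj, -⟩, h⟩
      exact ⟨j, hj, h⟩
  rw [h1, card_biUnion, Finset.sum_congr rfl (g := fun _ => 2), Finset.sum_const, smul_eq_mul,
    mul_comm]
  · intro i hi
    simp only [mem_filter] at hi
    exact cx.fs.two_at cx.sep hi.2
  · intro i hi j hj hij
    simp only [Function.onFun]
    rw [Finset.disjoint_left]
    intro u hu hu'
    simp only [mem_coe, TF, mem_filter, mem_univ, true_and] at hi hj hu hu'
    exact hij (tri_edge_unique cx hi.1.2 hj.1.2 (hoff i) hu hu')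

/-- number `t` of inner triangular faces at `v`: `2 t ≤ d` -/
theorem two_mul_tri_le (cx : Ctx k G ι F i0 Sp) (O : Finset ι) (v : V)
    (hoff : ∀ i : ι, ∃ e ∈ G.edgeSet, F i e = 0) :
    2 * ((TF F O).filter (fun i => On (F i) v)).card ≤ dgr G v := by
  rw [← card_TE cx O v hoff, dgr_card]
  refine card_le_card ?_
  intro u hu
  simp only [mem_filter, mem_univ, true_and] at hu ⊢
  obtain ⟨j, -, h⟩ := hu
  exact cx.fs.adj_of_ne h

/-- exchange of the two sums -/
theorem sum_tau_swap (F : ι → EV V) (O : Finset ι) (v : V) :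
    ∑ i ∈ (NF F O).filter (fun i => On (F i) v), tau F O v i =
      ∑ u ∈ univ.filter (fun u => TE F O s(v, u)),
        ((NF F O).filter (fun i => F i s(v, u) ≠ 0)).card := by
  have h1 : ∀ i, tau F O v i =
      ∑ u ∈ univ.filter (fun u => TE F O s(v, u)), if F i s(v, u) ≠ 0 then 1 else 0 := by
    intro i
    rw [tau, ← Finset.card_filter, Finset.filter_filter]
    congr 1
    ext u
    simp only [mem_filter, mem_univ, true_and]
    tauto
  rw [Finset.sum_congr rfl fun i _ => h1 i, Finset.sum_comm]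
  refine Finset.sum_congr rfl fun u _ => ?_
  rw [← Finset.card_filter, Finset.filter_filter]
  congr 1
  ext i
  simp only [mem_filter]
  constructor
  · exact fun h => ⟨h.1, h.2.2⟩
  · exact fun h => ⟨h.1, ⟨u, h.2⟩, h.2⟩

/-- the triangle edges at `v`, counted in the faces of `NF`: at most `2 t`, and exactly `2 t` if `v` is
on no outer face. Every triangle edge at `v` is in exactly one inner triangular face, its other face
is in `NF` or in `O`. -/
theorem sum_tau_le (cx : Ctx k G ι F i0 Sp) (O : Finset ι) (v : V)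
    (hoff : ∀ i : ι, ∃ e ∈ G.edgeSet, F i e = 0) :
    ∑ i ∈ (NF F O).filter (fun i => On (F i) v), tau F O v i ≤
      2 * ((TF F O).filter (fun i => On (F i) v)).card := by
  rw [sum_tau_swap F O v, ← card_TE cx O v hoff, Finset.card_eq_sum_ones]
  refine Finset.sum_le_sum fun u hu => ?_
  simp only [mem_filter, mem_univ, true_and] at hu
  obtain ⟨j, hj, h⟩ := hu
  obtain ⟨j', hj', h', hall⟩ := cx.fs.exists_other h
  have hsub : (NF F O).filter (fun i => F i s(v, u) ≠ 0) ⊆ {j'} := by
    intro i hi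
    simp only [NF, TF, mem_filter, mem_univ, true_and, mem_singleton] at hi hj ⊢
    rcases hall i hi.2 with e | e
    · exfalso
      rw [e] at hi
      exact hi.1.2 hj.2
    · exact e
  have := card_le_card hsub
  rwa [card_singleton] at this

theorem sum_tau_eq (cx : Ctx k G ι F i0 Sp) (O : Finset ι) (v : V)
    (hoff : ∀ i : ι, ∃ e ∈ G.edgeSet, F i e = 0) (hO : ∀ o ∈ O, ¬ On (F o) v) :
    ∑ i ∈ (NF F O).filter (fun i => On (F i) v), tau F O v i =
      2 * ((TF F O).filter (fun i => On (F i) v)).card := by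
  refine le_antisymm (sum_tau_le cx O v hoff) ?_
  rw [sum_tau_swap F O v, ← card_TE cx O v hoff, Finset.card_eq_sum_ones]
  refine Finset.sum_le_sum fun u hu => ?_
  simp only [mem_filter, mem_univ, true_and] at hu
  obtain ⟨j, hj, h⟩ := hu
  obtain ⟨j', hj', h', hall⟩ := cx.fs.exists_other h
  rw [Nat.one_le_iff_ne_zero, ← Nat.pos_iff_ne_zero, card_pos]
  refine ⟨j', ?_⟩
  simp only [NF, TF, mem_filter, mem_univ, true_and] at hj ⊢
  refine ⟨⟨?_, ?_⟩, h'⟩
  · intro ho
    exact hO j' ho ⟨u, h'⟩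
  · intro h3
    exact hj' (tri_edge_unique cx h3 hj.2 (hoff j') h' h)

/-- a face has at most two edges at `v` -/
theorem tau_le_two (cx : Ctx k G ι F i0 Sp) (O : Finset ι) (v : V) (i : ι) :
    tau F O v i ≤ 2 := by
  by_cases h : On (F i) v
  · rw [← cx.fs.two_at cx.sep h, tau]
    refine card_le_card ?_
    intro u hu
    simp only [mem_filter, mem_univ, true_and] at hu ⊢
    exact hu.1
  · have : tau F O v i = 0 := by
      rw [tau, card_eq_zero]
      ext u
      simp only [mem_filter, mem_univ, true_and, notMem_empty, iff_false, not_and]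
      intro hu
      exact absurd ⟨u, hu⟩ h
    omega

/-- the faces at `v` -/
theorem card_split (cx : Ctx k G ι F i0 Sp) (O : Finset ι) (v : V) :
    ((NF F O).filter (fun i => On (F i) v)).card + ((TF F O).filter (fun i => On (F i) v)).card +
      (O.filter (fun i => On (F i) v)).card = dgr G v := by
  rw [← cx.fs.faces_at cx.sep v]
  have hd1 : Disjoint ((NF F O).filter (fun i => On (F i) v))
      ((TF F O).filter (fun i => On (F i) v)) := by
    rw [Finset.disjoint_left]
    intro i hi hi'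
    simp only [TF, NF, mem_filter, mem_univ, true_and] at hi hi'
    exact hi.1.2 hi'.1.2
  have hd2 : Disjoint ((NF F O).filter (fun i => On (F i) v) ∪
      (TF F O).filter (fun i => On (F i) v)) (O.filter (fun i => On (F i) v)) := by
    rw [Finset.disjoint_left]
    intro i hi hi'
    simp only [TF, NF, mem_union, mem_filter, mem_univ, true_and] at hi hi'
    rcases hi with hi | hi
    · exact hi.1.1 hi'.1
    · exact hi.1.1 hi'.1
  rw [← card_union_of_disjoint hd1, ← card_union_of_disjoint hd2]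
  congr 1
  ext i
  simp only [TF, NF, mem_union, mem_filter, mem_univ, true_and]
  tauto

theorem kap_le (G : SimpleGraph V) (F : ι → EV V) (O : Finset ι) (Sp : Set V) (v : V) (i : ι)
    (hc : ¬ CE F O v i) : kap G F O Sp v i ≤ 1 + (tau F O v i : ℚ) / 2 := by
  have h0 : (0 : ℚ) ≤ (tau F O v i : ℚ) := Nat.cast_nonneg _
  rw [kap, if_neg hc]
  split_ifs with h1 h2
  · linarith
  · linarith
  · exact le_refl _

/-- budget of a vertex `v ∉ Sp` which is on no outer face. `d = dgr G v ≥ 3`, `t ≤ d / 2` inner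
triangular faces at `v`, `d - t` faces of `NF`; `chL = 3 d - 6 - 2 t`, `∑ tau = 2 t`. `d = 3` (`t ≤ 1`):
`∑ kap = (3 - t) - t`. `d = 4, t = 2`: both faces of `NF` have `tau = 2`, `∑ kap = 2`. Otherwise
`∑ kap ≤ (d - t) + t = d ≤ 3 d - 6 - 2 t`. -/
theorem budget_off (cx : Ctx k G ι F i0 Sp) (O : Finset ι) {v : V} (hv : v ∉ Sp)
    (hn : ∃ w, G.Adj v w) (hO : ∀ o ∈ O, ¬ On (F o) v) :
    ∑ i ∈ (NF F O).filter (fun i => On (F i) v), kap G F O Sp v i ≤ chL G F O v := by
  have hoff := exists_off_face cx ⟨v, hv, hn⟩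
  have hd := cx.deg3 v hv hn
  have ht := two_mul_tri_le cx O v hoff
  have hs := sum_tau_eq cx O v hoff hO
  have hc := card_split cx O v
  have hO0 : (O.filter (fun i => On (F i) v)).card = 0 := by
    rw [card_eq_zero]
    ext i
    simp only [mem_filter, notMem_empty, iff_false, not_and]
    exact hO i
  have hCE : ∀ i, ¬ CE F O v i := by
    rintro i ⟨o, ho, u, -, h⟩
    exact hO o ho ⟨u, h⟩
  have hle : ∑ i ∈ (NF F O).filter (fun i => On (F i) v), kap G F O Sp v i ≤
      ∑ i ∈ (NF F O).filter (fun i => On (F i) v), (1 + (tau F O v i : ℚ) / 2) :=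
    Finset.sum_le_sum fun i _ => kap_le G F O Sp v i (hCE i)
  have hsum : ∑ i ∈ (NF F O).filter (fun i => On (F i) v), (1 + (tau F O v i : ℚ) / 2) =
      (((NF F O).filter (fun i => On (F i) v)).card : ℚ) +
        (((TF F O).filter (fun i => On (F i) v)).card : ℚ) := by
    rw [Finset.sum_add_distrib, Finset.sum_const, nsmul_eq_mul, mul_one, ← Finset.sum_div]
    have : (∑ i ∈ (NF F O).filter (fun i => On (F i) v), (tau F O v i : ℚ)) =
        2 * (((TF F O).filter (fun i => On (F i) v)).card : ℚ) := by exact_mod_cast hs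
    rw [this]
    ring
  rw [hO0, add_zero] at hc
  rw [chL, hO0]
  obtain ⟨N, hN⟩ : ∃ N, N = ((NF F O).filter (fun i => On (F i) v)).card := ⟨_, rfl⟩
  obtain ⟨T, hT⟩ : ∃ T, T = ((TF F O).filter (fun i => On (F i) v)).card := ⟨_, rfl⟩
  obtain ⟨d, hdd⟩ : ∃ d, d = dgr G v := ⟨_, rfl⟩
  rw [← hN, ← hT] at hsum
  rw [← hN, ← hT, ← hdd] at hc
  rw [← hT, ← hdd] at ht
  rw [← hdd] at hd
  rw [← hN, ← hT, ← hdd]
  have hcQ : (N : ℚ) + T = d := by exact_mod_cast hc
  by_cases h3 : d = 3
  · -- degree three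
    have hk3 : ∀ i ∈ (NF F O).filter (fun i => On (F i) v),
        kap G F O Sp v i = 1 - (tau F O v i : ℚ) / 2 := by
      intro i _
      rw [kap, if_neg (hCE i), if_pos ⟨by rw [← hdd]; exact h3, hv⟩]
    have hsum3 : ∑ i ∈ (NF F O).filter (fun i => On (F i) v), kap G F O Sp v i = (N : ℚ) - T := by
      rw [Finset.sum_congr rfl hk3, Finset.sum_sub_distrib, Finset.sum_const, nsmul_eq_mul, mul_one,
        ← Finset.sum_div, ← hN]
      have : (∑ i ∈ (NF F O).filter (fun i => On (F i) v), (tau F O v i : ℚ)) = 2 * (T : ℚ) := by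
        rw [hT]; exact_mod_cast hs
      rw [this]
      ring
    rw [hsum3, h3]
    push_cast
    linarith
  · by_cases h4 : d = 4 ∧ T = 2
    · obtain ⟨h4, hT2⟩ := h4
      have hN2 : N = 2 := by omega
      have htau : ∀ i ∈ (NF F O).filter (fun i => On (F i) v), tau F O v i = 2 := by
        intro i hi
        by_contra hne
        have hlt : ∑ i ∈ (NF F O).filter (fun i => On (F i) v), tau F O v i <
            ∑ i ∈ (NF F O).filter (fun i => On (F i) v), 2 := by
          refine Finset.sum_lt_sum (fun j _ => tau_le_two cx O v j) ⟨i, hi, ?_⟩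
          have := tau_le_two cx O v i
          omega
        rw [Finset.sum_const, smul_eq_mul, hs, ← hN, ← hT] at hlt
        omega
      have hk4 : ∀ i ∈ (NF F O).filter (fun i => On (F i) v), kap G F O Sp v i = 1 := by
        intro i hi
        rw [kap, if_neg (hCE i), if_neg (by rw [← hdd]; omega),
          if_pos ⟨by rw [← hdd]; exact h4, hv, htau i hi⟩]
      rw [Finset.sum_congr rfl hk4, Finset.sum_const, nsmul_eq_mul, mul_one, ← hN, hN2, h4, hT2]
      norm_num
    · have h5 : (d : ℚ) ≤ 3 * d - 6 - 2 * T := by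
        have : d + 6 + 2 * T ≤ 3 * d := by omega
        have : (d : ℚ) + 6 + 2 * T ≤ 3 * d := by exact_mod_cast this
        linarith
      push_cast
      linarith

/-- budget of the precoloured vertex in the proof of `StarV`: `O = ∅`, `d ≥ 2`, `2 t ≤ d`,
`chL = 3 d - 6 - 2 t`, `∑ kap ≤ (d - t) + t = d ≤ 3 d - 6 - 2 t + 4`. -/
theorem budget_one (cx : Ctx k G ι F i0 Sp) {v : V} (_hv : v ∈ Sp) (hn : ∃ w, G.Adj v w)
    (hoff : ∀ i : ι, ∃ e ∈ G.edgeSet, F i e = 0) :
    ∑ i ∈ (NF F ∅).filter (fun i => On (F i) v), kap G F ∅ Sp v i ≤ chL G F ∅ v + 4 := by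
  have hd : 2 ≤ dgr G v := by
    obtain ⟨w, hw⟩ := hn
    obtain ⟨w', hw', hvw'⟩ := deg_ge_two cx.sep cx.two_edges hw
    rw [dgr_card]
    have : ({w, w'} : Finset V) ⊆ univ.filter (fun u => G.Adj v u) := by
      intro u hu
      simp only [mem_insert, mem_singleton] at hu
      simp only [mem_filter, mem_univ, true_and]
      rcases hu with rfl | rfl <;> assumption
    have h := card_le_card this
    rwa [card_pair hw'.symm] at h
  have ht := two_mul_tri_le cx ∅ v hoff
  have hs := sum_tau_eq cx ∅ v hoff (by simp)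
  have hc := card_split cx ∅ v
  have hCE : ∀ i, ¬ CE F ∅ v i := by
    rintro i ⟨o, ho, -⟩
    simp at ho
  have hle : ∑ i ∈ (NF F ∅).filter (fun i => On (F i) v), kap G F ∅ Sp v i ≤
      ∑ i ∈ (NF F ∅).filter (fun i => On (F i) v), (1 + (tau F ∅ v i : ℚ) / 2) :=
    Finset.sum_le_sum fun i _ => kap_le G F ∅ Sp v i (hCE i)
  have hsum : ∑ i ∈ (NF F ∅).filter (fun i => On (F i) v), (1 + (tau F ∅ v i : ℚ) / 2) =
      (((NF F ∅).filter (fun i => On (F i) v)).card : ℚ) +
        (((TF F ∅).filter (fun i => On (F i) v)).card : ℚ) := by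
    rw [Finset.sum_add_distrib, Finset.sum_const, nsmul_eq_mul, mul_one, ← Finset.sum_div]
    have : (∑ i ∈ (NF F ∅).filter (fun i => On (F i) v), (tau F ∅ v i : ℚ)) =
        2 * (((TF F ∅).filter (fun i => On (F i) v)).card : ℚ) := by exact_mod_cast hs
    rw [this]
    ring
  rw [Finset.filter_empty, card_empty, add_zero] at hc
  rw [chL, Finset.filter_empty, card_empty]
  obtain ⟨N, hN⟩ : ∃ N, N = ((NF F ∅).filter (fun i => On (F i) v)).card := ⟨_, rfl⟩
  obtain ⟨T, hT⟩ : ∃ T, T = ((TF F ∅).filter (fun i => On (F i) v)).card := ⟨_, rfl⟩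
  obtain ⟨d, hdd⟩ : ∃ d, d = dgr G v := ⟨_, rfl⟩
  rw [← hN, ← hT] at hsum
  rw [← hN, ← hT, ← hdd] at hc
  rw [← hT, ← hdd] at ht
  rw [← hdd] at hd
  rw [← hN, ← hT, ← hdd]
  have hcQ : (N : ℚ) + T = d := by exact_mod_cast hc
  have h5 : (d : ℚ) ≤ 3 * d - 2 - 2 * T := by
    have : d + 2 + 2 * T ≤ 3 * d := by omega
    have : (d : ℚ) + 2 + 2 * T ≤ 3 * d := by exact_mod_cast this
    linarith
  push_cast
  linarith

end

section

/-!
X2b: budgets of the vertices of the outer cycle.
-/

variable {V : Type} [Fintype V] {G : SimpleGraph V} {k : ℕ} {ι : Type} [Fintype ι] {F : ι → EV V}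
  {i0 : ι} {Sp : Set V}

/-- the outer cycle `x` is the face `i0`, has no chord, and is not all of `G` -/
structure OutC {V : Type} [Fintype V] (G : SimpleGraph V) {ι : Type} (F : ι → EV V) (i0 : ι)
    (Sp : Set V) (m : ℕ) (x : ZMod m → V) : Prop where
  hx : IsCycSeq G x
  hSp : Sp = Set.range x
  hF0 : F i0 = cvec x
  hoff : ∃ e ∈ G.edgeSet, cvec x e = 0
  hch : ∀ u v, u ∈ Set.range x → v ∈ Set.range x → G.Adj u v → cvec x s(u, v) ≠ 0

/-- three different neighbours -/
theorem three_le_dgr {v a b c : V} (ha : G.Adj v a) (hb : G.Adj v b) (hc : G.Adj v c)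
    (hab : a ≠ b) (hac : a ≠ c) (hbc : b ≠ c) : 3 ≤ dgr G v := by
  rw [dgr_card, ← card_eq_three.2 ⟨a, b, c, hab, hac, hbc, rfl⟩]
  refine card_le_card ?_
  intro u hu
  simp only [mem_insert, mem_singleton] at hu
  simp only [mem_filter, mem_univ, true_and]
  rcases hu with rfl | rfl | rfl <;> assumption

theorem two_le_dgr {v a b : V} (ha : G.Adj v a) (hb : G.Adj v b) (hab : a ≠ b) :
    2 ≤ dgr G v := by
  rw [dgr_card, ← card_pair hab]
  refine card_le_card ?_
  intro u hu
  simp only [mem_insert, mem_singleton] at hu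
  simp only [mem_filter, mem_univ, true_and]
  rcases hu with rfl | rfl <;> assumption

/-- neighbours of a cycle vertex on the cycle -/
theorem IsCycSeq.adj' {n : ℕ} {x : ZMod n → V} (hx : IsCycSeq G x) (j : ZMod n) :
    G.Adj (x j) (x (j - 1)) := by
  have := hx.adj (j - 1)
  rw [sub_add_cancel] at this
  exact this.symm

/-- some vertex of the outer cycle has degree at least 3, and some vertex outside is not isolated
(`SepFree`: an edge off the cycle; `hch`) -/
theorem OutC.exists_three {m : ℕ} {x : ZMod m → V} (oc : OutC G F i0 Sp m x)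
    (cx : Ctx k G ι F i0 Sp) : (∃ v ∈ Sp, 3 ≤ dgr G v) ∧ ∃ v, v ∉ Sp ∧ ∃ w, G.Adj v w := by
  obtain ⟨e, he, he0⟩ := oc.hoff
  constructor
  · obtain ⟨v, -, -, ⟨u, hu, hu1⟩, ⟨u', hu', hu2⟩, -, -⟩ := cx.sep {e | cvec x e ≠ 0}
      ⟨s(x 0, x (0 + 1)), oc.hx.adj 0, by
        show cvec x _ ≠ 0
        rw [cvec_edge oc.hx]; exact one_ne_zero⟩ ⟨e, he, fun h => h he0⟩
    have hv : v ∈ Set.range x := (cvec_on oc.hx v).1 ⟨u, hu1⟩
    obtain ⟨j, rfl⟩ := hv
    refine ⟨x j, by rw [oc.hSp]; exact ⟨j, rfl⟩, ?_⟩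
    have h1 : u' ≠ x (j + 1) := by
      rintro rfl
      exact hu2 ((cvec_at oc.hx j _).2 (Or.inl rfl))
    have h2 : u' ≠ x (j - 1) := by
      rintro rfl
      exact hu2 ((cvec_at oc.hx j _).2 (Or.inr rfl))
    exact three_le_dgr (oc.hx.adj j) (oc.hx.adj' j) hu' (cyc_nbrs_ne oc.hx j) h1.symm h2.symm
  · induction e using Sym2.ind with
    | _ u v =>
      have huv : G.Adj u v := he
      by_cases hu : u ∈ Sp
      · refine ⟨v, ?_, u, huv.symm⟩
        intro hv
        rw [oc.hSp] at hu hv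
        exact oc.hch u v hu hv huv he0
      · exact ⟨u, hu, v, huv⟩

/-- the outer face is at the vertices of the cycle only -/
theorem OutC.on_iff {m : ℕ} {x : ZMod m → V} (oc : OutC G F i0 Sp m x) (v : V) :
    On (F i0) v ↔ v ∈ Sp := by
  rw [oc.hF0, oc.hSp]
  exact cvec_on oc.hx v

/-- a vertex of degree 2 on the outer cycle: its inner face is in `NF` (if it were a triangle, the
cycle would have a chord or be this triangle) -/
theorem OutC.deg_two {m : ℕ} {x : ZMod m → V} (oc : OutC G F i0 Sp m x) (cx : Ctx k G ι F i0 Sp)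
    {v : V} (hv : v ∈ Sp) (hd : dgr G v = 2) :
    ((TF F {i0}).filter (fun i => On (F i) v)).card = 0 ∧
      ∀ i ∈ (NF F {i0}).filter (fun i => On (F i) v), CE F {i0} v i := by
  have hall : ∀ i, On (F i) v → ∀ u, G.Adj v u → F i s(v, u) ≠ 0 := by
    intro i hi u hu
    have h1 := cx.fs.two_at cx.sep hi
    have h2 : univ.filter (fun u => F i s(v, u) ≠ 0) ⊆ univ.filter (fun u => G.Adj v u) := by
      intro w hw
      simp only [mem_filter, mem_univ, true_and] at hw ⊢
      exact cx.fs.adj_of_ne hw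
    have h3 : univ.filter (fun u => F i s(v, u) ≠ 0) = univ.filter (fun u => G.Adj v u) := by
      apply eq_of_subset_of_card_le h2
      rw [h1, ← dgr_card, hd]
    have h4 : u ∈ univ.filter (fun u => G.Adj v u) := by
      simp only [mem_filter, mem_univ, true_and]; exact hu
    rw [← h3] at h4
    simpa using h4
  rw [oc.hSp] at hv
  obtain ⟨j, rfl⟩ := hv
  constructor
  · rw [card_eq_zero]
    ext i
    simp only [mem_filter, notMem_empty, iff_false, not_and, TF, mem_univ, true_and, mem_singleton]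
    rintro ⟨hi0, hi3⟩ hon
    have f1 := hall i hon _ (oc.hx.adj j)
    have f2 := hall i hon _ (oc.hx.adj' j)
    obtain ⟨w, hw, -, auw, avw, -, -, hh⟩ := tri_of_face cx hi3 f1
    have hnb : ∀ u, G.Adj (x j) u → u = x (j + 1) ∨ u = x (j - 1) := by
      intro u hu
      by_contra hn
      push Not at hn
      have := three_le_dgr (oc.hx.adj j) (oc.hx.adj' j) hu (cyc_nbrs_ne oc.hx j) hn.1.symm
        hn.2.symm
      omega
    have hw' : w = x (j - 1) := by
      rcases hnb w avw with h | h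
      · exact absurd h hw
      · exact h
    subst hw'
    have h0 := oc.hoff
    rw [← oc.hF0] at h0
    refine hi0 (cx.fs.face_inj cx.sep h0 ?_).symm
    rw [oc.hF0]
    refine (sub_cycle oc.hx (cx.fs.cyc i) (cx.fs.ne i) ?_).symm
    intro e he
    rcases hh e he with rfl | rfl | rfl
    · rw [cvec_edge oc.hx]; exact one_ne_zero
    · exact oc.hch _ _ ⟨_, rfl⟩ ⟨_, rfl⟩ auw
    · exact oc.hch _ _ ⟨_, rfl⟩ ⟨_, rfl⟩ avw
  · intro i hi
    simp only [mem_filter] at hi
    refine ⟨i0, mem_singleton_self _, x (j + 1), hall i hi.2 _ (oc.hx.adj j), ?_⟩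
    rw [oc.hF0, cvec_edge oc.hx]
    exact one_ne_zero

/-- at a vertex of degree 3 on the outer cycle every inner face contains an edge of the outer cycle at
`v` -/
theorem OutC.deg_three {m : ℕ} {x : ZMod m → V} (oc : OutC G F i0 Sp m x) (cx : Ctx k G ι F i0 Sp)
    {v : V} (hv : v ∈ Sp) (hd : dgr G v = 3) {i : ι} (_hi : i ≠ i0) (hon : On (F i) v) :
    CE F {i0} v i := by
  have h1 := cx.fs.two_at cx.sep hon
  have h2 := cx.fs.two_at cx.sep ((oc.on_iff v).2 hv)
  by_contra hn
  have hdis : Disjoint (univ.filter (fun u => F i s(v, u) ≠ 0))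
      (univ.filter (fun u => F i0 s(v, u) ≠ 0)) := by
    rw [Finset.disjoint_left]
    intro u hu hu'
    simp only [mem_filter, mem_univ, true_and] at hu hu'
    exact hn ⟨i0, mem_singleton_self _, u, hu, hu'⟩
  have h3 := card_union_of_disjoint hdis
  have h4 : univ.filter (fun u => F i s(v, u) ≠ 0) ∪ univ.filter (fun u => F i0 s(v, u) ≠ 0) ⊆
      univ.filter (fun u => G.Adj v u) := by
    intro u hu
    simp only [mem_union, mem_filter, mem_univ, true_and] at hu ⊢
    rcases hu with hu | hu <;> exact cx.fs.adj_of_ne hu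
  have h5 := card_le_card h4
  rw [h3, h1, h2, ← dgr_card] at h5
  omega

/-- `NF`-faces at `v` with an edge of the outer cycle at `v`: at most two; and if the number of inner
triangular faces at `v` with an edge of the outer cycle is `r`, at most `2 - r` -/
theorem OutC.card_CE {m : ℕ} {x : ZMod m → V} (oc : OutC G F i0 Sp m x) (cx : Ctx k G ι F i0 Sp)
    {v : V} (hv : v ∈ Sp) :
    ((NF F {i0}).filter (fun i => On (F i) v ∧ CE F {i0} v i)).card +
      ((TF F {i0}).filter (fun i => On (F i) v ∧ CE F {i0} v i)).card ≤ 2 := by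
  rw [oc.hSp] at hv
  obtain ⟨j, rfl⟩ := hv
  have f1 : F i0 s(x j, x (j + 1)) ≠ 0 := by
    rw [oc.hF0]; exact (cvec_at oc.hx j _).2 (Or.inl rfl)
  have f2 : F i0 s(x j, x (j - 1)) ≠ 0 := by
    rw [oc.hF0]; exact (cvec_at oc.hx j _).2 (Or.inr rfl)
  obtain ⟨a, -, -, ha⟩ := cx.fs.exists_other f1
  obtain ⟨b, -, -, hb⟩ := cx.fs.exists_other f2
  have hkey : ∀ i, i ≠ i0 → CE F {i0} (x j) i → i = a ∨ i = b := by
    rintro i hi ⟨o, ho, u, h1, h2⟩
    rw [mem_singleton] at ho
    subst ho
    rw [oc.hF0, cvec_at oc.hx] at h2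
    rcases h2 with rfl | rfl
    · rcases ha i h1 with h | h
      · exact absurd h hi
      · exact Or.inl h
    · rcases hb i h1 with h | h
      · exact absurd h hi
      · exact Or.inr h
  have hdis : Disjoint ((NF F {i0}).filter (fun i => On (F i) (x j) ∧ CE F {i0} (x j) i))
      ((TF F {i0}).filter (fun i => On (F i) (x j) ∧ CE F {i0} (x j) i)) := by
    rw [Finset.disjoint_left]
    intro i hi hi'
    simp only [NF, TF, mem_filter, mem_univ, true_and] at hi hi'
    exact hi.1.2 hi'.1.2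
  rw [← card_union_of_disjoint hdis]
  refine le_trans (card_le_card (t := {a, b}) ?_) (card_le_two)
  intro i hi
  simp only [NF, TF, mem_union, mem_filter, mem_univ, true_and, mem_singleton] at hi
  simp only [mem_insert, mem_singleton]
  rcases hi with ⟨⟨h1, -⟩, -, h2⟩ | ⟨⟨h1, -⟩, -, h2⟩ <;> exact hkey i h1 h2

/-- the number of faces at a vertex of the outer cycle -/
theorem OutC.card_faces {m : ℕ} {x : ZMod m → V} (oc : OutC G F i0 Sp m x)
    (cx : Ctx k G ι F i0 Sp) {v : V} (hv : v ∈ Sp) :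
    ((NF F {i0}).filter (fun i => On (F i) v)).card +
      ((TF F {i0}).filter (fun i => On (F i) v)).card + 1 = dgr G v ∧
      (({i0} : Finset ι).filter (fun i => On (F i) v)).card = 1 := by
  have h1 : (({i0} : Finset ι).filter (fun i => On (F i) v)).card = 1 := by
    rw [Finset.filter_singleton, if_pos ((oc.on_iff v).2 hv), card_singleton]
  have h2 := card_split cx {i0} v
  rw [h1] at h2
  exact ⟨h2, h1⟩

/-- degree three on the outer cycle -/
theorem OutC.budget_three {m : ℕ} {x : ZMod m → V} (oc : OutC G F i0 Sp m x)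
    (cx : Ctx k G ι F i0 Sp) {v : V} (hv : v ∈ Sp) (hd : dgr G v = 3) :
    ∑ i ∈ (NF F {i0}).filter (fun i => On (F i) v), kap G F {i0} Sp v i =
      3 / 2 * (((NF F {i0}).filter (fun i => On (F i) v)).card : ℚ) := by
  rw [Finset.sum_congr rfl (g := fun _ => (3 / 2 : ℚ)), Finset.sum_const, nsmul_eq_mul, mul_comm]
  intro i hi
  simp only [mem_filter, NF, mem_univ, true_and, mem_singleton] at hi
  have hc := oc.deg_three cx hv hd hi.1.1 hi.2
  rw [kap, if_pos hc, if_neg (by omega)]

/-- degree at least four on the outer cycle -/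
theorem OutC.budget_big {m : ℕ} {x : ZMod m → V} (oc : OutC G F i0 Sp m x)
    (cx : Ctx k G ι F i0 Sp) {v : V} (hv : v ∈ Sp) (hd : 4 ≤ dgr G v) :
    ∑ i ∈ (NF F {i0}).filter (fun i => On (F i) v), kap G F {i0} Sp v i ≤ chL G F {i0} v := by
  have hoff := exists_off_face cx (oc.exists_three cx).2
  have ht := two_mul_tri_le cx {i0} v hoff
  have hs := sum_tau_le cx {i0} v hoff
  obtain ⟨hc, hO⟩ := oc.card_faces cx hv
  have hCE := oc.card_CE cx hv
  rw [chL, hO]
  by_cases h42 : dgr G v = 4 ∧ ((TF F {i0}).filter (fun i => On (F i) v)).card = 2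
  · obtain ⟨h4, h2⟩ := h42
    have hN : ((NF F {i0}).filter (fun i => On (F i) v)).card = 1 := by omega
    have hTE : univ.filter (fun u => TE F {i0} s(v, u)) = univ.filter (fun u => G.Adj v u) := by
      apply eq_of_subset_of_card_le
      · intro u hu
        simp only [mem_filter, mem_univ, true_and] at hu ⊢
        obtain ⟨j, -, h⟩ := hu
        exact cx.fs.adj_of_ne h
      · rw [card_TE cx {i0} v hoff, h2, ← dgr_card, h4]
    have hnc : ∀ i ∈ (NF F {i0}).filter (fun i => On (F i) v), kap G F {i0} Sp v i ≤ 2 := by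
      intro i hi
      simp only [mem_filter, NF, mem_univ, true_and, mem_singleton] at hi
      have hno : ¬ CE F {i0} v i := by
        rintro ⟨o, ho, u, h1, h3⟩
        rw [mem_singleton] at ho
        subst ho
        have hu : u ∈ univ.filter (fun u => G.Adj v u) := by
          simp only [mem_filter, mem_univ, true_and]
          exact cx.fs.adj_of_ne h1
        rw [← hTE] at hu
        simp only [mem_filter, mem_univ, true_and] at hu
        obtain ⟨j, hj, hj'⟩ := hu
        simp only [TF, mem_filter, mem_univ, true_and, mem_singleton] at hj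
        obtain ⟨a, -, -, ha⟩ := cx.fs.exists_other h3
        rcases ha i h1 with h | h
        · exact hi.1.1 h
        · rcases ha j hj' with h' | h'
          · exact hj.1 h'
          · rw [h] at hi
            rw [h'] at hj
            exact hi.1.2 hj.2
      refine le_trans (kap_le G F {i0} Sp v i hno) ?_
      have := tau_le_two cx {i0} v i
      have : (tau F {i0} v i : ℚ) ≤ 2 := by exact_mod_cast this
      linarith
    have h6 := Finset.sum_le_sum hnc
    rw [Finset.sum_const, nsmul_eq_mul, hN] at h6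
    rw [hN, h2, h4]
    push_cast at h6 ⊢
    linarith
  · have hle : ∀ i ∈ (NF F {i0}).filter (fun i => On (F i) v), kap G F {i0} Sp v i ≤
        1 + (tau F {i0} v i : ℚ) / 2 + (if On (F i) v ∧ CE F {i0} v i then 1 / 2 else 0) := by
      intro i hi
      simp only [mem_filter, NF, mem_univ, true_and, mem_singleton] at hi
      have h0 : (0 : ℚ) ≤ (tau F {i0} v i : ℚ) := Nat.cast_nonneg _
      by_cases hci : CE F {i0} v i
      · rw [if_pos ⟨hi.2, hci⟩, kap, if_pos hci, if_neg (by omega)]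
        linarith
      · rw [if_neg (fun h => hci h.2)]
        have := kap_le G F {i0} Sp v i hci
        linarith
    have h6 := Finset.sum_le_sum hle
    rw [Finset.sum_add_distrib, Finset.sum_add_distrib, Finset.sum_const, nsmul_eq_mul, mul_one,
      ← Finset.sum_div, ← Finset.sum_filter, Finset.filter_filter, Finset.sum_const,
      nsmul_eq_mul] at h6
    have h7 : (NF F {i0}).filter (fun i => On (F i) v ∧ On (F i) v ∧ CE F {i0} v i) =
        (NF F {i0}).filter (fun i => On (F i) v ∧ CE F {i0} v i) := by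
      ext i
      simp only [mem_filter]
      tauto
    rw [h7] at h6
    have h8 : (((NF F {i0}).filter (fun i => On (F i) v ∧ CE F {i0} v i)).card : ℚ) ≤ 2 := by
      have : ((NF F {i0}).filter (fun i => On (F i) v ∧ CE F {i0} v i)).card ≤ 2 := by omega
      exact_mod_cast this
    have h9 : (∑ i ∈ (NF F {i0}).filter (fun i => On (F i) v), (tau F {i0} v i : ℚ)) ≤
        2 * (((TF F {i0}).filter (fun i => On (F i) v)).card : ℚ) := by exact_mod_cast hs
    obtain ⟨N, hN⟩ : ∃ N, N = ((NF F {i0}).filter (fun i => On (F i) v)).card := ⟨_, rfl⟩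
    obtain ⟨T, hT⟩ : ∃ T, T = ((TF F {i0}).filter (fun i => On (F i) v)).card := ⟨_, rfl⟩
    obtain ⟨d, hdd⟩ : ∃ d, d = dgr G v := ⟨_, rfl⟩
    rw [← hN] at h6
    rw [← hN, ← hT, ← hdd] at hc
    rw [← hT, ← hdd] at ht
    rw [← hdd] at hd
    rw [← hT] at h9
    rw [← hT, ← hdd] at h42
    rw [← hN, ← hT, ← hdd]
    have hcQ : (N : ℚ) + T + 1 = d := by exact_mod_cast hc
    have h5 : (d : ℚ) ≤ 3 * d - 6 - 2 * T := by
      have : d + 6 + 2 * T ≤ 3 * d := by omega
      have : (d : ℚ) + 6 + 2 * T ≤ 3 * d := by exact_mod_cast this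
      linarith
    push_cast
    linarith

/-- BUDGET on the outer cycle. `O = {i0}`; `d = dgr G v`, `t` inner triangular faces at `v`, `2 t ≤ d`;
`d - 1 - t` faces in `NF`; `chL = 3 d - 6 - 2 t`.
`d = 2`: `∑ kap = 1/2`. `d = 3`: `t = 0`: `3 ≤ 3`; `t = 1`: `3/2 ≤ 1 + 1/2`.
`d ≥ 5`: `∑ kap ≤ (d - 1 - t) + 1 + t = d ≤ 3 d - 6 - 2 t`. `d = 4`: `t ≤ 1`: the same; `t = 2`: the two
triangular faces use all four edges at `v`, hence both edges of the outer cycle, so (`card_CE`) the
only face in `NF` has no edge of the outer cycle and weight at most `1 + 2/2 = 2 = chL`. -/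
theorem budget_cycle {m : ℕ} {x : ZMod m → V} (oc : OutC G F i0 Sp m x) (cx : Ctx k G ι F i0 Sp)
    {v : V} (hv : v ∈ Sp) :
    ∑ i ∈ (NF F {i0}).filter (fun i => On (F i) v), kap G F {i0} Sp v i ≤
      chL G F {i0} v + 1 / 2 := by
  have hoff := exists_off_face cx (oc.exists_three cx).2
  have ht := two_mul_tri_le cx {i0} v hoff
  obtain ⟨hc, hO⟩ := oc.card_faces cx hv
  have hd2 : 2 ≤ dgr G v := by
    have hv' := hv
    rw [oc.hSp] at hv'
    obtain ⟨j, rfl⟩ := hv'
    exact two_le_dgr (oc.hx.adj j) (oc.hx.adj' j) (cyc_nbrs_ne oc.hx j)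
  rcases Nat.lt_or_ge (dgr G v) 4 with h4 | h4
  · rcases Nat.lt_or_ge (dgr G v) 3 with h3 | h3
    · have hd : dgr G v = 2 := by omega
      obtain ⟨hT, hce⟩ := oc.deg_two cx hv hd
      have hN : ((NF F {i0}).filter (fun i => On (F i) v)).card = 1 := by omega
      rw [Finset.sum_congr rfl (g := fun _ => (1 / 2 : ℚ)), Finset.sum_const, nsmul_eq_mul, hN,
        chL, hO, hN, hT, hd]
      · norm_num
      · intro i hi
        rw [kap, if_pos (hce i hi), if_pos hd]
    · have hd : dgr G v = 3 := by omega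
      rw [oc.budget_three cx hv hd, chL, hO, hd]
      obtain ⟨N, hN⟩ : ∃ N, N = ((NF F {i0}).filter (fun i => On (F i) v)).card := ⟨_, rfl⟩
      obtain ⟨T, hT⟩ : ∃ T, T = ((TF F {i0}).filter (fun i => On (F i) v)).card := ⟨_, rfl⟩
      rw [← hN, ← hT] at hc
      rw [← hT] at ht
      rw [← hN, ← hT]
      have hcases : (N = 2 ∧ T = 0) ∨ (N = 1 ∧ T = 1) := by omega
      rcases hcases with ⟨rfl, rfl⟩ | ⟨rfl, rfl⟩ <;> norm_num
  · have := oc.budget_big cx hv h4
    linarith

/-- no deficit unless `d = 2` or `d = 3` with a triangular face -/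
theorem budget_cycle' {m : ℕ} {x : ZMod m → V} (oc : OutC G F i0 Sp m x) (cx : Ctx k G ι F i0 Sp)
    {v : V} (hv : v ∈ Sp) (hd : 3 ≤ dgr G v)
    (h3 : dgr G v = 3 → ((TF F {i0}).filter (fun i => On (F i) v)).card = 0) :
    ∑ i ∈ (NF F {i0}).filter (fun i => On (F i) v), kap G F {i0} Sp v i ≤ chL G F {i0} v := by
  rcases Nat.lt_or_ge (dgr G v) 4 with h4 | h4
  · have hd3 : dgr G v = 3 := by omega
    obtain ⟨hc, hO⟩ := oc.card_faces cx hv
    have hT := h3 hd3
    have hN : ((NF F {i0}).filter (fun i => On (F i) v)).card = 2 := by omega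
    rw [oc.budget_three cx hv hd3, chL, hO, hd3, hN, hT]
    norm_num
  · exact oc.budget_big cx hv h4

end

end Pool.Agent.W_fb73a4_h20
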