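import Pool.Agent.W_fb73a4_h20.MX

set_option autoImplicit false

namespace Pool.Agent.W_fb73a4_h20

open Finset
open scoped Classical

section

/-!
X3a: counting lemma about blocks on a cycle.
-/

/-- the values of the auxiliary function along `i₀, i₀ + 1, ...` -/
private noncomputable def x3a_b {l : ℕ} (T bad : ZMod l → Prop) (i₀ : ZMod l) : ℕ → ℚ
  | 0 => 0
  | n + 1 =>
    if T (i₀ + ((n + 1 : ℕ) : ZMod l)) then
      (if T (i₀ + (n : ZMod l)) then x3a_b T bad i₀ n
        else (if bad (i₀ + ((n + 1 : ℕ) : ZMod l)) then 1 / 2 else -(1 / 2)))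
    else 0

private theorem x3a_b_zero {l : ℕ} (T bad : ZMod l → Prop) (i₀ : ZMod l) :
    x3a_b T bad i₀ 0 = 0 := rfl

private theorem x3a_b_succ {l : ℕ} (T bad : ZMod l → Prop) (i₀ : ZMod l) (n : ℕ) :
    x3a_b T bad i₀ (n + 1) = if T (i₀ + ((n + 1 : ℕ) : ZMod l)) then
      (if T (i₀ + (n : ZMod l)) then x3a_b T bad i₀ n
        else (if bad (i₀ + ((n + 1 : ℕ) : ZMod l)) then 1 / 2 else -(1 / 2)))
    else 0 := rfl

private theorem x3a_b_half {l : ℕ} (T bad : ZMod l → Prop) (i₀ : ZMod l) (h0 : ¬ T i₀) (n : ℕ) :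
    T (i₀ + (n : ZMod l)) → x3a_b T bad i₀ n = 1 / 2 ∨ x3a_b T bad i₀ n = -(1 / 2) := by
  induction n with
  | zero =>
    intro h
    rw [Nat.cast_zero, add_zero] at h
    exact absurd h h0
  | succ n ih =>
    intro h
    rw [x3a_b_succ, if_pos h]
    split_ifs with h1 h2
    · exact ih h1
    · left; rfl
    · right; rfl

private theorem x3a_exists_a {l : ℕ} [NeZero l] (T bad : ZMod l → Prop) (i₀ : ZMod l)
    (h0 : ¬ T i₀) :
    ∃ a : ZMod l → ℚ, (∀ j, ¬ T j → a j = 0) ∧
      (∀ j, T j → ¬ T (j - 1) → bad j → a j = 1 / 2) ∧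
      (∀ j, T j → ¬ T (j - 1) → ¬ bad j → a j = -(1 / 2)) ∧
      (∀ j, T j → T (j - 1) → a j = a (j - 1)) ∧
      (∀ j, T j → a j = 1 / 2 ∨ a j = -(1 / 2)) := by
  have hval : ∀ j : ZMod l, i₀ + (((j - i₀).val : ℕ) : ZMod l) = j := by
    intro j
    rw [ZMod.natCast_zmod_val]
    ring
  have hstep : ∀ j : ZMod l, j ≠ i₀ → ∃ n : ℕ, (j - i₀).val = n + 1 ∧ (j - 1 - i₀).val = n ∧
      i₀ + ((n + 1 : ℕ) : ZMod l) = j ∧ i₀ + (n : ZMod l) = j - 1 := by
    intro j hj
    have h1 : (j - i₀).val ≠ 0 := by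
      rw [Ne, ZMod.val_eq_zero, sub_eq_zero]
      exact hj
    obtain ⟨n, hn⟩ := Nat.exists_eq_succ_of_ne_zero h1
    have h2 := hval j
    rw [hn] at h2
    have h3 : i₀ + (n : ZMod l) = j - 1 := by
      rw [← h2]
      push_cast
      ring
    have hlt : n < l := by
      have := ZMod.val_lt (j - i₀)
      omega
    refine ⟨n, hn, ?_, h2, h3⟩
    rw [← h3, add_sub_cancel_left, ZMod.val_natCast_of_lt hlt]
  have hne : ∀ j, T j → j ≠ i₀ := by
    rintro j hj rfl
    exact h0 hj
  refine ⟨fun j => x3a_b T bad i₀ (j - i₀).val, ?_, ?_, ?_, ?_, ?_⟩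
  · intro j hj
    by_cases hji : j = i₀
    · simp only
      rw [hji, sub_self, ZMod.val_zero, x3a_b_zero]
    · obtain ⟨n, hn, -, h3, h4⟩ := hstep j hji
      simp only
      rw [hn, x3a_b_succ, h3, if_neg hj]
  · intro j hj hj1 hb
    obtain ⟨n, hn, -, h3, h4⟩ := hstep j (hne j hj)
    simp only
    rw [hn, x3a_b_succ, h3, h4, if_pos hj, if_neg hj1, if_pos hb]
  · intro j hj hj1 hb
    obtain ⟨n, hn, -, h3, h4⟩ := hstep j (hne j hj)
    simp only
    rw [hn, x3a_b_succ, h3, h4, if_pos hj, if_neg hj1, if_neg hb]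
  · intro j hj hj1
    obtain ⟨n, hn, hn', h3, h4⟩ := hstep j (hne j hj)
    simp only
    rw [hn, hn', x3a_b_succ, h3, h4, if_pos hj, if_pos hj1]
  · intro j hj
    apply x3a_b_half T bad i₀ h0
    rw [hval]
    exact hj

/-- five pairwise exclusive conditions -/
private theorem x3a_five {p1 p2 p3 p4 p5 : Prop} (h12 : p1 → p2 → False) (h13 : p1 → p3 → False)
    (h14 : p1 → p4 → False) (h15 : p1 → p5 → False) (h23 : p2 → p3 → False)
    (h24 : p2 → p4 → False) (h25 : p2 → p5 → False) (h34 : p3 → p4 → False)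
    (h35 : p3 → p5 → False) (h45 : p4 → p5 → False) :
    (if p1 then 1 else 0) + (if p2 then 1 else 0) + (if p3 then 1 else 0) +
      (if p4 then 1 else 0) + (if p5 then 1 else 0) ≤ 1 := by
  by_cases q1 : p1
  · rw [if_pos q1, if_neg (h12 q1), if_neg (h13 q1), if_neg (h14 q1), if_neg (h15 q1)]
  rw [if_neg q1]
  by_cases q2 : p2
  · rw [if_pos q2, if_neg (h23 q2), if_neg (h24 q2), if_neg (h25 q2)]
  rw [if_neg q2]
  by_cases q3 : p3
  · rw [if_pos q3, if_neg (h34 q3), if_neg (h35 q3)]
  rw [if_neg q3]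
  by_cases q4 : p4
  · rw [if_pos q4, if_neg (h45 q4)]
  rw [if_neg q4]
  split_ifs <;> omega

/-- counting with shifts -/
private theorem x3a_shift {l : ℕ} [NeZero l] (P : ZMod l → Prop) (c : ZMod l) :
    ∑ i : ZMod l, (if P (i + c) then 1 else 0) = (univ.filter (fun j => P j)).card := by
  rw [card_filter]
  exact Equiv.sum_comp (Equiv.addRight c) (fun i => if P i then 1 else 0)

/-- BLOCK LEMMA. Positions `j : ZMod l` of a cycle, `T j`: the edge from `j` to `j + 1` is a triangle
edge, `bad j`: the vertex `j` has degree 3 (and is not precoloured). If not all edges are triangle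
edges, they form blocks. Let `a j = 1/2` (resp. `-1/2`) if `T j` and the first vertex of the block of
`j` is bad (resp. not bad), `a j = 0` if `¬ T j`. Then `κ j + a j - a (j-1) ≥ 1` except if `j` is the
last vertex of a block both ends of which are bad, where it is `≥ 0`. Let `E` be the set of these last
vertices: `∑ κ ≥ l - |E|`. `E1`: those with `¬ T (j-2)` (the block has two vertices `j-1, j`), `E2`:
those with `T (j-2)`. The sets `E1, E1-1, E2, E2-1, E2-2` are pairwise disjoint, and `E1+1` is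
disjoint from all of them except `E2-2` (`h4`: no tetrad). So `2|E1| + 3|E2| + (|E1| - |E2|) ≤ l` and
`2|E1| + 3|E2| ≤ l`, hence `5 |E| ≤ 2 l`; if `E2` is empty, `3 |E| ≤ l`. -/
theorem block_lemma {l : ℕ} [NeZero l] (hl : 7 ≤ l) (T bad : ZMod l → Prop) (κ : ZMod l → ℚ)
    (h1 : ∀ j, bad j → ¬ (T (j - 1) ∧ T j))
    (h2 : ∀ j, bad j → ¬ T (j - 1) → ¬ T j → 1 ≤ κ j)
    (h2' : ∀ j, bad j → 1 / 2 ≤ κ j)
    (h3 : ∀ j, ¬ bad j → 1 ≤ κ j)
    (h3' : ∀ j, ¬ bad j → (T (j - 1) ∧ ¬ T j ∨ ¬ T (j - 1) ∧ T j) → 3 / 2 ≤ κ j)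
    (h4 : ∀ j, T j → ¬ T (j + 1) → T (j + 2) → bad j → bad (j + 1) → bad (j + 2) → bad (j + 3) →
      False) :
    ∃ β : ℕ, (l : ℚ) - β ≤ ∑ j, κ j ∧ 5 * β ≤ 2 * l ∧ β ≤ (univ.filter (fun j => T j)).card ∧
      ((∀ j, ¬ (T j ∧ T (j + 1))) → 3 * β ≤ l) := by
  by_cases hall : ∀ j, T j
  · refine ⟨0, ?_, by omega, Nat.zero_le _, fun _ => by omega⟩
    have h5 : ∀ j, 1 ≤ κ j := fun j => h3 j fun hb => h1 j hb ⟨hall _, hall _⟩
    have h6 : ∑ _j : ZMod l, (1 : ℚ) ≤ ∑ j, κ j := sum_le_sum fun j _ => h5 j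
    rw [sum_const, card_univ, ZMod.card, nsmul_eq_mul, mul_one] at h6
    push_cast
    linarith
  push Not at hall
  obtain ⟨i₀, hi₀⟩ := hall
  obtain ⟨a, ha0, ha1, ha2, ha3, ha4⟩ := x3a_exists_a T bad i₀ hi₀
  obtain ⟨E, hE⟩ : ∃ E : ZMod l → Prop,
      E = fun j => T (j - 1) ∧ ¬ T j ∧ bad j ∧ a (j - 1) = 1 / 2 := ⟨_, rfl⟩
  have hE' : ∀ j, E j ↔ T (j - 1) ∧ ¬ T j ∧ bad j ∧ a (j - 1) = 1 / 2 := fun j => by rw [hE]
  obtain ⟨E1, hE1⟩ : ∃ E1 : ZMod l → Prop, E1 = fun j => E j ∧ ¬ T (j - 2) := ⟨_, rfl⟩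
  obtain ⟨E2, hE2⟩ : ∃ E2 : ZMod l → Prop, E2 = fun j => E j ∧ T (j - 2) := ⟨_, rfl⟩
  have hsh : ∀ (i c d : ZMod l), i + c - d = i + (c - d) := fun i c d => add_sub_assoc i c d
  have hm : ∀ j : ZMod l, j - 1 - 1 = j - 2 := by
    intro j
    ring
  have hE1' : ∀ j, E1 j → T (j - 1) ∧ ¬ T j ∧ bad j ∧ bad (j - 1) ∧ ¬ T (j - 2) := by
    intro j hj
    rw [hE1] at hj
    obtain ⟨h5, h6⟩ := hj
    obtain ⟨h7, h8, h9, h10⟩ := (hE' j).1 h5
    refine ⟨h7, h8, h9, ?_, h6⟩
    by_contra h11
    have h12 := ha2 (j - 1) h7 (by rw [hm]; exact h6) h11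
    rw [h10] at h12
    norm_num at h12
  have hE2' : ∀ j, E2 j → T (j - 1) ∧ ¬ T j ∧ T (j - 2) := by
    intro j hj
    rw [hE2] at hj
    obtain ⟨h5, h6⟩ := hj
    obtain ⟨h7, h8, h9, h10⟩ := (hE' j).1 h5
    exact ⟨h7, h8, h6⟩
  have hcard : (univ.filter (fun j => E j)).card =
      (univ.filter (fun j => E1 j)).card + (univ.filter (fun j => E2 j)).card := by
    rw [card_filter, card_filter, card_filter, ← sum_add_distrib]
    refine sum_congr rfl fun j _ => ?_
    rw [hE1, hE2]
    by_cases h5 : E j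
    · by_cases h6 : T (j - 2)
      · simp [h5, h6]
      · simp [h5, h6]
    · simp [h5]
  -- the lower bound of the sum
  have hpt : ∀ j, 1 - (if E j then (1 : ℚ) else 0) ≤ κ j + a j - a (j - 1) := by
    intro j
    by_cases hT : T j
    · have hnE : ¬ E j := fun h => ((hE' j).1 h).2.1 hT
      rw [if_neg hnE]
      by_cases hT1 : T (j - 1)
      · have h5 := h3 j fun hb => h1 j hb ⟨hT1, hT⟩
        have h6 := ha3 j hT hT1
        linarith
      · have h5 := ha0 (j - 1) hT1
        by_cases hb : bad j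
        · have h6 := ha1 j hT hT1 hb
          have h7 := h2' j hb
          linarith
        · have h6 := ha2 j hT hT1 hb
          have h7 := h3' j hb (Or.inr ⟨hT1, hT⟩)
          linarith
    · have h5 := ha0 j hT
      by_cases hT1 : T (j - 1)
      · rcases ha4 (j - 1) hT1 with h6 | h6
        · by_cases hb : bad j
          · have hEj : E j := (hE' j).2 ⟨hT1, hT, hb, h6⟩
            rw [if_pos hEj]
            have h7 := h2' j hb
            linarith
          · have hnE : ¬ E j := fun h => hb ((hE' j).1 h).2.2.1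
            rw [if_neg hnE]
            have h7 := h3' j hb (Or.inl ⟨hT1, hT⟩)
            linarith
        · have hnE : ¬ E j := by
            intro h
            have h7 := ((hE' j).1 h).2.2.2
            rw [h6] at h7
            norm_num at h7
          rw [if_neg hnE]
          by_cases hb : bad j
          · have h7 := h2' j hb
            linarith
          · have h7 := h3' j hb (Or.inl ⟨hT1, hT⟩)
            linarith
      · have hnE : ¬ E j := fun h => hT1 ((hE' j).1 h).1
        rw [if_neg hnE]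
        have h6 := ha0 (j - 1) hT1
        by_cases hb : bad j
        · have h7 := h2 j hb hT1 hT
          linarith
        · have h7 := h3 j hb
          linarith
  have hsum : (l : ℚ) - ((univ.filter (fun j => E j)).card : ℕ) ≤ ∑ j, κ j := by
    have h5 := sum_le_sum (s := (univ : Finset (ZMod l))) fun j _ => hpt j
    have h6 : ∑ j : ZMod l, a (j - 1) = ∑ j, a j :=
      Equiv.sum_comp (Equiv.subRight (1 : ZMod l)) a
    rw [sum_sub_distrib, sum_sub_distrib, sum_add_distrib, h6, sum_const, card_univ, ZMod.card,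
      nsmul_eq_mul, mul_one, sum_boole] at h5
    linarith
  -- counting
  have hA : ∀ i : ZMod l, (if E1 (i + 0) then 1 else 0) + (if E1 (i + 1) then 1 else 0) +
      (if E1 (i + -1) then 1 else 0) + (if E2 (i + 0) then 1 else 0) +
      (if E2 (i + 1) then 1 else 0) ≤ 1 := by
    intro i
    have e1 : i + 0 = i := add_zero i
    have e2 : i + 1 - 1 = i := add_sub_cancel_right i 1
    have e3 : i + 1 - 2 = i - 1 := by ring
    have e4 : i + -1 = i - 1 := by ring
    have e5 : i - 1 - 1 = i - 2 := by ring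
    have f1 := hE1' i
    have f2 := hE1' (i + 1)
    have f3 := hE1' (i - 1)
    have f4 := hE2' i
    have f5 := hE2' (i + 1)
    have f6 := h4 (i - 2)
    have e6 : i - 2 + 1 = i - 1 := by ring
    have e7 : i - 2 + 2 = i := by ring
    have e8 : i - 2 + 3 = i + 1 := by ring
    rw [e6, e7, e8] at f6
    rw [e2, e3] at f2 f5
    rw [e5] at f3
    rw [e1, e4]
    refine x3a_five (fun a b => ?_) (fun a b => ?_) (fun a b => ?_) (fun a b => ?_)
      (fun a b => ?_) (fun a b => ?_) (fun a b => ?_) (fun a b => ?_) (fun a b => ?_)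
      (fun a b => ?_)
    · exact (f1 a).2.1 (f2 b).1
    · exact (f3 b).2.1 (f1 a).1
    · exact (f1 a).2.2.2.2 (f4 b).2.2
    · exact (f1 a).2.1 (f5 b).1
    · obtain ⟨g1, g2, g3, g4, g5⟩ := f2 a
      obtain ⟨g6, g7, g8, g9, g10⟩ := f3 b
      exact f6 g6 g7 g1 g9 g8 g4 g3
    · exact (f4 b).2.1 (f2 a).1
    · exact (f2 a).2.2.2.2 (f5 b).2.2
    · exact (f3 a).2.1 (f4 b).1
    · exact (f3 a).2.1 (f5 b).2.2
    · exact (f4 a).2.1 (f5 b).1
  have hB : ∀ i : ZMod l, (if E1 (i + 0) then 1 else 0) + (if E1 (i + 1) then 1 else 0) +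
      (if E2 (i + 0) then 1 else 0) + (if E2 (i + 1) then 1 else 0) +
      (if E2 (i + 2) then 1 else 0) ≤ 1 := by
    intro i
    have e1 : i + 0 = i := add_zero i
    have e2 : i + 1 - 1 = i := add_sub_cancel_right i 1
    have e3 : i + 1 - 2 = i - 1 := by ring
    have e4 : i + 2 - 1 = i + 1 := by ring
    have e5 : i + 2 - 2 = i := by ring
    have f1 := hE1' i
    have f2 := hE1' (i + 1)
    have f4 := hE2' i
    have f5 := hE2' (i + 1)
    have f6 := hE2' (i + 2)
    rw [e4, e5] at f6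
    rw [e2, e3] at f2 f5
    rw [e1]
    refine x3a_five (fun a b => ?_) (fun a b => ?_) (fun a b => ?_) (fun a b => ?_)
      (fun a b => ?_) (fun a b => ?_) (fun a b => ?_) (fun a b => ?_) (fun a b => ?_)
      (fun a b => ?_)
    · exact (f1 a).2.1 (f2 b).1
    · exact (f1 a).2.2.2.2 (f4 b).2.2
    · exact (f1 a).2.1 (f5 b).1
    · exact (f1 a).2.1 (f6 b).2.2
    · exact (f4 b).2.1 (f2 a).1
    · exact (f2 a).2.2.2.2 (f5 b).2.2
    · exact (f2 a).2.1 (f6 b).1
    · exact (f4 a).2.1 (f5 b).1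
    · exact (f4 a).2.1 (f6 b).2.2
    · exact (f5 a).2.1 (f6 b).1
  have hA' := sum_le_sum (s := (univ : Finset (ZMod l))) fun i _ => hA i
  have hB' := sum_le_sum (s := (univ : Finset (ZMod l))) fun i _ => hB i
  rw [sum_add_distrib, sum_add_distrib, sum_add_distrib, sum_add_distrib, x3a_shift, x3a_shift,
    x3a_shift, x3a_shift, x3a_shift, sum_const, card_univ, ZMod.card, smul_eq_mul, mul_one] at hA'
  rw [sum_add_distrib, sum_add_distrib, sum_add_distrib, sum_add_distrib, x3a_shift, x3a_shift,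
    x3a_shift, x3a_shift, x3a_shift, sum_const, card_univ, ZMod.card, smul_eq_mul, mul_one] at hB'
  refine ⟨(univ.filter (fun j => E j)).card, hsum, by omega, ?_, ?_⟩
  · have h5 : (univ.filter (fun j => E j)).card ≤ ((univ.filter (fun j => T j)).image
        (fun j => j + 1)).card := by
      apply card_le_card
      intro j hj
      rw [mem_filter] at hj
      rw [mem_image]
      exact ⟨j - 1, mem_filter.2 ⟨mem_univ _, ((hE' j).1 hj.2).1⟩, sub_add_cancel j 1⟩
    exact h5.trans card_image_le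
  · intro hno
    have h5 : (univ.filter (fun j => E2 j)).card = 0 := by
      rw [card_eq_zero, filter_eq_empty_iff]
      intro j _ hj
      obtain ⟨h6, -, h7⟩ := hE2' j hj
      refine hno (j - 2) ⟨h7, ?_⟩
      have h8 : j - 2 + 1 = j - 1 := by ring
      rw [h8]
      exact h6
    omega

end

section

/-!
X3: the corners of an inner non-triangular face without an edge of an outer face.
-/

variable {V : Type} [Fintype V] {G : SimpleGraph V} {k : ℕ} {ι : Type} [Fintype ι] {F : ι → EV V}
  {i0 : ι} {Sp : Set V}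

/-- at a vertex `v ∉ Sp` of degree 3 a face of `NF` has at most one triangle edge (two triangular
faces at a vertex of degree 3 have a common edge; one triangular face with both edges: `deg_two`) -/
theorem tau_le_one (cx : Ctx k G ι F i0 Sp) (O : Finset ι) {i : ι} (hi : i ∈ NF F O) {v : V}
    (hv : v ∉ Sp) (hd : dgr G v = 3) : tau F O v i ≤ 1 := by
  by_contra hlt
  have h2 : 1 < (univ.filter (fun u => F i s(v, u) ≠ 0 ∧ TE F O s(v, u))).card := by
    rw [tau] at hlt; omega
  obtain ⟨u1, hu1, u2, hu2, hne⟩ := Finset.one_lt_card.1 h2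
  simp only [mem_filter, mem_univ, true_and] at hu1 hu2
  obtain ⟨f1, j1, hj1, g1⟩ := hu1
  obtain ⟨f2, j2, hj2, g2⟩ := hu2
  have hij : i ≠ j1 := by
    rintro rfl
    simp only [NF, TF, mem_filter, mem_univ, true_and] at hi hj1
    exact hi.2 hj1.2
  by_cases hjj : j1 = j2
  · subst hjj
    have := cx.fs.deg_two cx.sep hij hne f1 f2 g1 g2
    omega
  · have hoff := exists_off_face cx ⟨v, hv, u1, cx.fs.adj_of_ne f1⟩
    have ht := two_mul_tri_le cx O v hoff
    have hc : ({j1, j2} : Finset ι) ⊆ (TF F O).filter (fun i => On (F i) v) := by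
      intro j hj
      simp only [mem_insert, mem_singleton] at hj
      simp only [mem_filter]
      rcases hj with rfl | rfl
      · exact ⟨hj1, u1, g1⟩
      · exact ⟨hj2, u2, g2⟩
    have := card_le_card hc
    rw [card_pair hjj] at this
    omega

/-- third vertex of the inner triangle of an edge -/
theorem TE.third (cx : Ctx k G ι F i0 Sp) {O : Finset ι} {v u : V} (h : TE F O s(v, u)) :
    ∃ w, G.Adj v w ∧ G.Adj u w := by
  obtain ⟨j, hj, hj'⟩ := h
  simp only [TF, mem_filter, mem_univ, true_and] at hj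
  obtain ⟨w, -, -, h1, h2, -, -, -⟩ := tri_of_face cx hj.2 hj'
  exact ⟨w, h2, h1⟩

/-- faces of `NF` have length at least 7, and at least 8 if they have a triangle edge; if `k = 12`
and they have two triangle edges, the length is at least 9 -/
theorem nf_len (cx : Ctx k G ι F i0 Sp) (O : Finset ι) {i : ι} (hi : i ∈ NF F O) :
    7 ≤ len (F i) ∧ ((∃ e, F i e ≠ 0 ∧ TE F O e) → 8 ≤ len (F i)) ∧
      (k = 12 → (∃ e e', e ≠ e' ∧ F i e ≠ 0 ∧ TE F O e ∧ F i e' ≠ 0 ∧ TE F O e') →
        9 ≤ len (F i)) := by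
  obtain ⟨n, x, hx, hF⟩ := cx.fs.face_cycle cx.sep i
  have hlen : len (F i) = n := by rw [hF, len, cvec_card hx]
  simp only [NF, mem_filter, mem_univ, true_and] at hi
  rw [hlen] at hi ⊢
  have hpos : ∀ e, F i e ≠ 0 → ∃ j, s(x j, x (j + 1)) = e := by
    intro e he
    rw [hF, cvec] at he
    by_contra hn
    rw [if_neg hn] at he
    exact he rfl
  refine ⟨?_, ?_, ?_⟩
  · rcases cx.cls.len hx with h | h
    · exact absurd h hi.2
    · exact h
  · rintro ⟨e, he, ht⟩
    obtain ⟨j, rfl⟩ := hpos e he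
    obtain ⟨w, h1, h2⟩ := TE.third cx ht
    exact cx.cls.len_eight hx hi.2 h1 h2
  · rintro hk ⟨e, e', hee, he, ht, he', ht'⟩
    obtain ⟨j, rfl⟩ := hpos e he
    obtain ⟨j', rfl⟩ := hpos e' he'
    obtain ⟨w, h1, h2⟩ := TE.third cx ht
    obtain ⟨w', h1', h2'⟩ := TE.third cx ht'
    have hjj : j ≠ j' := by rintro rfl; exact hee rfl
    exact cx.cls.len_nine hk hx hi.2 hjj h1 h2 h1' h2'

/-- the face `i` as a cyclic sequence: `tau` is the number of triangle edges among the two face edges
at `y j` -/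
theorem tau_seq (F : ι → EV V) (O : Finset ι) {i : ι} {l : ℕ} {y : ZMod l → V}
    (hy : IsCycSeq G y) (hF : F i = cvec y) (j : ZMod l) :
    tau F O (y j) i = (if TE F O s(y (j - 1), y j) then 1 else 0) +
      (if TE F O s(y j, y (j + 1)) then 1 else 0) := by
  have h1 : univ.filter (fun u => F i s(y j, u) ≠ 0 ∧ TE F O s(y j, u)) =
      ({y (j - 1), y (j + 1)} : Finset V).filter (fun u => TE F O s(y j, u)) := by
    ext u
    simp only [mem_filter, mem_univ, true_and, mem_insert, mem_singleton]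
    rw [hF, cvec_at hy]
    tauto
  rw [tau, h1, Finset.card_filter, Finset.sum_pair (cyc_nbrs_ne hy j).symm]
  congr 2
  rw [Sym2.eq_swap]

/-- a sum over the vertices of the face is a sum over the positions -/
theorem sum_on_seq {l : ℕ} [NeZero l] {y : ZMod l → V} (hy : IsCycSeq G y) (f : V → ℚ) :
    ∑ v ∈ univ.filter (fun v => On (cvec y) v), f v = ∑ j, f (y j) := by
  have h1 : univ.filter (fun v => On (cvec y) v) = univ.image y := by
    ext v
    simp only [mem_filter, mem_univ, true_and, mem_image]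
    exact cvec_on hy v
  rw [h1, Finset.sum_image]
  intro a _ b _ h
  exact hy.inj h

/-- no two consecutive triangle edges on a face of length 8 of `NF` if `k = 11` -/
theorem no_consecutive (cx : Ctx k G ι F i0 Sp) (hk : k = 11) (O : Finset ι)
    (hoff : ∀ i : ι, ∃ e ∈ G.edgeSet, F i e = 0) {y : ZMod 8 → V}
    (hy : IsCycSeq G y) (j : ZMod 8) (h1 : TE F O s(y j, y (j + 1)))
    (h2 : TE F O s(y (j + 1), y (j + 1 + 1))) : False := by
  obtain ⟨a, ha, ha'⟩ := h1
  obtain ⟨b, hb, hb'⟩ := h2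
  simp only [TF, mem_filter, mem_univ, true_and] at ha hb
  have hab : a = b := tri_unique cx hk ha.2 hb.2 (hoff a) (v := y (j + 1))
    ⟨y j, by rw [Sym2.eq_swap]; exact ha'⟩ ⟨_, hb'⟩
  subst hab
  obtain ⟨w, hw, avu, auw, avw, -, -, hall⟩ := tri_of_face cx ha.2 ha'
  have hinj : ∀ c d : ZMod 8, y c = y d → c = d := fun c d h => hy.inj h
  have hne : ∀ c : ZMod 8, c + 1 + 1 ≠ c ∧ c + 1 + 1 ≠ c + 1 := by decide
  have hw' : w = y (j + 1 + 1) := by
    have : s(y (j + 1), y (j + 1 + 1)) = s(y (j + 1), w) := by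
      rcases hall _ hb' with h | h | h
      · exfalso
        rw [Sym2.eq_iff] at h
        rcases h with ⟨-, h⟩ | ⟨-, h⟩
        · exact (hne j).2 (hinj _ _ h)
        · exact (hne j).1 (hinj _ _ h)
      · exact h
      · exfalso
        rw [Sym2.eq_iff] at h
        rcases h with ⟨h, -⟩ | ⟨-, h⟩
        · exact avu.ne h.symm
        · exact (hne j).1 (hinj _ _ h)
    rw [Sym2.eq_iff] at this
    rcases this with ⟨-, h⟩ | ⟨h, -⟩
    · exact h.symm
    · exact absurd h.symm hw
  subst hw'
  have := cx.cls.len_eight_nat (n := 7) (by norm_num)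
    (fun c => if c = 0 then y j else y (j + 1 + (c : ZMod 8))) ?_ ?_ ?_ (i := 0) (by norm_num)
    (t := y (j + 1)) ?_ ?_
  · omega
  · intro p q hp hq h
    have key : ∀ c : ZMod 8, c.val < 7 → c ≠ 0 → ∀ d : ZMod 8, j + 1 + c ≠ j := by
      intro c hc hc0 d h
      have h5 : c = -1 := by linear_combination h
      rw [h5] at hc
      revert hc
      decide
    by_cases p0 : p = 0 <;> by_cases q0 : q = 0
    · omega
    · rw [if_pos p0, if_neg q0] at h
      exfalso
      have h5 := hinj _ _ h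
      have hv : ((q : ZMod 8)).val = q := ZMod.val_cast_of_lt (by omega)
      refine key (q : ZMod 8) (by rw [hv]; exact hq) ?_ 0 h5.symm
      intro h6
      rw [h6] at hv
      simp at hv
      omega
    · rw [if_neg p0, if_pos q0] at h
      exfalso
      have h5 := hinj _ _ h
      have hv : ((p : ZMod 8)).val = p := ZMod.val_cast_of_lt (by omega)
      refine key (p : ZMod 8) (by rw [hv]; exact hp) ?_ 0 h5
      intro h6
      rw [h6] at hv
      simp at hv
      omega
    · rw [if_neg p0, if_neg q0] at h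
      have h5 := add_left_cancel (hinj _ _ h)
      have hv : ((p : ZMod 8)).val = p := ZMod.val_cast_of_lt (by omega)
      have hv' : ((q : ZMod 8)).val = q := ZMod.val_cast_of_lt (by omega)
      rw [← hv, ← hv', h5]
  · intro c hc
    by_cases c0 : c = 0
    · subst c0
      simp only [if_true, zero_add, one_ne_zero, if_false, Nat.cast_one]
      exact avw
    · rw [if_neg c0, if_neg (by omega)]
      have := hy.adj (j + 1 + (c : ZMod 8))
      have h5 : j + 1 + (c : ZMod 8) + 1 = j + 1 + ((c + 1 : ℕ) : ZMod 8) := by push_cast; ring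
      rwa [h5] at this
  · simp only [if_true]
    have := hy.adj (j + 1 + ((6 : ℕ) : ZMod 8))
    have h5 : j + 1 + ((6 : ℕ) : ZMod 8) + 1 = j := by
      have : ((6 : ℕ) : ZMod 8) + 1 + 1 = 0 := by decide
      linear_combination this
    rw [h5] at this
    simpa using this
  · simp only [if_true]; exact avu
  · simp only [zero_add, one_ne_zero, if_false, Nat.cast_one]
    exact auw.symm

/-- CASE A: the face has no edge of an outer face. Let `F i = cvec y`, `y : ZMod l → V`. Apply
`block_lemma` with `T j = TE s(y j, y (j+1))`, `bad j = (dgr (y j) = 3 ∧ y j ∉ Sp)` and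
`κ j = kap (y j)`; (`h4`) is `nt`: the third vertices of the triangles are the `a`, `b` of the tetrad.
Vertices outside `Sp` have degree at least 3. `l = 7`: no triangle edge, `β = 0`. `l = 8`, `k = 12`: at
most one triangle edge, `β ≤ 1`; `l = 8`, `k = 11`: no two consecutive triangle edges (`cls.tri`; if
they are edges of the same triangle `y j y (j+1) y (j+2)`, there is a 7-cycle with a triangle edge),
so `3 β ≤ 8`. `l ≥ 9`: `5 β ≤ 2 l` gives `l - β ≥ 6`. -/
theorem face_A (cx : Ctx k G ι F i0 Sp) (O : Finset ι) {i : ι} (hi : i ∈ NF F O)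
    (hoff : ∀ i : ι, ∃ e ∈ G.edgeSet, F i e = 0)
    (hA : ∀ v, ¬ CE F O v i)
    (nt : ∀ x1 x2 x3 x4 a b i, ¬ Tetrad G F Sp x1 x2 x3 x4 a b i) :
    6 ≤ ∑ v ∈ univ.filter (fun v => On (F i) v), kap G F O Sp v i := by
  obtain ⟨l, y, hy, hF⟩ := cx.fs.face_cycle cx.sep i
  have hlen : len (F i) = l := by rw [hF, len, cvec_card hy]
  obtain ⟨hl7, hl8, hl9⟩ := nf_len cx O hi
  rw [hlen] at hl7 hl8 hl9
  have : NeZero l := ⟨by omega⟩
  have hFe : ∀ j, F i s(y j, y (j + 1)) ≠ 0 := fun j => by
    rw [hF, cvec_edge hy]; exact one_ne_zero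
  have hts : ∀ j, tau F O (y j) i = (if TE F O s(y (j - 1), y j) then 1 else 0) +
      (if TE F O s(y j, y (j + 1)) then 1 else 0) := fun j => tau_seq F O hy hF j
  have hbad : ∀ j, (dgr G (y j) = 3 ∧ y j ∉ Sp) →
      kap G F O Sp (y j) i = 1 - (tau F O (y j) i : ℚ) / 2 := by
    intro j hj
    rw [kap, if_neg (hA _), if_pos hj]
  have hgood : ∀ j, ¬ (dgr G (y j) = 3 ∧ y j ∉ Sp) → 1 ≤ kap G F O Sp (y j) i ∧
      (tau F O (y j) i = 1 → 3 / 2 ≤ kap G F O Sp (y j) i) := by
    intro j hj
    have h0 : (0 : ℚ) ≤ (tau F O (y j) i : ℚ) := Nat.cast_nonneg _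
    rw [kap, if_neg (hA _), if_neg hj]
    split_ifs with h
    · refine ⟨le_refl _, fun h1 => ?_⟩
      rw [h.2.2] at h1
      omega
    · refine ⟨by linarith, fun h1 => ?_⟩
      rw [h1]
      norm_num
  have hTm : ∀ j, TE F O s(y (j - 1), y (j - 1 + 1)) ↔ TE F O s(y (j - 1), y j) := by
    intro j; rw [sub_add_cancel]
  have key := block_lemma (l := l) hl7 (fun j => TE F O s(y j, y (j + 1)))
    (fun j => dgr G (y j) = 3 ∧ y j ∉ Sp) (fun j => kap G F O Sp (y j) i) ?_ ?_ ?_ ?_ ?_ ?_
  · obtain ⟨β, hβ, hβ5, hβT, hβ3⟩ := key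
    have hsum : ∑ v ∈ univ.filter (fun v => On (F i) v), kap G F O Sp v i =
        ∑ j, kap G F O Sp (y j) i := by
      rw [hF, sum_on_seq hy (fun v => kap G F O Sp v i)]
    rw [hsum]
    refine le_trans ?_ hβ
    have hfin : β + 6 ≤ l := by
      rcases Nat.lt_or_ge l 9 with h9 | h9
      · rcases Nat.lt_or_ge l 8 with h8 | h8
        · -- l = 7
          have : (univ.filter (fun j => TE F O s(y j, y (j + 1)))).card = 0 := by
            rw [card_eq_zero]
            ext j
            simp only [mem_filter, mem_univ, true_and, notMem_empty, iff_false]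
            intro hj
            have := hl8 ⟨_, hFe j, hj⟩
            omega
          omega
        · have hl : l = 8 := by omega
          rcases cx.cls.hk with hk | hk
          · -- k = 11
            subst hl
            have := hβ3 (fun j ⟨h1, h2⟩ => no_consecutive cx hk O hoff hy j h1 h2)
            omega
          · -- k = 12
            have : (univ.filter (fun j => TE F O s(y j, y (j + 1)))).card ≤ 1 := by
              by_contra hgt
              obtain ⟨a, ha, b, hb, hab⟩ := Finset.one_lt_card.1 (not_le.1 hgt)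
              simp only [mem_filter, mem_univ, true_and] at ha hb
              have hne : s(y a, y (a + 1)) ≠ s(y b, y (b + 1)) := by
                intro h
                rw [Sym2.eq_iff] at h
                rcases h with ⟨h, -⟩ | ⟨h, h'⟩
                · exact hab (hy.inj h)
                · have h1 := hy.inj h
                  have h2 := hy.inj h'
                  have h3 : (2 : ZMod l) = 0 := by
                    have : a + 2 = a := by linear_combination h2 - h1
                    linear_combination this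
                  have h4 : ((2 : ℕ) : ZMod l) = 0 := by exact_mod_cast h3
                  rw [ZMod.natCast_eq_zero_iff] at h4
                  have := Nat.le_of_dvd (by norm_num) h4
                  omega
              have := hl9 hk ⟨_, _, hne, hFe a, ha, hFe b, hb⟩
              omega
            omega
      · omega
    have : (β : ℚ) + 6 ≤ l := by exact_mod_cast hfin
    linarith
  · -- h1
    rintro j hj ⟨h1, h2⟩
    have := tau_le_one cx O hi hj.2 hj.1
    rw [hts, if_pos ((hTm j).1 h1), if_pos h2] at this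
    omega
  · -- h2
    intro j hj h1 h2
    have hz : tau F O (y j) i = 0 := by
      rw [hts, if_neg (fun h => h1 ((hTm j).2 h)), if_neg h2]
    rw [hbad j hj, hz]
    norm_num
  · -- h2'
    intro j hj
    have := tau_le_one cx O hi hj.2 hj.1
    have : (tau F O (y j) i : ℚ) ≤ 1 := by exact_mod_cast this
    rw [hbad j hj]
    linarith
  · -- h3
    intro j hj
    exact (hgood j hj).1
  · -- h3'
    intro j hj h
    refine (hgood j hj).2 ?_
    rcases h with ⟨h1, h2⟩ | ⟨h1, h2⟩
    · rw [hts, if_pos ((hTm j).1 h1), if_neg h2]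
    · rw [hts, if_neg (fun h => h1 ((hTm j).2 h)), if_pos h2]
  · -- h4
    intro j h1 h2 h3 b0 b1 b2 b3
    have e3 : j + 2 + 1 = j + 3 := by ring
    have e2 : j + 1 + 1 = j + 2 := by ring
    rw [e3] at h3
    obtain ⟨a, ha1, ha2⟩ := TE.third cx h1
    obtain ⟨b, hb3, hb4⟩ := TE.third cx h3
    have hsm : ∀ c d : ℕ, c < 7 → d < 7 → c ≠ d → y (j + (c : ZMod l)) ≠ y (j + (d : ZMod l)) := by
      intro c d hc hd hcd h
      have h5 := add_left_cancel (hy.inj h)
      have hv : ((c : ZMod l)).val = c := ZMod.val_cast_of_lt (by omega)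
      have hv' : ((d : ZMod l)).val = d := ZMod.val_cast_of_lt (by omega)
      rw [h5, hv'] at hv
      exact hcd hv.symm
    have n01 := hsm 0 1 (by norm_num) (by norm_num) (by norm_num)
    have n02 := hsm 0 2 (by norm_num) (by norm_num) (by norm_num)
    have n03 := hsm 0 3 (by norm_num) (by norm_num) (by norm_num)
    have n12 := hsm 1 2 (by norm_num) (by norm_num) (by norm_num)
    have n13 := hsm 1 3 (by norm_num) (by norm_num) (by norm_num)
    have n23 := hsm 2 3 (by norm_num) (by norm_num) (by norm_num)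
    push_cast at n01 n02 n03 n12 n13 n23
    rw [add_zero] at n01 n02 n03
    have a01 := hy.adj j
    have a12 := hy.adj (j + 1)
    have a23 := hy.adj (j + 2)
    have f01 := hFe j
    have f12 := hFe (j + 1)
    have f23 := hFe (j + 2)
    rw [e2] at a12 f12
    rw [e3] at a23 f23
    exact nt (y j) (y (j + 1)) (y (j + 2)) (y (j + 3)) a b i
      { n12 := n01, n13 := n02, n14 := n03, n23 := n12, n24 := n13, n34 := n23
        o1 := b0.2, o2 := b1.2, o3 := b2.2, o4 := b3.2
        d1 := b0.1, d2 := b1.1, d3 := b2.1, d4 := b3.1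
        a12 := a01, a23 := a12, a34 := a23
        ax1 := ha1.symm, ax2 := ha2.symm, bx3 := hb3.symm, bx4 := hb4.symm
        f12 := f01, f23 := f12, f34 := f23 }

/-- DISCHARGING for `StarV`: `O = ∅`, `de v = 4`, `de u = 0` for `u ≠ v`; `compare`, `budget_off`,
`budget_one`, `face_A` -/
theorem discharge_starV {v : V} (cx : Ctx k G ι F i0 {v}) (hn : ∃ w, G.Adj v w)
    (nt : ∀ x1 x2 x3 x4 a b i, ¬ Tetrad G F {v} x1 x2 x3 x4 a b i) : False := by
  obtain ⟨w, hw⟩ := hn
  have hoff := exists_off_face cx ⟨w, fun h => hw.ne (Set.mem_singleton_iff.1 h).symm, v, hw.symm⟩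
  obtain ⟨e, he, -⟩ := cx.two_edges
  have h := compare cx.fs cx.sep ⟨e, he⟩ ∅ {v} (fun u => if u = v then 4 else 0) (by
    intro u hu
    simp only [VS, mem_filter, mem_univ, true_and] at hu
    by_cases huv : u = v
    · subst huv
      rw [if_pos rfl]
      exact budget_one cx (Set.mem_singleton _) hu hoff
    · rw [if_neg huv, add_zero]
      exact budget_off cx ∅ (fun h => huv (Set.mem_singleton_iff.1 h)) hu (by simp))
  have h1 : ∑ u ∈ VS G, (if u = v then (4 : ℚ) else 0) ≤ 4 := by
    rw [Finset.sum_ite_eq']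
    split_ifs <;> norm_num
  have h2 : 0 ≤ ∑ i ∈ NF F ∅, (∑ u ∈ univ.filter (fun u => On (F i) u), kap G F ∅ {v} u i - 6) := by
    refine Finset.sum_nonneg fun i hi => ?_
    have := face_A cx ∅ hi hoff (by rintro u ⟨o, ho, -⟩; simp at ho) nt
    linarith
  rw [card_empty] at h
  push_cast at h
  linarith

end

section

/-!
X4: faces with an edge of the outer cycle, end of the discharging for `Star`.
-/

variable {V : Type} [Fintype V] {G : SimpleGraph V} {k : ℕ} {ι : Type} [Fintype ι] {F : ι → EV V}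
  {i0 : ι} {Sp : Set V} {m : ℕ} {x : ZMod m → V}

/-- a vertex of the outer cycle with an edge which is not on the outer cycle has degree at least 3 -/
theorem OutC.three_le (oc : OutC G F i0 Sp m x) {v u : V} (hv : v ∈ Sp) (hu : G.Adj v u)
    (h0 : F i0 s(v, u) = 0) : 3 ≤ dgr G v := by
  rw [oc.hSp] at hv
  obtain ⟨j, rfl⟩ := hv
  rw [oc.hF0] at h0
  have h1 : u ≠ x (j + 1) := by
    rintro rfl
    exact (cvec_at oc.hx j _).2 (Or.inl rfl) h0
  have h2 : u ≠ x (j - 1) := by
    rintro rfl
    exact (cvec_at oc.hx j _).2 (Or.inr rfl) h0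
  exact three_le_dgr (oc.hx.adj j) (oc.hx.adj' j) hu (cyc_nbrs_ne oc.hx j) h1.symm h2.symm

/-- a face in `NF` is not contained in the outer cycle -/
theorem OutC.not_sub (oc : OutC G F i0 Sp m x) (cx : Ctx k G ι F i0 Sp) {i : ι}
    (hi : i ∈ NF F {i0}) : ∃ e, F i e ≠ 0 ∧ F i0 e = 0 := by
  by_contra hn
  push Not at hn
  simp only [NF, mem_filter, mem_univ, true_and, mem_singleton] at hi
  have h0 := oc.hoff
  rw [← oc.hF0] at h0
  refine hi.1 (cx.fs.face_inj cx.sep h0 ?_).symm
  rw [oc.hF0]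
  refine (sub_cycle oc.hx (cx.fs.cyc i) (cx.fs.ne i) ?_).symm
  intro e he
  rw [← oc.hF0]
  exact hn e he

/-- a face of `NF` with an edge of the outer cycle leaves it at two vertices at least: `v ≠ w` in `Sp`,
of degree at least 3, at each of them the face has one edge of the outer cycle and one edge which
is not. (`cycle_two_changes` for the face cycle and the edge set of the outer cycle; the face has an
edge off the outer cycle, else it is equal to it by `sub_cycle`, `face_inj`.) -/
theorem leaving (oc : OutC G F i0 Sp m x) (cx : Ctx k G ι F i0 Sp) {i : ι}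
    (hi : i ∈ NF F {i0}) (hB : ∃ v, CE F {i0} v i) :
    ∃ v w, v ≠ w ∧ v ∈ Sp ∧ w ∈ Sp ∧ 3 ≤ dgr G v ∧ 3 ≤ dgr G w ∧ CE F {i0} v i ∧ CE F {i0} w i ∧
      (∃ u, F i s(v, u) ≠ 0 ∧ F i0 s(v, u) = 0) ∧ (∃ u, F i s(w, u) ≠ 0 ∧ F i0 s(w, u) = 0) := by
  obtain ⟨l, y, hy, hF⟩ := cx.fs.face_cycle cx.sep i
  have hpos : ∀ e, F i e ≠ 0 → ∃ j, s(y j, y (j + 1)) = e := by
    intro e he
    rw [hF, cvec] at he
    by_contra hn
    rw [if_neg hn] at he
    exact he rfl
  have hp : ∀ j, F i s(y j, y (j + 1)) ≠ 0 := fun j => by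
    rw [hF]; exact (cvec_at hy j _).2 (Or.inl rfl)
  have hm : ∀ j, F i s(y j, y (j - 1)) ≠ 0 := fun j => by
    rw [hF]; exact (cvec_at hy j _).2 (Or.inr rfl)
  obtain ⟨v0, o, ho, u0, hu0, hu0'⟩ := hB
  rw [mem_singleton] at ho
  subst ho
  obtain ⟨e, he, he0⟩ := oc.not_sub cx hi
  obtain ⟨j, c, hjc, hj, hc⟩ := cycle_two_changes hy {e | F o e ≠ 0}
    (by obtain ⟨a, ha⟩ := hpos _ hu0; exact ⟨a, by rw [ha]; exact hu0'⟩)
    (by obtain ⟨a, ha⟩ := hpos _ he; exact ⟨a, by rw [ha]; exact fun h => h he0⟩)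
  have key : ∀ a, ((s(y a, y (a + 1)) ∈ {e | F o e ≠ 0} ∧ s(y a, y (a - 1)) ∉ {e | F o e ≠ 0}) ∨
        (s(y a, y (a + 1)) ∉ {e | F o e ≠ 0} ∧ s(y a, y (a - 1)) ∈ {e | F o e ≠ 0})) →
      y a ∈ Sp ∧ 3 ≤ dgr G (y a) ∧ CE F {o} (y a) i ∧
        ∃ u, F i s(y a, u) ≠ 0 ∧ F o s(y a, u) = 0 := by
    intro a ha
    have hex : ∃ u u', F i s(y a, u) ≠ 0 ∧ F o s(y a, u) ≠ 0 ∧ F i s(y a, u') ≠ 0 ∧
        F o s(y a, u') = 0 := by
      rcases ha with ⟨h1, h2⟩ | ⟨h1, h2⟩
      · exact ⟨_, _, hp a, h1, hm a, not_not.1 h2⟩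
      · exact ⟨_, _, hm a, h2, hp a, not_not.1 h1⟩
    obtain ⟨u, u', h1, h2, h3, h4⟩ := hex
    have hS : y a ∈ Sp := (oc.on_iff _).1 ⟨u, h2⟩
    exact ⟨hS, oc.three_le hS (cx.fs.adj_of_ne h3) h4, ⟨o, mem_singleton_self _, u, h1, h2⟩,
      u', h3, h4⟩
  obtain ⟨a1, a2, a3, a4⟩ := key j hj
  obtain ⟨b1, b2, b3, b4⟩ := key c hc
  exact ⟨y j, y c, hjc, a1, b1, a2, b2, a3, b3, a4, b4⟩

/-- all corners have weight at least 1/2 -/
theorem kap_ge_half (cx : Ctx k G ι F i0 Sp) {i : ι}
    (hi : i ∈ NF F {i0}) (v : V) : 1 / 2 ≤ kap G F {i0} Sp v i := by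
  have h0 : (0 : ℚ) ≤ (tau F {i0} v i : ℚ) := Nat.cast_nonneg _
  rw [kap]
  split_ifs with h1 h2 h3 h4
  · exact le_refl _
  · norm_num
  · have := tau_le_one cx {i0} hi h3.2 h3.1
    have : (tau F {i0} v i : ℚ) ≤ 1 := by exact_mod_cast this
    linarith
  · norm_num
  · linarith

/-- a leaving corner has weight 3/2 -/
theorem kap_leave {i : ι} {v : V} (hd : 3 ≤ dgr G v) (hc : CE F {i0} v i) :
    kap G F {i0} Sp v i = 3 / 2 := by
  rw [kap, if_pos hc, if_neg (by omega)]

theorem CE.on {O : Finset ι} {i : ι} {v : V} (h : CE F O v i) : On (F i) v := by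
  obtain ⟨-, -, u, h1, -⟩ := h
  exact ⟨u, h1⟩

/-- the sum over the face, minus 1/2 for each corner -/
theorem sum_half (cx : Ctx k G ι F i0 Sp) (i : ι) (f : V → ℚ) :
    ∑ v ∈ univ.filter (fun v => On (F i) v), f v =
      (len (F i) : ℚ) / 2 + ∑ v ∈ univ.filter (fun v => On (F i) v), (f v - 1 / 2) := by
  rw [Finset.sum_sub_distrib, Finset.sum_const, nsmul_eq_mul, card_on cx.fs cx.sep i]
  ring

/-- lower bound: two corners `3/2`, the others at least `1/2` -/
theorem face_B_bound (oc : OutC G F i0 Sp m x) (cx : Ctx k G ι F i0 Sp) {i : ι}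
    (hi : i ∈ NF F {i0}) (hB : ∃ v, CE F {i0} v i) :
    2 + (len (F i) : ℚ) / 2 ≤ ∑ v ∈ univ.filter (fun v => On (F i) v), kap G F {i0} Sp v i := by
  obtain ⟨v, w, hvw, -, -, hdv, hdw, hcv, hcw, -, -⟩ := leaving oc cx hi hB
  rw [sum_half cx i]
  have h1 : ∑ u ∈ ({v, w} : Finset V), (kap G F {i0} Sp u i - 1 / 2) ≤
      ∑ u ∈ univ.filter (fun v => On (F i) v), (kap G F {i0} Sp u i - 1 / 2) := by
    refine Finset.sum_le_sum_of_subset_of_nonneg ?_ ?_
    · intro u hu
      simp only [mem_insert, mem_singleton] at hu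
      simp only [mem_filter, mem_univ, true_and]
      rcases hu with rfl | rfl
      · exact hcv.on
      · exact hcw.on
    · intro u _ _
      have := kap_ge_half cx hi u
      linarith
  rw [Finset.sum_pair hvw, kap_leave hdv hcv, kap_leave hdw hcw] at h1
  linarith

/-- CASE B. `len ≥ 8`: `face_B_bound`. `len = 7`: the face has no triangle edge and a vertex which is not
on the outer cycle (`oc.hch`), with weight 1, so the sum is at least `3 + 1 + 4/2`. -/
theorem face_B (oc : OutC G F i0 Sp m x) (cx : Ctx k G ι F i0 Sp) {i : ι}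
    (hi : i ∈ NF F {i0}) (hB : ∃ v, CE F {i0} v i) :
    6 ≤ ∑ v ∈ univ.filter (fun v => On (F i) v), kap G F {i0} Sp v i := by
  obtain ⟨h7, h8, -⟩ := nf_len cx {i0} hi
  rcases Nat.lt_or_ge (len (F i)) 8 with hlt | hge
  · have hl : len (F i) = 7 := by omega
    obtain ⟨v, w, hvw, hvS, hwS, hdv, hdw, hcv, hcw, -, -⟩ := leaving oc cx hi hB
    obtain ⟨e, he, he0⟩ := oc.not_sub cx hi
    have hz : ∃ z, z ∉ Sp ∧ On (F i) z := by
      induction e using Sym2.ind with
      | _ a b =>
        by_cases ha : a ∈ Sp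
        · refine ⟨b, ?_, a, by rw [Sym2.eq_swap]; exact he⟩
          intro hb
          rw [oc.hSp] at ha hb
          have := oc.hch a b ha hb (cx.fs.adj_of_ne he)
          rw [← oc.hF0] at this
          exact this he0
        · exact ⟨a, ha, b, he⟩
    obtain ⟨z, hzS, hz⟩ := hz
    have hzv : z ≠ v := by rintro rfl; exact hzS hvS
    have hzw : z ≠ w := by rintro rfl; exact hzS hwS
    have hkz : 1 ≤ kap G F {i0} Sp z i := by
      have hnc : ¬ CE F {i0} z i := by
        rintro ⟨o, ho, u, -, h⟩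
        rw [mem_singleton] at ho
        subst ho
        exact hzS ((oc.on_iff z).1 ⟨u, h⟩)
      have ht : tau F {i0} z i = 0 := by
        rw [tau, card_eq_zero]
        ext u
        simp only [mem_filter, mem_univ, true_and, notMem_empty, iff_false, not_and]
        intro h1 h2
        have := h8 ⟨_, h1, h2⟩
        omega
      rw [kap, if_neg hnc, ht]
      split_ifs <;> norm_num
    rw [sum_half cx i, hl]
    have h1 : ∑ u ∈ ({z, v, w} : Finset V), (kap G F {i0} Sp u i - 1 / 2) ≤
        ∑ u ∈ univ.filter (fun v => On (F i) v), (kap G F {i0} Sp u i - 1 / 2) := by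
      refine Finset.sum_le_sum_of_subset_of_nonneg ?_ ?_
      · intro u hu
        simp only [mem_insert, mem_singleton] at hu
        simp only [mem_filter, mem_univ, true_and]
        rcases hu with rfl | rfl | rfl
        · exact hz
        · exact hcv.on
        · exact hcw.on
      · intro u _ _
        have := kap_ge_half cx hi u
        linarith
    rw [Finset.sum_insert (by simp [hzv, hzw]), Finset.sum_pair hvw, kap_leave hdv hcv,
      kap_leave hdw hcw] at h1
    push_cast
    linarith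
  · have h1 := face_B_bound oc cx hi hB
    have : (8 : ℚ) ≤ len (F i) := by exact_mod_cast hge
    linarith

/-- at a vertex of degree 3 of the outer cycle an inner triangular face contains the inner edge -/
theorem OutC.inner_edge (oc : OutC G F i0 Sp m x) (cx : Ctx k G ι F i0 Sp) {v u : V} {j : ι}
    (hv : v ∈ Sp) (hd : dgr G v = 3) (hj : j ∈ TF F {i0}) (hon : On (F j) v) (hu : G.Adj v u)
    (h0 : F i0 s(v, u) = 0) : F j s(v, u) ≠ 0 := by
  intro hcon
  rw [oc.hSp] at hv
  obtain ⟨p, rfl⟩ := hv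
  have h0' := h0
  rw [oc.hF0] at h0'
  have h1 : u ≠ x (p + 1) := by
    rintro rfl
    exact (cvec_at oc.hx p _).2 (Or.inl rfl) h0'
  have h2 : u ≠ x (p - 1) := by
    rintro rfl
    exact (cvec_at oc.hx p _).2 (Or.inr rfl) h0'
  have hji : j ≠ i0 := by
    rintro rfl
    simp [TF] at hj
  have h3 := cx.fs.two_at cx.sep hon
  have h4 : univ.filter (fun u => F j s(x p, u) ≠ 0) ⊆ {x (p + 1), x (p - 1)} := by
    intro w hw
    simp only [mem_filter, mem_univ, true_and] at hw
    simp only [mem_insert, mem_singleton]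
    have hwadj := cx.fs.adj_of_ne hw
    by_contra hn
    push Not at hn
    have hwu : w ≠ u := by rintro rfl; exact hw hcon
    have h5 : ({x (p + 1), x (p - 1), u, w} : Finset V) ⊆ univ.filter (fun u => G.Adj (x p) u) := by
      intro a ha
      simp only [mem_insert, mem_singleton] at ha
      simp only [mem_filter, mem_univ, true_and]
      rcases ha with rfl | rfl | rfl | rfl
      · exact oc.hx.adj p
      · exact oc.hx.adj' p
      · exact hu
      · exact hwadj
    have h6 := card_le_card h5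
    rw [← dgr_card, hd, card_insert_of_notMem, card_insert_of_notMem, card_pair hwu.symm] at h6
    · omega
    · simp only [mem_insert, mem_singleton, not_or]
      exact ⟨h2.symm, fun h => hn.2 h.symm⟩
    · simp only [mem_insert, mem_singleton, not_or]
      exact ⟨cyc_nbrs_ne oc.hx p, h1.symm, fun h => hn.1 h.symm⟩
  have h5 : univ.filter (fun u => F j s(x p, u) ≠ 0) = {x (p + 1), x (p - 1)} := by
    apply eq_of_subset_of_card_le h4
    rw [h3, card_pair (cyc_nbrs_ne oc.hx p)]
  have g1 : F j s(x p, x (p + 1)) ≠ 0 := by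
    have : x (p + 1) ∈ univ.filter (fun u => F j s(x p, u) ≠ 0) := by rw [h5]; simp
    simpa using this
  have g2 : F j s(x p, x (p - 1)) ≠ 0 := by
    have : x (p - 1) ∈ univ.filter (fun u => F j s(x p, u) ≠ 0) := by rw [h5]; simp
    simpa using this
  have g3 : F i0 s(x p, x (p + 1)) ≠ 0 := by
    rw [oc.hF0]; exact (cvec_at oc.hx p _).2 (Or.inl rfl)
  have g4 : F i0 s(x p, x (p - 1)) ≠ 0 := by
    rw [oc.hF0]; exact (cvec_at oc.hx p _).2 (Or.inr rfl)
  have := cx.fs.deg_two cx.sep hji (cyc_nbrs_ne oc.hx p) g1 g2 g3 g4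
  omega

/-- STRICT CASE (`k = 12`): suppose that every vertex of the outer cycle of degree at least 3 has
degree 3 and is on an inner triangular face. At the two leaving vertices `v`, `w` of the face the edge
which is not on the outer cycle is then an edge of this triangular face (`deg_two`: the triangle
contains one edge of the outer cycle at `v` only). These two triangle edges of the face are different
(else a chord), so `len ≥ 9` (`nf_len`) and the sum is at least `2 + 9/2 > 6`. -/
theorem face_B_strict (oc : OutC G F i0 Sp m x) (cx : Ctx k G ι F i0 Sp) (hk : k = 12)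
    (hall : ∀ v ∈ Sp, 3 ≤ dgr G v →
      dgr G v = 3 ∧ ((TF F {i0}).filter (fun i => On (F i) v)).card ≠ 0)
    {i : ι} (hi : i ∈ NF F {i0}) (hB : ∃ v, CE F {i0} v i) :
    6 < ∑ v ∈ univ.filter (fun v => On (F i) v), kap G F {i0} Sp v i := by
  obtain ⟨v, w, hvw, hvS, hwS, hdv, hdw, hcv, hcw, ⟨u, hu, hu0⟩, ⟨u', hu', hu0'⟩⟩ :=
    leaving oc cx hi hB
  have key : ∀ v u, v ∈ Sp → 3 ≤ dgr G v → F i s(v, u) ≠ 0 → F i0 s(v, u) = 0 →
      TE F {i0} s(v, u) := by
    intro v u hv hd h1 h0
    obtain ⟨h3, ht⟩ := hall v hv hd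
    obtain ⟨j, hj⟩ := Finset.card_pos.1 (Nat.pos_of_ne_zero ht)
    rw [mem_filter] at hj
    exact ⟨j, hj.1, oc.inner_edge cx hv h3 hj.1 hj.2 (cx.fs.adj_of_ne h1) h0⟩
  have hne : s(v, u) ≠ s(w, u') := by
    intro h
    rw [Sym2.eq_iff] at h
    rcases h with ⟨h, -⟩ | ⟨-, h⟩
    · exact hvw h
    · subst h
      rw [oc.hSp] at hvS hwS
      have := oc.hch v u hvS hwS (cx.fs.adj_of_ne hu)
      rw [← oc.hF0] at this
      exact this hu0
  have h9 := (nf_len cx {i0} hi).2.2 hk
    ⟨_, _, hne, hu, key v u hvS hdv hu hu0, hu', key w u' hwS hdw hu' hu0'⟩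
  have h1 := face_B_bound oc cx hi hB
  have : (9 : ℚ) ≤ len (F i) := by exact_mod_cast h9
  linarith

/-- DISCHARGING for `Star`. `O = {i0}`; `de v = 1/2` on the outer cycle, 0 elsewhere; `compare` gives
`6 ≤ m / 2`, impossible if `m ≤ 11`. If `k = 12`, `m = 12`: if some vertex of the outer cycle has no
deficit (`budget_cycle'`), `6 ≤ 11/2`, contradiction. Otherwise `hall` of `face_B_strict` holds, and
there is a face in `NF` with an edge of the outer cycle: at a vertex `v` of the outer cycle of degree 3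
(`exists_three`) there are two inner faces, `2 t ≤ 3`, so one of them is in `NF`, `OutC.deg_three`. Then
the excess is positive, `6 < 6`. -/
theorem discharge_star (oc : OutC G F i0 Sp m x) (cx : Ctx k G ι F i0 Sp) (hm : m ≤ k)
    (nt : ∀ x1 x2 x3 x4 a b i, ¬ Tetrad G F Sp x1 x2 x3 x4 a b i) : False := by
  have hm3 := oc.hx.three
  have : NeZero m := ⟨by omega⟩
  have hoff := exists_off_face cx (oc.exists_three cx).2
  obtain ⟨e, he, -⟩ := cx.two_edges
  have hface : ∀ i ∈ NF F {i0},
      6 ≤ ∑ v ∈ univ.filter (fun v => On (F i) v), kap G F {i0} Sp v i := by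
    intro i hi
    by_cases hB : ∃ v, CE F {i0} v i
    · exact face_B oc cx hi hB
    · exact face_A cx {i0} hi hoff (fun v h => hB ⟨v, h⟩) nt
  have hnn : 0 ≤ ∑ i ∈ NF F {i0},
      (∑ u ∈ univ.filter (fun u => On (F i) u), kap G F {i0} Sp u i - 6) := by
    refine Finset.sum_nonneg fun i hi => ?_
    have := hface i hi
    linarith
  have hgen : ∀ D : Finset V, (∀ u ∈ Sp, u ∉ D →
      ∑ i ∈ (NF F {i0}).filter (fun i => On (F i) u), kap G F {i0} Sp u i ≤ chL G F {i0} u) →
      6 + ∑ i ∈ NF F {i0},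
        (∑ u ∈ univ.filter (fun u => On (F i) u), kap G F {i0} Sp u i - 6) ≤
          (D.card : ℚ) / 2 := by
    intro D hD
    have h := compare cx.fs cx.sep ⟨e, he⟩ {i0} Sp (fun u => if u ∈ D then 1 / 2 else 0) (by
      intro u hu
      simp only [VS, mem_filter, mem_univ, true_and] at hu
      by_cases huS : u ∈ Sp
      · by_cases huD : u ∈ D
        · rw [if_pos huD]
          exact budget_cycle oc cx huS
        · rw [if_neg huD, add_zero]
          exact hD u huS huD
      · have h1 := budget_off cx {i0} huS hu (by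
          intro o ho h
          rw [mem_singleton] at ho
          subst ho
          exact huS ((oc.on_iff u).1 h))
        have h2 : (0 : ℚ) ≤ if u ∈ D then 1 / 2 else 0 := by split_ifs <;> norm_num
        linarith)
    rw [card_singleton] at h
    have h3 : ∑ u ∈ VS G, (if u ∈ D then (1 / 2 : ℚ) else 0) ≤ (D.card : ℚ) / 2 := by
      rw [← Finset.sum_filter, Finset.sum_const, nsmul_eq_mul]
      have : ((VS G).filter (fun u => u ∈ D)).card ≤ D.card := by
        refine card_le_card ?_
        intro u hu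
        exact (mem_filter.1 hu).2
      have : (((VS G).filter (fun u => u ∈ D)).card : ℚ) ≤ D.card := by exact_mod_cast this
      linarith
    push_cast at h
    linarith
  have hcard : (univ.image x).card = m := by
    rw [card_image_of_injective _ oc.hx.inj, card_univ, ZMod.card]
  have hmem : ∀ u, u ∈ Sp ↔ u ∈ univ.image x := by
    intro u
    rw [oc.hSp]
    simp
  have h0 := hgen (univ.image x) (fun u hu hu' => absurd ((hmem u).1 hu) hu')
  rw [hcard] at h0
  rcases Nat.lt_or_ge m 12 with h12 | h12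
  · have : (m : ℚ) ≤ 11 := by exact_mod_cast (by omega : m ≤ 11)
    linarith
  · have hk : k = 12 := by rcases cx.cls.hk with h | h <;> omega
    have hm12 : m = 12 := by omega
    by_cases hex : ∃ v ∈ Sp, 3 ≤ dgr G v ∧
        (dgr G v = 3 → ((TF F {i0}).filter (fun i => On (F i) v)).card = 0)
    · obtain ⟨v, hv, hd, h3⟩ := hex
      have h1 := hgen ((univ.image x).erase v) (by
        intro u hu hu'
        have huv : u = v := by
          by_contra hne
          exact hu' (mem_erase.2 ⟨hne, (hmem u).1 hu⟩)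
        subst huv
        exact budget_cycle' oc cx hv hd h3)
      rw [card_erase_of_mem ((hmem v).1 hv), hcard, hm12] at h1
      have h2 : ((12 - 1 : ℕ) : ℚ) = 11 := by norm_num
      rw [h2] at h1
      linarith
    · have hall : ∀ v ∈ Sp, 3 ≤ dgr G v →
          dgr G v = 3 ∧ ((TF F {i0}).filter (fun i => On (F i) v)).card ≠ 0 := by
        intro v hv hd
        by_contra hn
        refine hex ⟨v, hv, hd, fun h3 => ?_⟩
        by_contra hne
        exact hn ⟨h3, hne⟩
      obtain ⟨v, hv, hd⟩ := (oc.exists_three cx).1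
      obtain ⟨hd3, ht⟩ := hall v hv hd
      have h2t := two_mul_tri_le cx {i0} v hoff
      obtain ⟨hc, -⟩ := oc.card_faces cx hv
      have hN : 0 < ((NF F {i0}).filter (fun i => On (F i) v)).card := by omega
      obtain ⟨i, hi⟩ := Finset.card_pos.1 hN
      rw [mem_filter] at hi
      have hii : i ≠ i0 := by
        have := hi.1
        simp only [NF, mem_filter, mem_univ, true_and, mem_singleton] at this
        exact this.1
      have hce := oc.deg_three cx hv hd3 hii hi.2
      have hst := face_B_strict oc cx hk hall hi.1 ⟨v, hce⟩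
      have hpos : 0 < ∑ i ∈ NF F {i0},
          (∑ u ∈ univ.filter (fun u => On (F i) u), kap G F {i0} Sp u i - 6) := by
        refine Finset.sum_pos' (fun j hj => ?_) ⟨i, hi.1, ?_⟩
        · have := hface j hj
          linarith
        · linarith
      rw [hm12] at h0
      push_cast at h0
      linarith

end

end Pool.Agent.W_fb73a4_h20
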