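import Pool.Agent.W_fb73a4_h20.MY
import Pool.Agent.W_fb73a4_h20.MT

set_option autoImplicit false

namespace Pool.Agent.W_fb73a4_h20

open Finset
open scoped Classical

section

/-!
Z1: the induction.
-/

variable {V : Type} [Fintype V] {k : ℕ}

theorem star_zero : Star k V 0 ∧ StarV k V 0 := by
  have hempty : ∀ (G : SimpleGraph V), G.edgeSet.ncard ≤ 0 → ∀ u v, ¬ G.Adj u v := by
    intro G h u v huv
    have h1 : G.edgeSet = ∅ := by
      rw [← Set.ncard_eq_zero (Set.toFinite _)]
      omega
    have h2 : s(u, v) ∈ G.edgeSet := huv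
    rw [h1] at h2
    exact h2
  constructor
  · intro G F _ hc m x _ hx
    exact absurd (hx.adj 0) (hempty G hc _ _)
  · intro G F _ hc v a
    exact ⟨fun _ => a, fun u w huw => hempty G hc u w (F.adj _ _ _ _ huw), rfl⟩

/-- extension in smaller graphs -/
theorem extSmall_of {G : SimpleGraph V} {n : ℕ} (hS : Star k V n) (hV : StarV k V n)
    (hc : G.edgeSet.ncard = n + 1) (Sp : Set V) (φ : V → Fin 3) : ExtSmall k G Sp φ := by
  intro G' F' hG' hlt hSp hφ
  rw [hc] at hlt
  rcases hSp with ⟨m, x, hm, hx, rfl⟩ | ⟨v, rfl⟩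
  · exact hS G' F' hG' (by omega) m x hm hx φ hφ
  · obtain ⟨ψ, hψ, hv⟩ := hV G' F' hG' (by omega) v (φ v)
    refine ⟨ψ, hψ, fun u hu => ?_⟩
    rw [Set.mem_singleton_iff] at hu
    rw [hu, hv]

/-- by contradiction: a counterexample has exactly `n + 1` edges, `CexC`; `CexC.ctx`, `no_tetrad`
(with `ExtSmall` from `hS`, `hV`), `discharge_star` -/
theorem star_succ (n : ℕ) (hS : Star k V n) (hV : StarV k V n) : Star k V (n + 1) := by
  intro G F hG hc m x hm hx φ hφ
  by_contra hno
  by_cases hn : G.edgeSet.ncard ≤ n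
  · exact hno (hS G F hG hn m x hm hx φ hφ)
  · have hcard : G.edgeSet.ncard = n + 1 := by omega
    have h : CexC k G F n m x φ := ⟨hS, hV, hG, hcard, hm, hx, hφ, hno⟩
    obtain ⟨ι, hι, Fc, i0, cx, hF0⟩ := h.ctx
    have oc : OutC G Fc i0 (Set.range x) m x :=
      ⟨hx, rfl, hF0, h.exists_off, fun u v hu hv huv => h.chordless hu hv huv⟩
    exact discharge_star oc cx hm fun x1 x2 x3 x4 a b i t =>
      no_tetrad cx F φ (Or.inl ⟨m, x, hm, hx, rfl⟩) hφ (extSmall_of hS hV hcard _ φ) hno t

/-- a counterexample at `v`; if `v` is isolated, there is one at a non-isolated vertex (recolour `v`);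
`CexV`, `CexV.ctx`, `no_tetrad`, `discharge_starV` -/
theorem starV_succ (n : ℕ) (hS : Star k V (n + 1)) (hV : StarV k V n) : StarV k V (n + 1) := by
  intro G F hG hc v a
  by_cases hn : G.edgeSet.ncard ≤ n
  · exact hV G F hG hn v a
  · have hcard : G.edgeSet.ncard = n + 1 := by omega
    have hS' : Star k V n := fun G' F' hG' hc' => hS G' F' hG' (by omega)
    have key : ∀ (v : V) (a : Fin 3), (∃ w, G.Adj v w) → ∃ ψ : V → Fin 3, Proper F ψ ∧ ψ v = a := by
      intro v a hw
      by_contra hno
      have h : CexV k G F n v a := ⟨hS, hV, hG, hcard, hw, hno⟩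
      obtain ⟨ι, hι, Fc, i0, cx⟩ := h.ctx
      refine discharge_starV cx hw fun x1 x2 x3 x4 p q i t => ?_
      refine no_tetrad cx F (fun _ => a) (Or.inr ⟨v, rfl⟩) ?_ (extSmall_of hS' hV hcard _ _) ?_ t
      · intro u hu w hw' huw
        rw [Set.mem_singleton_iff] at hu hw'
        have := F.adj _ _ _ _ huw
        rw [hu, hw'] at this
        exact this.ne rfl
      · rintro ⟨ψ, hψ, hψv⟩
        exact hno ⟨ψ, hψ, hψv v rfl⟩
    by_cases hw : ∃ w, G.Adj v w
    · exact key v a hw
    · have hne : G.edgeSet.Nonempty := by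
        rw [Set.nonempty_iff_ne_empty]
        intro h0
        rw [h0, Set.ncard_empty] at hcard
        omega
      obtain ⟨e, he⟩ := hne
      induction e using Sym2.ind with
      | _ p q =>
        obtain ⟨ψ, hψ, -⟩ := key p a ⟨q, he⟩
        refine ⟨Function.update ψ v a, ?_, Function.update_self _ _ _⟩
        intro u w huw
        have hadj := F.adj _ _ _ _ huw
        have hu : u ≠ v := by rintro rfl; exact hw ⟨w, hadj⟩
        have hw' : w ≠ v := by rintro rfl; exact hw ⟨u, hadj.symm⟩
        rw [Function.update_of_ne hu, Function.update_of_ne hw'] at huw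
        exact hψ u w huw

theorem star_all (n : ℕ) : Star k V n ∧ StarV k V n := by
  induction n with
  | zero => exact star_zero
  | succ n ih =>
    have h := star_succ n ih.1 ih.2
    exact ⟨h, starV_succ n h ih.2⟩

end

section

/-!
Z2: from `StarV` to list colouring, and cycles as closed walks.
-/

variable {V : Type} [Fintype V] {G : SimpleGraph V}

/-- the walk `x 1, ..., x (1 + i)` -/
theorem exists_walk_aux {n : ℕ} {x : ZMod n → V} (hx : IsCycSeq G x) (i : ℕ) :
    ∃ w : G.Walk (x 1) (x (1 + (i : ZMod n))), w.length = i ∧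
      w.support = (List.range (i + 1)).map (fun j : ℕ => x (1 + (j : ZMod n))) ∧
      w.edges = (List.range i).map
        (fun j : ℕ => s(x (1 + (j : ZMod n)), x (1 + (j : ZMod n) + 1))) := by
  induction i with
  | zero =>
    refine ⟨(SimpleGraph.Walk.nil : G.Walk (x 1) (x 1)).copy rfl (by simp), ?_, ?_, ?_⟩
    · simp
    · simp
    · simp
  | succ i ih =>
    obtain ⟨w, h1, h2, h3⟩ := ih
    have he : x (1 + (i : ZMod n) + 1) = x (1 + ((i + 1 : ℕ) : ZMod n)) := by
      congr 1; push_cast; ring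
    refine ⟨(w.concat (hx.adj (1 + (i : ZMod n)))).copy rfl he, ?_, ?_, ?_⟩
    · rw [SimpleGraph.Walk.length_copy, SimpleGraph.Walk.length_concat, h1]
    · rw [SimpleGraph.Walk.support_copy, SimpleGraph.Walk.support_concat, h2,
        List.range_succ (n := i + 1), List.map_append, he]
      simp
    · rw [SimpleGraph.Walk.edges_copy, SimpleGraph.Walk.edges_concat, h3, List.range_succ (n := i),
        List.map_append]
      simp

/-- a cycle in the sense of `IsCycSeq` gives a closed walk which is a cycle in the sense of Mathlib,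
of the same length and with the same edges -/
theorem exists_walk_of_cycSeq {n : ℕ} {x : ZMod n → V} (hx : IsCycSeq G x) :
    ∃ c : G.Walk (x 0) (x 0), c.IsCycle ∧ c.length = n ∧
      ∀ j, s(x j, x (j + 1)) ∈ c.edges := by
  have hn := hx.three
  have : NeZero n := ⟨by omega⟩
  obtain ⟨w, h1, h2, h3⟩ := exists_walk_aux hx (n - 1)
  have he : x (1 + ((n - 1 : ℕ) : ZMod n)) = x 0 := by
    congr 1
    have : ((1 + (n - 1) : ℕ) : ZMod n) = 0 := by
      rw [Nat.add_sub_cancel' (by omega)]
      exact ZMod.natCast_self n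
    push_cast at this ⊢
    exact this
  have h01 : G.Adj (x 0) (x 1) := by
    have := hx.adj 0
    rwa [zero_add] at this
  have hcast : ∀ a b : ℕ, a < n → b < n → (1 + (a : ZMod n)) = 1 + (b : ZMod n) → a = b := by
    intro a b ha hb h
    have h5 := add_left_cancel h
    have hv : ((a : ZMod n)).val = a := ZMod.val_cast_of_lt ha
    have hv' : ((b : ZMod n)).val = b := ZMod.val_cast_of_lt hb
    rw [← hv, ← hv', h5]
  refine ⟨SimpleGraph.Walk.cons h01 (w.copy rfl he), ?_, ?_, ?_⟩
  · rw [SimpleGraph.Walk.cons_isCycle_iff]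
    constructor
    · rw [SimpleGraph.Walk.isPath_def, SimpleGraph.Walk.support_copy, h2]
      refine List.Nodup.map_on ?_ List.nodup_range
      intro a ha b hb hab
      rw [List.mem_range] at ha hb
      exact hcast a b (by omega) (by omega) (hx.inj hab)
    · rw [SimpleGraph.Walk.edges_copy, h3, List.mem_map]
      rintro ⟨a, ha, hab⟩
      rw [List.mem_range] at ha
      rw [Sym2.eq_iff] at hab
      rcases hab with ⟨hab, -⟩ | ⟨hab, hab'⟩
      · -- 1 + a = 0
        have h5 := hx.inj hab
        have h6 : ((1 + a : ℕ) : ZMod n) = 0 := by push_cast; exact h5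
        rw [ZMod.natCast_eq_zero_iff] at h6
        have := Nat.le_of_dvd (by omega) h6
        omega
      · have h5 := hx.inj hab
        have h7 := hx.inj hab'
        have h6 : ((2 : ℕ) : ZMod n) = 0 := by
          push_cast
          linear_combination h7 - h5
        rw [ZMod.natCast_eq_zero_iff] at h6
        have := Nat.le_of_dvd (by omega) h6
        omega
  · rw [SimpleGraph.Walk.length_cons, SimpleGraph.Walk.length_copy, h1]
    omega
  · intro j
    rw [SimpleGraph.Walk.edges_cons, SimpleGraph.Walk.edges_copy, h3, List.mem_cons]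
    by_cases hj : j = 0
    · left
      rw [hj, zero_add]
    · right
      rw [List.mem_map]
      refine ⟨(j - 1).val, ?_, ?_⟩
      · rw [List.mem_range]
        have h5 := ZMod.val_lt (j - 1)
        have h6 : (j - 1).val ≠ n - 1 := by
          intro h7
          apply hj
          have h8 : (((j - 1).val : ℕ) : ZMod n) = j - 1 := ZMod.natCast_zmod_val _
          rw [h7] at h8
          have h9 : ((n - 1 : ℕ) : ZMod n) + 1 = 0 := by
            have : ((n - 1 + 1 : ℕ) : ZMod n) = 0 := by
              rw [Nat.sub_add_cancel (by omega)]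
              exact ZMod.natCast_self n
            push_cast at this
            exact this
          linear_combination h9 - h8
        omega
      · rw [ZMod.natCast_zmod_val]
        have h5 : 1 + (j - 1) = j := by ring
        rw [h5]

/-- list assignments with lists of exactly 3 colours: choose bijections `Fin 3 ≃ L v`, the conflict
relation is equality of the real colours on the edges -/
theorem list_colouring {k : ℕ} (h : StarV k V G.edgeSet.ncard) (hG : Cls k G) (L : V → Finset ℕ)
    (hL : ∀ v, 3 ≤ (L v).card) :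
    ∃ f : V → ℕ, (∀ v, f v ∈ L v) ∧ ∀ u v, G.Adj u v → f u ≠ f v := by
  have hex : ∀ v, ∃ g : Fin 3 → ℕ, Function.Injective g ∧ ∀ i, g i ∈ L v := by
    intro v
    obtain ⟨S, hS, hc⟩ := Finset.exists_subset_card_eq (hL v)
    exact ⟨fun i => ((S.equivFinOfCardEq hc).symm i : ℕ), fun i j hij => by
      exact (S.equivFinOfCardEq hc).symm.injective (Subtype.ext hij),
      fun i => hS ((S.equivFinOfCardEq hc).symm i).2⟩
  choose g hg1 hg2 using hex
  let F : Cover G :=
    { C := fun u v a b => G.Adj u v ∧ g u a = g v b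
      symm := fun u v a b hh => ⟨hh.1.symm, hh.2.symm⟩
      adj := fun u v a b hh => hh.1
      mat := fun u v a b b' hh hh' => hg1 v (hh.2.symm.trans hh'.2)
      tri := fun u v w a b c huw hh hh' => ⟨huw, hh.2.trans hh'.2⟩ }
  rcases isEmpty_or_nonempty V with hV | ⟨⟨v⟩⟩
  · exact ⟨fun _ => 0, fun v => (hV.false v).elim, fun u => (hV.false u).elim⟩
  · obtain ⟨ψ, hψ, -⟩ := h G F hG le_rfl v 0
    exact ⟨fun u => g u (ψ u), fun u => hg2 u _, fun u w huw hh => hψ u w ⟨huw, hh⟩⟩

/-- THEOREM 1 (`k = 11`): disjoint triangles -/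
theorem main11 (G : SimpleGraph V) (hM : MacLane G)
    (h456 : ∀ (v : V) (c : G.Walk v v), c.IsCycle → c.length ≠ 4 ∧ c.length ≠ 5 ∧ c.length ≠ 6)
    (h7 : ∀ (v : V) (c : G.Walk v v), c.IsCycle → c.length = 7 →
      ∀ a b t, s(a, b) ∈ c.edges → G.Adj a t → G.Adj b t → False)
    (htri : ∀ a b c b' c', G.Adj a b → G.Adj b c → G.Adj a c → G.Adj a b' → G.Adj b' c' →
      G.Adj a c' → s(b, c) = s(b', c'))
    (L : V → Finset ℕ) (hL : ∀ v, 3 ≤ (L v).card) :
    ∃ f : V → ℕ, (∀ v, f v ∈ L v) ∧ ∀ u v, G.Adj u v → f u ≠ f v := by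
  have hG : Cls 11 G := by
    refine ⟨Or.inl rfl, hM, ?_, ?_, fun _ => htri, fun h => absurd h (by decide)⟩
    · intro n x hx
      obtain ⟨c, h1, h2, -⟩ := exists_walk_of_cycSeq hx
      have h3 := h456 _ c h1
      rw [h2] at h3
      exact h3
    · intro x hx j t h1 h2
      obtain ⟨c, h3, h4, h5⟩ := exists_walk_of_cycSeq hx
      exact h7 _ c h3 h4 _ _ t (h5 j) h1 h2
  exact list_colouring (star_all _).2 hG L hL

/-- THEOREM 2 (`k = 12`): every 8-cycle has at most one edge in a triangle -/
theorem main12 (G : SimpleGraph V) (hM : MacLane G)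
    (h456 : ∀ (v : V) (c : G.Walk v v), c.IsCycle → c.length ≠ 4 ∧ c.length ≠ 5 ∧ c.length ≠ 6)
    (h7 : ∀ (v : V) (c : G.Walk v v), c.IsCycle → c.length = 7 →
      ∀ a b t, s(a, b) ∈ c.edges → G.Adj a t → G.Adj b t → False)
    (h8 : ∀ (v : V) (c : G.Walk v v), c.IsCycle → c.length = 8 →
      ∀ a b t a' b' t', s(a, b) ∈ c.edges → s(a', b') ∈ c.edges → s(a, b) ≠ s(a', b') →
        G.Adj a t → G.Adj b t → G.Adj a' t' → G.Adj b' t' → False)
    (L : V → Finset ℕ) (hL : ∀ v, 3 ≤ (L v).card) :
    ∃ f : V → ℕ, (∀ v, f v ∈ L v) ∧ ∀ u v, G.Adj u v → f u ≠ f v := by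
  have hG : Cls 12 G := by
    refine ⟨Or.inr rfl, hM, ?_, ?_, fun h => absurd h (by decide), ?_⟩
    · intro n x hx
      obtain ⟨c, h1, h2, -⟩ := exists_walk_of_cycSeq hx
      have h3 := h456 _ c h1
      rw [h2] at h3
      exact h3
    · intro x hx j t h1 h2
      obtain ⟨c, h3, h4, h5⟩ := exists_walk_of_cycSeq hx
      exact h7 _ c h3 h4 _ _ t (h5 j) h1 h2
    · intro _ x hx i j t t' hij h1 h2 h3 h4
      obtain ⟨c, h5, h6, h7⟩ := exists_walk_of_cycSeq hx
      refine h8 _ c h5 h6 _ _ t _ _ t' (h7 i) (h7 j) ?_ h1 h2 h3 h4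
      intro he
      rw [Sym2.eq_iff] at he
      rcases he with ⟨he, -⟩ | ⟨he, he'⟩
      · exact hij (hx.inj he)
      · have h9 := hx.inj he
        have h10 := hx.inj he'
        have h11 : (2 : ZMod 8) = 0 := by linear_combination h10 - h9
        exact absurd h11 (by decide)
  exact list_colouring (star_all _).2 hG L hL

end

end Pool.Agent.W_fb73a4_h20
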